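import Mathlib
import Pool.Agent.TH932.Scale

set_option autoImplicit false

/-!
# Places, `S`-integral germs, the character with two parameters
-/

namespace Pool.Agent.TH932.S2

open Filter Topology Pool.Agent.TH932.Abs Pool.Agent.TH932.Germs Pool.Agent.TH932.Chi

/-- the three places -/
inductive Pl
  | P
  | Q
  | I
  deriving DecidableEq

instance : Fintype Pl := ⟨{.P, .Q, .I}, by intro x; cases x <;> decide⟩

/-- `S`-integers up to negligible denominators -/
def Rpq (p q : ℕ) (L ε t : ℝ) (a : ℚ) : Prop :=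
  ∃ d m i k : ℤ, d ≠ 0 ∧ |(d : ℝ)| ≤ Real.exp (ε * L) ∧
    (d : ℚ) * a = (p : ℚ) ^ i * (q : ℚ) ^ k * m ∧
    (t - ε) * L ≤ i * Real.log p ∧ (t - ε) * L ≤ k * Real.log q

/-- the conditions at the places -/
def Rv (p q : ℕ) : Pl → ℝ → ℝ → ℝ → ℚ → Prop
  | .P => Rb p (cop p)
  | .Q => Rb q (cop q)
  | .I => Rinf

/-- germs with valuation at least `t` at the place `v` -/
def Sv (L : ℕ → ℝ) (p q : ℕ) (v : Pl) (t : ℝ) : Set GG := SS L (Rv p q v) t

/-- `S`-integral germs, up to negligible denominators -/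
def Sint (L : ℕ → ℝ) (p q : ℕ) (g : GG) : Prop := ∃ t : ℝ, g ∈ SS L (Rpq p q) t

lemma Pl.sum {M : Type*} [AddCommMonoid M] (f : Pl → M) : ∑ v, f v = f .P + f .Q + f .I := by
  have : (Finset.univ : Finset Pl) = {.P, .Q, .I} := rfl
  rw [this, Finset.sum_insert (by decide), Finset.sum_insert (by decide), Finset.sum_singleton]
  rw [add_assoc]

variable {L : ℕ → ℝ} {p q : ℕ}

lemma pre_v (hp : 2 ≤ p) (hq : 2 ≤ q) (v : Pl) : Pre (Rv p q v) := by
  cases v
  · exact pre_b hp _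
  · exact pre_b hq _
  · exact pre_inf

lemma filt_v (hL : Tendsto L atTop atTop) (hp : 2 ≤ p) (hq : 2 ≤ q) (v : Pl) :
    Filt (KK L hL) (Sv L p q v) := (pre_v hp hq v).filt hL

lemma pre_pq (hp : 2 ≤ p) (hq : 2 ≤ q) : Pre (Rpq p q) where
  zero := by
    intro ε hε t
    refine ⟨0, fun L hL => ?_⟩
    have hlp : 0 < Real.log p := Real.log_pos (by exact_mod_cast hp)
    have hlq : 0 < Real.log q := Real.log_pos (by exact_mod_cast hq)
    obtain ⟨k, hk⟩ := exists_nat_ge ((t - ε) * L / Real.log p)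
    obtain ⟨l, hl⟩ := exists_nat_ge ((t - ε) * L / Real.log q)
    refine ⟨1, 0, k, l, one_ne_zero, ?_, by simp, ?_, ?_⟩
    · simp only [Int.cast_one, abs_one]
      exact Real.one_le_exp (by positivity)
    · rw [div_le_iff₀ hlp] at hk
      exact_mod_cast hk
    · rw [div_le_iff₀ hlq] at hl
      exact_mod_cast hl
  add := by
    intro ε hε
    refine ⟨0, fun L hL t a c ha hc => ?_⟩
    obtain ⟨d, m, i, k, hd, hd1, h, h1, h2⟩ := ha
    obtain ⟨d', m', i', k', hd', hd1', h', h1', h2'⟩ := hc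
    have hp0 : (p : ℚ) ≠ 0 := by
      have : p ≠ 0 := by omega
      exact_mod_cast this
    have hq0 : (q : ℚ) ≠ 0 := by
      have : q ≠ 0 := by omega
      exact_mod_cast this
    have key : ∀ {b : ℚ}, b ≠ 0 → ∀ u v : ℤ, u ≤ v → b ^ u * b ^ (v - u).toNat = b ^ v := by
      intro b hb u v huv
      rw [← zpow_natCast, ← zpow_add₀ hb]
      congr 1
      omega
    refine ⟨d * d', d' * ((p : ℤ) ^ (i - min i i').toNat * (q : ℤ) ^ (k - min k k').toNat) * m
      + d * ((p : ℤ) ^ (i' - min i i').toNat * (q : ℤ) ^ (k' - min k k').toNat) * m',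
      min i i', min k k', mul_ne_zero hd hd', ?_, ?_, ?_, ?_⟩
    · push_cast
      rw [abs_mul]
      calc |(d : ℝ)| * |(d' : ℝ)| ≤ Real.exp (ε / 2 * L) * Real.exp (ε / 2 * L) := by gcongr
        _ = Real.exp (ε * L) := by rw [← Real.exp_add]; ring_nf
    · have e1 := key hp0 _ _ (min_le_left i i')
      have e2 := key hp0 _ _ (min_le_right i i')
      have e3 := key hq0 _ _ (min_le_left k k')
      have e4 := key hq0 _ _ (min_le_right k k')
      push_cast
      calc (d : ℚ) * d' * (a + c) = d' * (d * a) + d * (d' * c) := by ring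
        _ = d' * ((p : ℚ) ^ i * (q : ℚ) ^ k * m) + d * ((p : ℚ) ^ i' * (q : ℚ) ^ k' * m') := by
            rw [h, h']
        _ = _ := by
            rw [← e1, ← e2, ← e3, ← e4]; ring
    · have h3 : (t - ε) * L ≤ (t - ε / 2) * L := by nlinarith
      rcases min_choice i i' with h4 | h4
      · rw [h4]; linarith
      · rw [h4]; linarith
    · have h3 : (t - ε) * L ≤ (t - ε / 2) * L := by nlinarith
      rcases min_choice k k' with h4 | h4
      · rw [h4]; linarith
      · rw [h4]; linarith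
  mul := by
    intro ε hε
    refine ⟨0, fun L hL s t a c ha hc => ?_⟩
    obtain ⟨d, m, i, k, hd, hd1, h, h1, h2⟩ := ha
    obtain ⟨d', m', i', k', hd', hd1', h', h1', h2'⟩ := hc
    have hp0 : (p : ℚ) ≠ 0 := by
      have : p ≠ 0 := by omega
      exact_mod_cast this
    have hq0 : (q : ℚ) ≠ 0 := by
      have : q ≠ 0 := by omega
      exact_mod_cast this
    refine ⟨d * d', m * m', i + i', k + k', mul_ne_zero hd hd', ?_, ?_, ?_, ?_⟩
    · push_cast
      rw [abs_mul]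
      calc |(d : ℝ)| * |(d' : ℝ)| ≤ Real.exp (ε / 2 * L) * Real.exp (ε / 2 * L) := by gcongr
        _ = Real.exp (ε * L) := by rw [← Real.exp_add]; ring_nf
    · push_cast
      rw [zpow_add₀ hp0, zpow_add₀ hq0]
      calc (d : ℚ) * d' * (a * c) = (d * a) * (d' * c) := by ring
        _ = _ := by rw [h, h']; ring
    · push_cast
      nlinarith
    · push_cast
      nlinarith
  anti := by
    intro ε hε
    refine ⟨0, fun L hL s t a hst ha => ?_⟩
    obtain ⟨d, m, i, k, hd, hd1, h, h1, h2⟩ := ha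
    refine ⟨d, m, i, k, hd, hd1, h, ?_, ?_⟩
    · nlinarith
    · nlinarith
  alg := by
    intro ε hε
    refine ⟨0, fun L hL m d hd hm hd1 => ?_⟩
    refine ⟨d, m, 0, 0, hd, hd1, ?_, ?_, ?_⟩
    · have : (d : ℚ) ≠ 0 := by exact_mod_cast hd
      simp only [zpow_zero, one_mul]
      field_simp
    · simp only [Int.cast_zero, zero_mul]
      nlinarith
    · simp only [Int.cast_zero, zero_mul]
      nlinarith

lemma filt_pq (hL : Tendsto L atTop atTop) (hp : 2 ≤ p) (hq : 2 ≤ q) :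
    Filt (KK L hL) (SS L (Rpq p q)) := (pre_pq hp hq).filt hL

section sint
variable (hL : Tendsto L atTop atTop) (hp : 2 ≤ p) (hq : 2 ≤ q)
include hL hp hq

lemma Sint.mul {a b : GG} (ha : Sint L p q a) (hb : Sint L p q b) : Sint L p q (a * b) := by
  obtain ⟨s, hs⟩ := ha
  obtain ⟨t, ht⟩ := hb
  exact ⟨s + t, (filt_pq hL hp hq).mul_mem hs ht⟩

lemma Sint.add {a b : GG} (ha : Sint L p q a) (hb : Sint L p q b) : Sint L p q (a + b) := by
  obtain ⟨s, hs⟩ := ha
  obtain ⟨t, ht⟩ := hb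
  exact ⟨min s t, (filt_pq hL hp hq).add_mem ((filt_pq hL hp hq).anti (min_le_left _ _) hs)
    ((filt_pq hL hp hq).anti (min_le_right _ _) ht)⟩

lemma Sint.zero : Sint L p q 0 := ⟨0, (filt_pq hL hp hq).zero_mem 0⟩

lemma Sint.alg (c : KK L hL) : Sint L p q (c : GG) := ⟨0, (filt_pq hL hp hq).alg_mem c⟩

lemma Sint.sum {ι : Type*} (s : Finset ι) (f : ι → GG) (h : ∀ i ∈ s, Sint L p q (f i)) :
    Sint L p q (∑ i ∈ s, f i) :=
  Finset.sum_induction f (Sint L p q) (fun _ _ => Sint.add hL hp hq) (Sint.zero hL hp hq) h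

end sint

/-! ## the character -/

/-- the valuations of the character -/
noncomputable def lv (p q : ℕ) : Pl → ℝ × ℝ → ℝ
  | .P, g => g.1 * Real.log p
  | .Q, g => -(g.2 * Real.log q)
  | .I, g => g.2 * Real.log q - g.1 * Real.log p

lemma lv_add (v : Pl) (g h : ℝ × ℝ) : lv p q v (g + h) = lv p q v g + lv p q v h := by
  cases v <;> simp only [lv, Prod.fst_add, Prod.snd_add] <;> ring

lemma lv_neg (v : Pl) (g : ℝ × ℝ) : lv p q v (-g) = -lv p q v g := by
  cases v <;> simp only [lv, Prod.fst_neg, Prod.snd_neg] <;> ring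

lemma lv_zero (v : Pl) : lv p q v 0 = 0 := by
  cases v <;> simp [lv]

/-- the product formula -/
lemma lv_sum (g : ℝ × ℝ) : ∑ v, lv p q v g = 0 := by
  rw [Pl.sum]; simp only [lv]; ring

/-- the character `(s, t) ↦ p ^ (s L) / q ^ (t L)` -/
noncomputable def X2 (hL : Tendsto L atTop atTop) (hp : 2 ≤ p) (hq : 2 ≤ q) :
    Multiplicative (ℝ × ℝ) →* GG where
  toFun := fun t => gm fun n => (p : ℚ) ^ ⌊ell hL (Multiplicative.toAdd t).1 n⌋ *
    (q : ℚ) ^ (-⌊ell hL (Multiplicative.toAdd t).2 n⌋)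
  map_one' := by
    rw [← gm_one]
    congr 1
    funext n
    simp [ell_zero]
  map_mul' := by
    intro s t
    rw [gm_mul, gm_eq]
    have hp0 : (p : ℚ) ≠ 0 := by
      have : p ≠ 0 := by omega
      exact_mod_cast this
    have hq0 : (q : ℚ) ≠ 0 := by
      have : q ≠ 0 := by omega
      exact_mod_cast this
    filter_upwards [ev_of_atTop (ell_int hL (Multiplicative.toAdd s).1),
      ev_of_atTop (ell_int hL (Multiplicative.toAdd t).1),
      ev_of_atTop (ell_int hL (Multiplicative.toAdd s).2),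
      ev_of_atTop (ell_int hL (Multiplicative.toAdd t).2)] with n h1 h2 h3 h4
    have e1 : ⌊ell hL (Multiplicative.toAdd (s * t)).1 n⌋ = ⌊ell hL (Multiplicative.toAdd s).1 n⌋
        + ⌊ell hL (Multiplicative.toAdd t).1 n⌋ := by
      rw [toAdd_mul, Prod.fst_add, ell_add, ← h1, ← h2]
      rw [← Int.cast_add, Int.floor_intCast, Int.floor_intCast, Int.floor_intCast]
    have e2 : ⌊ell hL (Multiplicative.toAdd (s * t)).2 n⌋ = ⌊ell hL (Multiplicative.toAdd s).2 n⌋
        + ⌊ell hL (Multiplicative.toAdd t).2 n⌋ := by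
      rw [toAdd_mul, Prod.snd_add, ell_add, ← h3, ← h4]
      rw [← Int.cast_add, Int.floor_intCast, Int.floor_intCast, Int.floor_intCast]
    rw [e1, e2, neg_add, zpow_add₀ hp0, zpow_add₀ hq0]
    ring

/-- the value of the character -/
noncomputable def ch2 (hL : Tendsto L atTop atTop) (hp : 2 ≤ p) (hq : 2 ≤ q) (g : ℝ × ℝ) : GG :=
  X2 hL hp hq (Multiplicative.ofAdd g)

section char
variable (hL : Tendsto L atTop atTop) (hp : 2 ≤ p) (hq : 2 ≤ q)

lemma ch2_eq (g : ℝ × ℝ) : ch2 hL hp hq g = gm fun n => (p : ℚ) ^ ⌊ell hL g.1 n⌋ *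
    (q : ℚ) ^ (-⌊ell hL g.2 n⌋) := rfl

lemma ch2_add (g h : ℝ × ℝ) : ch2 hL hp hq (g + h) = ch2 hL hp hq g * ch2 hL hp hq h := by
  unfold ch2; rw [ofAdd_add, map_mul]

lemma ch2_zero : ch2 hL hp hq 0 = 1 := by unfold ch2; rw [ofAdd_zero, map_one]

lemma ch2_ne (g : ℝ × ℝ) : ch2 hL hp hq g ≠ 0 := by
  intro h
  have := ch2_add hL hp hq g (-g)
  rw [add_neg_cancel, ch2_zero, h, zero_mul] at this
  exact one_ne_zero this

lemma ch2_neg (g : ℝ × ℝ) : ch2 hL hp hq (-g) = (ch2 hL hp hq g)⁻¹ := by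
  have := ch2_add hL hp hq g (-g)
  rw [add_neg_cancel, ch2_zero] at this
  exact (eq_inv_of_mul_eq_one_right this.symm)

/-- the ring of finite sums of the character with negligible coefficients, abstractly -/
abbrev Rg (hL : Tendsto L atTop atTop) := AddMonoidAlgebra (KK L hL) (ℝ × ℝ)

/-- evaluation -/
noncomputable def ev2 : Rg hL →+* GG :=
  AddMonoidAlgebra.liftNCRingHom (algebraMap (KK L hL) GG) (X2 hL hp hq) (fun _ _ => mul_comm _ _)

@[simp] lemma ev2_single (g : ℝ × ℝ) (a : KK L hL) :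
    ev2 hL hp hq (AddMonoidAlgebra.single g a) = (a : GG) * ch2 hL hp hq g := by
  unfold ev2
  change AddMonoidAlgebra.liftNC _ _ _ = _
  rw [AddMonoidAlgebra.liftNC_single]
  rfl

lemma sum_single2 (f : Rg hL) :
    f = ∑ g ∈ f.coeff.support, AddMonoidAlgebra.single g (f.coeff g) := by
  apply AddMonoidAlgebra.coeff_injective
  ext x
  have h : (∑ g ∈ f.coeff.support, AddMonoidAlgebra.single g (f.coeff g)).coeff x
      = ∑ g ∈ f.coeff.support, (AddMonoidAlgebra.single g (f.coeff g)).coeff x := by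
    classical
    induction f.coeff.support using Finset.induction_on with
    | empty => simp
    | insert a s ha ih => rw [Finset.sum_insert ha, Finset.sum_insert ha,
        AddMonoidAlgebra.coeff_add, Finsupp.add_apply, ih]
  rw [h]
  by_cases hx : x ∈ f.coeff.support
  · rw [Finset.sum_eq_single x]
    · rw [AddMonoidAlgebra.coeff_single, Finsupp.single_eq_same]
    · intro b _ hb
      rw [AddMonoidAlgebra.coeff_single, Finsupp.single_eq_of_ne (Ne.symm hb)]
    · intro h; exact absurd hx h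
  · rw [Finset.sum_eq_zero]
    · exact congrArg Subtype.val (Finsupp.notMem_support_iff.1 hx)
    · intro b hb
      rw [AddMonoidAlgebra.coeff_single, Finsupp.single_eq_of_ne]
      rintro rfl; exact hx hb

lemma ev2_sum (f : Rg hL) :
    ev2 hL hp hq f = ∑ g ∈ f.coeff.support, ((f.coeff g : KK L hL) : GG) * ch2 hL hp hq g := by
  conv_lhs => rw [sum_single2 hL f]
  rw [map_sum]
  exact Finset.sum_congr rfl fun g _ => ev2_single hL hp hq g _

lemma ch2_P (hpq : IsCoprime (q : ℤ) (p : ℤ)) (g : ℝ × ℝ) :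
    ch2 hL hp hq g ∈ SS L (Rb p (cop p)) (g.1 * Real.log p) := by
  have hlp : 0 < Real.log p := Real.log_pos (by exact_mod_cast hp)
  rw [ch2_eq, mem_SS]
  intro ε hε
  have hε' : 0 < ε / Real.log p := by positivity
  filter_upwards [ev_of_atTop (fl_near hL g.1 hε'), L_nonneg hL] with n h1 h2
  have hq0 : (q : ℚ) ≠ 0 := by
    have : q ≠ 0 := by omega
    exact_mod_cast this
  set o := ⌊ell hL g.2 n⌋ with ho
  refine ⟨1, (q : ℤ) ^ o.toNat, (q : ℤ) ^ (-o).toNat, ⌊ell hL g.1 n⌋, one_ne_zero, ?_,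
    IsCoprime.pow_left hpq, ?_, ?_⟩
  · simp only [Int.cast_one, abs_one]
    exact Real.one_le_exp (by positivity)
  · push_cast
    have e1 : (q : ℚ) ^ o.toNat * (q : ℚ) ^ (-o) = (q : ℚ) ^ (-o).toNat := by
      rw [← zpow_natCast, ← zpow_add₀ hq0, ← zpow_natCast]
      congr 1
      omega
    rw [one_mul]
    calc (q : ℚ) ^ o.toNat * ((p : ℚ) ^ ⌊ell hL g.1 n⌋ * (q : ℚ) ^ (-o))
        = (p : ℚ) ^ ⌊ell hL g.1 n⌋ * ((q : ℚ) ^ o.toNat * (q : ℚ) ^ (-o)) := by ring
      _ = _ := by rw [e1]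
  · have h3 := (abs_le.1 h1).1
    have h4 : (g.1 * L n - ε / Real.log p * L n) * Real.log p
        ≤ ((⌊ell hL g.1 n⌋ : ℤ) : ℝ) * Real.log p := by
      gcongr; linarith
    have h5 : (g.1 * L n - ε / Real.log p * L n) * Real.log p
        = (g.1 * Real.log p - ε) * L n := by
      field_simp
    linarith

lemma ch2_Q (hpq : IsCoprime (q : ℤ) (p : ℤ)) (g : ℝ × ℝ) :
    ch2 hL hp hq g ∈ SS L (Rb q (cop q)) (-(g.2 * Real.log q)) := by
  have hlq : 0 < Real.log q := Real.log_pos (by exact_mod_cast hq)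
  rw [ch2_eq, mem_SS]
  intro ε hε
  have hε' : 0 < ε / Real.log q := by positivity
  filter_upwards [ev_of_atTop (fl_near hL g.2 hε'), L_nonneg hL] with n h1 h2
  have hp0 : (p : ℚ) ≠ 0 := by
    have : p ≠ 0 := by omega
    exact_mod_cast this
  set o := ⌊ell hL g.1 n⌋ with ho
  refine ⟨1, (p : ℤ) ^ (-o).toNat, (p : ℤ) ^ o.toNat, -⌊ell hL g.2 n⌋, one_ne_zero, ?_,
    IsCoprime.pow_left hpq.symm, ?_, ?_⟩
  · simp only [Int.cast_one, abs_one]
    exact Real.one_le_exp (by positivity)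
  · push_cast
    have e1 : (p : ℚ) ^ (-o).toNat * (p : ℚ) ^ o = (p : ℚ) ^ o.toNat := by
      rw [← zpow_natCast, ← zpow_add₀ hp0, ← zpow_natCast]
      congr 1
      omega
    rw [one_mul]
    calc (p : ℚ) ^ (-o).toNat * ((p : ℚ) ^ o * (q : ℚ) ^ (-⌊ell hL g.2 n⌋))
        = (q : ℚ) ^ (-⌊ell hL g.2 n⌋) * ((p : ℚ) ^ (-o).toNat * (p : ℚ) ^ o) := by ring
      _ = _ := by rw [e1]
  · have h3 := (abs_le.1 h1).2
    have h4 : ((⌊ell hL g.2 n⌋ : ℤ) : ℝ) * Real.log q
        ≤ (g.2 * L n + ε / Real.log q * L n) * Real.log q := by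
      gcongr; linarith
    have h5 : (g.2 * L n + ε / Real.log q * L n) * Real.log q
        = (g.2 * Real.log q + ε) * L n := by
      field_simp
    push_cast
    linarith

lemma ch2_I (g : ℝ × ℝ) :
    ch2 hL hp hq g ∈ SS L Rinf (g.2 * Real.log q - g.1 * Real.log p) := by
  have hlp : 0 < Real.log p := Real.log_pos (by exact_mod_cast hp)
  have hlq : 0 < Real.log q := Real.log_pos (by exact_mod_cast hq)
  rw [ch2_eq, mem_SS]
  intro ε hε
  have hε1 : 0 < ε / 2 / Real.log p := by positivity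
  have hε2 : 0 < ε / 2 / Real.log q := by positivity
  filter_upwards [ev_of_atTop (fl_near hL g.1 hε1), ev_of_atTop (fl_near hL g.2 hε2),
    L_nonneg hL] with n h1 h2 h3
  unfold Rinf
  push_cast
  rw [zpow_exp hp, zpow_exp hq, ← Real.exp_add, abs_of_pos (Real.exp_pos _)]
  apply Real.exp_le_exp.2
  have h4 := (abs_le.1 h1).2
  have h5 := (abs_le.1 h2).1
  have h6 : ((⌊ell hL g.1 n⌋ : ℤ) : ℝ) * Real.log p
      ≤ (g.1 * L n + ε / 2 / Real.log p * L n) * Real.log p := by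
    gcongr; linarith
  have h7 : (g.2 * L n - ε / 2 / Real.log q * L n) * Real.log q
      ≤ ((⌊ell hL g.2 n⌋ : ℤ) : ℝ) * Real.log q := by
    gcongr; linarith
  have h8 : (g.1 * L n + ε / 2 / Real.log p * L n) * Real.log p
      = (g.1 * Real.log p + ε / 2) * L n := by
    field_simp
  have h9 : (g.2 * L n - ε / 2 / Real.log q * L n) * Real.log q
      = (g.2 * Real.log q - ε / 2) * L n := by field_simp
  push_cast
  nlinarith

/-- the valuations of the character -/
lemma ch2_mem (hpq : IsCoprime (q : ℤ) (p : ℤ)) (v : Pl) (g : ℝ × ℝ) :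
    ch2 hL hp hq g ∈ Sv L p q v (lv p q v g) := by
  cases v
  · exact ch2_P hL hp hq hpq g
  · exact ch2_Q hL hp hq hpq g
  · exact ch2_I hL hp hq g

lemma ch2_sint (g : ℝ × ℝ) : Sint L p q (ch2 hL hp hq g) := by
  have hlp : 0 < Real.log p := Real.log_pos (by exact_mod_cast hp)
  have hlq : 0 < Real.log q := Real.log_pos (by exact_mod_cast hq)
  refine ⟨min (g.1 * Real.log p) (-(g.2 * Real.log q)), ?_⟩
  rw [ch2_eq, mem_SS]
  intro ε hε
  have hε1 : 0 < ε / Real.log p := by positivity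
  have hε2 : 0 < ε / Real.log q := by positivity
  filter_upwards [ev_of_atTop (fl_near hL g.1 hε1), ev_of_atTop (fl_near hL g.2 hε2),
    L_nonneg hL] with n h1 h2 h3
  refine ⟨1, 1, ⌊ell hL g.1 n⌋, -⌊ell hL g.2 n⌋, one_ne_zero, ?_, by simp, ?_, ?_⟩
  · simp only [Int.cast_one, abs_one]
    exact Real.one_le_exp (by positivity)
  · have h4 := (abs_le.1 h1).1
    have h5 : (g.1 * L n - ε / Real.log p * L n) * Real.log p
        ≤ ((⌊ell hL g.1 n⌋ : ℤ) : ℝ) * Real.log p := by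
      gcongr; linarith
    have h6 : (g.1 * L n - ε / Real.log p * L n) * Real.log p
        = (g.1 * Real.log p - ε) * L n := by
      field_simp
    have h7 := min_le_left (g.1 * Real.log p) (-(g.2 * Real.log q))
    nlinarith
  · have h4 := (abs_le.1 h2).2
    have h5 : ((⌊ell hL g.2 n⌋ : ℤ) : ℝ) * Real.log q
        ≤ (g.2 * L n + ε / Real.log q * L n) * Real.log q := by
      gcongr; linarith
    have h6 : (g.2 * L n + ε / Real.log q * L n) * Real.log q
        = (g.2 * Real.log q + ε) * L n := by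
      field_simp
    have h7 := min_le_right (g.1 * Real.log p) (-(g.2 * Real.log q))
    push_cast
    nlinarith

lemma ev2_sint (f : Rg hL) : Sint L p q (ev2 hL hp hq f) := by
  rw [ev2_sum]
  exact Sint.sum hL hp hq _ _ fun g _ =>
    Sint.mul hL hp hq (Sint.alg hL hp hq _) (ch2_sint hL hp hq g)

/-- powers with exponents close to `t L` and `o L` are constant multiples of the character -/
lemma exists_const2 (t o : ℝ) (a b : ℕ → ℤ)
    (ha : ∀ ε : ℝ, 0 < ε → ∀ᶠ n in (UU : Filter ℕ), |(a n : ℝ) - t * L n| ≤ ε * L n)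
    (hb : ∀ ε : ℝ, 0 < ε → ∀ᶠ n in (UU : Filter ℕ), |(b n : ℝ) - o * L n| ≤ ε * L n) :
    ∃ κ : KK L hL, κ ≠ 0 ∧ gm (fun n => (p : ℚ) ^ (a n) / (q : ℚ) ^ (b n))
      = (κ : GG) * ch2 hL hp hq (t, o) := by
  have hp0 : (p : ℚ) ≠ 0 := by
    have : p ≠ 0 := by omega
    exact_mod_cast this
  have hq0 : (q : ℚ) ≠ 0 := by
    have : q ≠ 0 := by omega
    exact_mod_cast this
  have hsub : ∀ (a : ℕ → ℤ) (s : ℝ), (∀ ε : ℝ, 0 < ε → ∀ᶠ n in (UU : Filter ℕ),
      |(a n : ℝ) - s * L n| ≤ ε * L n) → ∀ ε : ℝ, 0 < ε → ∀ᶠ n in (UU : Filter ℕ),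
      |((a n - ⌊ell hL s n⌋ : ℤ) : ℝ)| ≤ ε * L n := by
    intro a s ha ε hε
    filter_upwards [ha (ε / 2) (by positivity), ev_of_atTop (fl_near hL s (half_pos hε))]
      with n h1 h2
    push_cast
    have h3 : (a n : ℝ) - ((⌊ell hL s n⌋ : ℤ) : ℝ) = ((a n : ℝ) - s * L n)
      - (((⌊ell hL s n⌋ : ℤ) : ℝ) - s * L n) := by ring
    rw [h3]
    refine (abs_sub _ _).trans ?_
    linarith
  have hneg : ∀ a : ℕ → ℤ, (∀ ε : ℝ, 0 < ε → ∀ᶠ n in (UU : Filter ℕ), |(a n : ℝ)| ≤ ε * L n) →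
      (∀ ε : ℝ, 0 < ε → ∀ᶠ n in (UU : Filter ℕ), |((-a n : ℤ) : ℝ)| ≤ ε * L n) := by
    intro a ha ε hε
    filter_upwards [ha ε hε] with n h1
    push_cast
    rwa [abs_neg]
  have hmem := pow_mem_KK hL hp hq (fun n => a n - ⌊ell hL t n⌋)
    (fun n => -(b n - ⌊ell hL o n⌋)) (hsub a t ha) (hneg _ (hsub b o hb))
  refine ⟨⟨_, hmem⟩, ?_, ?_⟩
  · intro h
    have h1 : gm (fun n => (p : ℚ) ^ (a n - ⌊ell hL t n⌋) *
      (q : ℚ) ^ (-(b n - ⌊ell hL o n⌋))) = 0 := congrArg Subtype.val h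
    have h2 : gm (fun n => (p : ℚ) ^ (a n - ⌊ell hL t n⌋) *
      (q : ℚ) ^ (-(b n - ⌊ell hL o n⌋))) ≠ 0 := by
      rw [gm_ne_zero]
      refine Eventually.of_forall fun n => ?_
      exact mul_ne_zero (zpow_ne_zero _ hp0) (zpow_ne_zero _ hq0)
    exact h2 h1
  · rw [ch2_eq, gm_mul]
    congr 1
    funext n
    have e1 : (p : ℚ) ^ (a n) = (p : ℚ) ^ (a n - ⌊ell hL t n⌋) * (p : ℚ) ^ ⌊ell hL t n⌋ := by
      rw [← zpow_add₀ hp0]; congr 1; ring
    have e2 : ((q : ℚ) ^ (b n))⁻¹ = (q : ℚ) ^ (-(b n - ⌊ell hL o n⌋))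
        * (q : ℚ) ^ (-⌊ell hL o n⌋) := by
      rw [← zpow_add₀ hq0, ← zpow_neg]; congr 1; ring
    rw [div_eq_mul_inv, e1, e2]
    ring

end char

end Pool.Agent.TH932.S2
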