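import Mathlib
import Pool.Agent.TH932.S2.Defs

/-!
# Project S2: statements

The subspace theorem for germs (fixed forms, moving forms), the independence of the character over
the negligible field, the key proposition on the valuations of combinations, and the boundedness
theorem.
-/

set_option autoImplicit false

namespace Pool.Agent.TH932.S2

open Filter Topology Pool.Agent.TH932.Abs Pool.Agent.TH932.Germs Pool.Agent.TH932.Chi

/-- J1: the subspace theorem for germs, forms with fixed coefficients -/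
def FixStmt : Prop :=
  ∀ (p q : ℕ) (_ : 2 ≤ p) (_ : 2 ≤ q) (_ : IsCoprime (q : ℤ) (p : ℤ)) (L : ℕ → ℝ)
    (_ : Tendsto L atTop atTop) (ι : Type) (_ : Fintype ι) (z : Pl → ι → GG) (w : Pl → ι → ℝ)
    (_ : ∀ v, ∀ c : ι → ℤ, ∑ i, (c i : GG) * z v i = 0 → ∀ i, c i = 0)
    (_ : ∀ v i, ∃ N : ℤ, N ≠ 0 ∧ ∃ c : ι → ℤ, (N : GG) * z v i = ∑ j, (c j : GG) * z .I j)
    (_ : ∀ v i, z v i ∈ Sv L p q v (w v i)) (_ : ∀ i, Sint L p q (z .I i)),
    ∑ v, ∑ i, w v i ≤ 0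

/-- J2: the subspace theorem for germs, forms with coefficients in the negligible field -/
def MovStmt : Prop :=
  ∀ (p q : ℕ) (_ : 2 ≤ p) (_ : 2 ≤ q) (_ : IsCoprime (q : ℤ) (p : ℤ)) (L : ℕ → ℝ)
    (hL : Tendsto L atTop atTop) (ι : Type) (_ : Fintype ι) (z : Pl → ι → GG) (w : Pl → ι → ℝ)
    (_ : ∀ v, ∀ c : ι → KK L hL, ∑ i, (c i : GG) * z v i = 0 → ∀ i, c i = 0)
    (_ : ∀ v i, ∃ c : ι → KK L hL, z v i = ∑ j, (c j : GG) * z .I j)
    (_ : ∀ v i, z v i ∈ Sv L p q v (w v i)) (_ : ∀ i, Sint L p q (z .I i)),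
    ∑ v, ∑ i, w v i ≤ 0

/-- J3: the values of the character are linearly independent over the negligible field -/
def SUStmt : Prop :=
  ∀ (p q : ℕ) (hp : 2 ≤ p) (hq : 2 ≤ q) (_ : IsCoprime (q : ℤ) (p : ℤ)) (L : ℕ → ℝ)
    (hL : Tendsto L atTop atTop) (f : Rg hL), ev2 hL hp hq f = 0 → f = 0

/-- J4: the key proposition; a combination of `ζ j` with coefficients in the group ring is not
much smaller at the place `v` than its largest term -/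
def KPStmt : Prop :=
  ∀ (p q : ℕ) (hp : 2 ≤ p) (hq : 2 ≤ q) (_ : IsCoprime (q : ℤ) (p : ℤ)) (L : ℕ → ℝ)
    (hL : Tendsto L atTop atTop) (v : Pl) (J : Type) (_ : Fintype J) (ζ : J → GG) (C : ℝ)
    (_ : ∀ A : J → Rg hL, ∑ j, ev2 hL hp hq (A j) * ζ j = 0 → ∀ j, A j = 0)
    (_ : ∀ u j, ζ j ∈ Sv L p q u (-C)) (_ : ∀ j, Sint L p q (ζ j)),
    ∃ K0 : ℝ, ∀ (A : J → Rg hL) (x : ℝ), ∑ j, ev2 hL hp hq (A j) * ζ j ∈ Sv L p q v x →
      ∀ j g, (A j).coeff g ≠ 0 → x ≤ lv p q v g + K0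

/-- J5: the boundedness theorem -/
def BDStmt : Prop :=
  ∀ (p q : ℕ) (hp : 2 ≤ p) (hq : 2 ≤ q) (_ : IsCoprime (q : ℤ) (p : ℤ)) (L : ℕ → ℝ)
    (hL : Tendsto L atTop atTop) (Z : Type) (_ : Fintype Z) (z : Z → GG) (C c : ℝ)
    (_ : ∀ u j, z j ∈ Sv L p q u (-C)) (_ : ∀ j, Sint L p q (z j)),
    ∃ B : ℝ, ∀ (Y : GG) (h : ℝ × ℝ) (M : KK L hL) (P : Z → Rg hL), Y ∈ Sv L p q .P 0 → M ≠ 0 →
      (∀ j g, (P j).coeff g ≠ 0 → g.1 ≤ h.1 ∧ h.2 - g.2 ≤ c * (h.1 - g.1)) →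
      (M : GG) * ch2 hL hp hq h * Y = ∑ j, ev2 hL hp hq (P j) * z j →
      Y ∈ Sv L p q .I (-B)

end Pool.Agent.TH932.S2
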