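import Mathlib
import Pool.Agent.TH932.S2.Stms

set_option autoImplicit false

/-!
# Project S2, J5: a basis with coefficients in the group ring and the boundedness theorem
-/

namespace Pool.Agent.TH932.S2.BD

open Filter Topology Pool.Agent.TH932.Germs Pool.Agent.TH932.S2

lemma exists_ne_of_sum {ι M : Type*} [AddCommMonoid M] {s : Finset ι} {f : ι → M}
    (h : ∑ i ∈ s, f i ≠ 0) : ∃ i ∈ s, f i ≠ 0 := Finset.exists_ne_zero_of_sum_ne_zero h

lemma supp_mul {R : Type*} [Semiring R] (a b : AddMonoidAlgebra R (ℝ × ℝ)) (g : ℝ × ℝ)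
    (h : (a * b).coeff g ≠ 0) : ∃ h' τ, a.coeff h' ≠ 0 ∧ b.coeff τ ≠ 0 ∧ g = h' + τ := by
  classical
  rw [AddMonoidAlgebra.coeff_mul, Finsupp.sum] at h
  obtain ⟨u, hu, h1⟩ := exists_ne_of_sum h
  rw [Finsupp.sum] at h1
  obtain ⟨v, hv, h2⟩ := exists_ne_of_sum h1
  by_cases h3 : u + v = g
  · exact ⟨u, v, Finsupp.mem_support_iff.1 hu, Finsupp.mem_support_iff.1 hv, h3.symm⟩
  · rw [if_neg h3] at h2
    exact absurd rfl h2

lemma supp_sum {R ι : Type*} [Semiring R] (s : Finset ι) (f : ι → AddMonoidAlgebra R (ℝ × ℝ))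
    (g : ℝ × ℝ) (h : (∑ i ∈ s, f i).coeff g ≠ 0) : ∃ i ∈ s, (f i).coeff g ≠ 0 := by
  rw [AddMonoidAlgebra.coeff_sum, Finsupp.finsetSum_apply] at h
  exact exists_ne_of_sum h

/-- a basis with coefficients in the group ring -/
theorem basis (hsu : SUStmt) (p q : ℕ) (hp : 2 ≤ p) (hq : 2 ≤ q) (hpq : IsCoprime (q : ℤ) (p : ℤ))
    (L : ℕ → ℝ) (hL : Tendsto L atTop atTop) (Z : Type) [Fintype Z] (z : Z → GG) :
    ∃ (J : Finset Z) (δ : Rg hL) (c : Z → J → Rg hL), δ ≠ 0 ∧
      (∀ A : J → Rg hL, ∑ j, ev2 hL hp hq (A j) * z j = 0 → ∀ j, A j = 0) ∧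
      ∀ k, ev2 hL hp hq δ * z k = ∑ j, ev2 hL hp hq (c k j) * z j := by
  classical
  have hinj : ∀ f : Rg hL, ev2 hL hp hq f = 0 → f = 0 := hsu p q hp hq hpq L hL
  let good : Finset Z → Prop := fun J =>
    ∀ A : J → Rg hL, ∑ j, ev2 hL hp hq (A j) * z j = 0 → ∀ j, A j = 0
  have hne : (Finset.univ.filter good).Nonempty := by
    refine ⟨∅, Finset.mem_filter.2 ⟨Finset.mem_univ _, ?_⟩⟩
    intro A _ j
    exact absurd j.2 (Finset.notMem_empty _)
  obtain ⟨J, hJ, hmax⟩ := Finset.exists_max_image (Finset.univ.filter good) Finset.card hne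
  have hgood : good J := (Finset.mem_filter.1 hJ).2
  have key : ∀ k : Z, ∃ a : Rg hL, a ≠ 0 ∧ ∃ b : J → Rg hL,
      ev2 hL hp hq a * z k = ∑ j, ev2 hL hp hq (b j) * z j := by
    intro k
    by_cases hk : k ∈ J
    · refine ⟨1, one_ne_zero, fun j => if j = ⟨k, hk⟩ then 1 else 0, ?_⟩
      rw [Finset.sum_eq_single (⟨k, hk⟩ : J)]
      · simp only [if_true]
      · intro b _ hb
        simp only [if_neg hb, map_zero, zero_mul]
      · intro h
        exact absurd (Finset.mem_univ _) h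
    · by_contra hcon
      push Not at hcon
      have hg : good (insert k J) := by
        intro A hA
        let A' : Z → Rg hL := fun x => if h : x ∈ insert k J then A ⟨x, h⟩ else 0
        have e1 : ∑ j : ↥(insert k J), ev2 hL hp hq (A j) * z j =
            ∑ x ∈ insert k J, ev2 hL hp hq (A' x) * z x := by
          rw [← Finset.sum_coe_sort (insert k J) (fun x => ev2 hL hp hq (A' x) * z x)]
          refine Finset.sum_congr rfl fun j _ => ?_
          have : A' j = A j := dif_pos j.2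
          rw [this]
        rw [e1, Finset.sum_insert hk] at hA
        have e2 : ∑ x ∈ J, ev2 hL hp hq (A' x) * z x =
            ∑ j : J, ev2 hL hp hq (A' j) * z j :=
          (Finset.sum_coe_sort J (fun x => ev2 hL hp hq (A' x) * z x)).symm
        have hAk : A' k = 0 := by
          by_contra h0
          refine hcon (A' k) h0 (fun j => -A' j) ?_
          rw [eq_neg_of_add_eq_zero_left hA, e2, ← Finset.sum_neg_distrib]
          refine Finset.sum_congr rfl fun j _ => ?_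
          rw [map_neg, neg_mul]
        rw [hAk, map_zero, zero_mul, zero_add, e2] at hA
        have h1 := hgood (fun j => A' j) hA
        intro j
        have hj : A' j = A j := dif_pos j.2
        rw [← hj]
        rcases Finset.mem_insert.1 j.2 with h | h
        · rw [h]; exact hAk
        · exact h1 ⟨j, h⟩
      have h2 := hmax (insert k J) (Finset.mem_filter.2 ⟨Finset.mem_univ _, hg⟩)
      rw [Finset.card_insert_of_notMem hk] at h2
      omega
  choose a ha b hb using key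
  refine ⟨J, ∏ k, a k, fun k j => (∏ l ∈ Finset.univ.erase k, a l) * b k j, ?_, hgood, ?_⟩
  · intro h
    have h1 := congrArg (ev2 hL hp hq) h
    rw [map_zero, map_prod] at h1
    obtain ⟨k, -, hk⟩ := Finset.prod_eq_zero_iff.1 h1
    exact ha k (hinj _ hk)
  · intro k
    rw [← Finset.mul_prod_erase Finset.univ a (Finset.mem_univ k), map_mul,
      mul_comm (ev2 hL hp hq (a k)), mul_assoc, hb k, Finset.mul_sum]
    refine Finset.sum_congr rfl fun j _ => ?_
    rw [map_mul, mul_assoc]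

/-- bounds for a finite set of pairs -/
lemma exists_bd (T : Finset (ℝ × ℝ)) : ∃ C0 : ℝ, 0 ≤ C0 ∧ ∀ τ ∈ T, |τ.1| ≤ C0 ∧ |τ.2| ≤ C0 := by
  refine ⟨∑ τ ∈ T, (|τ.1| + |τ.2|), Finset.sum_nonneg fun τ _ => by positivity, fun τ hτ => ?_⟩
  have h := Finset.single_le_sum (f := fun τ : ℝ × ℝ => |τ.1| + |τ.2|)
    (fun τ _ => by positivity) hτ
  constructor
  · linarith [abs_nonneg τ.2]
  · linarith [abs_nonneg τ.1]

section
variable {L : ℕ → ℝ} {p q : ℕ} (hL : Tendsto L atTop atTop) (hp : 2 ≤ p) (hq : 2 ≤ q)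

include hL hp hq in
lemma sum_mem (v : Pl) {ι : Type*} (s : Finset ι) (f : ι → GG) (t : ℝ)
    (h : ∀ i ∈ s, f i ∈ Sv L p q v t) : ∑ i ∈ s, f i ∈ Sv L p q v t :=
  Finset.sum_induction f (fun g => g ∈ Sv L p q v t)
    (fun _ _ => (filt_v hL hp hq v).add_mem) ((filt_v hL hp hq v).zero_mem t) h

include hL hp hq in
lemma cast_mem (v : Pl) {s t : ℝ} {a : GG} (h : a ∈ Sv L p q v s) (e : t ≤ s) :
    a ∈ Sv L p q v t := (filt_v hL hp hq v).anti e h

/-- valuations of the elements of the ring -/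
lemma ev2_mem (hpq : IsCoprime (q : ℤ) (p : ℤ)) (v : Pl) (f : Rg hL) (t : ℝ)
    (h : ∀ g, f.coeff g ≠ 0 → t ≤ lv p q v g) : ev2 hL hp hq f ∈ Sv L p q v t := by
  rw [ev2_sum]
  refine sum_mem hL hp hq v _ _ t fun g hg => ?_
  have h1 := (filt_v hL hp hq v).mul_mem ((filt_v hL hp hq v).alg_mem (f.coeff g))
    (ch2_mem hL hp hq hpq v g)
  rw [zero_add] at h1
  exact cast_mem hL hp hq v h1 (h g (Finsupp.mem_support_iff.1 hg))

end

theorem bd (hsu : SUStmt) (hkp : KPStmt) : BDStmt := by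
  classical
  intro p q hp hq hpq L hL Z _ z C c hz hzi
  obtain ⟨J, δ, co, hδ, hJ, hco⟩ := basis hsu p q hp hq hpq L hL Z z
  obtain ⟨K0, hK0⟩ := hkp p q hp hq hpq L hL .P J inferInstance (fun j => z j) C hJ
    (fun u j => hz u j) (fun j => hzi j)
  have hinj : ∀ f : Rg hL, ev2 hL hp hq f = 0 → f = 0 := hsu p q hp hq hpq L hL
  obtain ⟨K1, hK1⟩ := hkp p q hp hq hpq L hL .I Unit inferInstance (fun _ => 1) 0
    (by
      intro A hA j
      rw [Fintype.sum_unique, mul_one] at hA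
      exact hinj _ hA)
    (by
      intro u _
      rw [neg_zero]
      have := (filt_v hL hp hq u).alg_mem 1
      rwa [map_one] at this)
    (by
      intro _
      have := Sint.alg hL hp hq (1 : KK L hL)
      exact this)
  have hlp : 0 < Real.log p := Real.log_pos (by exact_mod_cast hp)
  have hlq : 0 < Real.log q := Real.log_pos (by exact_mod_cast hq)
  -- the inverse of `ev2 δ`
  obtain ⟨t, ht⟩ : ∃ t : ℝ, (ev2 hL hp hq δ)⁻¹ ∈ Sv L p q .I (-t) := by
    have h1 : ∃ g, δ.coeff g ≠ 0 := by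
      by_contra hcon
      push Not at hcon
      apply hδ
      apply AddMonoidAlgebra.coeff_injective
      ext x
      rw [hcon x]
      rfl
    obtain ⟨g0, hg0⟩ := h1
    refine ⟨lv p q .I g0 + K1 + 1, ?_⟩
    refine inv_inf hL _ _ ?_
    intro hmem
    have h2 := hK1 (fun _ => δ) (lv p q .I g0 + K1 + 1) (by
      rw [Fintype.sum_unique, mul_one]
      exact hmem) () g0 hg0
    linarith
  -- bounds for the supports
  obtain ⟨C0, hC0, hC0'⟩ := exists_bd (δ.coeff.support ∪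
    Finset.univ.biUnion (fun k : Z => Finset.univ.biUnion fun j : J => (co k j).coeff.support))
  have hCδ : ∀ τ, δ.coeff τ ≠ 0 → |τ.1| ≤ C0 ∧ |τ.2| ≤ C0 := fun τ hτ =>
    hC0' τ (Finset.mem_union_left _ (Finsupp.mem_support_iff.2 hτ))
  have hCc : ∀ k j τ, (co k j).coeff τ ≠ 0 → |τ.1| ≤ C0 ∧ |τ.2| ≤ C0 := fun k j τ hτ =>
    hC0' τ (Finset.mem_union_right _ (Finset.mem_biUnion.2 ⟨k, Finset.mem_univ _,
      Finset.mem_biUnion.2 ⟨j, Finset.mem_univ _, Finsupp.mem_support_iff.2 hτ⟩⟩))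
  set K' : ℝ := C0 + |K0| / Real.log p with hK'
  have hK'0 : 0 ≤ K' := by positivity
  set K'' : ℝ := (|c| * (K' + C0) + C0) * Real.log q + C0 * Real.log p with hK''
  refine ⟨K'' + C + t, ?_⟩
  intro Y h M P hY hM hP hE
  set A : J → Rg hL := fun j => ∑ k, P k * co k j with hA
  have e1 : ev2 hL hp hq δ * ((M : GG) * ch2 hL hp hq h * Y) =
      ∑ j, ev2 hL hp hq (A j) * z j := by
    rw [hE, Finset.mul_sum]
    have e2 : ∀ k, ev2 hL hp hq δ * (ev2 hL hp hq (P k) * z k) =
        ∑ j, ev2 hL hp hq (P k * co k j) * z j := by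
      intro k
      calc ev2 hL hp hq δ * (ev2 hL hp hq (P k) * z k)
          = ev2 hL hp hq (P k) * (ev2 hL hp hq δ * z k) := by ring
        _ = ev2 hL hp hq (P k) * ∑ j, ev2 hL hp hq (co k j) * z j := by rw [hco k]
        _ = _ := by
          rw [Finset.mul_sum]
          refine Finset.sum_congr rfl fun j _ => ?_
          rw [map_mul, mul_assoc]
    rw [Finset.sum_congr rfl fun k _ => e2 k, Finset.sum_comm]
    refine Finset.sum_congr rfl fun j _ => ?_
    rw [hA]
    simp only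
    rw [map_sum, Finset.sum_mul]
  -- the place `P`
  have hP1 : ∑ j, ev2 hL hp hq (A j) * z j ∈ Sv L p q .P ((h.1 - C0) * Real.log p) := by
    rw [← e1]
    have h1 : ev2 hL hp hq δ ∈ Sv L p q .P (-C0 * Real.log p) := by
      refine ev2_mem hL hp hq hpq .P δ _ fun g hg => ?_
      have h2 := (abs_le.1 (hCδ g hg).1).1
      show -C0 * Real.log p ≤ g.1 * Real.log p
      exact mul_le_mul_of_nonneg_right h2 hlp.le
    have h3 := (filt_v hL hp hq .P).alg_mem M
    have h4 := ch2_mem hL hp hq hpq .P h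
    have h5 := (filt_v hL hp hq .P).mul_mem h1
      ((filt_v hL hp hq .P).mul_mem ((filt_v hL hp hq .P).mul_mem h3 h4) hY)
    refine cast_mem hL hp hq .P h5 (le_of_eq ?_)
    show (h.1 - C0) * Real.log p = -C0 * Real.log p + (0 + h.1 * Real.log p + 0)
    ring
  have hP2 := hK0 A _ hP1
  -- the place at infinity
  have hI1 : ∀ j g, (A j).coeff g ≠ 0 → lv p q .I h - K'' ≤ lv p q .I g := by
    intro j g hg
    have h1 := hP2 j g hg
    have h1' : (h.1 - C0) * Real.log p ≤ g.1 * Real.log p + K0 := h1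
    have h2 : h.1 - K' ≤ g.1 := by
      have h3 : (h.1 - C0) * Real.log p ≤ g.1 * Real.log p + |K0| := h1'.trans (by
        linarith [le_abs_self K0])
      have h4 : |K0| = |K0| / Real.log p * Real.log p := by field_simp
      rw [h4, ← add_mul] at h3
      have h5 := le_of_mul_le_mul_right h3 hlp
      rw [hK']
      linarith
    obtain ⟨k, -, hk⟩ := supp_sum _ _ _ hg
    obtain ⟨h', τ, hh', hτ, rfl⟩ := supp_mul _ _ _ hk
    obtain ⟨h6, h7⟩ := hP k h' hh'
    obtain ⟨h8, h9⟩ := hCc k j τ hτ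
    have h10 := abs_le.1 h8
    have h11 := abs_le.1 h9
    rw [Prod.fst_add] at h2
    have h12 : 0 ≤ h.1 - h'.1 := by linarith
    have h13 : h.1 - h'.1 ≤ K' + C0 := by linarith [h10.2]
    have h14 : c * (h.1 - h'.1) ≤ |c| * (K' + C0) :=
      (mul_le_mul_of_nonneg_right (le_abs_self c) h12).trans
        (mul_le_mul_of_nonneg_left h13 (abs_nonneg c))
    have h15 : h.2 - (|c| * (K' + C0) + C0) ≤ h'.2 + τ.2 := by linarith [h11.1]
    have h16 : h'.1 + τ.1 ≤ h.1 + C0 := by linarith [h10.2]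
    have h17 := mul_le_mul_of_nonneg_right h15 hlq.le
    have h18 := mul_le_mul_of_nonneg_right h16 hlp.le
    show h.2 * Real.log q - h.1 * Real.log p - K'' ≤
      (h'.2 + τ.2) * Real.log q - (h'.1 + τ.1) * Real.log p
    rw [hK'']
    linarith
  have hI2 : ∑ j, ev2 hL hp hq (A j) * z j ∈ Sv L p q .I (lv p q .I h - K'' - C) := by
    refine sum_mem hL hp hq .I _ _ _ fun j _ => ?_
    have h1 := (filt_v hL hp hq .I).mul_mem (ev2_mem hL hp hq hpq .I (A j) _ (hI1 j))
      (hz .I j)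
    exact h1
  have hM' : (M : GG) ≠ 0 := fun h0 => hM (Subtype.ext h0)
  have hδ' : ev2 hL hp hq δ ≠ 0 := fun h0 => hδ (hinj _ h0)
  have e3 : Y = (∑ j, ev2 hL hp hq (A j) * z j) * (ev2 hL hp hq δ)⁻¹ *
      (((M⁻¹ : KK L hL) : GG) * ch2 hL hp hq (-h)) := by
    rw [← e1, ch2_neg]
    have h1 := ch2_ne hL hp hq h
    have h2 : ((M⁻¹ : KK L hL) : GG) = (M : GG)⁻¹ := rfl
    rw [h2]
    field_simp
  have h1 := (filt_v hL hp hq .I).mul_mem ((filt_v hL hp hq .I).mul_mem hI2 ht)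
    ((filt_v hL hp hq .I).mul_mem ((filt_v hL hp hq .I).alg_mem M⁻¹)
      (ch2_mem hL hp hq hpq .I (-h)))
  rw [e3]
  refine cast_mem hL hp hq .I h1 (le_of_eq ?_)
  rw [lv_neg]
  ring

end Pool.Agent.TH932.S2.BD
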