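import Mathlib
import Pool.Agent.TH932.S2.Stms
import Pool.Agent.TH461.SST.Stms

set_option autoImplicit false

/-!
# The subspace theorem for germs, forms with fixed coefficients
-/

namespace Pool.Agent.TH932.S2.Fix

open Filter Topology Pool.Agent.TH932.Germs Pool.Agent.TH932.S2

/-! ## exponents -/

/-- the exponent clearing the denominators -/
noncomputable def UN (p : ℕ) (H Λ : ℝ) : ℕ := ⌈H * Λ / Real.log p⌉₊

/-- the exponent of divisibility -/
noncomputable def ee (p : ℕ) (H ε Λ w : ℝ) : ℕ :=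
  ⌊(UN p H Λ * Real.log p + (w - ε) * Λ) / Real.log p⌋₊

/-- the size at the real place -/
noncomputable def AA (p q n : ℕ) (H ε Λ w : ℝ) : ℝ :=
  Real.exp ((3 * n + 1) * ε * Λ + UN p H Λ * Real.log p + UN q H Λ * Real.log q - w * Λ)

lemma UN_ge {p : ℕ} (hp : 2 ≤ p) (H Λ : ℝ) : H * Λ ≤ UN p H Λ * Real.log p := by
  have hlp : 0 < Real.log p := Real.log_pos (by exact_mod_cast hp)
  have := Nat.le_ceil (H * Λ / Real.log p)
  rw [div_le_iff₀ hlp] at this
  exact this

lemma UN_le {p : ℕ} (hp : 2 ≤ p) {H Λ : ℝ} (h : 0 ≤ H * Λ) :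
    UN p H Λ * Real.log p ≤ H * Λ + Real.log p := by
  have hlp : 0 < Real.log p := Real.log_pos (by exact_mod_cast hp)
  have := (Nat.ceil_lt_add_one (div_nonneg h hlp.le)).le
  calc (UN p H Λ : ℝ) * Real.log p ≤ (H * Λ / Real.log p + 1) * Real.log p := by
        unfold UN; gcongr
    _ = _ := by field_simp

lemma ee_le {p : ℕ} (hp : 2 ≤ p) {H ε Λ w : ℝ} (h : 0 ≤ (H + w - ε) * Λ) :
    ee p H ε Λ w * Real.log p ≤ UN p H Λ * Real.log p + (w - ε) * Λ := by
  have hlp : 0 < Real.log p := Real.log_pos (by exact_mod_cast hp)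
  have h1 := UN_ge hp H Λ
  have h2 : 0 ≤ (UN p H Λ * Real.log p + (w - ε) * Λ) / Real.log p := by
    apply div_nonneg _ hlp.le
    nlinarith
  have h3 := Nat.floor_le h2
  rw [le_div_iff₀ hlp] at h3
  exact h3

lemma ee_ge {p : ℕ} (hp : 2 ≤ p) (H ε Λ w : ℝ) :
    UN p H Λ * Real.log p + (w - ε) * Λ - Real.log p ≤ ee p H ε Λ w * Real.log p := by
  have hlp : 0 < Real.log p := Real.log_pos (by exact_mod_cast hp)
  have h3 := (Nat.lt_floor_add_one ((UN p H Λ * Real.log p + (w - ε) * Λ) / Real.log p)).le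
  rw [div_le_iff₀ hlp] at h3
  unfold ee
  linarith

/-! ## one index -/

lemma zpow_split {p : ℕ} (hp : 2 ≤ p) (U : ℕ) (k : ℤ) (h : 0 ≤ (U : ℤ) + k) :
    (p : ℚ) ^ U * (p : ℚ) ^ k = (p : ℚ) ^ ((U : ℤ) + k).toNat := by
  have hp0 : (p : ℚ) ≠ 0 := by
    have : p ≠ 0 := by omega
    exact_mod_cast this
  rw [← zpow_natCast, ← zpow_natCast, ← zpow_add₀ hp0, Int.toNat_of_nonneg h]

lemma int_place {p q : ℕ} (hp : 2 ≤ p) (hq : 2 ≤ q) {H ε Λ t : ℝ} (h : 0 ≤ (H + t - ε) * Λ)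
    {d m i k : ℤ} {a : ℚ} (h1 : (d : ℚ) * a = (p : ℚ) ^ i * (q : ℚ) ^ k * m)
    (h2 : (t - ε) * Λ ≤ i * Real.log p) (h3 : (t - ε) * Λ ≤ k * Real.log q) {D : ℤ}
    (hD : d ∣ D) :
    ∃ x : ℤ, (x : ℚ) = D * (p : ℚ) ^ UN p H Λ * (q : ℚ) ^ UN q H Λ * a := by
  obtain ⟨D', rfl⟩ := hD
  have aux : ∀ {b : ℕ} (_ : 2 ≤ b) (j : ℤ), (t - ε) * Λ ≤ j * Real.log b →
      0 ≤ (UN b H Λ : ℤ) + j := by
    intro b hb j hj
    have hlb : 0 < Real.log b := Real.log_pos (by exact_mod_cast hb)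
    have h4 := UN_ge hb H Λ
    have h5 : (0 : ℝ) ≤ ((UN b H Λ : ℝ) + j) * Real.log b := by nlinarith
    have h6 : (0 : ℝ) ≤ (UN b H Λ : ℝ) + j := nonneg_of_mul_nonneg_left h5 hlb
    exact_mod_cast h6
  have hU := zpow_split hp _ _ (aux hp i h2)
  have hV := zpow_split hq _ _ (aux hq k h3)
  refine ⟨D' * (p : ℤ) ^ ((UN p H Λ : ℤ) + i).toNat * (q : ℤ) ^ ((UN q H Λ : ℤ) + k).toNat * m,
    ?_⟩
  push_cast
  rw [← hU, ← hV]
  linear_combination (-(D' : ℚ) * (p : ℚ) ^ UN p H Λ * (q : ℚ) ^ UN q H Λ) * h1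

lemma dvd_place {p : ℕ} (hp : 2 ≤ p) {H ε Λ w : ℝ} (h : 0 ≤ (H + w - ε) * Λ)
    {d e' m' k' : ℤ} {s : ℚ} (he : e' ∈ cop p)
    (h1 : (d : ℚ) * e' * s = (p : ℚ) ^ k' * m') (h2 : (w - ε) * Λ ≤ k' * Real.log p)
    {D R y : ℤ} (hD : d ∣ D) (hy : (y : ℚ) = D * (p : ℚ) ^ (UN p H Λ) * R * s) :
    (p : ℤ) ^ (ee p H ε Λ w) ∣ y := by
  obtain ⟨D', rfl⟩ := hD
  have hlp : 0 < Real.log p := Real.log_pos (by exact_mod_cast hp)
  have h3 := ee_le hp h
  have h4 : (ee p H ε Λ w : ℝ) ≤ (UN p H Λ : ℝ) + k' := by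
    apply le_of_mul_le_mul_right _ hlp
    nlinarith
  have h5 : (ee p H ε Λ w : ℤ) ≤ (UN p H Λ : ℤ) + k' := by exact_mod_cast h4
  have h6 : 0 ≤ (UN p H Λ : ℤ) + k' := by omega
  have hU := zpow_split hp _ _ h6
  have h7 : ee p H ε Λ w ≤ ((UN p H Λ : ℤ) + k').toNat := by omega
  have h8 : (((e' * y : ℤ)) : ℚ) = ((p : ℤ) ^ ((UN p H Λ : ℤ) + k').toNat * (D' * R * m') : ℤ) := by
    push_cast
    rw [← hU, hy]
    push_cast
    linear_combination ((D' : ℚ) * (p : ℚ) ^ UN p H Λ * R) * h1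
  have h9 : e' * y = (p : ℤ) ^ ((UN p H Λ : ℤ) + k').toNat * (D' * R * m') := by
    exact_mod_cast h8
  have h10 : (p : ℤ) ^ (ee p H ε Λ w) ∣ e' * y := by
    rw [h9]
    exact Dvd.dvd.mul_right (pow_dvd_pow _ h7) _
  have hcop : IsCoprime ((p : ℤ) ^ (ee p H ε Λ w)) e' :=
    (IsCoprime.pow_right (by exact he)).symm
  exact hcop.dvd_of_dvd_mul_left h10

lemma prod_le {n : ℕ} {ε Λ : ℝ} (d : Fin n → ℤ) (hd : ∀ i, |(d i : ℝ)| ≤ Real.exp (ε * Λ)) :
    |((∏ i, d i : ℤ) : ℝ)| ≤ Real.exp (n * ε * Λ) := by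
  push_cast
  rw [Finset.abs_prod]
  calc ∏ i, |(d i : ℝ)| ≤ ∏ _i : Fin n, Real.exp (ε * Λ) :=
        Finset.prod_le_prod (fun i _ => abs_nonneg _) (fun i _ => hd i)
    _ = Real.exp (n * ε * Λ) := by
        rw [Finset.prod_const, Finset.card_univ, Fintype.card_fin, ← Real.exp_nat_mul]
        ring_nf

lemma step {p q n : ℕ} (hp : 2 ≤ p) (hq : 2 ≤ q) {H ε Λ : ℝ} (hΛ : 0 ≤ Λ)
    (C : Pl → Fin n → Fin n → ℤ) (w : Pl → Fin n → ℝ) (t : Fin n → ℝ)
    (hH : ∀ v i, |w v i| + ε ≤ H) (hH' : ∀ i, |t i| + ε ≤ H) (a : Fin n → ℚ)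
    (hS : ∀ j, Rpq p q Λ ε (t j) (a j))
    (hv : ∀ v i, Rv p q v Λ ε (w v i) (∑ j, (C v i j : ℚ) * a j)) :
    ∃ (D : ℤ) (x : Fin n → ℤ), D ≠ 0 ∧
      (∀ j, (x j : ℚ) = D * (p : ℚ) ^ UN p H Λ * (q : ℚ) ^ UN q H Λ * a j) ∧
      Pool.Agent.TH461.SST.Sol (Matrix.of (C .I)) ![Matrix.of (C .P), Matrix.of (C .Q)] ![p, q]
        ![fun l => ee p H ε Λ (w .P l), fun l => ee q H ε Λ (w .Q l)]
        (fun l => AA p q n H ε Λ (w .I l)) x := by
  choose d m i k hd0 hd1 hd2 hd3 hd4 using hS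
  have hP : ∀ i, Rb p (cop p) Λ ε (w .P i) (∑ j, (C .P i j : ℚ) * a j) := hv .P
  have hQ : ∀ i, Rb q (cop q) Λ ε (w .Q i) (∑ j, (C .Q i j : ℚ) * a j) := hv .Q
  have hI : ∀ i, Rinf Λ ε (w .I i) (∑ j, (C .I i j : ℚ) * a j) := hv .I
  choose dP eP mP kP hP0 hP1 hP2 hP3 hP4 using hP
  choose dQ eQ mQ kQ hQ0 hQ1 hQ2 hQ3 hQ4 using hQ
  set D : ℤ := (∏ j, d j) * (∏ j, dP j) * (∏ j, dQ j) with hD
  have hD0 : D ≠ 0 := by
    rw [hD]
    refine mul_ne_zero (mul_ne_zero ?_ ?_) ?_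
    · exact Finset.prod_ne_zero_iff.2 fun j _ => hd0 j
    · exact Finset.prod_ne_zero_iff.2 fun j _ => hP0 j
    · exact Finset.prod_ne_zero_iff.2 fun j _ => hQ0 j
  have hDd : ∀ j, d j ∣ D := fun j =>
    ((Finset.dvd_prod_of_mem d (Finset.mem_univ j)).mul_right _).mul_right _
  have hDP : ∀ j, dP j ∣ D := fun j =>
    ((Finset.dvd_prod_of_mem dP (Finset.mem_univ j)).mul_left _).mul_right _
  have hDQ : ∀ j, dQ j ∣ D := fun j =>
    (Finset.dvd_prod_of_mem dQ (Finset.mem_univ j)).mul_left _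
  have hDle : |(D : ℝ)| ≤ Real.exp (3 * n * ε * Λ) := by
    have h1 := prod_le d hd1
    have h2 := prod_le dP hP1
    have h3 := prod_le dQ hQ1
    rw [hD, Int.cast_mul, Int.cast_mul, abs_mul, abs_mul]
    calc |((∏ j, d j : ℤ) : ℝ)| * |((∏ j, dP j : ℤ) : ℝ)| * |((∏ j, dQ j : ℤ) : ℝ)|
        ≤ Real.exp (n * ε * Λ) * Real.exp (n * ε * Λ) * Real.exp (n * ε * Λ) := by gcongr
      _ = Real.exp (3 * n * ε * Λ) := by
        rw [← Real.exp_add, ← Real.exp_add]; ring_nf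
  have hnn : ∀ v i, 0 ≤ (H + w v i - ε) * Λ := by
    intro v i
    apply mul_nonneg _ hΛ
    have h1 := hH v i
    have h2 := neg_abs_le (w v i)
    have h3 := abs_nonneg (w v i)
    by_contra hneg
    push Not at hneg
    have := hH v i
    linarith [neg_abs_le (w v i)]
  have hnn' : ∀ i, 0 ≤ (H + t i - ε) * Λ := by
    intro i
    apply mul_nonneg _ hΛ
    linarith [hH' i, neg_abs_le (t i)]
  have hx : ∀ j, ∃ x : ℤ, (x : ℚ) = D * (p : ℚ) ^ UN p H Λ * (q : ℚ) ^ UN q H Λ * a j :=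
    fun j => int_place hp hq (hnn' j) (hd2 j) (hd3 j) (hd4 j) (hDd j)
  choose x hx using hx
  have hsum : ∀ (c : Fin n → ℤ), ((∑ j, c j * x j : ℤ) : ℚ)
      = D * (p : ℚ) ^ UN p H Λ * (q : ℚ) ^ UN q H Λ * ∑ j, (c j : ℚ) * a j := by
    intro c
    push_cast
    rw [Finset.mul_sum]
    apply Finset.sum_congr rfl
    intro j _
    rw [hx]; ring
  refine ⟨D, x, hD0, hx, ?_, ?_⟩
  · intro l
    have h1 := hsum (C .I l)
    have h2 : ((∑ j, C .I l j * x j : ℤ) : ℝ)
      = D * (p : ℝ) ^ UN p H Λ * (q : ℝ) ^ UN q H Λ * ((∑ j, (C .I l j : ℚ) * a j : ℚ) : ℝ) := by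
      have := congrArg (fun x : ℚ => (x : ℝ)) h1
      push_cast at this ⊢
      exact this
    have h3 := hI l
    unfold Rinf at h3
    have hppos : (0 : ℝ) < p := by
      have : 0 < p := by omega
      exact_mod_cast this
    have hqpos : (0 : ℝ) < q := by
      have : 0 < q := by omega
      exact_mod_cast this
    have e1 : (p : ℝ) ^ UN p H Λ = Real.exp (UN p H Λ * Real.log p) := by
      rw [← Real.rpow_natCast, Real.rpow_def_of_pos hppos, mul_comm]
    have e2 : (q : ℝ) ^ UN q H Λ = Real.exp (UN q H Λ * Real.log q) := by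
      rw [← Real.rpow_natCast, Real.rpow_def_of_pos hqpos, mul_comm]
    simp only [Matrix.of_apply]
    rw [h2, abs_mul, abs_mul, abs_mul, e1, e2, abs_of_pos (Real.exp_pos _),
      abs_of_pos (Real.exp_pos _)]
    calc |(D : ℝ)| * Real.exp (UN p H Λ * Real.log p) * Real.exp (UN q H Λ * Real.log q)
          * |((∑ j, (C .I l j : ℚ) * a j : ℚ) : ℝ)|
        ≤ Real.exp (3 * n * ε * Λ) * Real.exp (UN p H Λ * Real.log p)
          * Real.exp (UN q H Λ * Real.log q) * Real.exp (-(w .I l - ε) * Λ) := by gcongr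
      _ = AA p q n H ε Λ (w .I l) := by
        unfold AA
        rw [← Real.exp_add, ← Real.exp_add, ← Real.exp_add]
        ring_nf
  · rw [Fin.forall_fin_two]
    constructor
    · intro l
      simp only [Matrix.cons_val_zero, Matrix.of_apply]
      refine dvd_place hp (hnn .P l) (hP2 l) (hP3 l) (hP4 l) (hDP l)
        (R := (q : ℤ) ^ UN q H Λ) ?_
      rw [hsum]
      push_cast
      ring
    · intro l
      simp only [Matrix.cons_val_one, Matrix.cons_val_zero, Matrix.of_apply]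
      refine dvd_place hq (hnn .Q l) (hQ2 l) (hQ3 l) (hQ4 l) (hDQ l)
        (R := (p : ℤ) ^ UN p H Λ) ?_
      rw [hsum]
      push_cast
      ring

/-! ## sizes -/

lemma size_ok {p q n : ℕ} (hp : 2 ≤ p) (hq : 2 ≤ q) {H ε Λ σ c : ℝ} (hε : 0 < ε) (hΛ : 1 ≤ Λ)
    (w : Pl → Fin n → ℝ) (hH : ∀ v i, |w v i| + ε ≤ H) (hH0 : 0 ≤ H)
    (hσ : σ = ∑ v, ∑ i, w v i) (hε1 : 16 * (n + 1) ^ 2 * ε = σ)
    (hc : (3 * n + 1) * ε + 3 * H + Real.log p + Real.log q ≤ c)
    (hΛ1 : 2 * n * (Real.log p + Real.log q) ≤ σ * Λ) :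
    Pool.Agent.TH461.SST.Size ![p, q] c (σ / 4) Λ
        ![fun l => ee p H ε Λ (w .P l), fun l => ee q H ε Λ (w .Q l)]
        (fun l => AA p q n H ε Λ (w .I l)) := by
  have hlp : 0 < Real.log p := Real.log_pos (by exact_mod_cast hp)
  have hlq : 0 < Real.log q := Real.log_pos (by exact_mod_cast hq)
  have hΛ0 : 0 ≤ Λ := by linarith
  have hHΛ : 0 ≤ H * Λ := mul_nonneg hH0 hΛ0
  have hnn : ∀ v i, 0 ≤ (H + w v i - ε) * Λ := by
    intro v i
    apply mul_nonneg _ hΛ0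
    linarith [hH v i, neg_abs_le (w v i)]
  have hup : ∀ v i, (w v i - ε) * Λ ≤ H * Λ := by
    intro v i
    apply mul_le_mul_of_nonneg_right _ hΛ0
    linarith [hH v i, le_abs_self (w v i)]
  have hU1 := UN_ge hp H Λ
  have hV1 := UN_ge hq H Λ
  have hU2 := UN_le hp hHΛ
  have hV2 := UN_le hq hHΛ
  have hn0 : (0 : ℝ) ≤ n := Nat.cast_nonneg n
  have hcΛ : (3 * n + 1) * ε * Λ + 3 * (H * Λ) + Real.log p + Real.log q ≤ c * Λ := by
    have h1 : ((3 * n + 1) * ε + 3 * H + Real.log p + Real.log q) * Λ ≤ c * Λ := by gcongr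
    have h2 : Real.log p ≤ Real.log p * Λ := le_mul_of_one_le_right hlp.le hΛ
    have h3 : Real.log q ≤ Real.log q * Λ := le_mul_of_one_le_right hlq.le hΛ
    linarith
  have hε3 : 0 ≤ (3 * n + 1) * ε * Λ := by positivity
  refine ⟨?_, fun l => Real.exp_pos _, ?_, ?_⟩
  · rw [Fin.forall_fin_two]
    constructor
    · intro l
      simp only [Matrix.cons_val_zero]
      have := ee_le hp (hnn .P l)
      have := hup .P l
      linarith
    · intro l
      simp only [Matrix.cons_val_one, Matrix.cons_val_zero]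
      have := ee_le hq (hnn .Q l)
      have := hup .Q l
      linarith
  · intro l
    unfold AA
    rw [Real.log_exp, abs_le]
    have h1 : w .I l * Λ ≤ H * Λ := by
      apply mul_le_mul_of_nonneg_right _ hΛ0
      linarith [hH .I l, le_abs_self (w .I l)]
    have h2 : -(H * Λ) ≤ w .I l * Λ := by
      rw [← neg_mul]
      apply mul_le_mul_of_nonneg_right _ hΛ0
      linarith [hH .I l, neg_abs_le (w .I l)]
    constructor
    · linarith
    · linarith
  · rw [Fin.sum_univ_two]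
    simp only [Matrix.cons_val_zero, Matrix.cons_val_one]
    have hA : ∑ l, Real.log (AA p q n H ε Λ (w .I l))
        = n * ((3 * n + 1) * ε * Λ + UN p H Λ * Real.log p + UN q H Λ * Real.log q)
          - (∑ l, w .I l) * Λ := by
      unfold AA
      simp only [Real.log_exp]
      rw [Finset.sum_sub_distrib, Finset.sum_const, Finset.card_univ, Fintype.card_fin,
        nsmul_eq_mul, Finset.sum_mul]
    have hsumP : n * (UN p H Λ * Real.log p) + (∑ l, w .P l) * Λ - n * ε * Λ - n * Real.log p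
        ≤ ∑ l, (ee p H ε Λ (w .P l) : ℝ) * Real.log p := by
      calc n * (UN p H Λ * Real.log p) + (∑ l, w .P l) * Λ - n * ε * Λ - n * Real.log p
          = ∑ l : Fin n, (UN p H Λ * Real.log p + (w .P l - ε) * Λ - Real.log p) := by
            simp only [sub_mul]
            rw [Finset.sum_sub_distrib, Finset.sum_add_distrib, Finset.sum_sub_distrib,
              Finset.sum_const, Finset.sum_const, Finset.sum_const, Finset.card_univ,
              Fintype.card_fin, Finset.sum_mul]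
            simp only [nsmul_eq_mul]
            ring
        _ ≤ _ := Finset.sum_le_sum fun l _ => ee_ge hp H ε Λ (w .P l)
    have hsumQ : n * (UN q H Λ * Real.log q) + (∑ l, w .Q l) * Λ - n * ε * Λ - n * Real.log q
        ≤ ∑ l, (ee q H ε Λ (w .Q l) : ℝ) * Real.log q := by
      calc n * (UN q H Λ * Real.log q) + (∑ l, w .Q l) * Λ - n * ε * Λ - n * Real.log q
          = ∑ l : Fin n, (UN q H Λ * Real.log q + (w .Q l - ε) * Λ - Real.log q) := by
            simp only [sub_mul]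
            rw [Finset.sum_sub_distrib, Finset.sum_add_distrib, Finset.sum_sub_distrib,
              Finset.sum_const, Finset.sum_const, Finset.sum_const, Finset.card_univ,
              Fintype.card_fin, Finset.sum_mul]
            simp only [nsmul_eq_mul]
            ring
        _ ≤ _ := Finset.sum_le_sum fun l _ => ee_ge hq H ε Λ (w .Q l)
    rw [hA]
    rw [Pl.sum] at hσ
    have e1 : (∑ l, w .P l) * Λ + (∑ l, w .Q l) * Λ + (∑ l, w .I l) * Λ = σ * Λ := by
      rw [hσ]; ring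
    have e2 : n * (3 * n + 1) * ε * Λ + 2 * n * ε * Λ ≤ 3 / 16 * (σ * Λ) := by
      rw [← hε1]
      have : 0 ≤ ε * Λ := by positivity
      nlinarith
    have e3 : n * (Real.log p + Real.log q) ≤ σ * Λ / 2 := by linarith
    have e4 : 0 ≤ σ * Λ := by
      rw [← hε1]; positivity
    linarith

/-! ## the theorem -/

lemma gm_sum {ι : Type*} (s : Finset ι) (f : ι → ℕ → ℚ) :
    ∑ i ∈ s, gm (f i) = gm (fun m => ∑ i ∈ s, f i m) := by
  classical
  induction s using Finset.induction_on with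
  | empty => simp [gm_zero]
  | insert a s ha ih =>
    rw [Finset.sum_insert ha, ih, gm_add]
    congr 1
    funext m
    rw [Finset.sum_insert ha]

lemma gm_intCast (c : ℤ) : (c : GG) = gm (fun _ => (c : ℚ)) := by
  rfl

lemma gm_lin {n : ℕ} (c : Fin n → ℤ) (a : Fin n → ℕ → ℚ) :
    ∑ j, (c j : GG) * gm (a j) = gm (fun m => ∑ j, (c j : ℚ) * a j m) := by
  rw [← gm_sum]
  apply Finset.sum_congr rfl
  intro j _
  rw [gm_intCast, gm_mul]

theorem fix_fin (hsub : Pool.Agent.TH461.SST.SubspaceStmt) (p q : ℕ) (hp : 2 ≤ p) (hq : 2 ≤ q)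
    (hpq : IsCoprime (q : ℤ) (p : ℤ)) (L : ℕ → ℝ) (hL : Tendsto L atTop atTop) (n : ℕ)
    (z : Pl → Fin n → GG) (w : Pl → Fin n → ℝ)
    (hind : ∀ v, ∀ c : Fin n → ℤ, ∑ i, (c i : GG) * z v i = 0 → ∀ i, c i = 0)
    (hN : ∀ v i, ∃ N : ℤ, N ≠ 0 ∧ ∃ c : Fin n → ℤ, (N : GG) * z v i = ∑ j, (c j : GG) * z .I j)
    (hv : ∀ v i, z v i ∈ Sv L p q v (w v i)) (hS : ∀ i, Sint L p q (z .I i)) :
    ∑ v, ∑ i, w v i ≤ 0 := by
  by_contra hcon
  push Not at hcon
  have hlp : 0 < Real.log p := Real.log_pos (by exact_mod_cast hp)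
  have hlq : 0 < Real.log q := Real.log_pos (by exact_mod_cast hq)
  have hn : 1 ≤ n := by
    rcases Nat.eq_zero_or_pos n with h0 | h0
    · subst h0
      simp at hcon
    · exact h0
  choose K hK0 C hC using hN
  choose a ha using fun i => gm_surj (z .I i)
  choose t ht using hS
  -- determinants
  have hdet : ∀ v, (Matrix.of (C v)).det ≠ 0 := by
    intro v h
    obtain ⟨u, hu0, hu⟩ := Matrix.exists_vecMul_eq_zero_iff.2 h
    have h1 : ∑ i, ((u i * K v i : ℤ) : GG) * z v i = 0 := by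
      calc ∑ i, ((u i * K v i : ℤ) : GG) * z v i
          = ∑ i, (u i : GG) * ∑ j, (C v i j : GG) * z .I j := by
            apply Finset.sum_congr rfl
            intro i _
            rw [← hC]; push_cast; ring
        _ = ∑ j, ((∑ i, u i * C v i j : ℤ) : GG) * z .I j := by
            simp only [Finset.mul_sum, Int.cast_sum, Finset.sum_mul]
            rw [Finset.sum_comm]
            apply Finset.sum_congr rfl
            intro j _
            apply Finset.sum_congr rfl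
            intro i _
            push_cast; ring
        _ = 0 := by
            apply Finset.sum_eq_zero
            intro j _
            have h2 : (∑ i, u i * C v i j) = 0 := by
              have := congrFun hu j
              simpa [Matrix.vecMul, dotProduct] using this
            rw [h2, Int.cast_zero, zero_mul]
    have h3 := hind v (fun i => u i * K v i) h1
    apply hu0
    funext i
    exact (mul_eq_zero.1 (h3 i)).resolve_right (hK0 v i)
  -- the values of the forms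
  have hval : ∀ v i, gm (fun m => ∑ j, (C v i j : ℚ) * a j m) ∈ Sv L p q v (w v i) := by
    intro v i
    rw [← gm_lin]
    simp only [ha]
    rw [← hC]
    have h1 : algebraMap (KK L hL) GG (K v i : KK L hL) ∈ Sv L p q v 0 :=
      (filt_v hL hp hq v).alg_mem _
    rw [map_intCast] at h1
    have h2 := (filt_v hL hp hq v).mul_mem h1 (hv v i)
    rw [zero_add] at h2
    exact h2
  -- parameters
  set σ : ℝ := ∑ v, ∑ i, w v i with hσ
  set ε : ℝ := σ / (16 * (n + 1) ^ 2) with hε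
  have hε0 : 0 < ε := by positivity
  have hε1 : 16 * (n + 1) ^ 2 * ε = σ := by
    rw [hε]; field_simp
  set H : ℝ := ε + ∑ v, ∑ i, |w v i| + ∑ i, |t i| with hH
  have hH1 : ∀ v i, |w v i| + ε ≤ H := by
    intro v i
    have h1 : |w v i| ≤ ∑ i, |w v i| :=
      Finset.single_le_sum (f := fun i => |w v i|) (fun i _ => abs_nonneg _) (Finset.mem_univ i)
    have h2 : ∑ i, |w v i| ≤ ∑ v, ∑ i, |w v i| :=
      Finset.single_le_sum (f := fun v => ∑ i, |w v i|)
        (fun v _ => Finset.sum_nonneg fun i _ => abs_nonneg _) (Finset.mem_univ v)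
    have h3 : 0 ≤ ∑ i, |t i| := Finset.sum_nonneg fun i _ => abs_nonneg _
    linarith
  have hH2 : ∀ i, |t i| + ε ≤ H := by
    intro i
    have h1 : |t i| ≤ ∑ i, |t i| :=
      Finset.single_le_sum (f := fun i => |t i|) (fun i _ => abs_nonneg _) (Finset.mem_univ i)
    have h2 : 0 ≤ ∑ v, ∑ i, |w v i| :=
      Finset.sum_nonneg fun v _ => Finset.sum_nonneg fun i _ => abs_nonneg _
    linarith
  have hH0 : 0 ≤ H := by
    have h2 : 0 ≤ ∑ v, ∑ i, |w v i| :=
      Finset.sum_nonneg fun v _ => Finset.sum_nonneg fun i _ => abs_nonneg _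
    have h3 : 0 ≤ ∑ i, |t i| := Finset.sum_nonneg fun i _ => abs_nonneg _
    linarith
  set c : ℝ := (3 * n + 1) * ε + 3 * H + Real.log p + Real.log q + 1 with hc
  have hc1 : 1 ≤ c := by
    have : 0 ≤ (3 * n + 1) * ε := by positivity
    linarith
  -- the good indices
  have hev : ∀ᶠ m in (UU : Filter ℕ), (∀ j, Rpq p q (L m) ε (t j) (a j m)) ∧
      (∀ v i, Rv p q v (L m) ε (w v i) (∑ j, (C v i j : ℚ) * a j m)) ∧
      (∀ j, a j m ≠ 0) ∧ 1 ≤ L m ∧ 2 * n * (Real.log p + Real.log q) ≤ σ * L m := by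
    have e1 : ∀ᶠ m in (UU : Filter ℕ), ∀ j, Rpq p q (L m) ε (t j) (a j m) := by
      rw [Filter.eventually_all]
      intro j
      have := ht j
      rw [← ha, mem_SS] at this
      exact this ε hε0
    have e2 : ∀ᶠ m in (UU : Filter ℕ), ∀ v i,
        Rv p q v (L m) ε (w v i) (∑ j, (C v i j : ℚ) * a j m) := by
      rw [Filter.eventually_all]
      intro v
      rw [Filter.eventually_all]
      intro i
      have := hval v i
      unfold Sv at this
      rw [mem_SS] at this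
      exact this ε hε0
    have e3 : ∀ᶠ m in (UU : Filter ℕ), ∀ j, a j m ≠ 0 := by
      rw [Filter.eventually_all]
      intro j
      rw [← gm_ne_zero, ha]
      intro h0
      have h1 := hind .I (Pi.single j 1) (by
        apply Finset.sum_eq_zero
        intro i _
        by_cases hij : i = j
        · subst hij; rw [h0, mul_zero]
        · rw [Pi.single_eq_of_ne hij, Int.cast_zero, zero_mul]) j
      rw [Pi.single_eq_same] at h1
      exact one_ne_zero h1
    have e4 : ∀ᶠ m in (UU : Filter ℕ), 1 ≤ L m := ev_of_atTop (hL.eventually_ge_atTop 1)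
    have e5 : ∀ᶠ m in (UU : Filter ℕ), 2 * n * (Real.log p + Real.log q) / σ ≤ L m :=
      ev_of_atTop (hL.eventually_ge_atTop _)
    filter_upwards [e1, e2, e3, e4, e5] with m h1 h2 h3 h4 h5
    refine ⟨h1, h2, h3, h4, ?_⟩
    rw [div_le_iff₀ hcon] at h5
    linarith
  obtain ⟨y, hy⟩ := exists_surjective_nat (Fin n → ℤ)
  have hex : ∀ s : ℕ, ∃ m : ℕ, ((∀ j, Rpq p q (L m) ε (t j) (a j m)) ∧
      (∀ v i, Rv p q v (L m) ε (w v i) (∑ j, (C v i j : ℚ) * a j m)) ∧
      (∀ j, a j m ≠ 0) ∧ 1 ≤ L m ∧ 2 * n * (Real.log p + Real.log q) ≤ σ * L m) ∧ s ≤ m ∧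
      ∀ k < s, y k ≠ 0 → ∑ l, (y k l : ℚ) * a l m ≠ 0 := by
    intro s
    have e1 : ∀ᶠ m in (UU : Filter ℕ), s ≤ m := ev_of_atTop (eventually_ge_atTop s)
    have e2 : ∀ᶠ m in (UU : Filter ℕ), ∀ k ∈ Set.Iio s, y k ≠ 0 →
        ∑ l, (y k l : ℚ) * a l m ≠ 0 := by
      rw [Filter.eventually_all_finite (Set.finite_Iio s)]
      intro k _
      by_cases h0 : y k = 0
      · exact Eventually.of_forall fun m h => absurd h0 h
      · have h1 : gm (fun m => ∑ l, (y k l : ℚ) * a l m) ≠ 0 := by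
          rw [← gm_lin]
          simp only [ha]
          intro h2
          exact h0 (funext (hind .I (y k) h2))
        rw [gm_ne_zero] at h1
        filter_upwards [h1] with m hm _ using hm
    obtain ⟨m, h1, h2, h3⟩ := (hev.and (e1.and e2)).exists
    exact ⟨m, h1, h2, h3⟩
  choose mm hmm hms hmy using hex
  have hstep := fun s => step hp hq (H := H) (ε := ε) (Λ := L (mm s))
    (le_trans zero_le_one (hmm s).2.2.2.1) C w t hH1 hH2 (fun j => a j (mm s)) (hmm s).1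
    (hmm s).2.1
  choose D x hD hx hsol using hstep
  have htend : Tendsto (fun s => L (mm s)) atTop atTop :=
    hL.comp (tendsto_atTop_mono hms tendsto_id)
  have hp0 : (p : ℚ) ≠ 0 := by
    have : p ≠ 0 := by omega
    exact_mod_cast this
  have hq0 : (q : ℚ) ≠ 0 := by
    have : q ≠ 0 := by omega
    exact_mod_cast this
  have hpl : Pool.Agent.TH461.SST.Places (Matrix.of (C .I))
      ![Matrix.of (C .P), Matrix.of (C .Q)] ![p, q] := by
    refine ⟨hdet .I, ?_, ?_, ?_⟩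
    · rw [Fin.forall_fin_two]; exact ⟨hdet .P, hdet .Q⟩
    · rw [Fin.forall_fin_two]; exact ⟨hp, hq⟩
    · have h1 : Nat.Coprime q p := Nat.isCoprime_iff_coprime.1 hpq
      rw [Fin.forall_fin_two]
      constructor
      · rw [Fin.forall_fin_two]
        exact ⟨fun h => absurd rfl h, fun _ => h1.symm⟩
      · rw [Fin.forall_fin_two]
        exact ⟨fun _ => h1, fun h => absurd rfl h⟩
  obtain ⟨u, hu0, hu⟩ := hsub n 2 hn (Matrix.of (C .I)) ![Matrix.of (C .P), Matrix.of (C .Q)]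
    ![p, q] hpl c (σ / 4) hc1 (by positivity) (fun s => L (mm s)) htend
    (fun s => ![fun l => ee p H ε (L (mm s)) (w .P l), fun l => ee q H ε (L (mm s)) (w .Q l)])
    (fun s l => AA p q n H ε (L (mm s)) (w .I l))
    (fun s => size_ok hp hq hε0 (hmm s).2.2.2.1 w hH1 hH0 hσ hε1 (by linarith)
      (hmm s).2.2.2.2) x
    (by
      intro s h0
      have h1 := hx s ⟨0, hn⟩
      rw [h0] at h1
      simp only [Pi.zero_apply, Int.cast_zero] at h1
      have h2 : (D s : ℚ) ≠ 0 := by exact_mod_cast hD s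
      exact mul_ne_zero (mul_ne_zero (mul_ne_zero h2 (pow_ne_zero _ hp0)) (pow_ne_zero _ hq0))
        ((hmm s).2.2.1 ⟨0, hn⟩) h1.symm) hsol
  obtain ⟨k, rfl⟩ := hy u
  obtain ⟨s, hs1, hs2⟩ := (hu.and_eventually (eventually_gt_atTop k)).exists
  have h1 := hmy s k hs2 hu0
  apply h1
  have h2 : (((∑ l, y k l * x s l : ℤ)) : ℚ) = D s * (p : ℚ) ^ UN p H (L (mm s))
      * (q : ℚ) ^ UN q H (L (mm s)) * ∑ l, (y k l : ℚ) * a l (mm s) := by
    push_cast
    rw [Finset.mul_sum]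
    apply Finset.sum_congr rfl
    intro l _
    rw [hx]; ring
  rw [hs1, Int.cast_zero] at h2
  have h3 : (D s : ℚ) ≠ 0 := by exact_mod_cast hD s
  exact (mul_eq_zero.1 h2.symm).resolve_left
    (mul_ne_zero (mul_ne_zero h3 (pow_ne_zero _ hp0)) (pow_ne_zero _ hq0))

theorem fix (hsub : Pool.Agent.TH461.SST.SubspaceStmt) : FixStmt := by
  intro p q hp hq hpq L hL ι _ z w hind hN hv hS
  let e : ι ≃ Fin (Fintype.card ι) := Fintype.equivFin ι
  have h := fix_fin hsub p q hp hq hpq L hL (Fintype.card ι) (fun v i => z v (e.symm i))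
    (fun v i => w v (e.symm i)) ?_ ?_ (fun v i => hv v _) (fun i => hS _)
  · calc ∑ v, ∑ i, w v i = ∑ v, ∑ i, w v (e.symm i) := by
          apply Finset.sum_congr rfl
          intro v _
          exact (Equiv.sum_comp e.symm (fun i => w v i)).symm
      _ ≤ 0 := h
  · intro v c hc i
    have h1 := hind v (fun j => c (e j)) (by
      rw [← hc, ← Equiv.sum_comp e.symm]
      simp) (e.symm i)
    simpa using h1
  · intro v i
    obtain ⟨N, hN0, c, hc⟩ := hN v (e.symm i)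
    refine ⟨N, hN0, fun j => c (e.symm j), ?_⟩
    rw [hc, ← Equiv.sum_comp e.symm]

end Pool.Agent.TH932.S2.Fix
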