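import Mathlib
import Pool.Agent.TH932.S2.Stms

set_option autoImplicit false

/-!
# S2-J4: the key proposition (job 2784, helper592 for helper932)
-/

namespace Pool.Agent.TH932.S2.KP

open Filter Topology Pool.Agent.TH932.Germs Pool.Agent.TH932.S2
open scoped Pointwise

/-! ### Folner sets -/

theorem pow_lt (k : ℕ) : ∃ r : ℕ, (r + 1) ^ k < 2 ^ r := by
  have h := tendsto_pow_const_div_const_pow_of_one_lt k (by norm_num : (1 : ℝ) < 2)
  have h2 := (h.comp (tendsto_add_atTop_nat 1)).eventually_lt_const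
    (by norm_num : (0 : ℝ) < 1 / 2)
  obtain ⟨r, hr⟩ := h2.exists
  refine ⟨r, ?_⟩
  simp only [Function.comp] at hr
  rw [div_lt_iff₀ (by positivity), pow_succ] at hr
  push_cast at hr
  have : ((r : ℝ) + 1) ^ k < 2 ^ r := by linarith
  exact_mod_cast this

theorem folner {G : Type*} [AddCommGroup G] [DecidableEq G] (T : Finset G) :
    ∃ Ω : Finset G, Ω.Nonempty ∧ (Ω + T).card ≤ 2 * Ω.card := by
  set Om : ℕ → Finset G := fun r =>
    (Finset.univ : Finset (T → Fin (r + 1))).image fun m => ∑ t : T, (m t : ℕ) • (t : G) with hOm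
  have hmem : ∀ (r : ℕ) (m : T → ℕ), (∀ t, m t ≤ r) → (∑ t : T, m t • (t : G)) ∈ Om r := by
    intro r m hm
    simp only [hOm, Finset.mem_image, Finset.mem_univ, true_and]
    exact ⟨fun t => ⟨m t, Nat.lt_succ_of_le (hm t)⟩, rfl⟩
  have hex : ∀ (r : ℕ) (x : G), x ∈ Om r → ∃ m : T → ℕ, (∀ t, m t ≤ r) ∧
      x = ∑ t : T, m t • (t : G) := by
    intro r x hx
    simp only [hOm, Finset.mem_image, Finset.mem_univ, true_and] at hx
    obtain ⟨m, rfl⟩ := hx
    exact ⟨fun t => m t, fun t => Nat.le_of_lt_succ (m t).2, rfl⟩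
  have hne : ∀ r, (Om r).Nonempty := fun r => ⟨_, hmem r (fun _ => 0) fun _ => Nat.zero_le _⟩
  have hcard : ∀ r, (Om r).card ≤ (r + 1) ^ T.card := by
    intro r
    refine Finset.card_image_le.trans ?_
    simp
  have hsub : ∀ r, Om r + T ⊆ Om (r + 1) := by
    intro r x hx
    obtain ⟨a, ha, t, ht, rfl⟩ := Finset.mem_add.1 hx
    obtain ⟨m, hm, rfl⟩ := hex r a ha
    have e : (∑ s : T, m s • (s : G)) + t =
        ∑ s : T, (m s + if s = ⟨t, ht⟩ then 1 else 0) • (s : G) := by
      simp only [add_smul, Finset.sum_add_distrib, ite_smul, one_smul, zero_smul,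
        Finset.sum_ite_eq', Finset.mem_univ, if_true]
    rw [e]
    refine hmem _ _ fun s => ?_
    have := hm s
    split_ifs <;> omega
  by_contra hcon
  push Not at hcon
  have h1 : ∀ r, 2 ^ r ≤ (Om r).card := by
    intro r
    induction r with
    | zero => simpa using (hne 0).card_pos
    | succ r ih =>
        have h2 := hcon (Om r) (hne r)
        have h3 := Finset.card_le_card (hsub r)
        rw [pow_succ]
        omega
  obtain ⟨r, hr⟩ := pow_lt T.card
  have := (h1 r).trans (hcard r)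
  omega

/-! ### the order -/

section order
variable {p q : ℕ}

/-- second coordinate of the order -/
def psi : Pl → ℝ × ℝ → ℝ
  | .P, g => g.2
  | .Q, g => g.1
  | .I, g => g.1

/-- the order -/
noncomputable def key (p q : ℕ) (v : Pl) (g : ℝ × ℝ) : ℝ ×ₗ ℝ := toLex (lv p q v g, psi v g)

theorem key_add (v : Pl) (g h : ℝ × ℝ) : key p q v (g + h) = key p q v g + key p q v h := by
  unfold key
  rw [lv_add]
  cases v <;> rfl

theorem key_inj (hp : 2 ≤ p) (hq : 2 ≤ q) (v : Pl) : Function.Injective (key p q v) := by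
  have hlp : Real.log p ≠ 0 := (Real.log_pos (by exact_mod_cast hp)).ne'
  have hlq : Real.log q ≠ 0 := (Real.log_pos (by exact_mod_cast hq)).ne'
  intro g h hgh
  have h1 := toLex.injective hgh
  rw [Prod.mk.injEq] at h1
  obtain ⟨h1, h2⟩ := h1
  cases v
  · simp only [lv, psi] at h1 h2
    exact Prod.ext (mul_right_cancel₀ hlp h1) h2
  · simp only [lv, psi] at h1 h2
    exact Prod.ext h2 (mul_right_cancel₀ hlq (neg_injective h1))
  · simp only [lv, psi] at h1 h2
    refine Prod.ext h2 (mul_right_cancel₀ hlq ?_)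
    rw [h2] at h1
    linarith

theorem uniq (hp : 2 ≤ p) (hq : 2 ≤ q) (v : Pl) {A B : Finset (ℝ × ℝ)} {a b : ℝ × ℝ}
    (ha : ∀ x ∈ A, key p q v a ≤ key p q v x) (hb : ∀ x ∈ B, key p q v b ≤ key p q v x) :
    UniqueAdd A B a b := by
  intro x y hx hy hxy
  have h1 := ha x hx
  have h2 := hb y hy
  have h3 : key p q v x + key p q v y = key p q v a + key p q v b := by
    rw [← key_add, ← key_add, hxy]
  have h4 : key p q v x = key p q v a := by
    refine le_antisymm ?_ h1
    by_contra hcon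
    rw [not_le] at hcon
    exact absurd h3 (add_lt_add_of_lt_of_le hcon h2).ne'
  have h5 : key p q v y = key p q v b := by
    rw [h4] at h3
    exact add_left_cancel h3
  exact ⟨key_inj hp hq v h4, key_inj hp hq v h5⟩

theorem key_le {v : Pl} {g h : ℝ × ℝ} (hgh : key p q v g ≤ key p q v h) :
    lv p q v g ≤ lv p q v h := by
  unfold key at hgh
  rcases (Prod.Lex.toLex_le_toLex.1 hgh) with h1 | h1
  · exact h1.le
  · exact h1.1.le

end order

/-! ### linear independence -/

section li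
variable {L : ℕ → ℝ} {p q : ℕ} (hL : Tendsto L atTop atTop)

theorem coeff_sum_eq {ι : Type*} [Fintype ι] (P : ι → Prop) [DecidablePred P] (f : ι → ℝ × ℝ)
    (hf : Function.Injective f) (c : ι → KK L hL) (i : ι) (hP : P i) :
    (∑ g, if P g then (AddMonoidAlgebra.single (f g) (c g) : Rg hL) else 0).coeff (f i) = c i := by
  rw [AddMonoidAlgebra.coeff_sum, Finsupp.finsetSum_apply, Finset.sum_eq_single i]
  · rw [if_pos hP, AddMonoidAlgebra.coeff_single, Finsupp.single_eq_same]
  · intro b _ hb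
    by_cases hPb : P b
    · rw [if_pos hPb, AddMonoidAlgebra.coeff_single, Finsupp.single_eq_of_ne]
      exact fun h => hb (hf h.symm)
    · rw [if_neg hPb]; rfl
  · intro h; exact absurd (Finset.mem_univ i) h

theorem coeff_sum_ne {ι : Type*} [Fintype ι] (P : ι → Prop) [DecidablePred P] (f : ι → ℝ × ℝ)
    (c : ι → KK L hL) (x : ℝ × ℝ) (hx : ∀ i, P i → f i ≠ x) :
    (∑ g, if P g then (AddMonoidAlgebra.single (f g) (c g) : Rg hL) else 0).coeff x = 0 := by
  rw [AddMonoidAlgebra.coeff_sum, Finsupp.finsetSum_apply]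
  refine Finset.sum_eq_zero fun b _ => ?_
  by_cases hPb : P b
  · rw [if_pos hPb, AddMonoidAlgebra.coeff_single, Finsupp.single_eq_of_ne]
    exact fun h => hx b hPb h.symm
  · rw [if_neg hPb]; rfl

variable (hp : 2 ≤ p) (hq : 2 ≤ q)

theorem ev_sum {ι : Type*} [Fintype ι] (P : ι → Prop) [DecidablePred P] (f : ι → ℝ × ℝ)
    (c : ι → KK L hL) :
    ev2 hL hp hq (∑ g, if P g then (AddMonoidAlgebra.single (f g) (c g) : Rg hL) else 0) =
      ∑ g, if P g then (c g : GG) * ch2 hL hp hq (f g) else 0 := by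
  rw [map_sum]
  refine Finset.sum_congr rfl fun g _ => ?_
  split_ifs
  · rw [ev2_single]
  · rw [map_zero]

variable {J : Type} [Fintype J] (ζ : J → GG)

theorem li_e (hind : ∀ A : J → Rg hL, ∑ j, ev2 hL hp hq (A j) * ζ j = 0 → ∀ j, A j = 0)
    (W : Finset (ℝ × ℝ)) (c : W × J → KK L hL)
    (h : ∑ i, (c i : GG) * (ch2 hL hp hq i.1 * ζ i.2) = 0) : ∀ i, c i = 0 := by
  classical
  set B : J → Rg hL := fun j => ∑ g : W, if True then
    (AddMonoidAlgebra.single (g : ℝ × ℝ) (c (g, j)) : Rg hL) else 0 with hB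
  have h1 : ∑ j, ev2 hL hp hq (B j) * ζ j = 0 := by
    rw [← h, Fintype.sum_prod_type_right]
    refine Finset.sum_congr rfl fun j _ => ?_
    rw [hB]
    simp only []
    rw [ev_sum hL hp hq (fun _ : W => True) (fun g : W => (g : ℝ × ℝ)) (fun g => c (g, j)),
      Finset.sum_mul]
    refine Finset.sum_congr rfl fun g _ => ?_
    rw [if_pos trivial, mul_assoc]
  intro i
  have h2 := hind B h1 i.2
  have h3 := coeff_sum_eq hL (fun _ : W => True) (fun g : W => (g : ℝ × ℝ))
    Subtype.val_injective (fun g => c (g, i.2)) i.1 trivial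
  have h4 : (B i.2).coeff (i.1 : ℝ × ℝ) = 0 := by rw [h2]; rfl
  exact h3.symm.trans h4

theorem li_z [DecidableEq J] (v : Pl)
    (hind : ∀ A : J → Rg hL, ∑ j, ev2 hL hp hq (A j) * ζ j = 0 → ∀ j, A j = 0)
    (A : J → Rg hL) (j0 : J) (γ : ℝ × ℝ) (hγ0 : (A j0).coeff γ ≠ 0)
    (hγ : ∀ x ∈ (A j0).coeff.support, key p q v γ ≤ key p q v x)
    (W Ω : Finset (ℝ × ℝ)) [DecidablePred fun g : ℝ × ℝ => g - γ ∈ Ω]
    (c : W × J → KK L hL)
    (h : ∑ i : W × J, (c i : GG) * (if i.2 = j0 ∧ (i.1 : ℝ × ℝ) - γ ∈ Ω then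
      ch2 hL hp hq (i.1 - γ) * ∑ j, ev2 hL hp hq (A j) * ζ j else ch2 hL hp hq i.1 * ζ i.2) = 0) :
    ∀ i, c i = 0 := by
  classical
  set F := ∑ j, ev2 hL hp hq (A j) * ζ j with hF
  set N : J → Rg hL := fun j => ∑ g : W, if ¬ (j = j0 ∧ (g : ℝ × ℝ) - γ ∈ Ω) then
    (AddMonoidAlgebra.single (g : ℝ × ℝ) (c (g, j)) : Rg hL) else 0 with hN
  set D : Rg hL := ∑ g : W, if (g : ℝ × ℝ) - γ ∈ Ω then
    (AddMonoidAlgebra.single ((g : ℝ × ℝ) - γ) (c (g, j0)) : Rg hL) else 0 with hD
  have h1 : ∑ j, ev2 hL hp hq (N j + D * A j) * ζ j = 0 := by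
    rw [← h, Fintype.sum_prod_type_right]
    have e1 : ∀ j, ev2 hL hp hq (N j + D * A j) * ζ j =
        (∑ g : W, if ¬ (j = j0 ∧ (g : ℝ × ℝ) - γ ∈ Ω) then
          (c (g, j) : GG) * ch2 hL hp hq (g : ℝ × ℝ) * ζ j else 0) +
        ev2 hL hp hq D * (ev2 hL hp hq (A j) * ζ j) := by
      intro j
      rw [map_add, map_mul, add_mul, mul_assoc]
      congr 1
      rw [hN]
      simp only []
      rw [ev_sum hL hp hq (fun g : W => ¬ (j = j0 ∧ (g : ℝ × ℝ) - γ ∈ Ω))
        (fun g : W => (g : ℝ × ℝ)) (fun g => c (g, j)), Finset.sum_mul]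
      refine Finset.sum_congr rfl fun g _ => ?_
      rw [ite_mul, zero_mul]
    simp only [e1]
    rw [Finset.sum_add_distrib, ← Finset.mul_sum, ← hF]
    have e2 : ev2 hL hp hq D * F = ∑ j, ∑ g : W, if (j = j0 ∧ (g : ℝ × ℝ) - γ ∈ Ω) then
        (c (g, j) : GG) * (ch2 hL hp hq ((g : ℝ × ℝ) - γ) * F) else 0 := by
      rw [Finset.sum_eq_single j0]
      · rw [hD, ev_sum hL hp hq (fun g : W => (g : ℝ × ℝ) - γ ∈ Ω)
          (fun g : W => (g : ℝ × ℝ) - γ) (fun g => c (g, j0)), Finset.sum_mul]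
        refine Finset.sum_congr rfl fun g _ => ?_
        simp only [true_and]
        split_ifs
        · rw [mul_assoc]
        · rw [zero_mul]
      · intro b _ hb
        refine Finset.sum_eq_zero fun g _ => ?_
        rw [if_neg (fun h => hb h.1)]
      · intro h; exact absurd (Finset.mem_univ j0) h
    rw [e2, ← Finset.sum_add_distrib]
    refine Finset.sum_congr rfl fun j _ => ?_
    rw [← Finset.sum_add_distrib]
    refine Finset.sum_congr rfl fun g _ => ?_
    by_cases hs : j = j0 ∧ (g : ℝ × ℝ) - γ ∈ Ω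
    · rw [if_neg (not_not.2 hs), if_pos hs, if_pos hs, zero_add]
    · rw [if_pos hs, if_neg hs, if_neg hs, add_zero, mul_assoc]
  have h2 := hind _ h1
  have hDγ : ∀ ω ∈ Ω, ∀ hw : ω + γ ∈ W, D.coeff ω = c (⟨ω + γ, hw⟩, j0) := by
    intro ω hω hw
    have h3 := coeff_sum_eq hL (fun g : W => (g : ℝ × ℝ) - γ ∈ Ω) (fun g : W => (g : ℝ × ℝ) - γ)
      (fun a b hab => Subtype.ext (sub_left_injective hab)) (fun g => c (g, j0)) ⟨ω + γ, hw⟩
      (by simpa using hω)
    simp only [add_sub_cancel_right] at h3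
    exact h3
  have hDs : ∀ x, D.coeff x ≠ 0 → x ∈ Ω := by
    intro x hx
    by_contra hcon
    refine hx ?_
    refine coeff_sum_ne hL (fun g : W => (g : ℝ × ℝ) - γ ∈ Ω) (fun g : W => (g : ℝ × ℝ) - γ)
      (fun g => c (g, j0)) x fun g hg hgx => hcon ?_
    rw [← hgx]; exact hg
  have hD0 : D = 0 := by
    by_contra hne
    have hsup : D.coeff.support.Nonempty := by
      rw [Finset.nonempty_iff_ne_empty, Ne, Finsupp.support_eq_empty]
      intro h0
      exact hne (AddMonoidAlgebra.coeff_injective h0)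
    obtain ⟨ω, hω, hmin⟩ := Finset.exists_min_image _ (key p q v) hsup
    have hωD : D.coeff ω ≠ 0 := Finsupp.mem_support_iff.1 hω
    have hωΩ := hDs ω hωD
    have hu := uniq hp hq v hmin hγ
    have h3 := AddMonoidAlgebra.coeff_mul_add_of_uniqueAdd hu
    have h4 : (N j0).coeff (ω + γ) = 0 := by
      refine coeff_sum_ne hL (fun g : W => ¬ (j0 = j0 ∧ (g : ℝ × ℝ) - γ ∈ Ω))
        (fun g : W => (g : ℝ × ℝ)) (fun g => c (g, j0)) _ fun g hg hgx => hg ⟨rfl, ?_⟩
      rw [hgx, add_sub_cancel_right]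
      exact hωΩ
    have h5 : (N j0 + D * A j0).coeff (ω + γ) = 0 := by rw [h2 j0]; rfl
    rw [AddMonoidAlgebra.coeff_add, Finsupp.add_apply, h4, zero_add, h3] at h5
    exact mul_ne_zero hωD hγ0 h5
  intro i
  by_cases hs : i.2 = j0 ∧ (i.1 : ℝ × ℝ) - γ ∈ Ω
  · have h3 := hDγ _ hs.2 (by rw [sub_add_cancel]; exact i.1.2)
    rw [hD0] at h3
    have h4 : ((⟨(i.1 : ℝ × ℝ) - γ + γ, by rw [sub_add_cancel]; exact i.1.2⟩ : W), j0) = i := by
      refine Prod.ext (Subtype.ext ?_) hs.1.symm
      simp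
    rw [h4] at h3
    exact h3.symm
  · have h3 := h2 i.2
    rw [hD0, zero_mul, add_zero] at h3
    have h4 := coeff_sum_eq hL (fun g : W => ¬ (i.2 = j0 ∧ (g : ℝ × ℝ) - γ ∈ Ω))
      (fun g : W => (g : ℝ × ℝ)) Subtype.val_injective (fun g => c (g, i.2)) i.1 hs
    have h5 : (N i.2).coeff (i.1 : ℝ × ℝ) = 0 := by rw [h3]; rfl
    exact h4.symm.trans h5

end li

theorem span_swap {K V ι : Type*} [Field K] [AddCommGroup V] [Module K V] [Fintype ι] (e z : ι → V)
    (he : LinearIndependent K e) (hz : LinearIndependent K z)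
    (h : ∀ i, z i ∈ Submodule.span K (Set.range e)) (i : ι) :
    e i ∈ Submodule.span K (Set.range z) := by
  have hle : Submodule.span K (Set.range z) ≤ Submodule.span K (Set.range e) :=
    Submodule.span_le.2 (by rintro _ ⟨i, rfl⟩; exact h i)
  have : FiniteDimensional K (Submodule.span K (Set.range e)) :=
    FiniteDimensional.span_of_finite K (Set.finite_range e)
  have h1 : Module.finrank K (Submodule.span K (Set.range z)) =
      Module.finrank K (Submodule.span K (Set.range e)) := by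
    rw [finrank_span_eq_card hz, finrank_span_eq_card he]
  rw [Submodule.eq_of_le_of_finrank_eq hle h1]
  exact Submodule.subset_span ⟨i, rfl⟩

theorem kp (h : MovStmt) (hsu : SUStmt) : KPStmt := by
  intro p q hp hq hpq L hL v J _ ζ C hind hval hsint
  classical
  refine ⟨6 * |C| * Fintype.card J, fun A x hx j g hg => ?_⟩
  set T : Finset (ℝ × ℝ) := Finset.univ.biUnion fun j => (A j).coeff.support with hT
  have hgT : g ∈ T := Finset.mem_biUnion.2 ⟨j, Finset.mem_univ j, Finsupp.mem_support_iff.2 hg⟩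
  obtain ⟨γ, hγT, hγmin⟩ := Finset.exists_min_image T (key p q v) ⟨g, hgT⟩
  obtain ⟨j0, _, hj0⟩ := Finset.mem_biUnion.1 hγT
  have hγ0 : (A j0).coeff γ ≠ 0 := Finsupp.mem_support_iff.1 hj0
  have hγm : ∀ x ∈ (A j0).coeff.support, key p q v γ ≤ key p q v x := fun x hx =>
    hγmin x (Finset.mem_biUnion.2 ⟨j0, Finset.mem_univ _, hx⟩)
  obtain ⟨Ω, hΩne, hΩ⟩ := folner T
  set W := Ω + T with hW
  set F := ∑ j, ev2 hL hp hq (A j) * ζ j with hF
  have hval' : ∀ u j, ζ j ∈ Sv L p q u (-|C|) := fun u j =>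
    (filt_v hL hp hq u).anti (neg_le_neg (le_abs_self C)) (hval u j)
  set e : W × J → GG := fun i => ch2 hL hp hq i.1 * ζ i.2 with he
  set z' : W × J → GG := fun i => if i.2 = j0 ∧ (i.1 : ℝ × ℝ) - γ ∈ Ω then
      ch2 hL hp hq (i.1 - γ) * F else ch2 hL hp hq i.1 * ζ i.2 with hz'
  set z : Pl → W × J → GG := fun u => if u = v then z' else e with hz
  set w : Pl → W × J → ℝ := fun u i => if u = v ∧ (i.2 = j0 ∧ (i.1 : ℝ × ℝ) - γ ∈ Ω) then
      lv p q u (i.1 - γ) + x else lv p q u i.1 - |C| with hw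
  have hlie : ∀ c : W × J → KK L hL, ∑ i, (c i : GG) * e i = 0 → ∀ i, c i = 0 := fun c hc =>
    li_e hL hp hq ζ hind W c hc
  have hliz : ∀ c : W × J → KK L hL, ∑ i, (c i : GG) * z' i = 0 → ∀ i, c i = 0 := fun c hc =>
    li_z hL hp hq ζ v hind A j0 γ hγ0 hγm W Ω c hc
  have hLe : LinearIndependent (KK L hL) e := Fintype.linearIndependent_iff.2 hlie
  have hLz : LinearIndependent (KK L hL) z' := Fintype.linearIndependent_iff.2 hliz
  have hze : ∀ i, z' i ∈ Submodule.span (KK L hL) (Set.range e) := by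
    intro i
    rw [hz']
    simp only []
    split_ifs with hs
    · rw [hF, Finset.mul_sum]
      refine Submodule.sum_mem _ fun j _ => ?_
      rw [ev2_sum, Finset.sum_mul, Finset.mul_sum]
      refine Submodule.sum_mem _ fun t ht => ?_
      have htW : (i.1 : ℝ × ℝ) - γ + t ∈ W := Finset.add_mem_add hs.2
        (Finset.mem_biUnion.2 ⟨j, Finset.mem_univ _, ht⟩)
      have e1 : ch2 hL hp hq (i.1 - γ) * (((A j).coeff t : GG) * ch2 hL hp hq t * ζ j) =
          ((A j).coeff t) • e (⟨(i.1 : ℝ × ℝ) - γ + t, htW⟩, j) := by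
        rw [Subfield.smul_def, smul_eq_mul, he]
        simp only []
        rw [ch2_add]
        ring
      rw [e1]
      exact Submodule.smul_mem _ _ (Submodule.subset_span ⟨_, rfl⟩)
    · exact Submodule.subset_span ⟨i, rfl⟩
  have hspan : ∀ u i, z u i ∈ Submodule.span (KK L hL) (Set.range (z .I)) := by
    intro u i
    by_cases hvI : v = .I
    · have hzI : z .I = z' := by rw [hz]; simp only []; rw [if_pos hvI.symm]
      rw [hzI, hz]
      simp only []
      split_ifs
      · exact Submodule.subset_span ⟨i, rfl⟩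
      · exact span_swap e z' hLe hLz hze i
    · have hzI : z .I = e := by rw [hz]; simp only []; rw [if_neg (Ne.symm hvI)]
      rw [hzI, hz]
      simp only []
      split_ifs
      · exact hze i
      · exact Submodule.subset_span ⟨i, rfl⟩
  have hmem : ∀ u i, z u i ∈ Sv L p q u (w u i) := by
    intro u i
    have hord : ch2 hL hp hq i.1 * ζ i.2 ∈ Sv L p q u (lv p q u i.1 - |C|) := by
      have := (filt_v hL hp hq u).mul_mem (ch2_mem hL hp hq hpq u i.1) (hval' u i.2)
      rw [← sub_eq_add_neg] at this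
      exact this
    rw [hz, hw]
    simp only []
    by_cases huv : u = v
    · subst huv
      rw [if_pos rfl, hz']
      simp only [true_and]
      split_ifs with hs
      · exact (filt_v hL hp hq u).mul_mem (ch2_mem hL hp hq hpq u _) hx
      · exact hord
    · rw [if_neg huv, if_neg (fun h => huv h.1)]
      exact hord
  have hFs : Sint L p q F := Sint.sum hL hp hq _ _ fun j _ =>
    Sint.mul hL hp hq (ev2_sint hL hp hq _) (hsint j)
  have hint : ∀ i, Sint L p q (z .I i) := by
    intro i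
    have hord : Sint L p q (ch2 hL hp hq i.1 * ζ i.2) :=
      Sint.mul hL hp hq (ch2_sint hL hp hq _) (hsint _)
    rw [hz]
    simp only []
    split_ifs
    · rw [hz']
      simp only []
      split_ifs
      · exact Sint.mul hL hp hq (ch2_sint hL hp hq _) hFs
      · exact hord
    · exact hord
  have hmain := h p q hp hq hpq L hL (W × J) inferInstance z w
    (fun u c hc => by
      by_cases huv : u = v
      · have : z u = z' := by rw [hz]; simp only []; rw [if_pos huv]
        rw [this] at hc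
        exact hliz c hc
      · have : z u = e := by rw [hz]; simp only []; rw [if_neg huv]
        rw [this] at hc
        exact hlie c hc)
    (fun u i => by
      obtain ⟨c, hc⟩ := (Submodule.mem_span_range_iff_exists_fun (KK L hL)).1 (hspan u i)
      exact ⟨c, hc.symm⟩)
    hmem hint
  -- the sum of the weights
  set X : ℝ := x - lv p q v γ + |C| with hX
  have hwe : ∀ u i, w u i = (lv p q u i.1 - |C|) +
      if u = v then (if (i.2 = j0 ∧ (i.1 : ℝ × ℝ) - γ ∈ Ω) then X else 0) else 0 := by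
    intro u i
    rw [hw]
    simp only []
    by_cases huv : u = v
    · subst huv
      simp only [true_and, if_true]
      split_ifs
      · rw [hX, sub_eq_add_neg (i.1 : ℝ × ℝ) γ, lv_add, lv_neg]
        ring
      · ring
    · rw [if_neg (fun h => huv h.1), if_neg huv, add_zero]
  have hsum : ∑ u, ∑ i, w u i = -(3 * |C| * ((W.card : ℝ) * Fintype.card J)) +
      ((Finset.univ.filter fun i : W × J => i.2 = j0 ∧ (i.1 : ℝ × ℝ) - γ ∈ Ω).card : ℝ) * X := by
    simp only [hwe]
    rw [Finset.sum_comm]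
    simp only [Finset.sum_add_distrib, Finset.sum_sub_distrib, lv_sum, Finset.sum_ite_eq',
      Finset.sum_ite_eq, Finset.mem_univ, if_true]
    rw [← Finset.sum_filter, Finset.sum_const, nsmul_eq_mul]
    have e3 : (Finset.univ : Finset Pl).card = 3 := rfl
    simp only [Finset.sum_const, nsmul_eq_mul, e3, Finset.card_univ, Fintype.card_prod,
      Fintype.card_coe]
    push_cast
    ring
  have hcardΩ : Ω.card ≤ (Finset.univ.filter fun i : W × J =>
      i.2 = j0 ∧ (i.1 : ℝ × ℝ) - γ ∈ Ω).card := by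
    rw [← Finset.card_attach]
    refine Finset.card_le_card_of_injOn (fun ω => (⟨ω.1 + γ, Finset.add_mem_add ω.2 hγT⟩, j0))
      ?_ ?_
    · intro ω _
      simp
    · intro a _ b _ hab
      have h1 := congrArg (fun i : W × J => (i.1 : ℝ × ℝ)) hab
      simp only [add_left_inj] at h1
      exact Subtype.ext h1
  rw [hsum] at hmain
  by_contra hcon
  rw [not_le] at hcon
  have hlv : lv p q v γ ≤ lv p q v g := key_le (hγmin g hgT)
  have hC := abs_nonneg C
  have hJ : (0 : ℝ) ≤ Fintype.card J := by positivity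
  have hX1 : 6 * |C| * Fintype.card J < X := by
    rw [hX]; linarith
  have hX0 : 0 ≤ X := le_trans (by positivity) hX1.le
  have hΩ1 : (1 : ℝ) ≤ Ω.card := by exact_mod_cast hΩne.card_pos
  have hc1 : (Ω.card : ℝ) ≤ ((Finset.univ.filter fun i : W × J =>
      i.2 = j0 ∧ (i.1 : ℝ × ℝ) - γ ∈ Ω).card : ℝ) := by exact_mod_cast hcardΩ
  have hc2 : (W.card : ℝ) ≤ 2 * Ω.card := by exact_mod_cast hΩ
  have h5 : (Ω.card : ℝ) * X ≤ 3 * |C| * ((W.card : ℝ) * Fintype.card J) := by
    have := mul_le_mul_of_nonneg_right hc1 hX0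
    linarith
  have h6 : 3 * |C| * ((W.card : ℝ) * Fintype.card J) ≤
      3 * |C| * ((2 * Ω.card : ℝ) * Fintype.card J) := by gcongr
  have h7 : (Ω.card : ℝ) * (6 * |C| * Fintype.card J) < Ω.card * X :=
    mul_lt_mul_of_pos_left hX1 (by linarith)
  nlinarith

end Pool.Agent.TH932.S2.KP
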