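import Mathlib
import Pool.Agent.TH932.S2.Stms

set_option autoImplicit false

namespace Pool.Agent.TH932.S2.Mov

open Filter Topology Pool.Agent.TH932.Germs Pool.Agent.TH932.S2

/-! ## a growth argument -/

lemma growth (f : ℕ → ℕ) (N : ℕ) (h0 : ∀ r, 0 < f r) (hN : ∀ r, f r ≤ (r + 1) ^ N)
    (η : ℝ) (hη : 0 < η) : ∃ r, (f (r + 1) : ℝ) ≤ (1 + η) * f r := by
  by_contra h
  push Not at h
  have h1 : ∀ r, (1 + η) ^ r ≤ (f r : ℝ) := by
    intro r
    induction r with
    | zero =>
      have h00 := h0 0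
      rw [pow_zero]
      exact_mod_cast h00
    | succ r ih =>
      calc (1 + η) ^ (r + 1) = (1 + η) * (1 + η) ^ r := by ring
        _ ≤ (1 + η) * f r := by gcongr
        _ ≤ f (r + 1) := (h r).le
  have h2 := tendsto_pow_const_div_const_pow_of_one_lt N (show (1 : ℝ) < 1 + η by linarith)
  have h3 := (tendsto_order.1 h2).2 (1 / (1 + η)) (by positivity)
  obtain ⟨n0, hn0⟩ := eventually_atTop.1 h3
  have h4 := hn0 (n0 + 1) (by omega)
  have h5 : (0 : ℝ) < (1 + η) ^ (n0 + 1) := by positivity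
  rw [div_lt_div_iff₀ h5 (by positivity)] at h4
  have h6 := h1 n0
  have h7 : (f n0 : ℝ) ≤ ((n0 : ℝ) + 1) ^ N := by exact_mod_cast hN n0
  have h8 : (1 + η) ^ (n0 + 1) ≤ ((n0 : ℝ) + 1) ^ N * (1 + η) := by
    rw [pow_succ]
    gcongr
    linarith
  push_cast at h4
  linarith

/-! ## the spaces of Steinmetz -/

section W
variable {K : Type*} [Field K] [CharZero K] {T : Type*} [Fintype T] (a : T → K)

/-- the monomials -/
def mon (r : ℕ) (n : T → Fin (r + 1)) : K := ∏ t, a t ^ (n t : ℕ)

/-- their span -/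
noncomputable def W (r : ℕ) : Submodule ℚ K := Submodule.span ℚ (Set.range (mon a r))

lemma W_fin (r : ℕ) : FiniteDimensional ℚ (W a r) :=
  FiniteDimensional.span_of_finite ℚ (Set.finite_range _)

lemma one_mem_W (r : ℕ) : (1 : K) ∈ W a r := by
  apply Submodule.subset_span
  exact ⟨fun _ => 0, by simp [mon]⟩

lemma W_le (r : ℕ) : W a r ≤ W a (r + 1) := by
  unfold W
  rw [Submodule.span_le]
  rintro _ ⟨n, rfl⟩
  apply Submodule.subset_span
  exact ⟨fun t => (n t).castSucc, by simp [mon]⟩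

lemma mul_mem_W [DecidableEq T] (r : ℕ) (t : T) (x : K) (hx : x ∈ W a r) :
    a t * x ∈ W a (r + 1) := by
  unfold W at hx
  induction hx using Submodule.span_induction with
  | mem x hx =>
    obtain ⟨n, rfl⟩ := hx
    apply Submodule.subset_span
    refine ⟨fun s => if s = t then (n s).succ else (n s).castSucc, ?_⟩
    unfold mon
    rw [← Finset.mul_prod_erase _ _ (Finset.mem_univ t),
      ← Finset.mul_prod_erase _ (fun s => a s ^ (n s : ℕ)) (Finset.mem_univ t), ← mul_assoc]
    congr 1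
    · simp [pow_succ, mul_comm]
    · apply Finset.prod_congr rfl
      intro s hs
      simp [Finset.ne_of_mem_erase hs]
  | zero => simp
  | add x y _ _ hx hy => rw [mul_add]; exact Submodule.add_mem _ hx hy
  | smul c x _ hx => rw [mul_smul_comm]; exact Submodule.smul_mem _ _ hx

lemma finrank_W (r : ℕ) : Module.finrank ℚ (W a r) ≤ (r + 1) ^ Fintype.card T := by
  classical
  have h := finrank_range_le_card (R := ℚ) (mon a r)
  rw [Fintype.card_fun, Fintype.card_fin] at h
  exact h

lemma exists_W (η : ℝ) (hη : 0 < η) : ∃ W W' : Submodule ℚ K, FiniteDimensional ℚ W ∧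
    FiniteDimensional ℚ W' ∧ W ≤ W' ∧ (1 : K) ∈ W ∧ (∀ t, ∀ x ∈ W, a t * x ∈ W') ∧
    0 < Module.finrank ℚ W ∧ (Module.finrank ℚ W' : ℝ) ≤ (1 + η) * Module.finrank ℚ W := by
  classical
  have hpos : ∀ r, 0 < Module.finrank ℚ (W a r) := by
    intro r
    have := W_fin a r
    rw [Module.finrank_pos_iff_exists_ne_zero]
    refine ⟨⟨1, one_mem_W a r⟩, fun h => ?_⟩
    exact one_ne_zero (congrArg Subtype.val h)
  obtain ⟨r, hr⟩ := growth (fun r => Module.finrank ℚ (W a r)) (Fintype.card T) hpos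
    (finrank_W a) η hη
  exact ⟨W a r, W a (r + 1), W_fin a r, W_fin a (r + 1), W_le a r, one_mem_W a r,
    fun t x hx => mul_mem_W a r t x hx, hpos r, hr⟩

end W

/-! ## the exchange -/

lemma extend {G : Type*} [AddCommGroup G] [Module ℚ G] {α β : Type*} [Fintype α] [Fintype β]
    (u : α → G) (y : β → G) (hu : LinearIndependent ℚ u)
    (hy : LinearIndependent ℚ y)
    (hm : ∀ i, u i ∈ Submodule.span ℚ (Set.range y)) (e : ℕ)
    (he : e = Fintype.card β - Fintype.card α) :
    ∃ g : Fin e → G, (∀ k, g k ∈ Set.range y) ∧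
      LinearIndependent ℚ (Sum.elim u g) ∧
      Submodule.span ℚ (Set.range (Sum.elim u g)) = Submodule.span ℚ (Set.range y) ∧
      Fintype.card α ≤ Fintype.card β := by
  classical
  have hus : LinearIndepOn ℚ id (Set.range u) := hu.linearIndepOn_id
  obtain ⟨B, hBt, hsB, htB, hB⟩ := exists_linearIndepOn_id_extension hus
    (Set.subset_union_left : Set.range u ⊆ Set.range u ∪ Set.range y)
  have hfin : B.Finite := ((Set.finite_range u).union (Set.finite_range y)).subset hBt
  have : Fintype B := hfin.fintype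
  have hspan : Submodule.span ℚ B = Submodule.span ℚ (Set.range y) := by
    apply le_antisymm
    · rw [Submodule.span_le]
      intro x hx
      rcases hBt hx with h | h
      · obtain ⟨i, rfl⟩ := h
        exact hm i
      · exact Submodule.subset_span h
    · rw [Submodule.span_le]
      exact Set.subset_union_right.trans htB
  have hcard : B.toFinset.card = Fintype.card β := by
    rw [← finrank_span_set_eq_card hB, hspan, finrank_span_eq_card hy]
  have hsub : Finset.univ.image u ⊆ B.toFinset := by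
    intro x hx
    obtain ⟨i, -, rfl⟩ := Finset.mem_image.1 hx
    rw [Set.mem_toFinset]
    exact hsB ⟨i, rfl⟩
  have hcu : (Finset.univ.image u).card = Fintype.card α := by
    rw [Finset.card_image_of_injective _ hu.injective, Finset.card_univ]
  have hle : Fintype.card α ≤ Fintype.card β := by
    rw [← hcard, ← hcu]; exact Finset.card_le_card hsub
  set R := B.toFinset \ Finset.univ.image u with hR
  have hRc : R.card = e := by
    rw [hR, Finset.card_sdiff_of_subset hsub, hcard, hcu, he]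
  let en := R.equivFinOfCardEq hRc
  have hmemR : ∀ k, (en.symm k : G) ∈ B ∧ (en.symm k : G) ∉ Set.range u := by
    intro k
    have this := Finset.mem_sdiff.1 (show ((en.symm k : R) : G) ∈
      B.toFinset \ Finset.univ.image u from (en.symm k).2)
    rw [Set.mem_toFinset] at this
    refine ⟨this.1, fun h => this.2 ?_⟩
    obtain ⟨i, hi⟩ := h
    exact Finset.mem_image.2 ⟨i, Finset.mem_univ _, hi⟩
  refine ⟨fun k => (en.symm k : G), ?_, ?_, ?_, hle⟩
  · intro k
    rcases hBt (hmemR k).1 with h | h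
    · exact absurd h (hmemR k).2
    · exact h
  · let F : α ⊕ Fin e → B :=
      Sum.elim (fun i => ⟨u i, hsB ⟨i, rfl⟩⟩) (fun k => ⟨(en.symm k : G), (hmemR k).1⟩)
    have hF : Function.Injective F := by
      rintro (i | k) (j | l) h
      · have := congrArg Subtype.val h
        exact congrArg Sum.inl (hu.injective this)
      · have := congrArg Subtype.val h
        exact absurd ⟨i, this⟩ (hmemR l).2
      · have := congrArg Subtype.val h
        exact absurd ⟨j, this.symm⟩ (hmemR k).2
      · have := congrArg Subtype.val h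
        exact congrArg Sum.inr (en.symm.injective (Subtype.ext this))
    have h2 : LinearIndependent ℚ (fun x : B => (x : G)) := hB
    have h3 := h2.comp F hF
    convert h3 using 1
    funext x
    rcases x with i | k <;> rfl
  · rw [← hspan]
    congr 1
    ext x
    constructor
    · rintro ⟨i | k, rfl⟩
      · exact hsB ⟨i, rfl⟩
      · exact (hmemR k).1
    · intro hx
      by_cases h : x ∈ Set.range u
      · obtain ⟨i, rfl⟩ := h
        exact ⟨Sum.inl i, rfl⟩
      · have hxR : x ∈ R := by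
          rw [hR, Finset.mem_sdiff, Set.mem_toFinset]
          refine ⟨hx, fun h' => h ?_⟩
          obtain ⟨i, -, hi⟩ := Finset.mem_image.1 h'
          exact ⟨i, hi⟩
        refine ⟨Sum.inr (en ⟨x, hxR⟩), ?_⟩
        simp

/-- clearing denominators -/
lemma clear {J : Type*} [Fintype J] (c : J → ℚ) :
    ∃ N : ℤ, N ≠ 0 ∧ ∃ c' : J → ℤ, ∀ j, (c' j : ℚ) = N * c j := by
  obtain ⟨b, hb⟩ := IsLocalization.exist_integer_multiples_of_finite (nonZeroDivisors ℤ) c
  choose c' hc' using hb
  refine ⟨b, nonZeroDivisors.coe_ne_zero b, c', fun j => ?_⟩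
  have := hc' j
  simpa using this

/-! ## the abstract statement -/

open Pool.Agent.TH932.Abs

theorem mov_abs {K G V : Type*} [Field K] [Field G] [Algebra K G] [CharZero K] [CharZero G]
    [Fintype V] (I : V) (S : V → ℝ → Set G) (hS : ∀ v, Filt K (S v)) (P : G → Prop)
    (hP : ∀ (c : K) (g : G), P g → P (algebraMap K G c * g))
    (fix : ∀ (J : Type) (_ : Fintype J) (z : V → J → G) (w : V → J → ℝ)
      (_ : ∀ v, ∀ c : J → ℤ, ∑ i, (c i : G) * z v i = 0 → ∀ i, c i = 0)
      (_ : ∀ v i, ∃ N : ℤ, N ≠ 0 ∧ ∃ c : J → ℤ, (N : G) * z v i = ∑ j, (c j : G) * z I j)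
      (_ : ∀ v i, z v i ∈ S v (w v i)) (_ : ∀ i, P (z I i)),
      ∑ v, ∑ i, w v i ≤ 0)
    (ι : Type) [Fintype ι] (z : V → ι → G) (w : V → ι → ℝ)
    (h1 : ∀ v, ∀ c : ι → K, ∑ i, algebraMap K G (c i) * z v i = 0 → ∀ i, c i = 0)
    (h2 : ∀ v i, ∃ c : ι → K, z v i = ∑ j, algebraMap K G (c j) * z I j)
    (h3 : ∀ v i, z v i ∈ S v (w v i)) (h4 : ∀ i, P (z I i))
    (C : ℝ) (hC : 0 ≤ C) (h5 : ∀ v i, z I i ∈ S v (-C)) :
    ∑ v, ∑ i, w v i ≤ 0 := by
  classical
  by_contra hσ
  push Not at hσ
  set σ := ∑ v, ∑ i, w v i with hσdef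
  choose m hm using h2
  set M : ℝ := Fintype.card V * C * Fintype.card ι with hM
  have hM0 : 0 ≤ M := by positivity
  obtain ⟨W, W', hWf, hWf', hWW, h1W, hmulW, hd0, hdd⟩ :=
    exists_W (fun t : V × ι × ι => m t.1 t.2.1 t.2.2) (σ / (2 * (M + 1))) (by positivity)
  set d := Module.finrank ℚ W with hd
  set d' := Module.finrank ℚ W' with hd'
  let bW := Module.finBasis ℚ W
  let bW' := Module.finBasis ℚ W'
  have hb : LinearIndependent ℚ (fun s => (bW s : K)) :=
    bW.linearIndependent.map' W.subtype (Submodule.ker_subtype _)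
  have hb' : LinearIndependent ℚ (fun s => (bW' s : K)) :=
    bW'.linearIndependent.map' W'.subtype (Submodule.ker_subtype _)
  have hspan' : ∀ x ∈ W', x ∈ Submodule.span ℚ (Set.range fun s => (bW' s : K)) := by
    intro x hx
    have e1 := bW'.span_eq
    have e2 : (⟨x, hx⟩ : W') ∈ Submodule.span ℚ (Set.range bW') := by rw [e1]; trivial
    have e3 := Submodule.mem_map_of_mem (f := W'.subtype) e2
    rw [Submodule.map_span, ← Set.range_comp] at e3
    exact e3
  have hzK : ∀ v, LinearIndependent K (z v) := by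
    intro v
    rw [Fintype.linearIndependent_iff]
    intro c hc
    apply h1 v c
    rw [← hc]
    apply Finset.sum_congr rfl
    intro i _
    rw [Algebra.smul_def]
  -- the big family
  let y : Fin d' × ι → G := fun p => (bW' p.1 : K) • z I p.2
  have hy : LinearIndependent ℚ y := linearIndependent_smul hb' (hzK I)
  let u : V → Fin d × ι → G := fun v p => (bW p.1 : K) • z v p.2
  have hu : ∀ v, LinearIndependent ℚ (u v) := fun v => linearIndependent_smul hb (hzK v)
  have hmem : ∀ c ∈ W', ∀ j, c • z I j ∈ Submodule.span ℚ (Set.range y) := by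
    intro c hc0 j
    have hc1 := hspan' c hc0
    clear hc0
    induction hc1 using Submodule.span_induction with
    | mem x hx =>
      obtain ⟨s, rfl⟩ := hx
      exact Submodule.subset_span ⟨(s, j), rfl⟩
    | zero => simp
    | add x y _ _ hx hy => rw [add_smul]; exact Submodule.add_mem _ hx hy
    | smul c x _ hx => rw [smul_assoc]; exact Submodule.smul_mem _ _ hx
  have hum : ∀ v i, u v i ∈ Submodule.span ℚ (Set.range y) := by
    rintro v ⟨s, i⟩
    change (bW s : K) • z v i ∈ _
    rw [hm v i, Finset.smul_sum]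
    apply Submodule.sum_mem
    intro j _
    rw [← Algebra.smul_def, smul_smul]
    apply hmem
    rw [mul_comm]
    exact hmulW (v, i, j) _ (bW s).2
  obtain ⟨e, he⟩ : ∃ e, e = Fintype.card (Fin d' × ι) - Fintype.card (Fin d × ι) := ⟨_, rfl⟩
  choose g hg1 hg2 hg3 hg4 using fun v => extend (u v) y (hu v) hy (hum v) e he
  have key := fix ((Fin d × ι) ⊕ Fin e) inferInstance (fun v => Sum.elim (u v) (g v))
    (fun v => Sum.elim (fun p => w v p.2) (fun _ => -C)) ?_ ?_ ?_ ?_
  · -- conclusion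
    have e1 : ∑ v, ∑ i, Sum.elim (fun p : Fin d × ι => w v p.2) (fun _ : Fin e => -C) i
        = d * σ - Fintype.card V * (e * C) := by
      rw [hσdef, Finset.mul_sum, ← nsmul_eq_mul, ← Finset.card_univ, ← Finset.sum_const,
        ← Finset.sum_sub_distrib]
      apply Finset.sum_congr rfl
      intro v _
      rw [Fintype.sum_sum_type]
      simp only [Sum.elim_inl, Sum.elim_inr]
      rw [Fintype.sum_prod_type]
      simp
      ring
    rw [e1] at key
    have e2 : (e : ℝ) = (d' - d) * Fintype.card ι := by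
      rw [he, Nat.cast_sub (hg4 I)]
      simp
      ring
    rw [e2] at key
    have hdpos : (0 : ℝ) < d := by exact_mod_cast hd0
    have e3 : (d' : ℝ) - d ≤ σ / (2 * (M + 1)) * d := by linarith
    have e4 : (d : ℝ) * σ ≤ M * (d' - d) := by
      rw [hM]; linarith
    have e5 : (d : ℝ) * σ ≤ M * (σ / (2 * (M + 1)) * d) := e4.trans (by gcongr)
    have e6 : M * (σ / (2 * (M + 1)) * d) = (d * σ) * (M / (2 * (M + 1))) := by
      field_simp
    rw [e6] at e5
    have e7 : M / (2 * (M + 1)) < 1 := by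
      rw [div_lt_one (by positivity)]; linarith
    have e8 : 0 < (d : ℝ) * σ := by positivity
    nlinarith
  · intro v c hc
    have := Fintype.linearIndependent_iff.1 (hg2 v) (fun i => (c i : ℚ)) ?_
    · intro i
      exact_mod_cast this i
    · rw [← hc]
      apply Finset.sum_congr rfl
      intro i _
      rw [Int.cast_smul_eq_zsmul, zsmul_eq_mul]
  · intro v i
    have e1 : Sum.elim (u v) (g v) i ∈ Submodule.span ℚ (Set.range (Sum.elim (u I) (g I))) := by
      rw [hg3 I, ← hg3 v]
      exact Submodule.subset_span ⟨i, rfl⟩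
    obtain ⟨c, hc⟩ := (Submodule.mem_span_range_iff_exists_fun ℚ).1 e1
    obtain ⟨N, hN, c', hc'⟩ := clear c
    refine ⟨N, hN, c', ?_⟩
    rw [← hc, Finset.mul_sum]
    apply Finset.sum_congr rfl
    intro j _
    rw [Algebra.smul_def, ← mul_assoc]
    congr 1
    have := congrArg (algebraMap ℚ G) (hc' j)
    rw [map_mul, map_intCast, map_intCast] at this
    exact this.symm
  · rintro v (⟨s, i⟩ | k)
    · change (bW s : K) • z v i ∈ S v (w v i)
      rw [Algebra.smul_def]
      have := (hS v).mul_mem ((hS v).alg_mem (bW s : K)) (h3 v i)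
      rwa [zero_add] at this
    · change g v k ∈ S v (-C)
      obtain ⟨⟨s, j⟩, hj⟩ := hg1 v k
      rw [← hj]
      change (bW' s : K) • z I j ∈ _
      rw [Algebra.smul_def]
      have := (hS v).mul_mem ((hS v).alg_mem (bW' s : K)) (h5 v j)
      rwa [zero_add] at this
  · rintro (⟨s, i⟩ | k)
    · change P ((bW s : K) • z I i)
      rw [Algebra.smul_def]
      exact hP _ _ (h4 i)
    · change P (g I k)
      obtain ⟨⟨s, j⟩, hj⟩ := hg1 I k
      rw [← hj]
      change P ((bW' s : K) • z I j)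
      rw [Algebra.smul_def]
      exact hP _ _ (h4 j)

/-! ## the specialisation -/

lemma zpow_toNat {b : ℚ} (hb : b ≠ 0) (k : ℤ) : b ^ k * b ^ (-k).toNat = b ^ k.toNat := by
  rw [← zpow_natCast, ← zpow_natCast, ← zpow_add₀ hb]
  congr 1
  omega

lemma Rb_of_Rpq_left {p q : ℕ} (hq : 2 ≤ q) (hpq : IsCoprime (q : ℤ) (p : ℤ))
    {L ε t : ℝ} {a : ℚ} (h : Rpq p q L ε t a) : Rb p (cop p) L ε t a := by
  obtain ⟨d, m, i, k, hd, hd1, h, h1, h2⟩ := h
  have hq0 : (q : ℚ) ≠ 0 := by
    have : q ≠ 0 := by omega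
    exact_mod_cast this
  refine ⟨d, (q : ℤ) ^ (-k).toNat, (q : ℤ) ^ k.toNat * m, i, hd, hd1, ?_, ?_, h1⟩
  · exact hpq.pow_left
  · push_cast
    rw [← zpow_toNat hq0 k]
    linear_combination (q : ℚ) ^ (-k).toNat * h

lemma Rb_of_Rpq_right {p q : ℕ} (hp : 2 ≤ p) (hpq : IsCoprime (q : ℤ) (p : ℤ))
    {L ε t : ℝ} {a : ℚ} (h : Rpq p q L ε t a) : Rb q (cop q) L ε t a := by
  obtain ⟨d, m, i, k, hd, hd1, h, h1, h2⟩ := h
  have hp0 : (p : ℚ) ≠ 0 := by
    have : p ≠ 0 := by omega
    exact_mod_cast this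
  refine ⟨d, (p : ℤ) ^ (-i).toNat, (p : ℤ) ^ i.toNat * m, k, hd, hd1, ?_, ?_, h2⟩
  · exact hpq.symm.pow_left
  · push_cast
    rw [← zpow_toNat hp0 i]
    linear_combination (p : ℚ) ^ (-i).toNat * h

theorem mov (h : FixStmt) : MovStmt := by
  intro p q hp hq hpq L hL ι _ z w h1 h2 h3 h4
  have h5 : ∀ v i, ∃ t : ℝ, z .I i ∈ Sv L p q v t := by
    intro v i
    cases v
    · obtain ⟨t, a, ha, hR⟩ := h4 i
      refine ⟨t, a, ha, fun ε hε => ?_⟩
      filter_upwards [hR ε hε] with n hn using Rb_of_Rpq_left hq hpq hn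
    · obtain ⟨t, a, ha, hR⟩ := h4 i
      refine ⟨t, a, ha, fun ε hε => ?_⟩
      filter_upwards [hR ε hε] with n hn using Rb_of_Rpq_right hp hpq hn
    · exact ⟨w .I i, h3 .I i⟩
  choose t ht using h5
  refine mov_abs (K := KK L hL) (G := GG) Pl.I (Sv L p q) (filt_v hL hp hq) (Sint L p q)
    (fun c g hg => Sint.mul hL hp hq (Sint.alg hL hp hq c) hg)
    (fun J _ z w => h p q hp hq hpq L hL J _ z w) ι z w h1 h2 h3 h4
    (∑ v, ∑ i, |t v i|) (Finset.sum_nonneg fun v _ => Finset.sum_nonneg fun i _ => abs_nonneg _)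
    (fun v i => (filt_v hL hp hq v).anti ?_ (ht v i))
  have e1 : |t v i| ≤ ∑ i, |t v i| :=
    Finset.single_le_sum (f := fun i => |t v i|) (fun i _ => abs_nonneg _) (Finset.mem_univ i)
  have e2 : ∑ i, |t v i| ≤ ∑ v, ∑ i, |t v i| :=
    Finset.single_le_sum (f := fun v => ∑ i, |t v i|)
      (fun v _ => Finset.sum_nonneg fun i _ => abs_nonneg _) (Finset.mem_univ v)
  have e3 := neg_abs_le (t v i)
  linarith

end Pool.Agent.TH932.S2.Mov
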