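import Mathlib
import Pool.Agent.TH932.S2.Stms

set_option autoImplicit false

/-!
# Project S2: independence of the character over the negligible field (S-unit lemma)
-/

namespace Pool.Agent.TH932.S2.SU

open Filter Topology Pool.Agent.TH932.Germs Pool.Agent.TH932.S2

section
variable {L : ℕ → ℝ} {p q : ℕ} (hL : Tendsto L atTop atTop) (hp : 2 ≤ p) (hq : 2 ≤ q)

/-- the element of the group ring with coefficients `c` at the points `g` -/
lemma coeff_sum {m : ℕ} (g : Fin m → ℝ × ℝ) (hg : Function.Injective g) (c : Fin m → KK L hL)
    (j : Fin m) :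
    (∑ i, AddMonoidAlgebra.single (g i) (c i) : Rg hL).coeff (g j) = c j := by
  have h : ∀ s : Finset (Fin m), (∑ i ∈ s, AddMonoidAlgebra.single (g i) (c i) : Rg hL).coeff (g j)
      = if j ∈ s then c j else 0 := by
    intro s
    induction s using Finset.induction_on with
    | empty => simp
    | insert a s ha ih =>
      rw [Finset.sum_insert ha, AddMonoidAlgebra.coeff_add, Finsupp.add_apply, ih,
        AddMonoidAlgebra.coeff_single]
      by_cases haj : a = j
      · subst haj
        rw [Finsupp.single_eq_same, if_neg ha, add_zero, if_pos (Finset.mem_insert_self _ _)]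
      · rw [Finsupp.single_eq_of_ne (fun h => haj (hg h.symm)), zero_add]
        have : (j ∈ insert a s) ↔ j ∈ s := by
          rw [Finset.mem_insert]
          exact ⟨fun h => h.resolve_left fun h => haj h.symm, Or.inr⟩
        simp only [this]
  rw [h, if_pos (Finset.mem_univ _)]

lemma support_sum {m : ℕ} (g : Fin m → ℝ × ℝ) (c : Fin m → KK L hL) :
    (∑ i, AddMonoidAlgebra.single (g i) (c i) : Rg hL).coeff.support.card ≤ m := by
  classical
  have h : ∀ s : Finset (Fin m), (∑ i ∈ s, AddMonoidAlgebra.single (g i) (c i) :
      Rg hL).coeff.support ⊆ s.image g := by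
    intro s
    induction s using Finset.induction_on with
    | empty => simp
    | insert a s ha ih =>
      rw [Finset.sum_insert ha, AddMonoidAlgebra.coeff_add]
      refine Finsupp.support_add.trans ?_
      rw [Finset.image_insert, AddMonoidAlgebra.coeff_single]
      refine Finset.union_subset ?_ (ih.trans (Finset.subset_insert _ _))
      refine Finsupp.support_single_subset.trans ?_
      intro x hx
      rw [Finset.mem_singleton] at hx
      rw [hx]
      exact Finset.mem_insert_self _ _
  refine (Finset.card_le_card (h Finset.univ)).trans (Finset.card_image_le.trans ?_)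
  simp

/-- proper subfamilies are independent -/
lemma indep {m : ℕ}
    (ih : ∀ f : Rg hL, f.coeff.support.card < m + 1 → ev2 hL hp hq f = 0 → f = 0)
    (g : Fin m → ℝ × ℝ) (hg : Function.Injective g) (c : Fin m → KK L hL)
    (h : ∑ i, (c i : GG) * ch2 hL hp hq (g i) = 0) : ∀ i, c i = 0 := by
  intro i
  have h1 : (∑ i, AddMonoidAlgebra.single (g i) (c i) : Rg hL) = 0 := by
    refine ih _ (Nat.lt_succ_of_le (support_sum hL g c)) ?_
    rw [map_sum, ← h]
    exact Finset.sum_congr rfl fun i _ => ev2_single hL hp hq _ _
  have h2 := coeff_sum hL g hg c i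
  rw [h1] at h2
  rw [← h2]
  rfl

end

theorem su (h : MovStmt) : SUStmt := by
  classical
  intro p q hp hq hpq L hL
  have main : ∀ n : ℕ, ∀ f : Rg hL, f.coeff.support.card = n → ev2 hL hp hq f = 0 → f = 0 := by
    intro n
    induction n using Nat.strong_induction_on with
    | _ n IH =>
    intro f hcard hf
    by_contra hne
    obtain ⟨m, rfl⟩ : ∃ m, n = m + 1 := by
      refine ⟨n - 1, ?_⟩
      have h0 : n ≠ 0 := by
        rintro rfl
        rw [Finset.card_eq_zero, Finsupp.support_eq_empty] at hcard
        apply hne
        apply AddMonoidAlgebra.coeff_injective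
        rw [hcard]
        rfl
      omega
    have ih : ∀ f : Rg hL, f.coeff.support.card < m + 1 → ev2 hL hp hq f = 0 → f = 0 :=
      fun f hf1 hf2 => IH _ hf1 f rfl hf2
    set e : f.coeff.support ≃ Fin (m + 1) := Finset.equivFinOfCardEq hcard with he
    set g : Fin (m + 1) → ℝ × ℝ := fun i => (e.symm i : ℝ × ℝ) with hgdef
    have hg : Function.Injective g := fun i j hij => e.symm.injective (Subtype.ext hij)
    set κ : Fin (m + 1) → KK L hL := fun i => f.coeff (g i) with hκdef
    have hκ : ∀ i, κ i ≠ 0 := fun i => Finsupp.mem_support_iff.1 (e.symm i).2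
    have hrel : ∑ i, (κ i : GG) * ch2 hL hp hq (g i) = 0 := by
      have h1 := ev2_sum hL hp hq f
      rw [hf] at h1
      rw [h1]
      rw [← Finset.sum_coe_sort f.coeff.support]
      exact Equiv.sum_comp e.symm (fun x : f.coeff.support =>
        ((f.coeff (x : ℝ × ℝ) : KK L hL) : GG) * ch2 hL hp hq (x : ℝ × ℝ))
    -- minima
    have hmin : ∀ v : Pl, ∃ i : Fin (m + 1), ∀ j, lv p q v (g i) ≤ lv p q v (g j) :=
      fun v => Finite.exists_min fun i => lv p q v (g i)
    choose iv hiv using hmin
    have hsub : ∀ i₀ : Fin (m + 1), Function.Injective fun j : Fin m => g (i₀.succAbove j) :=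
      fun i₀ => hg.comp Fin.succAbove_right_injective
    have key := h p q hp hq hpq L hL (Fin m) inferInstance
      (fun v j => ch2 hL hp hq (g ((iv v).succAbove j)))
      (fun v j => lv p q v (g ((iv v).succAbove j)))
      (fun v c hc => indep hL hp hq ih _ (hsub (iv v)) c hc) ?_
      (fun v i => ch2_mem hL hp hq hpq v _) (fun i => ch2_sint hL hp hq _)
    · -- sums
      have h1 : ∀ v, ∑ j, lv p q v (g ((iv v).succAbove j)) =
          ∑ i, lv p q v (g i) - lv p q v (g (iv v)) := by
        intro v
        rw [Fin.sum_univ_succAbove (fun i => lv p q v (g i)) (iv v)]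
        ring
      have h2 : ∑ v, ∑ i, lv p q v (g i) = 0 := by
        rw [Finset.sum_comm]
        exact Finset.sum_eq_zero fun i _ => lv_sum (g i)
      have h3 : 0 ≤ ∑ v, lv p q v (g (iv v)) := by
        simp only [h1] at key
        rw [Finset.sum_sub_distrib, h2] at key
        linarith
      have h4 : ∀ i v, lv p q v (g i) = lv p q v (g (iv v)) := by
        intro i
        have h5 : ∑ v, (lv p q v (g i) - lv p q v (g (iv v))) = 0 := by
          refine le_antisymm ?_ (Finset.sum_nonneg fun v _ => sub_nonneg.2 (hiv v i))
          rw [Finset.sum_sub_distrib, lv_sum]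
          linarith
        intro v
        have h6 := (Finset.sum_eq_zero_iff_of_nonneg
          (fun v _ => sub_nonneg.2 (hiv v i))).1 h5 v (Finset.mem_univ v)
        linarith
      have hlp : 0 < Real.log p := Real.log_pos (by exact_mod_cast hp)
      have hlq : 0 < Real.log q := Real.log_pos (by exact_mod_cast hq)
      have h7 : ∀ i j, g i = g j := by
        intro i j
        have hP := (h4 i .P).trans (h4 j .P).symm
        have hQ := (h4 i .Q).trans (h4 j .Q).symm
        simp only [lv] at hP hQ
        have h8 : (g i).1 = (g j).1 := mul_right_cancel₀ hlp.ne' hP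
        have h9 : (g i).2 = (g j).2 := mul_right_cancel₀ hlq.ne' (neg_injective hQ)
        exact Prod.ext h8 h9
      have hm : m = 0 := by
        by_contra hm
        have h8 := hg (h7 0 (Fin.last m))
        have h9 := congrArg Fin.val h8
        simp only [Fin.val_zero, Fin.val_last] at h9
        exact hm h9.symm
      subst hm
      rw [Fin.sum_univ_one] at hrel
      rcases mul_eq_zero.1 hrel with h8 | h8
      · exact hκ 0 (Subtype.ext h8)
      · exact ch2_ne hL hp hq _ h8
    · -- the span
      intro v i
      by_cases hk : (iv v).succAbove i = iv .I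
      · refine ⟨fun j => -(κ ((iv .I).succAbove j) / κ (iv .I)), ?_⟩
        rw [hk]
        have h0 : ((κ (iv .I) : KK L hL) : GG) ≠ 0 := by
          intro h0
          exact hκ _ (Subtype.ext h0)
        rw [Fin.sum_univ_succAbove _ (iv .I)] at hrel
        have h1 : ch2 hL hp hq (g (iv .I)) = -(∑ j, (κ ((iv .I).succAbove j) : GG) *
            ch2 hL hp hq (g ((iv .I).succAbove j))) / (κ (iv .I) : GG) := by
          rw [eq_div_iff h0]
          linear_combination hrel
        rw [h1, neg_div, Finset.sum_div, ← Finset.sum_neg_distrib]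
        refine Finset.sum_congr rfl fun j _ => ?_
        push_cast
        ring
      · obtain ⟨j₀, hj₀⟩ := Fin.exists_succAbove_eq hk
        refine ⟨Pi.single j₀ 1, ?_⟩
        rw [Finset.sum_eq_single j₀]
        · rw [Pi.single_eq_same, hj₀]
          simp
        · intro b _ hb
          rw [Pi.single_eq_of_ne hb]
          simp
        · intro h0
          exact absurd (Finset.mem_univ _) h0
  intro f hf
  exact main _ f rfl hf

end Pool.Agent.TH932.S2.SU
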