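import Mathlib
import Pool.Agent.TH932.S2.Sst
import Pool.Agent.TH932.S2.Fix
import Pool.Agent.TH932.S2.Mov
import Pool.Agent.TH932.S2.SU
import Pool.Agent.TH932.S2.KP
import Pool.Agent.TH932.S2.BD

/-!
# Project S2: the statements without hypotheses
-/

set_option autoImplicit false

namespace Pool.Agent.TH932.S2

theorem fix_thm : FixStmt := Fix.fix subspace
theorem mov_thm : MovStmt := Mov.mov fix_thm
theorem su_thm : SUStmt := SU.su mov_thm
theorem kp_thm : KPStmt := KP.kp mov_thm su_thm

/-- **The boundedness theorem.** -/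
theorem bd_thm : BDStmt := BD.bd su_thm kp_thm

end Pool.Agent.TH932.S2
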