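import Mathlib
import Pool.Agent.TH932.S2.Bsm2

set_option autoImplicit false
set_option linter.unusedSectionVars false

/-!
# The macro step with exponents in the plane, and the chain
-/

namespace Pool.Agent.TH932.S2

open Filter Topology Pool.Agent.TH932.Abs Pool.Agent.TH932.Germs Pool.Agent.TH932.Chi
open Pool.Agent.TH932.Words Pool.Agent.TH932.Orb Pool.Agent.TH932.Scale

/-- the exponents which are not too far from `h` -/
def Cone (c : ℝ) (h g : ℝ × ℝ) : Prop := g.1 ≤ h.1 ∧ h.2 - g.2 ≤ c * (h.1 - g.1)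

lemma Cone.refl (c : ℝ) (h : ℝ × ℝ) : Cone c h h := ⟨le_rfl, by simp⟩

lemma Cone.trans {c : ℝ} {h g k : ℝ × ℝ} (h1 : Cone c h g) (h2 : Cone c g k) : Cone c h k := by
  obtain ⟨a1, a2⟩ := h1
  obtain ⟨b1, b2⟩ := h2
  refine ⟨by linarith, ?_⟩
  nlinarith

lemma Cone.add {c : ℝ} {h g : ℝ × ℝ} (k : ℝ × ℝ) (h1 : Cone c h g) : Cone c (k + h) (k + g) := by
  obtain ⟨a1, a2⟩ := h1
  constructor
  · simp only [Prod.fst_add]; linarith
  · simp only [Prod.fst_add, Prod.snd_add]
    have e1 : k.2 + h.2 - (k.2 + g.2) = h.2 - g.2 := by ring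
    have e2 : k.1 + h.1 - (k.1 + g.1) = h.1 - g.1 := by ring
    rw [e1, e2]; exact a2

/-- all exponents are in the cone of `h` -/
def Sup {L : ℕ → ℝ} {hL : Tendsto L atTop atTop} (c : ℝ) (h : ℝ × ℝ) (f : Rg hL) : Prop :=
  ∀ g, f.coeff g ≠ 0 → Cone c h g

section sup
variable {L : ℕ → ℝ} {hL : Tendsto L atTop atTop} {c : ℝ} {h : ℝ × ℝ}

lemma Sup.zero : Sup c h (0 : Rg hL) := fun g hg => absurd (by simp) hg

lemma Sup.add {f f' : Rg hL} (hf : Sup c h f) (hf' : Sup c h f') : Sup c h (f + f') := by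
  intro g hg
  by_cases h1 : f.coeff g = 0
  · apply hf'
    intro h2
    apply hg
    rw [AddMonoidAlgebra.coeff_add, Finsupp.add_apply, h1, h2, add_zero]
  · exact hf g h1

lemma Sup.single {g : ℝ × ℝ} (a : KK L hL) (hg : Cone c h g) :
    Sup c h (AddMonoidAlgebra.single g a : Rg hL) := by
  intro g' hg'
  rw [AddMonoidAlgebra.coeff_single] at hg'
  have : g' = g := by
    by_contra hne
    exact hg' (Finsupp.single_eq_of_ne hne)
  rw [this]; exact hg

lemma Sup.mono {f : Rg hL} {h' : ℝ × ℝ} (hh : Cone c h' h) (hf : Sup c h f) : Sup c h' f :=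
  fun g hg => hh.trans (hf g hg)

lemma Sup.single_mul {f : Rg hL} (k : ℝ × ℝ) (a : KK L hL) (hf : Sup c h f) :
    Sup c (k + h) (AddMonoidAlgebra.single k a * f) := by
  have e : AddMonoidAlgebra.single k a * f
      = ∑ g ∈ f.coeff.support, AddMonoidAlgebra.single (k + g) (a * f.coeff g) := by
    conv_lhs => rw [sum_single2 hL f]
    rw [Finset.mul_sum]
    exact Finset.sum_congr rfl fun g _ => by rw [AddMonoidAlgebra.single_mul_single]
  rw [e]
  refine Finset.sum_induction _ (fun f => Sup c (k + h) f) (fun _ _ => Sup.add) Sup.zero ?_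
  intro g hg
  exact Sup.single _ ((hf g (Finsupp.mem_support_iff.1 hg)).add k)

end sup

namespace Ctx2

variable {α : Type*} [Finite α] (X : Ctx2 α)

/-- the values of the types -/
noncomputable def rh (s : Fin (X.R + 1)) : GG :=
  gm fun n => (X.Qs n s : ℚ) / (X.Z.q : ℚ) ^ (X.os n s)

/-- the generators -/
noncomputable def zf : Option (Option (Fin (X.R + 1))) → GG
  | none => 1
  | some none => X.gY (X.pos 0)
  | some (some s) => X.rh s

/-- evaluation -/
noncomputable abbrev ev : Rg X.tL →+* GG := ev2 X.tL X.Z.hp X.Z.hq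

/-- **The macro step.** -/
lemma macro_step (e : ℕ) : ∃ (κ : X.K) (γ : ℝ × ℝ)
    (Λ : Option (Option (Fin (X.R + 1))) → Rg X.tL), κ ≠ 0 ∧ X.cmin ≤ γ.1 ∧ Cone X.cM γ 0 ∧
    (∀ j, Sup X.cM γ (Λ j)) ∧
    near X.L (fun n => (X.pos (e + 1) n : ℝ) - X.pos e n) γ.1 ∧
    (κ : GG) * X.χ γ * X.gY (X.pos (e + 1))
      = X.gY (X.pos e) + ∑ j, X.ev (Λ j) * X.zf j := by
  classical
  obtain ⟨A, hA, hst⟩ := X.mstep e
  set a := X.pos e with ha
  set a' := X.pos (e + 1) with ha'
  set m : ℕ → ℕ := fun n => X.Mn n (a n) with hm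
  have hlm : ∀ᶠ n in (UU : Filter ℕ), X.lm n (m n) := hst.mono fun n h => h.2.1
  have ham : ∀ᶠ n in (UU : Filter ℕ), a n ≤ m n := hst.mono fun n h => h.2.2.1
  have hsh : ∀ᶠ n in (UU : Filter ℕ), ∀ m', a n ≤ m' → m' < m n → ¬ X.lm n m' :=
    hst.mono fun n h => h.2.2.2.1
  have hma : ∀ᶠ n in (UU : Filter ℕ), m n ≤ a' n := hst.mono fun n h => h.2.2.2.2.1
  have haA : ∀ᶠ n in (UU : Filter ℕ), (a' n : ℝ) ≤ A * X.L n := hst.mono fun n h => h.2.2.2.2.2
  have hnx : ∀ n, a' n = X.nx n (m n) := fun n => rfl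
  have hmA : ∀ᶠ n in (UU : Filter ℕ), (m n : ℝ) ≤ A * X.L n := by
    filter_upwards [hma, haA] with n h1 h2
    exact (by exact_mod_cast h1 : (m n : ℝ) ≤ a' n).trans h2
  have haa : ∀ᶠ n in (UU : Filter ℕ), a n ≤ a' n := by
    filter_upwards [ham, hma] with n h1 h2 using h1.trans h2
  -- the type
  obtain ⟨s, hs⟩ : ∃ s, ∀ᶠ n in (UU : Filter ℕ), X.ty n (m n) = s := by
    have h1 : (⋃ s ∈ (Set.univ : Set (Fin (X.R + 1))), {n | X.ty n (m n) = s}) ∈ UU := by
      have : (⋃ s ∈ (Set.univ : Set (Fin (X.R + 1))), {n | X.ty n (m n) = s}) = Set.univ := by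
        ext n; simp
      rw [this]; exact Filter.univ_mem
    obtain ⟨s, _, hs⟩ := (Ultrafilter.finite_biUnion_mem_iff Set.finite_univ).1 h1
    exact ⟨s, hs⟩
  have hcs : 0 < X.c s := by
    obtain ⟨n, h1, h2⟩ := (hlm.and hs).exists
    rw [← h2]; exact h1.2
  -- shadows
  obtain ⟨b, hab, hbm, hbn, f, f', hf⟩ := X.shadow_part (a := a) (m := m) (X.pos_smk e) ham hsh
  have hbA : ∀ᶠ n in (UU : Filter ℕ), (b n : ℝ) ≤ A * X.L n := by
    filter_upwards [hbm, hmA] with n h1 h2
    exact (by exact_mod_cast h1 : (b n : ℝ) ≤ m n).trans h2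
  have hba : ∀ᶠ n in (UU : Filter ℕ), b n ≤ a' n := by
    filter_upwards [hbm, hma] with n h1 h2 using h1.trans h2
  -- lengths
  obtain ⟨t, ht0, _, ht⟩ := exists_st (L := X.L) X.tL (a := fun n => (a' n : ℝ) - a n) (A := A) (by
    filter_upwards [haa, haA] with n h1 h2
    have h3 : (a n : ℝ) ≤ a' n := by exact_mod_cast h1
    have h4 : (0 : ℝ) ≤ a n := by positivity
    constructor <;> linarith)
  obtain ⟨t1, ht10, _, ht1⟩ := exists_st (L := X.L) X.tL (a := fun n => (b n : ℝ) - a n) (A := A)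
    (by
      filter_upwards [hab, hbA] with n h1 h2
      have h3 : (a n : ℝ) ≤ b n := by exact_mod_cast h1
      have h4 : (0 : ℝ) ≤ a n := by positivity
      constructor <;> linarith)
  have ht2 : near X.L (fun n => (a' n : ℝ) - b n) (t - t1) :=
    (ht.sub ht1).congr (Eventually.of_forall fun n => by ring)
  have ht12 : 0 ≤ t - t1 := by
    refine near_le X.tL (near_const X.tL 0) ht2 ?_
    filter_upwards [hba] with n h1
    have : (b n : ℝ) ≤ a' n := by exact_mod_cast h1
    linarith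
  -- exponents
  obtain ⟨o, ho0, ho⟩ := X.near_seg haa haA ht
  obtain ⟨o1, ho10, ho1⟩ := X.near_seg hab hbA ht1
  obtain ⟨o2, ho20, ho2⟩ := X.near_seg hba haA ht2
  have ho12 : o = o1 + o2 := by
    refine near_unique X.tL ho ((ho1.add ho2).congr ?_)
    filter_upwards [hab, hba] with n h1 h2
    have m1 := X.Z.oo_mono h1
    have m2 := X.Z.oo_mono h2
    rw [← Nat.cast_add]
    congr 1
    omega
  obtain ⟨o3, _, ho3⟩ := X.near_seg hbm hmA hbn
  have hct : X.c s ≤ t := by
    refine near_le X.tL (X.c_near s) ht ?_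
    filter_upwards [hlm, hs, ham] with n h1 h2 h3
    have h4 := (X.type_spec h1.1).1
    rw [h2, ← hnx] at h4
    have h5 : (a' n : ℝ) = m n + X.len n s := by exact_mod_cast h4
    have h6 : (a n : ℝ) ≤ m n := by exact_mod_cast h3
    linarith
  have ho3' : o3 = 0 := by
    have h1 : o3 ≤ 0 := by
      have := near_le X.tL ho3 (hbn.const_mul X.tL X.cM) (by
        filter_upwards [hbm] with n h1 using X.oo_le h1)
      simpa using this
    have h2 : 0 ≤ o3 := near_le X.tL (near_const X.tL 0) ho3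
      (Eventually.of_forall fun n => by positivity)
    exact le_antisymm h1 h2
  rw [ho3'] at ho3
  obtain ⟨κ, hκ0, hκ⟩ := X.NA_const haa ht ho
  obtain ⟨κ1, _, hκ1⟩ := X.NA_const hab ht1 ho1
  obtain ⟨κ2, _, hκ2⟩ := X.NA_const hbm hbn ho3
  have hz : X.χ ((0 : ℝ), (0 : ℝ)) = 1 := ch2_zero _ _ _
  rw [hz, mul_one] at hκ2
  have hk2 := X.QA_const hbm hbn
  have hρ : X.QA m a' = X.rh s := by
    unfold QA rh
    rw [gm_eq]
    filter_upwards [hlm, hs] with n h1 h2
    obtain ⟨_, h4, h5⟩ := X.type_spec h1.1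
    rw [h2, ← hnx] at h4 h5
    rw [h4, h5]
  have hQ : X.QA a a' = X.NA a b * f' - f + X.NA a b * (X.QA b m + X.NA b m * X.rh s) := by
    rw [X.comp hab hba, X.comp hbm hma, hf, hρ]
  have hc1 : Cone X.cM (t, o) (t1, o1) := by
    refine ⟨by simp only; linarith, ?_⟩
    simp only
    rw [ho12]; linarith
  have hc0 : Cone X.cM (t, o) 0 := by
    refine ⟨ht0, ?_⟩
    simp only [Prod.fst_zero, Prod.snd_zero, sub_zero]
    exact ho0
  refine ⟨κ, (t, o), fun j => match j with
    | none => AddMonoidAlgebra.single (t1, o1) (κ1 * (f' + ⟨_, hk2⟩))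
        + AddMonoidAlgebra.single 0 (-f)
    | some none => 0
    | some (some s') => if s' = s then AddMonoidAlgebra.single (t1, o1) (κ1 * κ2) else 0,
    hκ0, (X.cmin_le s hcs).trans hct, hc0, ?_, ht, ?_⟩
  · intro j
    match j with
    | none => exact (Sup.single _ hc1).add (Sup.single _ hc0)
    | some none => exact Sup.zero
    | some (some s') =>
      simp only
      split_ifs
      · exact Sup.single _ hc1
      · exact Sup.zero
  · rw [Fintype.sum_option, Fintype.sum_option]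
    simp only [zf, map_add, map_zero, zero_mul, zero_add]
    have h1 : ∀ s' : Fin (X.R + 1), X.ev (if s' = s then AddMonoidAlgebra.single (t1, o1) (κ1 * κ2)
        else 0) * X.rh s' = if s' = s then X.ev (AddMonoidAlgebra.single (t1, o1) (κ1 * κ2))
          * X.rh s else 0 := by
      intro s'
      split_ifs with h
      · rw [h]
      · rw [map_zero, zero_mul]
    simp only [h1]
    rw [Finset.sum_ite_eq' Finset.univ s]
    simp only [Finset.mem_univ, if_true]
    rw [ev2_single, ev2_single, ev2_single, ch2_zero]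
    have h2 := X.rel a a'
    rw [hκ, hQ, hκ1, hκ2] at h2
    push_cast
    unfold χ at h2 ⊢
    linear_combination h2

/-- the chain -/
lemma chain (e : ℕ) : ∃ (M : X.K) (h : ℝ × ℝ) (P : Option (Option (Fin (X.R + 1))) → Rg X.tL),
    M ≠ 0 ∧ Cone X.cM h 0 ∧ e * X.cmin ≤ h.1 ∧ (∀ j, Sup X.cM h (P j)) ∧
    near X.L (fun n => (X.pos e n : ℝ) - X.pos 0 n) h.1 ∧
    (M : GG) * X.χ h * X.gY (X.pos e) = ∑ j, X.ev (P j) * X.zf j := by
  classical
  induction e with
  | zero =>
    refine ⟨1, 0, fun j => if j = some none then 1 else 0, one_ne_zero, Cone.refl _ _, ?_, ?_,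
      ?_, ?_⟩
    · simp
    · intro j
      simp only
      split_ifs
      · rw [AddMonoidAlgebra.one_def]
        exact Sup.single _ (Cone.refl _ _)
      · exact Sup.zero
    · simpa using near_const X.tL 0
    · have h1 : ∀ j : Option (Option (Fin (X.R + 1))), X.ev (if j = some none then 1 else 0)
          * X.zf j = if j = some none then X.zf (some none) else 0 := by
        intro j
        split_ifs with h
        · rw [h, map_one, one_mul]
        · rw [map_zero, zero_mul]
      simp only [h1]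
      rw [Finset.sum_ite_eq' Finset.univ (some none)]
      simp only [Finset.mem_univ, if_true, zf]
      have hz : X.χ 0 = 1 := ch2_zero _ _ _
      rw [hz]
      push_cast
      ring
  | succ e ih =>
    obtain ⟨M, h, P, hM, hc, he, hP, hn, hr⟩ := ih
    obtain ⟨κ, γ, Λ, hκ, hγ, hγ0, hΛ, hn', hr'⟩ := X.macro_step e
    have hc1 : Cone X.cM (h + γ) h := by
      have := hγ0.add h
      rwa [add_zero] at this
    refine ⟨M * κ, h + γ, fun j => P j + AddMonoidAlgebra.single h M * Λ j, mul_ne_zero hM hκ,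
      hc1.trans hc, ?_, ?_, ?_, ?_⟩
    · push_cast
      simp only [Prod.fst_add]
      linarith
    · intro j
      exact ((hP j).mono hc1).add ((hΛ j).single_mul h M)
    · simp only [Prod.fst_add]
      refine (hn.add hn').congr (Eventually.of_forall fun n => ?_)
      ring
    · simp only [map_add, map_mul, add_mul, Finset.sum_add_distrib, mul_assoc]
      rw [← Finset.mul_sum, ← hr, ev2_single]
      have e1 : X.χ (h + γ) = X.χ h * X.χ γ := ch2_add _ _ _ _ _
      rw [e1]
      push_cast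
      have e2 : ch2 X.tL X.Z.hp X.Z.hq h = X.χ h := rfl
      rw [e2]
      linear_combination (M : GG) * X.χ h * hr'

end Ctx2

end Pool.Agent.TH932.S2
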