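import Mathlib
import Pool.Agent.TH932.S2.Stms

/-!
# Project S2, part two: real numbers in two bases, statements
-/

set_option autoImplicit false

namespace Pool.Agent.TH932.S2

open Filter Topology Pool.Agent.TH932.Abs Pool.Agent.TH932.Germs Pool.Agent.TH932.Chi
open Pool.Agent.TH932.Words

/-- the exponents of the powers `p ^ (-t L)` -/
def AxP (g : ℝ × ℝ) : Prop := g.1 ≤ 0 ∧ g.2 = 0

/-- the exponents of the powers `q ^ (-t L)` -/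
def AxQ (g : ℝ × ℝ) : Prop := g.1 = 0 ∧ 0 ≤ g.2

/-- the real number `x` is approximated to every order by combinations of finitely many bounded
germs with exponents in `Ax` -/
def Rep {L : ℕ → ℝ} {p q : ℕ} (hL : Tendsto L atTop atTop) (hp : 2 ≤ p) (hq : 2 ≤ q)
    (Ax : ℝ × ℝ → Prop) (x : ℝ) : Prop :=
  ∃ (Z : Type) (_ : Fintype Z) (z : Z → GG) (C : ℝ),
    (∀ u j, z j ∈ Sv L p q u (-C)) ∧ (∀ j, Sint L p q (z j)) ∧
    ∀ E : ℝ, ∃ (P : Z → Rg hL) (s : ℕ → ℚ), (∀ j g, (P j).coeff g ≠ 0 → Ax g) ∧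
      gm s = ∑ j, ev2 hL hp hq (P j) * z j ∧
      ∀ᶠ n in (UU : Filter ℕ), |x - s n| ≤ Real.exp (-(E * L n))

/-- T2: two representations give one rational approximation of every order -/
def MergeStmt : Prop :=
  ∀ (p q : ℕ) (hp : 2 ≤ p) (hq : 2 ≤ q) (_ : IsCoprime (q : ℤ) (p : ℤ)) (L : ℕ → ℝ)
    (hL : Tendsto L atTop atTop) (x : ℝ), Rep hL hp hq AxP x → Rep hL hp hq AxQ x →
    ∃ (B : ℝ) (r : ℕ → ℚ), (∀ᶠ n in (UU : Filter ℕ), ((r n).den : ℝ) ≤ Real.exp (B * L n)) ∧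
      ∀ A : ℝ, ∀ᶠ n in (UU : Filter ℕ), |x - r n| ≤ Real.exp (-(A * L n))

/-- the base `b` digits of `x` after the point -/
noncomputable def dw (b : ℕ) (x : ℝ) (k : ℕ) : ZMod b := ((⌊(b : ℝ) ^ (k + 1) * x⌋ : ℤ) : ZMod b)

/-- T3: a number with digits of linear complexity has good rational approximations only with
denominators of periodic expansions -/
def PerStmt : Prop :=
  ∀ (b : ℕ) (_ : 2 ≤ b) (L : ℕ → ℝ) (_ : Tendsto L atTop atTop) (x C B : ℝ)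
    (_ : ∀ m : ℕ, 1 ≤ m → (cx (dw b x) m : ℝ) ≤ C * m) (r : ℕ → ℚ)
    (_ : ∀ᶠ n in (UU : Filter ℕ), ((r n).den : ℝ) ≤ Real.exp (B * L n))
    (_ : ∀ A : ℝ, ∀ᶠ n in (UU : Filter ℕ), |x - r n| ≤ Real.exp (-(A * L n))),
    ∃ C2 : ℝ, ∀ᶠ n in (UU : Filter ℕ), ∃ i π : ℕ, 1 ≤ π ∧ (i : ℝ) + π ≤ C2 * L n ∧
      (r n).den ∣ b ^ i * (b ^ π - 1)

/-- T4: common divisors of `p ^ i (p ^ π - 1)` and `q ^ i' (q ^ π' - 1)` are negligible -/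
def GcdStmt : Prop :=
  ∀ (p q : ℕ) (_ : 2 ≤ p) (_ : 2 ≤ q) (_ : IsCoprime (q : ℤ) (p : ℤ)) (L : ℕ → ℝ)
    (_ : Tendsto L atTop atTop) (C : ℝ) (w i π i' π' : ℕ → ℕ)
    (_ : ∀ᶠ n in (UU : Filter ℕ), 1 ≤ π n ∧ (i n : ℝ) + π n ≤ C * L n)
    (_ : ∀ᶠ n in (UU : Filter ℕ), 1 ≤ π' n ∧ (i' n : ℝ) + π' n ≤ C * L n)
    (_ : ∀ᶠ n in (UU : Filter ℕ), w n ∣ p ^ i n * (p ^ π n - 1))
    (_ : ∀ᶠ n in (UU : Filter ℕ), w n ∣ q ^ i' n * (q ^ π' n - 1)),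
    Negl L fun n => (w n : ℤ)

end Pool.Agent.TH932.S2
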