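import Mathlib
import Pool.Agent.TH932.S2.Stms2
import Pool.Agent.TH932.S2.Bsm

set_option autoImplicit false
set_option linter.unusedSectionVars false

/-!
# Digits of a real number at a scale of low complexity
-/

namespace Pool.Agent.TH932.S2

open Filter Topology Pool.Agent.TH932.Abs Pool.Agent.TH932.Germs Pool.Agent.TH932.Chi
open Pool.Agent.TH932.Words Pool.Agent.TH932.Scale

/-- scales of low complexity for the digits of a real number in a base -/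
structure RC where
  p : ℕ
  q : ℕ
  hp : 2 ≤ p
  hq : 2 ≤ q
  hpq : IsCoprime (q : ℤ) (p : ℤ)
  b : ℕ
  em : ℝ → ℝ × ℝ
  hem : (b = p ∧ em = fun t => (-t, 0)) ∨ (b = q ∧ em = fun t => (0, t))
  x : ℝ
  hx : Irrational x
  l : ℕ → ℕ
  L : ℕ → ℝ
  R : ℕ
  C : ℝ
  tL : Tendsto L atTop atTop
  hl1 : ∀ n, 1 ≤ l n
  hlL : ∀ n, (l n : ℝ) ≤ L n
  hLl : ∀ n, L n ≤ 2 * l n
  hcx : ∀ n, (cx (dw b x) (l n) : ℝ) ≤ C * l n
  hR : ∀ n, 2 * cx (dw b x) (l n + 1) ≤ R + 2 * cx (dw b x) (l n)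

namespace RC

variable (X : RC)

lemma hb : 2 ≤ X.b := by
  rcases X.hem with ⟨h, _⟩ | ⟨h, _⟩
  · rw [h]; exact X.hp
  · rw [h]; exact X.hq

instance : NeZero X.b := ⟨by have := X.hb; omega⟩

/-- the word of digits -/
noncomputable def w : ℕ → ZMod X.b := dw X.b X.x

/-- integer parts -/
noncomputable def F (k : ℕ) : ℤ := ⌊(X.b : ℝ) ^ k * X.x⌋
/-- fractional parts -/
noncomputable def y (k : ℕ) : ℝ := (X.b : ℝ) ^ k * X.x - X.F k

lemma b0 : (0 : ℝ) < X.b := by have := X.hb; positivity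
lemma b1 : (1 : ℝ) < X.b := by have := X.hb; exact_mod_cast (by omega : 1 < X.b)
lemma bz0 : (0 : ℤ) < X.b := by have := X.hb; omega
lemma logb : 0 < Real.log X.b := Real.log_pos X.b1

lemma y_nonneg (k : ℕ) : 0 ≤ X.y k := by
  unfold y F; have := Int.floor_le ((X.b : ℝ) ^ k * X.x); linarith
lemma y_lt (k : ℕ) : X.y k < 1 := by
  unfold y F; have := Int.lt_floor_add_one ((X.b : ℝ) ^ k * X.x); linarith

/-- the integer of a block of digits -/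
noncomputable def Q (i j : ℕ) : ℤ := X.F j - (X.b : ℤ) ^ (j - i) * X.F i

lemma Q_self (i : ℕ) : X.Q i i = 0 := by unfold Q; simp

lemma Q_comp {i j k : ℕ} (hij : i ≤ j) (hjk : j ≤ k) :
    X.Q i k = (X.b : ℤ) ^ (k - j) * X.Q i j + X.Q j k := by
  unfold Q
  have e : (X.b : ℤ) ^ (k - i) = (X.b : ℤ) ^ (k - j) * (X.b : ℤ) ^ (j - i) := by
    rw [← pow_add]; congr 1; omega
  rw [e]; ring

lemma y_rec {i j : ℕ} (hij : i ≤ j) : (X.b : ℝ) ^ (j - i) * X.y i = X.Q i j + X.y j := by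
  unfold y Q
  push_cast
  have e : (X.b : ℝ) ^ j = (X.b : ℝ) ^ (j - i) * (X.b : ℝ) ^ i := by
    rw [← pow_add]; congr 1; omega
  rw [e]; ring

lemma Q_nonneg {i j : ℕ} (hij : i ≤ j) : 0 ≤ X.Q i j := by
  have h := X.y_rec hij
  have h1 := X.y_nonneg i
  have h2 := X.y_lt j
  have h3 : (0 : ℝ) ≤ (X.b : ℝ) ^ (j - i) * X.y i := by have := X.b0; positivity
  have h4 : (-1 : ℝ) < X.Q i j := by linarith
  have h5 : (-1 : ℤ) < X.Q i j := by exact_mod_cast h4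
  omega

lemma Q_lt {i j : ℕ} (hij : i ≤ j) : X.Q i j < (X.b : ℤ) ^ (j - i) := by
  have h := X.y_rec hij
  have h1 := X.y_lt i
  have h2 := X.y_nonneg j
  have h3 : (0 : ℝ) < (X.b : ℝ) ^ (j - i) := by have := X.b0; positivity
  have h4 : (X.Q i j : ℝ) < (X.b : ℝ) ^ (j - i) := by nlinarith
  exact_mod_cast h4

lemma Q_abs {i j : ℕ} (hij : i ≤ j) : |X.Q i j| ≤ (X.b : ℤ) ^ (j - i) := by
  rw [abs_of_nonneg (X.Q_nonneg hij)]; exact (X.Q_lt hij).le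

lemma dig {i j : ℕ} (h : X.w i = X.w j) : X.Q i (i + 1) = X.Q j (j + 1) := by
  have e : ∀ i, ((X.Q i (i + 1) : ℤ) : ZMod X.b) = X.w i := by
    intro i
    unfold Q w dw F
    push_cast
    simp
  have h1 : ((X.Q i (i + 1) : ℤ) : ZMod X.b) = ((X.Q j (j + 1) : ℤ) : ZMod X.b) := by
    rw [e, e, h]
  rw [ZMod.intCast_eq_intCast_iff] at h1
  have a1 := X.Q_nonneg (Nat.le_succ i)
  have a2 := X.Q_lt (Nat.le_succ i)
  have a3 := X.Q_nonneg (Nat.le_succ j)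
  have a4 := X.Q_lt (Nat.le_succ j)
  rw [show i + 1 - i = 1 by omega, pow_one] at a2
  rw [show j + 1 - j = 1 by omega, pow_one] at a4
  have h2 := h1
  rw [Int.ModEq, Int.emod_eq_of_lt a1 a2, Int.emod_eq_of_lt a3 a4] at h2
  exact h2

lemma word_dep {l i j : ℕ} (h : Eqv X.w l i j) : X.Q i (i + l) = X.Q j (j + l) := by
  induction l with
  | zero => simp [Q_self]
  | succ l ih =>
    have h2 := ih (h.mono (Nat.le_succ l))
    have h3 := X.dig (h l (Nat.lt_succ_self l))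
    rw [← add_assoc, ← add_assoc, X.Q_comp (Nat.le_add_right i l) (Nat.le_succ _),
      X.Q_comp (Nat.le_add_right j l) (Nat.le_succ _), h2, h3,
      show i + l + 1 - (i + l) = 1 by omega, show j + l + 1 - (j + l) = 1 by omega]

lemma y_close {l i j : ℕ} (h : Eqv X.w l i j) : (X.b : ℝ) ^ l * |X.y j - X.y i| < 1 := by
  have h1 := X.word_dep h
  have e1 := X.y_rec (Nat.le_add_right i l)
  have e2 := X.y_rec (Nat.le_add_right j l)
  rw [Nat.add_sub_cancel_left] at e1 e2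
  rw [h1] at e1
  have h0 : (0 : ℝ) < (X.b : ℝ) ^ l := by have := X.b0; positivity
  have e3 : (X.b : ℝ) ^ l * (X.y j - X.y i) = X.y (j + l) - X.y (i + l) := by linarith
  rw [← abs_of_pos h0, ← abs_mul, e3, abs_lt]
  have a1 := X.y_nonneg (j + l)
  have a2 := X.y_lt (j + l)
  have a3 := X.y_nonneg (i + l)
  have a4 := X.y_lt (i + l)
  constructor <;> linarith

lemma aper (a c : ℕ) (hac : a < c) : ∃ k, X.w (a + k) ≠ X.w (c + k) := by
  by_contra hcon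
  push Not at hcon
  have h1 : ∀ l : ℕ, (X.b : ℝ) ^ l * |X.y c - X.y a| < 1 := fun l => X.y_close fun k _ => hcon k
  have h2 : X.y c - X.y a = 0 := by
    by_contra hne
    have h3 : 0 < |X.y c - X.y a| := abs_pos.2 hne
    obtain ⟨l, hl⟩ := pow_unbounded_of_one_lt (1 / |X.y c - X.y a|) X.b1
    have h4 := h1 l
    rw [div_lt_iff₀ h3] at hl
    linarith
  apply X.hx
  have h5 : ((X.b : ℝ) ^ c - (X.b : ℝ) ^ a) * X.x = X.F c - X.F a := by
    unfold y at h2; linarith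
  have h6 : (X.b : ℝ) ^ a < (X.b : ℝ) ^ c := pow_lt_pow_right₀ X.b1 hac
  refine ⟨((X.F c - X.F a : ℤ) : ℚ) / (((X.b : ℤ) ^ c - (X.b : ℤ) ^ a : ℤ) : ℚ), ?_⟩
  push_cast
  rw [← h5]
  field_simp [sub_ne_zero.2 h6.ne']

/-! ## shadows -/

/-- a near repetition gives a rational shadow -/
lemma shadow {l h i s t : ℕ} (his : i ≤ s) (hst : s < t) (hth : t ≤ i + h)
    (hE : Eqv X.w l s t) : ∃ m d : ℤ, 0 < d ∧ |m| ≤ (X.b : ℤ) ^ h ∧ d ≤ (X.b : ℤ) ^ h ∧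
      (X.b : ℝ) ^ l * |d * X.y i - m| < 1 := by
  have e1 := X.y_rec his
  have e2 := X.y_rec (his.trans hst.le)
  have hb1 : (1 : ℤ) ≤ X.b := by have := X.hb; omega
  refine ⟨X.Q i t - X.Q i s, (X.b : ℤ) ^ (t - i) - (X.b : ℤ) ^ (s - i), ?_, ?_, ?_, ?_⟩
  · have : (X.b : ℤ) ^ (s - i) < (X.b : ℤ) ^ (t - i) :=
      pow_lt_pow_right₀ (by have := X.hb; omega) (by omega)
    linarith
  · have a1 := X.Q_nonneg his
    have a2 := X.Q_lt his
    have a3 := X.Q_nonneg (his.trans hst.le)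
    have a4 := X.Q_lt (his.trans hst.le)
    have a5 : (X.b : ℤ) ^ (t - i) ≤ (X.b : ℤ) ^ h := pow_le_pow_right₀ hb1 (by omega)
    have a6 : (X.b : ℤ) ^ (s - i) ≤ (X.b : ℤ) ^ h := pow_le_pow_right₀ hb1 (by omega)
    rw [abs_le]
    constructor <;> linarith
  · have a5 : (X.b : ℤ) ^ (t - i) ≤ (X.b : ℤ) ^ h := pow_le_pow_right₀ hb1 (by omega)
    have : (0 : ℤ) ≤ (X.b : ℤ) ^ (s - i) := by positivity
    linarith
  · have e3 : (((X.b : ℤ) ^ (t - i) - (X.b : ℤ) ^ (s - i) : ℤ) : ℝ) * X.y i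
        - ((X.Q i t - X.Q i s : ℤ) : ℝ) = X.y t - X.y s := by
      push_cast; linarith
    rw [e3]
    exact X.y_close hE

lemma shadow_step {l h i : ℕ} {m d m' d' : ℤ} (hd0 : 0 < d) (hd0' : 0 < d')
    (hd : d ≤ (X.b : ℤ) ^ h) (hd' : d' ≤ (X.b : ℤ) ^ h)
    (h1 : (X.b : ℝ) ^ l * |d * X.y i - m| < 1)
    (h2 : (X.b : ℝ) ^ l * |d' * X.y (i + 1) - m'| < 1) (hl : h + 2 ≤ l) :
    d' * (X.b * m - X.Q i (i + 1) * d) = d * m' := by
  have hb := X.hb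
  have hb0 := X.b0
  have e0 := X.y_rec (Nat.le_succ i)
  rw [show i + 1 - i = 1 by omega, pow_one] at e0
  have e1 : ((d' * (X.b * m - X.Q i (i + 1) * d) - d * m' : ℤ) : ℝ)
      = d * (d' * X.y (i + 1) - m') - d' * X.b * (d * X.y i - m) := by
    push_cast
    have : X.y (i + 1) = X.b * X.y i - X.Q i (i + 1) := by linarith
    rw [this]; ring
  have hpow : (X.b : ℝ) ^ h * (X.b + 1) ≤ (X.b : ℝ) ^ l := by
    have h3 : (X.b : ℝ) ^ h * (X.b : ℝ) ^ 2 ≤ (X.b : ℝ) ^ l := by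
      rw [← pow_add]
      exact pow_le_pow_right₀ X.b1.le hl
    have h4 : (X.b : ℝ) + 1 ≤ (X.b : ℝ) ^ 2 := by
      have : (2 : ℝ) ≤ X.b := by exact_mod_cast hb
      nlinarith
    calc (X.b : ℝ) ^ h * (X.b + 1) ≤ (X.b : ℝ) ^ h * (X.b : ℝ) ^ 2 := by gcongr
      _ ≤ _ := h3
  have hdr : (d : ℝ) ≤ (X.b : ℝ) ^ h := by exact_mod_cast hd
  have hdr' : (d' : ℝ) ≤ (X.b : ℝ) ^ h := by exact_mod_cast hd'
  have hd0r : (0 : ℝ) < d := by exact_mod_cast hd0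
  have hd0r' : (0 : ℝ) < d' := by exact_mod_cast hd0'
  set A := |(d : ℝ) * X.y i - m| with hA
  set A' := |(d' : ℝ) * X.y (i + 1) - m'| with hA'
  have hA0 : 0 ≤ A := abs_nonneg _
  have hA0' : 0 ≤ A' := abs_nonneg _
  have e2 : |((d' * (X.b * m - X.Q i (i + 1) * d) - d * m' : ℤ) : ℝ)| ≤ d * A' + d' * X.b * A := by
    rw [e1]
    refine (abs_sub _ _).trans ?_
    rw [abs_mul, abs_mul, abs_of_pos hd0r, abs_of_pos (by positivity : (0 : ℝ) < d' * X.b)]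
  have e3 : |((d' * (X.b * m - X.Q i (i + 1) * d) - d * m' : ℤ) : ℝ)| < 1 := by
    refine lt_of_le_of_lt e2 ?_
    have hbl : (0 : ℝ) < (X.b : ℝ) ^ l := by positivity
    have h5 : (X.b : ℝ) ^ l * (d * A' + d' * X.b * A) < (X.b : ℝ) ^ l * 1 := by
      calc (X.b : ℝ) ^ l * (d * A' + d' * X.b * A)
          = d * ((X.b : ℝ) ^ l * A') + d' * X.b * ((X.b : ℝ) ^ l * A) := by ring
        _ < d * 1 + d' * X.b * 1 := by gcongr
        _ ≤ (X.b : ℝ) ^ h * 1 + (X.b : ℝ) ^ h * X.b * 1 := by gcongr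
        _ = (X.b : ℝ) ^ h * (X.b + 1) := by ring
        _ ≤ (X.b : ℝ) ^ l * 1 := by rw [mul_one]; exact hpow
    exact lt_of_mul_lt_mul_left h5 hbl.le
  have e4 : |d' * (X.b * m - X.Q i (i + 1) * d) - d * m'| < 1 := by exact_mod_cast e3
  have e5 := Int.abs_lt_one_iff.1 e4
  linarith

/-- shadows along an interval -/
lemma shadow_run {l h a c : ℕ} (hl : h + 2 ≤ l)
    (hrep : ∀ i, a ≤ i → i ≤ c → ∃ s t, i ≤ s ∧ s < t ∧ t ≤ i + h ∧ Eqv X.w l s t) (hac : a ≤ c) :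
    ∃ m d m' d' : ℤ, 0 < d ∧ 0 < d' ∧ |m| ≤ (X.b : ℤ) ^ h ∧ d ≤ (X.b : ℤ) ^ h ∧
      |m'| ≤ (X.b : ℤ) ^ h ∧ d' ≤ (X.b : ℤ) ^ h ∧
      d' * ((X.b : ℤ) ^ (c - a) * m - X.Q a c * d) = d * m' := by
  classical
  have h1 : ∀ i, ∃ m d : ℤ, a ≤ i → i ≤ c → (0 < d ∧ |m| ≤ (X.b : ℤ) ^ h ∧ d ≤ (X.b : ℤ) ^ h ∧
      (X.b : ℝ) ^ l * |d * X.y i - m| < 1) := by
    intro i
    by_cases hi : a ≤ i ∧ i ≤ c
    · obtain ⟨s, t, h1, h2, h3, h4⟩ := hrep i hi.1 hi.2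
      obtain ⟨m, d, h5⟩ := X.shadow h1 h2 h3 h4
      exact ⟨m, d, fun _ _ => h5⟩
    · exact ⟨0, 0, fun h1 h2 => absurd ⟨h1, h2⟩ hi⟩
  choose m d hmd using h1
  have key : ∀ k, a + k ≤ c → d (a + k) * ((X.b : ℤ) ^ k * m a - X.Q a (a + k) * d a)
      = d a * m (a + k) := by
    intro k
    induction k with
    | zero => intro _; simp [Q_self]
    | succ k ih =>
      intro hk
      have h2 := ih (by omega)
      obtain ⟨c1, c2, c3, c4⟩ := hmd (a + k) (by omega) (by omega)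
      obtain ⟨e1, e2, e3, e4⟩ := hmd (a + k + 1) (by omega) (by omega)
      have h3 := X.shadow_step c1 e1 c3 e3 c4 e4 hl
      have h4 : X.Q a (a + k + 1) = (X.b : ℤ) * X.Q a (a + k) + X.Q (a + k) (a + k + 1) := by
        rw [X.Q_comp (Nat.le_add_right a k) (Nat.le_succ _)]
        congr 2
        rw [show a + k + 1 - (a + k) = 1 by omega, pow_one]
      rw [← add_assoc, h4]
      apply mul_left_cancel₀ c1.ne'
      rw [pow_succ]
      linear_combination (d a) * h3 + (d (a + k + 1) * X.b) * h2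
  obtain ⟨k, rfl⟩ := Nat.exists_eq_add_of_le hac
  obtain ⟨a1, a2, a3, _⟩ := hmd a le_rfl hac
  obtain ⟨b1, b2, b3, _⟩ := hmd (a + k) hac le_rfl
  have hk := key k le_rfl
  refine ⟨m a, d a, m (a + k), d (a + k), a1, b1, a2, a3, b2, b3, ?_⟩
  rw [Nat.add_sub_cancel_left]
  exact hk

end RC

end Pool.Agent.TH932.S2
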