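import Mathlib
import Pool.Agent.TH932.S2.Rc

set_option autoImplicit false
set_option linter.unusedSectionVars false

/-!
# Types of blocks of digits, and the chain of a real number
-/

namespace Pool.Agent.TH932.S2

open Filter Topology Pool.Agent.TH932.Abs Pool.Agent.TH932.Germs Pool.Agent.TH932.Chi
open Pool.Agent.TH932.Words Pool.Agent.TH932.Scale

namespace RC

variable (X : RC)

/-- the constant field -/
noncomputable abbrev K : Subfield GG := KK X.L X.tL

lemma hC : 0 ≤ X.C := by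
  have h1 := X.hcx 0
  have h2 : (1 : ℝ) ≤ X.l 0 := by exact_mod_cast X.hl1 0
  by_contra h
  push Not at h
  have h3 : (0 : ℝ) ≤ cx (dw X.b X.x) (X.l 0) := by positivity
  nlinarith

lemma L1 (n : ℕ) : 1 ≤ X.L n := by
  have h2 : (1 : ℝ) ≤ X.l n := by exact_mod_cast X.hl1 n
  exact h2.trans (X.hlL n)

/-! ## types -/

/-- the types -/
noncomputable def ty (n : ℕ) : ℕ → Fin (X.R + 1) := (exists_ty X.w (X.l n) (X.hR n)).choose

lemma hty (n i j : ℕ) (hi : Mk X.w (X.l n) i) (hj : Mk X.w (X.l n) j)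
    (h : X.ty n i = X.ty n j) : Eqv X.w (X.l n + 1) i j :=
  (exists_ty X.w (X.l n) (X.hR n)).choose_spec i j hi hj h

/-- special positions -/
def smk (n i : ℕ) : Prop := Mk X.w (X.l n) i
/-- the next special position -/
noncomputable def nx (n i : ℕ) : ℕ := nm X.w (X.l n) i

lemma nx_spec (n i : ℕ) : i < X.nx n i ∧ X.smk n (X.nx n i) ∧
    X.nx n i ≤ i + 1 + cx X.w (X.l n) ∧ ∀ m, i < m → m < X.nx n i → ¬ X.smk n m :=
  nm_spec X.aper (X.hl1 n) i

/-- length of a type -/
noncomputable def len (n : ℕ) (s : Fin (X.R + 1)) : ℕ := by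
  classical
  exact if h : ∃ i, X.smk n i ∧ X.ty n i = s then X.nx n h.choose - h.choose else 0
/-- integer of a type -/
noncomputable def Qs (n : ℕ) (s : Fin (X.R + 1)) : ℤ := by
  classical
  exact if h : ∃ i, X.smk n i ∧ X.ty n i = s then X.Q h.choose (X.nx n h.choose) else 0

lemma type_spec {n i : ℕ} (hi : X.smk n i) : X.nx n i = i + X.len n (X.ty n i) ∧
    X.Q i (X.nx n i) = X.Qs n (X.ty n i) := by
  classical
  have h : ∃ j, X.smk n j ∧ X.ty n j = X.ty n i := ⟨i, hi, rfl⟩
  have h1 := h.choose_spec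
  have h2 := X.hty n _ i h1.1 hi h1.2
  obtain ⟨h3, h4⟩ := type_block X.aper (X.hl1 n) h2
  obtain ⟨h5, _, _, _⟩ := X.nx_spec n h.choose
  have h7 := X.word_dep h4
  have e1 : h.choose + (nm X.w (X.l n) h.choose - h.choose) = X.nx n h.choose := by
    unfold nx at *; omega
  have e2 : i + (nm X.w (X.l n) h.choose - h.choose) = X.nx n i := by
    unfold nx; omega
  rw [e1, e2] at h7
  refine ⟨?_, ?_⟩
  · unfold len; rw [dif_pos h, ← e2]; rfl
  · unfold Qs; rw [dif_pos h]; exact h7.symm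

lemma nx_le (n i : ℕ) : (X.nx n i : ℝ) ≤ i + (X.C + 1) * X.L n := by
  obtain ⟨_, _, h3, _⟩ := X.nx_spec n i
  have h4 : (cx X.w (X.l n) : ℝ) ≤ X.C * X.l n := X.hcx n
  have h5 := X.hlL n
  have h6 : (X.nx n i : ℝ) ≤ i + 1 + cx X.w (X.l n) := by exact_mod_cast h3
  have h7 := X.L1 n
  have h8 : X.C * X.l n ≤ X.C * X.L n := by have := X.hC; gcongr
  linarith

lemma len_le (n : ℕ) (s : Fin (X.R + 1)) : (X.len n s : ℝ) ≤ (X.C + 1) * X.L n := by
  classical
  have hC := X.hC
  have hL := X.L1 n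
  unfold len
  split_ifs with h
  · obtain ⟨h1, _, h3, _⟩ := X.nx_spec n h.choose
    have h4 := X.nx_le n h.choose
    rw [Nat.cast_sub h1.le]
    linarith
  · simp only [Nat.cast_zero]
    positivity

lemma Qs_le (n : ℕ) (s : Fin (X.R + 1)) : |X.Qs n s| ≤ (X.b : ℤ) ^ (X.len n s) := by
  classical
  unfold Qs len
  split_ifs with h
  · obtain ⟨h1, _, h3, _⟩ := X.nx_spec n h.choose
    exact X.Q_abs h1.le
  · simp

lemma exists_c (s : Fin (X.R + 1)) : ∃ t, 0 ≤ t ∧ t ≤ X.C + 1 ∧
    near X.L (fun n => (X.len n s : ℝ)) t :=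
  exists_st X.tL (Eventually.of_forall fun n => ⟨by positivity, X.len_le n s⟩)

/-- asymptotic length of a type -/
noncomputable def c (s : Fin (X.R + 1)) : ℝ := (X.exists_c s).choose
lemma c_nonneg (s : Fin (X.R + 1)) : 0 ≤ X.c s := (X.exists_c s).choose_spec.1
lemma c_near (s : Fin (X.R + 1)) : near X.L (fun n => (X.len n s : ℝ)) (X.c s) :=
  (X.exists_c s).choose_spec.2.2

lemma exists_cmin : ∃ t : ℝ, 0 < t ∧ ∀ s, 0 < X.c s → t ≤ X.c s := by
  classical
  by_cases h : (Finset.univ.filter fun s => 0 < X.c s).Nonempty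
  · obtain ⟨s, hs, hmin⟩ := Finset.exists_min_image _ X.c h
    refine ⟨X.c s, (Finset.mem_filter.1 hs).2, fun s' hs' => hmin s' ?_⟩
    exact Finset.mem_filter.2 ⟨Finset.mem_univ _, hs'⟩
  · refine ⟨1, one_pos, fun s hs => ?_⟩
    exact absurd ⟨s, Finset.mem_filter.2 ⟨Finset.mem_univ _, hs⟩⟩ h

/-- least long length -/
noncomputable def cmin : ℝ := X.exists_cmin.choose
lemma cmin_pos : 0 < X.cmin := X.exists_cmin.choose_spec.1
lemma cmin_le (s : Fin (X.R + 1)) (hs : 0 < X.c s) : X.cmin ≤ X.c s :=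
  X.exists_cmin.choose_spec.2 s hs

/-- long special positions -/
def lm (n i : ℕ) : Prop := X.smk n i ∧ 0 < X.c (X.ty n i)

/-- the maximal length of a short type -/
noncomputable def gmax (n : ℕ) : ℕ := by
  classical
  exact ∑ s : Fin (X.R + 1), if 0 < X.c s then 0 else X.len n s

lemma gmax_near : near X.L (fun n => (X.gmax n : ℝ)) 0 := by
  classical
  have h1 : ∀ T : Finset (Fin (X.R + 1)), near X.L
      (fun n => ((∑ s ∈ T, if 0 < X.c s then 0 else X.len n s : ℕ) : ℝ)) 0 := by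
    intro T
    induction T using Finset.induction_on with
    | empty => simpa using near_const X.tL 0
    | insert a T ha ih =>
      have h2 : near X.L (fun n => ((if 0 < X.c a then 0 else X.len n a : ℕ) : ℝ)) 0 := by
        by_cases h : 0 < X.c a
        · simp only [if_pos h]; simpa using near_const X.tL 0
        · simp only [if_neg h]
          have h3 := X.c_near a
          have : X.c a = 0 := le_antisymm (not_lt.1 h) (X.c_nonneg a)
          rwa [this] at h3
      have h3 := h2.add ih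
      rw [add_zero] at h3
      refine h3.congr (Eventually.of_forall fun n => ?_)
      rw [Finset.sum_insert ha]
      push_cast
      rfl
  exact h1 Finset.univ

lemma short_le {n i : ℕ} (hi : X.smk n i) (hs : ¬ 0 < X.c (X.ty n i)) :
    X.nx n i ≤ i + X.gmax n := by
  classical
  rw [(X.type_spec hi).1]
  have : X.len n (X.ty n i) ≤ X.gmax n := by
    unfold gmax
    have h1 : (if 0 < X.c (X.ty n i) then 0 else X.len n (X.ty n i)) = X.len n (X.ty n i) := if_neg hs
    rw [← h1]
    exact Finset.single_le_sum (f := fun s => if 0 < X.c s then 0 else X.len n s)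
      (fun i _ => Nat.zero_le _) (Finset.mem_univ _)
  omega

/-- the window for repetitions -/
noncomputable def hh (n : ℕ) : ℕ := (X.R + 2) * X.gmax n

lemma hh_near : near X.L (fun n => (X.hh n : ℝ)) 0 := by
  have := X.gmax_near.const_mul X.tL (X.R + 2)
  rw [mul_zero] at this
  refine this.congr (Eventually.of_forall fun n => ?_)
  unfold hh; push_cast; ring

lemma reps {n a B : ℕ} (ha : X.smk n a) (hsh : ∀ m, a ≤ m → m < B → ¬ X.lm n m) {i : ℕ}
    (hai : a ≤ i) (hiB : i + X.hh n < B) :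
    ∃ s t, i ≤ s ∧ s < t ∧ t ≤ i + X.hh n ∧ Eqv X.w (X.l n) s t := by
  refine Pool.Agent.TH932.Orb.rep X.aper (X.hl1 n) (r := X.R + 1) (ty := X.ty n) (X.hty n)
    (g := X.gmax n) (a := a) (B := B) ha ?_ hai hiB
  intro m h1 h2 h3
  apply X.short_le h3
  intro h4
  exact hsh m h1 h2 ⟨h3, h4⟩

/-- the size condition for shadows -/
lemma size_ok : ∀ᶠ n in (UU : Filter ℕ), X.hh n + 2 ≤ X.l n := by
  filter_upwards [X.hh_near (1 / 4) (by norm_num), ev_of_atTop (X.tL.eventually_ge_atTop 8)]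
    with n h1 h2
  have h3 := (abs_le.1 h1).2
  have h4 := X.hLl n
  simp only [zero_mul, sub_zero] at h3
  have h5 : ((X.hh n + 2 : ℕ) : ℝ) ≤ X.l n := by
    push_cast; linarith
  exact_mod_cast h5

/-! ## germs -/

/-- germ of a power -/
noncomputable def NA (a c : ℕ → ℕ) : GG := gm fun n => 1 / (X.b : ℚ) ^ (c n - a n)
/-- germ of a block -/
noncomputable def QA (a c : ℕ → ℕ) : GG := gm fun n =>
  (X.Q (a n) (c n) : ℚ) / (X.b : ℚ) ^ (c n - a n)

lemma bq0 : (X.b : ℚ) ≠ 0 := by
  have := X.hb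
  have : X.b ≠ 0 := by omega
  exact_mod_cast this

lemma comp {a c d : ℕ → ℕ} (hac : ∀ᶠ n in (UU : Filter ℕ), a n ≤ c n)
    (hcd : ∀ᶠ n in (UU : Filter ℕ), c n ≤ d n) :
    X.QA a d = X.QA a c + X.NA a c * X.QA c d := by
  unfold NA QA
  rw [gm_mul, gm_add, gm_eq]
  filter_upwards [hac, hcd] with n h1 h2
  rw [X.Q_comp h1 h2]
  have e : (X.b : ℚ) ^ (d n - a n) = (X.b : ℚ) ^ (d n - c n) * (X.b : ℚ) ^ (c n - a n) := by
    rw [← pow_add]; congr 1; omega
  have h3 := X.bq0
  push_cast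
  rw [e]
  field_simp

lemma em_add (s t : ℝ) : X.em (s + t) = X.em s + X.em t := by
  rcases X.hem with ⟨_, h⟩ | ⟨_, h⟩
  · rw [h]; ext <;> simp [add_comm]
  · rw [h]; ext <;> simp

lemma em_zero : X.em 0 = 0 := by
  rcases X.hem with ⟨_, h⟩ | ⟨_, h⟩
  · rw [h]; ext <;> simp
  · rw [h]; ext <;> simp

/-- the value of the character on the axis -/
noncomputable def χ (t : ℝ) : GG := ch2 X.tL X.hp X.hq (X.em t)

lemma NA_const {a c : ℕ → ℕ} {t : ℝ} (hac : ∀ᶠ n in (UU : Filter ℕ), a n ≤ c n)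
    (ht : near X.L (fun n => (c n : ℝ) - a n) t) :
    ∃ κ : X.K, κ ≠ 0 ∧ X.NA a c = (κ : GG) * X.χ t := by
  have h0 : ∀ ε : ℝ, 0 < ε → ∀ᶠ n in (UU : Filter ℕ), |(((0 : ℤ)) : ℝ) - 0 * X.L n| ≤ ε * X.L n := by
    intro ε hε
    filter_upwards [L_nonneg X.tL] with n h2
    simp only [Int.cast_zero, zero_mul, sub_zero, abs_zero]
    positivity
  rcases X.hem with ⟨hb, he⟩ | ⟨hb, he⟩
  · obtain ⟨κ, h1, h2⟩ := exists_const2 X.tL X.hp X.hq (-t) 0
      (fun n => -((c n - a n : ℕ) : ℤ)) (fun _ => 0) (by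
        intro ε hε
        filter_upwards [ht ε hε, hac] with n h2 h3
        push_cast
        rw [Nat.cast_sub h3]
        have : -((c n : ℝ) - a n) - -t * X.L n = -((c n : ℝ) - a n - t * X.L n) := by ring
        rw [this, abs_neg]; exact h2) h0
    refine ⟨κ, h1, ?_⟩
    unfold NA χ
    rw [he]
    rw [← h2]
    congr 1
    funext n
    rw [hb]
    simp
  · obtain ⟨κ, h1, h2⟩ := exists_const2 X.tL X.hp X.hq 0 t (fun _ => 0)
      (fun n => ((c n - a n : ℕ) : ℤ)) h0 (by
        intro ε hε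
        filter_upwards [ht ε hε, hac] with n h2 h3
        push_cast
        rw [Nat.cast_sub h3]
        exact h2)
    refine ⟨κ, h1, ?_⟩
    unfold NA χ
    rw [he]
    rw [← h2]
    congr 1
    funext n
    rw [hb]
    simp

/-- negligible powers -/
lemma negl_pow {h : ℕ → ℕ} (hh : near X.L (fun n => (h n : ℝ)) 0) {m : ℕ → ℤ}
    (hm : ∀ᶠ n in (UU : Filter ℕ), |m n| ≤ (X.b : ℤ) ^ h n) : Negl X.L m := by
  apply negl_of_le X.tL (M := X.b) X.b1.le hh one_pos
  filter_upwards [hm] with n hn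
  have h1 : |(m n : ℝ)| ≤ (X.b : ℝ) ^ h n := by exact_mod_cast hn
  rw [one_mul]
  refine h1.trans (le_of_eq ?_)
  rw [← Real.rpow_natCast, Real.rpow_def_of_pos X.b0]

/-- blocks of negligible length are constants -/
lemma QA_const {a c : ℕ → ℕ} (hac : ∀ᶠ n in (UU : Filter ℕ), a n ≤ c n)
    (ht : near X.L (fun n => (c n : ℝ) - a n) 0) : X.QA a c ∈ X.K := by
  have ht' : near X.L (fun n => ((c n - a n : ℕ) : ℝ)) 0 :=
    ht.congr (by filter_upwards [hac] with n hn; rw [Nat.cast_sub hn])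
  refine ⟨fun n => X.Q (a n) (c n), fun n => (X.b : ℤ) ^ (c n - a n),
    X.negl_pow ht' ?_, X.negl_pow ht' ?_, ?_, ?_⟩
  · filter_upwards [hac] with n hn using X.Q_abs hn
  · refine Eventually.of_forall fun n => ?_
    rw [abs_of_nonneg]
    have := X.bz0
    positivity
  · refine Eventually.of_forall fun n => ?_
    have := X.bz0
    positivity
  · unfold QA
    push_cast
    rfl

/-- the generators -/
noncomputable def zf : Option (Option (Fin (X.R + 1))) → GG
  | none => 1
  | some none => X.QA (fun _ => 0) (fun n => X.nx n 0)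
  | some (some s) => gm fun n => (X.Qs n s : ℚ) / (X.b : ℚ) ^ (X.len n s)

/-- evaluation -/
noncomputable abbrev ev : Rg X.tL →+* GG := ev2 X.tL X.hp X.hq

/-- the axis -/
def Ax (g : ℝ × ℝ) : Prop := ∃ t : ℝ, 0 ≤ t ∧ g = X.em t

/-- combinations of the generators with exponents on the axis -/
def RepE (S : GG) : Prop := ∃ P : Option (Option (Fin (X.R + 1))) → Rg X.tL,
  (∀ j g, (P j).coeff g ≠ 0 → X.Ax g) ∧ S = ∑ j, X.ev (P j) * X.zf j

variable {X}

lemma RepE.add {S T : GG} (hS : X.RepE S) (hT : X.RepE T) : X.RepE (S + T) := by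
  obtain ⟨P, h1, h2⟩ := hS
  obtain ⟨P', h1', h2'⟩ := hT
  refine ⟨fun j => P j + P' j, fun j g hg => ?_, ?_⟩
  · by_cases h : (P j).coeff g = 0
    · apply h1' j
      intro h'
      apply hg
      rw [AddMonoidAlgebra.coeff_add, Finsupp.add_apply, h, h', add_zero]
    · exact h1 j g h
  · rw [h2, h2', ← Finset.sum_add_distrib]
    refine Finset.sum_congr rfl fun j _ => ?_
    rw [map_add, add_mul]

lemma RepE.mul {S : GG} (hS : X.RepE S) (κ : X.K) {t : ℝ} (ht : 0 ≤ t) :
    X.RepE ((κ : GG) * X.χ t * S) := by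
  obtain ⟨P, h1, h2⟩ := hS
  refine ⟨fun j => AddMonoidAlgebra.single (X.em t) κ * P j, fun j g hg => ?_, ?_⟩
  · have e : AddMonoidAlgebra.single (X.em t) κ * P j
        = ∑ g ∈ (P j).coeff.support, AddMonoidAlgebra.single (X.em t + g) (κ * (P j).coeff g) := by
      conv_lhs => rw [sum_single2 X.tL (P j)]
      rw [Finset.mul_sum]
      exact Finset.sum_congr rfl fun g _ => by rw [AddMonoidAlgebra.single_mul_single]
    change (AddMonoidAlgebra.single (X.em t) κ * P j).coeff g ≠ 0 at hg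
    rw [e] at hg
    by_contra hcon
    apply hg
    have h3 : ∀ s : Finset (ℝ × ℝ), s ⊆ (P j).coeff.support →
        (∑ g ∈ s, (AddMonoidAlgebra.single (X.em t + g) (κ * (P j).coeff g) : Rg X.tL)).coeff g
          = 0 := by
      intro s
      induction s using Finset.induction_on with
      | empty => intro _; simp
      | insert a s ha ih =>
        intro hs
        rw [Finset.sum_insert ha, AddMonoidAlgebra.coeff_add, Finsupp.add_apply,
          ih fun x hx => hs (Finset.mem_insert_of_mem hx), add_zero,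
          AddMonoidAlgebra.coeff_single, Finsupp.single_eq_of_ne]
        intro h4
        apply hcon
        have h5 := hs (Finset.mem_insert_self a s)
        obtain ⟨t', ht', h6⟩ := h1 j a (Finsupp.mem_support_iff.1 h5)
        exact ⟨t + t', by linarith, by rw [h4, X.em_add, h6]⟩
    exact h3 _ subset_rfl
  · rw [h2, Finset.mul_sum]
    refine Finset.sum_congr rfl fun j _ => ?_
    rw [map_mul, ev2_single]
    unfold χ
    ring

lemma RepE.const (κ : X.K) : X.RepE (κ : GG) := by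
  classical
  refine ⟨fun j => if j = none then AddMonoidAlgebra.single 0 κ else 0, fun j g hg => ?_, ?_⟩
  · simp only at hg
    split_ifs at hg
    · rw [AddMonoidAlgebra.coeff_single] at hg
      have : g = 0 := by
        by_contra hne
        exact hg (Finsupp.single_eq_of_ne hne)
      exact ⟨0, le_rfl, by rw [this, X.em_zero]⟩
    · exact absurd (by simp) hg
  · have h1 : ∀ j : Option (Option (Fin (X.R + 1))), X.ev (if j = none then
        AddMonoidAlgebra.single 0 κ else 0) * X.zf j = if j = none then (κ : GG) else 0 := by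
      intro j
      split_ifs with h
      · rw [h, ev2_single, ch2_zero]; simp [zf]
      · rw [map_zero, zero_mul]
    simp only [h1]
    rw [Finset.sum_ite_eq' Finset.univ none]
    simp

lemma RepE.gen (i : Option (Option (Fin (X.R + 1)))) : X.RepE (X.zf i) := by
  classical
  refine ⟨fun j => if j = i then 1 else 0, fun j g hg => ?_, ?_⟩
  · simp only at hg
    split_ifs at hg
    · rw [AddMonoidAlgebra.one_def, AddMonoidAlgebra.coeff_single] at hg
      have : g = 0 := by
        by_contra hne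
        exact hg (Finsupp.single_eq_of_ne hne)
      exact ⟨0, le_rfl, by rw [this, X.em_zero]⟩
    · exact absurd (by simp) hg
  · have h1 : ∀ j : Option (Option (Fin (X.R + 1))), X.ev (if j = i then 1 else 0)
        * X.zf j = if j = i then X.zf i else 0 := by
      intro j
      split_ifs with h
      · rw [h, map_one, one_mul]
      · rw [map_zero, zero_mul]
    simp only [h1]
    rw [Finset.sum_ite_eq' Finset.univ i]
    simp

variable (X)

/-- shadows cover the part before a position without long special positions in between -/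
lemma shadow_part {a m : ℕ → ℕ} (ha : ∀ n, X.smk n (a n))
    (ham : ∀ᶠ n in (UU : Filter ℕ), a n ≤ m n)
    (hsh : ∀ᶠ n in (UU : Filter ℕ), ∀ m', a n ≤ m' → m' < m n → ¬ X.lm n m') :
    ∃ c : ℕ → ℕ, (∀ᶠ n in (UU : Filter ℕ), a n ≤ c n) ∧ (∀ᶠ n in (UU : Filter ℕ), c n ≤ m n) ∧
      near X.L (fun n => (m n : ℝ) - c n) 0 ∧
      ∃ f f' : X.K, X.QA a c = f - X.NA a c * f' := by
  classical
  set c : ℕ → ℕ := fun n => if a n + X.hh n < m n then m n - X.hh n - 1 else a n with hc
  have h1 : ∀ᶠ n in (UU : Filter ℕ), a n ≤ c n := by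
    filter_upwards [ham] with n h
    simp only [hc]
    split_ifs with h2 <;> omega
  have h2 : ∀ᶠ n in (UU : Filter ℕ), c n ≤ m n := by
    filter_upwards [ham] with n h
    simp only [hc]
    split_ifs with h2 <;> omega
  refine ⟨c, h1, h2, ?_, ?_⟩
  · have h3 := X.hh_near.add (near_const X.tL 1)
    rw [zero_add] at h3
    apply near_zero_of_le h3
    filter_upwards [ham] with n h
    have h4 : m n ≤ c n + X.hh n + 1 := by
      simp only [hc]
      split_ifs with h2 <;> omega
    have h5 : c n ≤ m n := by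
      simp only [hc]
      split_ifs with h2 <;> omega
    have h4' : (m n : ℝ) ≤ c n + X.hh n + 1 := by exact_mod_cast h4
    have h5' : (c n : ℝ) ≤ m n := by exact_mod_cast h5
    rw [abs_of_nonneg (by linarith), abs_of_nonneg (by positivity)]
    linarith
  · -- shadows
    have hb1 : ∀ n, (1 : ℤ) ≤ (X.b : ℤ) ^ (X.hh n) := fun n => by
      have := X.bz0
      have h6 : (0 : ℤ) < (X.b : ℤ) ^ (X.hh n) := by positivity
      omega
    have hex : ∀ n, ∃ v w v' w' : ℤ, (a n ≤ m n ∧ (∀ m', a n ≤ m' → m' < m n → ¬ X.lm n m') ∧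
        X.hh n + 2 ≤ X.l n) →
        (0 < w ∧ 0 < w' ∧ |v| ≤ (X.b : ℤ) ^ (X.hh n) ∧ w ≤ (X.b : ℤ) ^ (X.hh n) ∧
          |v'| ≤ (X.b : ℤ) ^ (X.hh n) ∧ w' ≤ (X.b : ℤ) ^ (X.hh n) ∧
          w' * ((X.b : ℤ) ^ (c n - a n) * v - X.Q (a n) (c n) * w) = w * v') := by
      intro n
      by_cases hg : (a n ≤ m n ∧ (∀ m', a n ≤ m' → m' < m n → ¬ X.lm n m') ∧
        X.hh n + 2 ≤ X.l n)
      · obtain ⟨g1, g2, g3⟩ := hg
        by_cases hcase : a n + X.hh n < m n
        · have hbn : c n = m n - X.hh n - 1 := by simp only [hc]; rw [if_pos hcase]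
          obtain ⟨v, w, v', w', k1, k2, k3, k4, k5, k6, k7⟩ :=
            X.shadow_run (a := a n) (c := c n) g3
            (fun i hi1 hi2 => X.reps (ha n) g2 hi1 (by omega)) (by omega)
          exact ⟨v, w, v', w', fun _ => ⟨k1, k2, k3, k4, k5, k6, k7⟩⟩
        · have hbn : c n = a n := by simp only [hc]; rw [if_neg hcase]
          have := hb1 n
          refine ⟨0, 1, 0, 1, fun _ => ⟨one_pos, one_pos, ?_, ?_, ?_, ?_, ?_⟩⟩
          · rw [abs_zero]; linarith
          · linarith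
          · rw [abs_zero]; linarith
          · linarith
          · rw [hbn, X.Q_self]; simp
      · exact ⟨0, 0, 0, 0, fun h => absurd h hg⟩
    choose v w v' w' hvw using hex
    have hgood : ∀ᶠ n in (UU : Filter ℕ), (0 < w n ∧ 0 < w' n ∧ |v n| ≤ (X.b : ℤ) ^ (X.hh n) ∧
        w n ≤ (X.b : ℤ) ^ (X.hh n) ∧ |v' n| ≤ (X.b : ℤ) ^ (X.hh n) ∧
        w' n ≤ (X.b : ℤ) ^ (X.hh n) ∧
          w' n * ((X.b : ℤ) ^ (c n - a n) * v n - X.Q (a n) (c n) * w n) = w n * v' n) := by
      filter_upwards [ham, hsh, X.size_ok] with n g1 g2 g3 using hvw n ⟨g1, g2, g3⟩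
    have hf : gm (fun n => (v n : ℚ) / w n) ∈ X.K :=
      ⟨v, w, X.negl_pow X.hh_near (hgood.mono fun n h => h.2.2.1),
        X.negl_pow X.hh_near (hgood.mono fun n h => by rw [abs_of_pos h.1]; exact h.2.2.2.1),
        hgood.mono fun n h => h.1.ne', rfl⟩
    have hf' : gm (fun n => (v' n : ℚ) / w' n) ∈ X.K :=
      ⟨v', w', X.negl_pow X.hh_near (hgood.mono fun n h => h.2.2.2.2.1),
        X.negl_pow X.hh_near (hgood.mono fun n h => by rw [abs_of_pos h.2.1]; exact h.2.2.2.2.2.1),
        hgood.mono fun n h => h.2.1.ne', rfl⟩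
    refine ⟨⟨_, hf⟩, ⟨_, hf'⟩, ?_⟩
    unfold QA NA
    change _ = gm _ - gm _ * gm _
    rw [gm_mul, gm_sub, gm_eq]
    filter_upwards [hgood] with n hn
    obtain ⟨k1, k2, _, _, _, _, k7⟩ := hn
    have hw0 : (w n : ℚ) ≠ 0 := by exact_mod_cast k1.ne'
    have hw0' : (w' n : ℚ) ≠ 0 := by exact_mod_cast k2.ne'
    have hq := X.bq0
    have k8 : ((w' n : ℚ)) * ((X.b : ℚ) ^ (c n - a n) * v n - X.Q (a n) (c n) * w n)
        = w n * v' n := by exact_mod_cast k7
    field_simp
    linear_combination -k8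

end RC

end Pool.Agent.TH932.S2
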