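import Mathlib
import Pool.Agent.TH932.S2.Rc2
import Pool.Agent.TH932.Asm4

set_option autoImplicit false
set_option linter.unusedSectionVars false

/-!
# Representations of a real number with digits of low complexity
-/

namespace Pool.Agent.TH932.S2

open Filter Topology Pool.Agent.TH932.Abs Pool.Agent.TH932.Germs Pool.Agent.TH932.Chi
open Pool.Agent.TH932.Words Pool.Agent.TH932.Scale

namespace RC

variable (X : RC)

/-- the size parameter -/
noncomputable def B : ℝ := (X.C + 1) * Real.log X.b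

lemma B_nonneg : 0 ≤ X.B := by
  have := X.hC
  have := X.logb
  unfold B; positivity

/-- germs of blocks are bounded at all places -/
lemma block_mem {N : ℕ → ℤ} {h : ℕ → ℕ} (hN : ∀ n, |N n| ≤ (X.b : ℤ) ^ h n)
    (hh : ∀ n, (h n : ℝ) ≤ (X.C + 1) * X.L n) (v : Pl) :
    gm (fun n => (N n : ℚ) / (X.b : ℚ) ^ h n) ∈ Sv X.L X.p X.q v (-X.B) := by
  have hB := X.B_nonneg
  have hb := X.logb
  have hq := X.bq0
  have hlog : ∀ n, (h n : ℝ) * Real.log X.b ≤ X.B * X.L n := by
    intro n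
    have h1 := hh n
    unfold B
    calc (h n : ℝ) * Real.log X.b ≤ (X.C + 1) * X.L n * Real.log X.b := by gcongr
      _ = (X.C + 1) * Real.log X.b * X.L n := by ring
  unfold Sv
  rw [mem_SS]
  intro ε hε
  filter_upwards [L_nonneg X.tL] with n h1
  have h6 : 0 ≤ ε * X.L n := by positivity
  have h7 : 0 ≤ X.B * X.L n := by positivity
  have own : ∀ M : Submonoid ℤ, Rb X.b M (X.L n) ε (-X.B) ((N n : ℚ) / (X.b : ℚ) ^ h n) := by
    intro M
    refine ⟨1, 1, N n, -(h n : ℤ), one_ne_zero, ?_, M.one_mem, ?_, ?_⟩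
    · rw [Int.cast_one, abs_one]
      exact Real.one_le_exp (by positivity)
    · rw [zpow_neg, zpow_natCast]
      push_cast
      field_simp
    · have := hlog n
      push_cast
      linarith
  cases v
  · -- the place `p`
    rcases X.hem with ⟨hb', _⟩ | ⟨hb', _⟩
    · have := own (cop X.p)
      simp only [Rv]
      rw [← hb']
      rw [← hb'] at this
      exact this
    · refine ⟨1, (X.b : ℤ) ^ (h n), N n, 0, one_ne_zero, ?_, ?_, ?_, ?_⟩
      · rw [Int.cast_one, abs_one]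
        exact Real.one_le_exp (by positivity)
      · rw [hb']
        exact X.hpq.pow_left
      · push_cast
        field_simp
      · push_cast
        linarith
  · -- the place `q`
    rcases X.hem with ⟨hb', _⟩ | ⟨hb', _⟩
    · refine ⟨1, (X.b : ℤ) ^ (h n), N n, 0, one_ne_zero, ?_, ?_, ?_, ?_⟩
      · rw [Int.cast_one, abs_one]
        exact Real.one_le_exp (by positivity)
      · rw [hb']
        exact X.hpq.symm.pow_left
      · push_cast
        field_simp
      · push_cast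
        linarith
    · have := own (cop X.q)
      simp only [Rv]
      rw [← hb']
      rw [← hb'] at this
      exact this
  · simp only [Rv, Rinf]
    push_cast
    have hb0 := X.b0
    have h2 : |(N n : ℝ)| ≤ (X.b : ℝ) ^ h n := by exact_mod_cast hN n
    rw [abs_div, abs_of_pos (by positivity : (0 : ℝ) < (X.b : ℝ) ^ h n)]
    have h3 : |(N n : ℝ)| / (X.b : ℝ) ^ h n ≤ 1 := by
      rw [div_le_one (by positivity)]; exact h2
    refine h3.trans (Real.one_le_exp ?_)
    nlinarith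

lemma block_sint {N : ℕ → ℤ} {h : ℕ → ℕ} (hh : ∀ n, (h n : ℝ) ≤ (X.C + 1) * X.L n) :
    Sint X.L X.p X.q (gm (fun n => (N n : ℚ) / (X.b : ℚ) ^ h n)) := by
  have hB := X.B_nonneg
  have hb := X.logb
  have hq := X.bq0
  refine ⟨-X.B, ?_⟩
  rw [mem_SS]
  intro ε hε
  filter_upwards [L_nonneg X.tL] with n h1
  have h6 : 0 ≤ ε * X.L n := by positivity
  have h7 : 0 ≤ X.B * X.L n := by positivity
  have hlog : (h n : ℝ) * Real.log X.b ≤ X.B * X.L n := by
    have h1 := hh n
    unfold B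
    calc (h n : ℝ) * Real.log X.b ≤ (X.C + 1) * X.L n * Real.log X.b := by gcongr
      _ = (X.C + 1) * Real.log X.b * X.L n := by ring
  rcases X.hem with ⟨hb', _⟩ | ⟨hb', _⟩
  · refine ⟨1, N n, -(h n : ℤ), 0, one_ne_zero, ?_, ?_, ?_, ?_⟩
    · rw [Int.cast_one, abs_one]
      exact Real.one_le_exp (by positivity)
    · rw [zpow_neg, zpow_natCast, zpow_zero, ← hb']
      push_cast
      field_simp
    · rw [← hb']
      push_cast
      linarith
    · push_cast
      linarith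
  · refine ⟨1, N n, 0, -(h n : ℤ), one_ne_zero, ?_, ?_, ?_, ?_⟩
    · rw [Int.cast_one, abs_one]
      exact Real.one_le_exp (by positivity)
    · rw [zpow_neg, zpow_natCast, zpow_zero, ← hb']
      push_cast
      field_simp
    · push_cast
      linarith
    · rw [← hb']
      push_cast
      linarith

lemma nx0_le (n : ℕ) : (X.nx n 0 : ℝ) ≤ (X.C + 1) * X.L n := by
  have := X.nx_le n 0
  simpa using this

lemma zf_mem (v : Pl) (j : Option (Option (Fin (X.R + 1)))) :
    X.zf j ∈ Sv X.L X.p X.q v (-X.B) := by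
  match j with
  | none =>
    have hF := filt_v X.tL X.hp X.hq v
    have := hF.alg_mem 1
    rw [map_one] at this
    exact hF.anti (by have := X.B_nonneg; linarith) this
  | some none =>
    exact X.block_mem (N := fun n => X.Q 0 (X.nx n 0)) (h := fun n => X.nx n 0 - 0)
      (fun n => X.Q_abs (Nat.zero_le _)) (fun n => by simpa using X.nx0_le n) v
  | some (some s) => exact X.block_mem (fun n => X.Qs_le n s) (fun n => X.len_le n s) v

lemma zf_sint (j : Option (Option (Fin (X.R + 1)))) : Sint X.L X.p X.q (X.zf j) := by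
  match j with
  | none =>
    have := Sint.alg X.tL X.hp X.hq 1
    simpa [zf] using this
  | some none =>
    exact X.block_sint (N := fun n => X.Q 0 (X.nx n 0)) (h := fun n => X.nx n 0 - 0)
      (fun n => by simpa using X.nx0_le n)
  | some (some s) => exact X.block_sint (N := fun n => X.Qs n s) (fun n => X.len_le n s)

/-- the next long special position from `a` -/
noncomputable def Mn (n a : ℕ) : ℕ := by
  classical
  exact if h : ∃ m, X.lm n m ∧ a ≤ m then Nat.find h else a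

lemma Mn_spec {n a m0 : ℕ} (h0 : X.lm n m0) (h1 : a ≤ m0) : X.lm n (X.Mn n a) ∧ a ≤ X.Mn n a ∧
    (∀ m, a ≤ m → m < X.Mn n a → ¬ X.lm n m) ∧ X.Mn n a ≤ m0 := by
  classical
  have h : ∃ m, X.lm n m ∧ a ≤ m := ⟨m0, h0, h1⟩
  have e : X.Mn n a = Nat.find h := by unfold Mn; rw [dif_pos h]
  rw [e]
  refine ⟨(Nat.find_spec h).1, (Nat.find_spec h).2, fun m h2 h3 h4 => ?_, Nat.find_min' h ⟨h0, h1⟩⟩
  exact Nat.find_min h h3 ⟨h4, h2⟩

/-- truncations -/
noncomputable def T (a : ℕ → ℕ) : GG := X.QA (fun _ => 0) a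

/-- approximations of every order -/
def Done : Prop := ∀ E : ℝ, ∃ S : GG, X.RepE S ∧ ∃ s : ℕ → ℚ, S = gm s ∧
  ∀ᶠ n in (UU : Filter ℕ), |X.x - s n| ≤ Real.exp (-(E * X.L n))

lemma trunc (a : ℕ → ℕ) (n : ℕ) :
    |X.x - (((X.F 0 : ℤ) : ℚ) + (X.Q 0 (a n) : ℚ) / (X.b : ℚ) ^ (a n - 0) : ℚ)|
      ≤ Real.exp (-(Real.log X.b * a n)) := by
  have h1 := X.y_rec (Nat.zero_le (a n))
  have h2 := X.y_nonneg (a n)
  have h3 := X.y_lt (a n)
  have hb0 := X.b0
  have hp : (0 : ℝ) < (X.b : ℝ) ^ (a n) := by positivity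
  have e0 : X.y 0 = X.x - X.F 0 := by unfold y; simp
  rw [e0, Nat.sub_zero] at h1
  rw [Nat.sub_zero]
  push_cast
  have e1 : X.x - ((X.F 0 : ℝ) + (X.Q 0 (a n) : ℝ) / (X.b : ℝ) ^ (a n))
      = X.y (a n) / (X.b : ℝ) ^ (a n) := by
    field_simp
    linarith
  rw [e1, abs_of_nonneg (by positivity), Real.exp_neg, mul_comm, Real.exp_nat_mul,
    Real.exp_log hb0, div_eq_mul_inv]
  have h4 : (0 : ℝ) ≤ ((X.b : ℝ) ^ (a n))⁻¹ := by positivity
  calc X.y (a n) * ((X.b : ℝ) ^ (a n))⁻¹ ≤ 1 * ((X.b : ℝ) ^ (a n))⁻¹ := by gcongr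
    _ = _ := one_mul _

lemma done_of {a : ℕ → ℕ} (ha : X.RepE (X.T a)) {E : ℝ}
    (hE : ∀ᶠ n in (UU : Filter ℕ), E * X.L n ≤ Real.log X.b * a n) :
    ∃ S : GG, X.RepE S ∧ ∃ s : ℕ → ℚ, S = gm s ∧
      ∀ᶠ n in (UU : Filter ℕ), |X.x - s n| ≤ Real.exp (-(E * X.L n)) := by
  refine ⟨gm (fun n => ((X.F 0 : ℤ) : ℚ) + (X.Q 0 (a n) : ℚ) / (X.b : ℚ) ^ (a n - 0)), ?_, _, rfl,
    ?_⟩
  · have h1 : gm (fun _ => ((X.F 0 : ℤ) : ℚ)) ∈ X.K := by
      refine ⟨fun _ => X.F 0, fun _ => 1, ?_, Negl.one X.tL, by simp, by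
        congr 1; funext n; simp⟩
      intro ε hε
      have h2 := near_const X.tL (Real.log (|(X.F 0 : ℝ)| + 1)) ε hε
      filter_upwards [h2] with n h3
      have h4 := (abs_le.1 h3).2
      simp only [zero_mul, sub_zero] at h4
      calc |(X.F 0 : ℝ)| ≤ |(X.F 0 : ℝ)| + 1 := by linarith
        _ = Real.exp (Real.log (|(X.F 0 : ℝ)| + 1)) := (Real.exp_log (by positivity)).symm
        _ ≤ _ := Real.exp_le_exp.2 h4
    have h2 := (RepE.const (X := X) ⟨_, h1⟩).add ha
    have e : gm (fun n => ((X.F 0 : ℤ) : ℚ) + (X.Q 0 (a n) : ℚ) / (X.b : ℚ) ^ (a n - 0))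
        = gm (fun _ => ((X.F 0 : ℤ) : ℚ)) + X.T a := by
      unfold T QA
      rw [gm_add]
    rw [e]
    exact h2
  · filter_upwards [hE] with n hn
    refine (X.trunc a n).trans ?_
    apply Real.exp_le_exp.2
    linarith

lemma near_nonneg {a c : ℕ → ℕ} {t : ℝ} (hac : ∀ᶠ n in (UU : Filter ℕ), a n ≤ c n)
    (ht : near X.L (fun n => (c n : ℝ) - a n) t) : 0 ≤ t := by
  refine near_le X.tL (near_const X.tL 0) ht ?_
  filter_upwards [hac] with n hn
  have : (a n : ℝ) ≤ c n := by exact_mod_cast hn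
  linarith

/-- multiplication by the germ of a power -/
lemma RepE_NA {a c : ℕ → ℕ} {t : ℝ} (hac : ∀ᶠ n in (UU : Filter ℕ), a n ≤ c n)
    (ht : near X.L (fun n => (c n : ℝ) - a n) t) {S : GG} (hS : X.RepE S) :
    X.RepE (X.NA a c * S) := by
  obtain ⟨κ, _, h⟩ := X.NA_const hac ht
  rw [h]
  exact hS.mul κ (X.near_nonneg hac ht)

/-- one stage of the chain -/
lemma stage {a : ℕ → ℕ} {t A : ℝ} (hsm : ∀ n, X.smk n (a n)) (hr : X.RepE (X.T a))
    (hA : ∀ᶠ n in (UU : Filter ℕ), (a n : ℝ) ≤ A * X.L n)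
    (ht : near X.L (fun n => (a n : ℝ)) t) : X.Done ∨
    ∃ (a' : ℕ → ℕ) (t' A' : ℝ), (∀ n, X.smk n (a' n)) ∧ X.RepE (X.T a') ∧
      (∀ᶠ n in (UU : Filter ℕ), (a' n : ℝ) ≤ A' * X.L n) ∧
      near X.L (fun n => (a' n : ℝ)) t' ∧ t + X.cmin ≤ t' := by
  classical
  have hz : near X.L (fun n => (a n : ℝ) - ((0 : ℕ) : ℝ)) t :=
    ht.congr (Eventually.of_forall fun n => by simp)
  by_cases hI : ∃ A1 : ℝ, ∀ᶠ n in (UU : Filter ℕ), ∃ m, X.lm n m ∧ a n ≤ m ∧
      (m : ℝ) ≤ A1 * X.L n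
  · -- there is a next long special position
    right
    obtain ⟨A1, hA1⟩ := hI
    set m : ℕ → ℕ := fun n => X.Mn n (a n) with hm
    have hst : ∀ᶠ n in (UU : Filter ℕ), X.lm n (m n) ∧ a n ≤ m n ∧
        (∀ m', a n ≤ m' → m' < m n → ¬ X.lm n m') ∧ (m n : ℝ) ≤ A1 * X.L n := by
      filter_upwards [hA1] with n hn
      obtain ⟨m0, h1, h2, h3⟩ := hn
      obtain ⟨g1, g2, g3, g4⟩ := X.Mn_spec h1 h2
      refine ⟨g1, g2, g3, ?_⟩
      have : (m n : ℝ) ≤ m0 := by exact_mod_cast g4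
      linarith
    set a' : ℕ → ℕ := fun n => X.nx n (m n) with ha'
    have hlm : ∀ᶠ n in (UU : Filter ℕ), X.lm n (m n) := hst.mono fun n h => h.1
    have ham : ∀ᶠ n in (UU : Filter ℕ), a n ≤ m n := hst.mono fun n h => h.2.1
    have hma : ∀ᶠ n in (UU : Filter ℕ), m n ≤ a' n :=
      Eventually.of_forall fun n => (X.nx_spec n (m n)).1.le
    have haa : ∀ᶠ n in (UU : Filter ℕ), a n ≤ a' n := by
      filter_upwards [ham, hma] with n h1 h2 using h1.trans h2
    have hmA : ∀ᶠ n in (UU : Filter ℕ), (m n : ℝ) ≤ A1 * X.L n := hst.mono fun n h => h.2.2.2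
    have haA : ∀ᶠ n in (UU : Filter ℕ), (a' n : ℝ) ≤ (A1 + (X.C + 1)) * X.L n := by
      filter_upwards [hmA] with n h1
      have := X.nx_le n (m n)
      simp only [ha']
      linarith
    -- the type
    obtain ⟨s, hs⟩ : ∃ s, ∀ᶠ n in (UU : Filter ℕ), X.ty n (m n) = s := by
      have h1 : (⋃ s ∈ (Set.univ : Set (Fin (X.R + 1))), {n | X.ty n (m n) = s}) ∈ UU := by
        have : (⋃ s ∈ (Set.univ : Set (Fin (X.R + 1))), {n | X.ty n (m n) = s}) = Set.univ := by
          ext n; simp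
        rw [this]; exact Filter.univ_mem
      obtain ⟨s, _, hs⟩ := (Ultrafilter.finite_biUnion_mem_iff Set.finite_univ).1 h1
      exact ⟨s, hs⟩
    have hcs : 0 < X.c s := by
      obtain ⟨n, h1, h2⟩ := (hlm.and hs).exists
      rw [← h2]; exact h1.2
    obtain ⟨c, hac, hcm, hcn, f, f', hf⟩ := X.shadow_part (a := a) (m := m) hsm ham
      (hst.mono fun n h => h.2.2.1)
    have hca : ∀ᶠ n in (UU : Filter ℕ), c n ≤ a' n := by
      filter_upwards [hcm, hma] with n h1 h2 using h1.trans h2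
    have h0a : ∀ b : ℕ → ℕ, ∀ᶠ n in (UU : Filter ℕ), (fun _ => 0 : ℕ → ℕ) n ≤ b n :=
      fun b => Eventually.of_forall fun n => Nat.zero_le _
    -- standard parts
    have hstd : ∀ b : ℕ → ℕ, (∀ᶠ n in (UU : Filter ℕ), (b n : ℝ) ≤ (A1 + (X.C + 1)) * X.L n) →
        ∃ t, near X.L (fun n => (b n : ℝ)) t := by
      intro b hb
      obtain ⟨t, _, _, h⟩ := exists_st (L := X.L) X.tL (a := fun n => (b n : ℝ))
        (A := A1 + (X.C + 1)) (by
          filter_upwards [hb] with n hn using ⟨by positivity, hn⟩)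
      exact ⟨t, h⟩
    obtain ⟨t', ht'⟩ := hstd a' haA
    have hC0 := X.hC
    obtain ⟨tc, htc⟩ := hstd c (by
      filter_upwards [hca, haA] with n h1 h2
      exact (by exact_mod_cast h1 : (c n : ℝ) ≤ a' n).trans h2)
    obtain ⟨tm, htm⟩ := hstd m (by
      filter_upwards [hma, haA] with n h1 h2
      exact (by exact_mod_cast h1 : (m n : ℝ) ≤ a' n).trans h2)
    refine ⟨a', t', A1 + (X.C + 1), fun n => (X.nx_spec n _).2.1, ?_, haA, ht', ?_⟩
    · have hρ : X.QA m a' = X.zf (some (some s)) := by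
        unfold QA zf
        rw [gm_eq]
        filter_upwards [hlm, hs] with n h1 h2
        obtain ⟨h4, h5⟩ := X.type_spec h1.1
        rw [h2] at h4 h5
        have e1 : a' n = m n + X.len n s := h4
        have e2 : X.Q (m n) (a' n) = X.Qs n s := h5
        rw [e2, e1, Nat.add_sub_cancel_left]
      have e1 : X.T a' = X.T a + X.NA (fun _ => 0) a * ((f : GG) + -(X.NA a c * f'))
          + X.NA (fun _ => 0) a * (X.NA a c * (X.QA c m + X.NA c m * X.zf (some (some s)))) := by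
        unfold T
        rw [X.comp (h0a a) haa, X.comp hac hca, X.comp hcm hma, hf, hρ]
        ring
      rw [e1]
      have hnac := (htc.sub ht)
      have hncm := (htm.sub htc)
      have k1 : X.RepE (X.NA a c * (f' : GG)) := X.RepE_NA hac hnac (RepE.const f')
      have k1' : X.RepE (-(X.NA a c * (f' : GG))) := by
        have := k1.mul (-1) (le_refl (0 : ℝ))
        unfold χ at this
        rw [X.em_zero, ch2_zero] at this
        simpa using this
      have k2 : X.RepE (X.QA c m) := by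
        have h1 := X.QA_const hcm hcn
        exact RepE.const (X := X) ⟨_, h1⟩
      have k3 : X.RepE (X.NA c m * X.zf (some (some s))) :=
        X.RepE_NA hcm hncm (RepE.gen _)
      exact (hr.add (X.RepE_NA (h0a a) hz ((RepE.const f).add k1'))).add
        (X.RepE_NA (h0a a) hz (X.RepE_NA hac hnac (k2.add k3)))
    · have h1 : X.c s ≤ t' - t := by
        refine near_le X.tL (X.c_near s) (ht'.sub ht) ?_
        filter_upwards [hlm, hs, ham] with n h1 h2 h3
        have h4 := (X.type_spec h1.1).1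
        rw [h2] at h4
        have h5 : (a' n : ℝ) = m n + X.len n s := by exact_mod_cast h4
        have h6 : (a n : ℝ) ≤ m n := by exact_mod_cast h3
        linarith
      have := X.cmin_le s hcs
      linarith
  · -- no further long special positions
    left
    push Not at hI
    intro E
    set A1 : ℝ := |A| + |E| / Real.log X.b + 2 with hA1
    have hlb := X.logb
    have hA1p : 0 ≤ A1 := by positivity
    have h1 := hI A1
    have h2 : ∀ᶠ n in (UU : Filter ℕ), ¬ ∃ m, X.lm n m ∧ a n ≤ m ∧ (m : ℝ) ≤ A1 * X.L n := by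
      filter_upwards [h1] with n hn
      rintro ⟨m, h3, h4, h5⟩
      exact absurd h5 (not_le.2 (hn m h3 h4))
    set m : ℕ → ℕ := fun n => ⌊A1 * X.L n⌋₊ with hm
    have hm1 : ∀ n, (m n : ℝ) ≤ A1 * X.L n := fun n =>
      Nat.floor_le (by have := X.L1 n; positivity)
    have hm2 : ∀ n, A1 * X.L n < m n + 1 := fun n => Nat.lt_floor_add_one _
    have ham : ∀ᶠ n in (UU : Filter ℕ), a n ≤ m n := by
      filter_upwards [hA] with n h3
      have h4 := hm2 n
      have h5 := X.L1 n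
      have h6 : A * X.L n ≤ |A| * X.L n := by have := le_abs_self A; gcongr
      have h7 : 0 ≤ |E| / Real.log X.b * X.L n := by positivity
      have h8 : (a n : ℝ) < m n + 1 := by
        rw [hA1] at h4
        nlinarith
      have : a n < m n + 1 := by exact_mod_cast h8
      omega
    obtain ⟨c, hac, hcm, hcn, f, f', hf⟩ := X.shadow_part (a := a) (m := m) hsm ham (by
      filter_upwards [h2] with n h3 m' h4 h5 h6
      exact h3 ⟨m', h6, h4, by
        have : (m' : ℝ) ≤ m n := by exact_mod_cast h5.le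
        exact this.trans (hm1 n)⟩)
    obtain ⟨tc, _, _, htc⟩ := exists_st (L := X.L) X.tL (a := fun n => (c n : ℝ))
        (A := A1) (by
          filter_upwards [hcm] with n hn
          exact ⟨by positivity, (by exact_mod_cast hn : (c n : ℝ) ≤ m n).trans (hm1 n)⟩)
    have h0a : ∀ b : ℕ → ℕ, ∀ᶠ n in (UU : Filter ℕ), (fun _ => 0 : ℕ → ℕ) n ≤ b n :=
      fun b => Eventually.of_forall fun n => Nat.zero_le _
    refine X.done_of (a := c) ?_ ?_
    · have e1 : X.T c = X.T a + X.NA (fun _ => 0) a * ((f : GG) + -(X.NA a c * f')) := by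
        unfold T
        rw [X.comp (h0a a) hac, hf]
        ring
      rw [e1]
      have k1 : X.RepE (X.NA a c * (f' : GG)) := X.RepE_NA hac (htc.sub ht) (RepE.const f')
      have k1' : X.RepE (-(X.NA a c * (f' : GG))) := by
        have := k1.mul (-1) (le_refl (0 : ℝ))
        unfold χ at this
        rw [X.em_zero, ch2_zero] at this
        simpa using this
      exact hr.add (X.RepE_NA (h0a a) hz ((RepE.const f).add k1'))
    · filter_upwards [hcn (1 / 2) (by norm_num)] with n h3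
      have h4 := (abs_le.1 h3).2
      have h5 := hm2 n
      have h6 := X.L1 n
      simp only [zero_mul, sub_zero] at h4
      have h7 : |E| / Real.log X.b * X.L n ≤ c n := by
        rw [hA1] at h5
        have : 0 ≤ |A| * X.L n := by positivity
        nlinarith
      have h8 : |E| / Real.log X.b * X.L n * Real.log X.b ≤ c n * Real.log X.b := by gcongr
      have h9 : |E| / Real.log X.b * X.L n * Real.log X.b = |E| * X.L n := by field_simp
      have h10 : E * X.L n ≤ |E| * X.L n := by have := le_abs_self E; gcongr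
      linarith

/-- the chain -/
lemma chain (e : ℕ) : X.Done ∨
    ∃ (a : ℕ → ℕ) (t A : ℝ), (∀ n, X.smk n (a n)) ∧ X.RepE (X.T a) ∧
      (∀ᶠ n in (UU : Filter ℕ), (a n : ℝ) ≤ A * X.L n) ∧
      near X.L (fun n => (a n : ℝ)) t ∧ e * X.cmin ≤ t := by
  induction e with
  | zero =>
    right
    obtain ⟨t, ht0, _, ht⟩ := exists_st (L := X.L) X.tL (a := fun n => (X.nx n 0 : ℝ))
      (A := X.C + 1) (Eventually.of_forall fun n => ⟨by positivity, X.nx0_le n⟩)
    exact ⟨fun n => X.nx n 0, t, X.C + 1, fun n => (X.nx_spec n 0).2.1,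
      RepE.gen (X := X) (some none), Eventually.of_forall fun n => X.nx0_le n, ht, by simpa using ht0⟩
  | succ e ih =>
    rcases ih with h | ⟨a, t, A, h1, h2, h3, h4, h5⟩
    · exact Or.inl h
    · rcases X.stage h1 h2 h3 h4 with h | ⟨a', t', A', g1, g2, g3, g4, g5⟩
      · exact Or.inl h
      · right
        refine ⟨a', t', A', g1, g2, g3, g4, ?_⟩
        push_cast
        linarith

lemma done : X.Done := by
  intro E
  have hlb := X.logb
  have hcm := X.cmin_pos
  obtain ⟨e, he⟩ := exists_nat_gt ((|E| / Real.log X.b + 1) / X.cmin)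
  rw [div_lt_iff₀ hcm] at he
  rcases X.chain e with h | ⟨a, t, A, h1, h2, h3, h4, h5⟩
  · exact h E
  · refine X.done_of h2 ?_
    filter_upwards [h4 1 one_pos] with n h6
    have h7 := (abs_le.1 h6).1
    have h8 := X.L1 n
    have h9 : |E| / Real.log X.b * X.L n ≤ a n := by nlinarith
    have h10 : |E| / Real.log X.b * X.L n * Real.log X.b ≤ a n * Real.log X.b := by gcongr
    have h11 : |E| / Real.log X.b * X.L n * Real.log X.b = |E| * X.L n := by field_simp
    have h12 : E * X.L n ≤ |E| * X.L n := by have := le_abs_self E; gcongr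
    linarith

/-- **Representations.** -/
theorem rep {Ax : ℝ × ℝ → Prop} (hAx : ∀ t, 0 ≤ t → Ax (X.em t)) : Rep X.tL X.hp X.hq Ax X.x := by
  refine ⟨Option (Option (Fin (X.R + 1))), inferInstance, X.zf, X.B, X.zf_mem, X.zf_sint,
    fun E => ?_⟩
  obtain ⟨S, ⟨P, hP1, hP2⟩, s, hs, hx⟩ := X.done E
  refine ⟨P, s, fun j g hg => ?_, by rw [← hs]; exact hP2, hx⟩
  obtain ⟨t, ht, rfl⟩ := hP1 j g hg
  exact hAx t ht

end RC

/-- scales of low complexity, with an upper bound for the scale -/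
lemma exists_scale2 {α : Type*} [Finite α] (w : ℕ → α) {C : ℝ} (hC : 0 ≤ C) {N : ℕ} (hN : 2 ≤ N)
    (h : (cx w N : ℝ) ≤ C * N) : ∃ l, N ≤ 2 * l ∧ l ≤ N ∧ (cx w l : ℝ) ≤ 2 * C * l ∧
      (cx w (l + 1) : ℝ) ≤ 3 * C + cx w l := by
  by_contra hcon
  push Not at hcon
  have key : ∀ k : ℕ, N - N / 2 + k ≤ N → (cx w (N - N / 2) : ℝ) + 3 * C * k
      ≤ cx w (N - N / 2 + k) := by
    intro k
    induction k with
    | zero => intro _; simp
    | succ k ih =>
      intro hk
      have h1 := ih (by omega)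
      have h2 : (cx w (N - N / 2 + k) : ℝ) ≤ 2 * C * ((N - N / 2 + k : ℕ) : ℝ) := by
        have h3 : (cx w (N - N / 2 + k) : ℝ) ≤ cx w N := by
          exact_mod_cast Pool.Agent.TH932.Asm.cx_mono w (by omega : N - N / 2 + k ≤ N)
        refine h3.trans (h.trans ?_)
        have h4 : (N : ℝ) ≤ 2 * ((N - N / 2 + k : ℕ) : ℝ) := by
          exact_mod_cast (by omega : N ≤ 2 * (N - N / 2 + k))
        nlinarith
      have h3 := hcon (N - N / 2 + k) (by omega) (by omega) h2
      rw [← add_assoc]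
      push_cast
      linarith
  have h1 := key (N / 2) (by omega)
  rw [show N - N / 2 + N / 2 = N by omega] at h1
  have h2 : (N : ℝ) ≤ 3 * ((N / 2 : ℕ) : ℝ) := by
    exact_mod_cast (by omega : N ≤ 3 * (N / 2))
  have h3 : (1 : ℝ) ≤ cx w (N - N / 2) := by
    have : 0 < cx w (N - N / 2) := by
      unfold cx
      rw [Set.ncard_pos (finite_range_fac _ _)]
      exact Set.range_nonempty _
    exact_mod_cast this
  nlinarith

/-- **Representations at all scales.** -/
theorem rep_of {p q : ℕ} (hp : 2 ≤ p) (hq : 2 ≤ q) (hpq : IsCoprime (q : ℤ) (p : ℤ)) {b : ℕ}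
    {em : ℝ → ℝ × ℝ} (hem : (b = p ∧ em = fun t => (-t, 0)) ∨ (b = q ∧ em = fun t => (0, t)))
    {x : ℝ} (hx : Irrational x) {N : ℕ → ℕ} (hN : Tendsto N atTop atTop) (hN2 : ∀ n, 2 ≤ N n)
    {C : ℝ} (hC : ∀ n, (cx (dw b x) (N n) : ℝ) ≤ C * N n)
    (hL : Tendsto (fun n => (N n : ℝ)) atTop atTop) {Ax : ℝ × ℝ → Prop}
    (hAx : ∀ t, 0 ≤ t → Ax (em t)) : Rep hL hp hq Ax x := by
  have hb : b ≠ 0 := by
    rcases hem with ⟨h, _⟩ | ⟨h, _⟩ <;> omega
  have : NeZero b := ⟨hb⟩
  have hC0 : 0 ≤ |C| := abs_nonneg C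
  have h1 : ∀ n, ∃ l, N n ≤ 2 * l ∧ l ≤ N n ∧ (cx (dw b x) l : ℝ) ≤ 2 * |C| * l ∧
      (cx (dw b x) (l + 1) : ℝ) ≤ 3 * |C| + cx (dw b x) l := by
    intro n
    apply exists_scale2 _ hC0 (hN2 n)
    refine (hC n).trans ?_
    have := le_abs_self C
    gcongr
  choose l hl1 hl2 hl3 hl4 using h1
  have g1 : ∀ n, 1 ≤ l n := fun n => by
    have h2 := hl1 n
    have h3 := hN2 n
    omega
  have g2 : ∀ n, (l n : ℝ) ≤ (N n : ℝ) := fun n => by exact_mod_cast hl2 n
  have g3 : ∀ n, (N n : ℝ) ≤ 2 * (l n : ℝ) := fun n => by exact_mod_cast hl1 n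
  have g4 : ∀ n, 2 * cx (dw b x) (l n + 1) ≤ ⌈6 * |C|⌉₊ + 2 * cx (dw b x) (l n) := fun n => by
    have h2 := hl4 n
    have h3 : 6 * |C| ≤ (⌈6 * |C|⌉₊ : ℝ) := Nat.le_ceil _
    have h4 : ((2 * cx (dw b x) (l n + 1) : ℕ) : ℝ)
        ≤ ((⌈6 * |C|⌉₊ + 2 * cx (dw b x) (l n) : ℕ) : ℝ) := by
      push_cast
      linarith
    exact_mod_cast h4
  exact RC.rep (X := { p := p, q := q, hp := hp, hq := hq, hpq := hpq, b := b, em := em, hem := hem, x := x, hx := hx, l := l, L := fun n => (N n : ℝ), R := ⌈6 * |C|⌉₊, C := 2 * |C|, tL := hL, hl1 := g1, hlL := g2, hLl := g3, hcx := hl3, hR := g4 }) hAx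

end Pool.Agent.TH932.S2
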