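import Mathlib
import Pool.Agent.TH932.S2.Bsm3
import Pool.Agent.TH932.Growth
import Pool.Agent.TH932.Asm4

set_option autoImplicit false
set_option linter.unusedSectionVars false

/-!
# Bounded terms, and the contradiction with linear complexity
-/

namespace Pool.Agent.TH932.S2

open Filter Topology Pool.Agent.TH932.Abs Pool.Agent.TH932.Germs Pool.Agent.TH932.Chi
open Pool.Agent.TH932.Words Pool.Agent.TH932.Orb Pool.Agent.TH932.Scale

namespace Ctx2

variable {α : Type*} [Finite α] (X : Ctx2 α)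

lemma int_b (b : ℕ) (M : Submonoid ℤ) (y : ℕ → ℤ) :
    gm (fun n => (y n : ℚ)) ∈ SS X.L (Rb b M) 0 := by
  rw [mem_SS]
  intro ε hε
  filter_upwards [L_nonneg X.tL] with n h1
  refine ⟨1, 1, y n, 0, one_ne_zero, ?_, M.one_mem, by simp, ?_⟩
  · rw [Int.cast_one, abs_one]
    exact Real.one_le_exp (by positivity)
  · have : 0 ≤ ε * X.L n := by positivity
    push_cast
    linarith

/-- the size parameter -/
noncomputable def B : ℝ := (X.C + 1) * Real.log (2 * X.Z.M)

lemma B_pos : 0 < X.B := by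
  have := X.hC
  have := X.log2M
  unfold B; positivity

lemma rh_p (s : Fin (X.R + 1)) : X.rh s ∈ SS X.L (Rb X.Z.p (cop X.Z.p)) 0 := by
  unfold rh
  rw [mem_SS]
  intro ε hε
  filter_upwards [L_nonneg X.tL] with n h1
  have hq := X.q0
  refine ⟨1, (X.Z.q : ℤ) ^ (X.os n s), X.Qs n s, 0, one_ne_zero, ?_, ?_, ?_, ?_⟩
  · rw [Int.cast_one, abs_one]
    exact Real.one_le_exp (by positivity)
  · exact X.Z.hpq.pow_left
  · push_cast
    field_simp
  · have : 0 ≤ ε * X.L n := by positivity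
    push_cast
    linarith

lemma os_log (n : ℕ) (s : Fin (X.R + 1)) :
    (X.os n s : ℝ) * Real.log X.Z.q ≤ X.B * X.L n := by
  have hMr : (1 : ℝ) ≤ X.Z.M := by exact_mod_cast X.Z.hM1
  have hlM : Real.log X.Z.M ≤ Real.log (2 * X.Z.M) := Real.log_le_log (by linarith) (by linarith)
  have hlM0 := X.log2M
  have h2 := X.os_le n s
  have h3 := X.len_le n s
  have hq1 : (0 : ℝ) < X.Z.q := by have := X.Z.hq; positivity
  have h4 : (X.os n s : ℝ) * Real.log X.Z.q ≤ X.len n s * Real.log X.Z.M := by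
    have := Real.log_le_log (by positivity) h2
    rwa [Real.log_pow, Real.log_pow] at this
  have h5 : (X.len n s : ℝ) * Real.log X.Z.M ≤ (X.C + 1) * X.L n * Real.log (2 * X.Z.M) := by
    have := Real.log_nonneg hMr
    have h6 : 0 ≤ (X.C + 1) * X.L n := le_trans (by positivity) h3
    gcongr
  unfold B
  linarith

lemma rh_q (M : Submonoid ℤ) (s : Fin (X.R + 1)) : X.rh s ∈ SS X.L (Rb X.Z.q M) (-X.B) := by
  unfold rh
  rw [mem_SS]
  intro ε hε
  filter_upwards [L_nonneg X.tL] with n h1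
  have hq := X.q0
  refine ⟨1, 1, X.Qs n s, -(X.os n s : ℤ), one_ne_zero, ?_, Submonoid.one_mem _, ?_, ?_⟩
  · rw [Int.cast_one, abs_one]
    exact Real.one_le_exp (by positivity)
  · rw [zpow_neg, zpow_natCast]
    push_cast
    field_simp
  · have h2 := X.os_log n s
    have h6 : 0 ≤ ε * X.L n := by positivity
    push_cast
    linarith

lemma rh_sint (s : Fin (X.R + 1)) : Sint X.L X.Z.p X.Z.q (X.rh s) := by
  refine ⟨-X.B, ?_⟩
  unfold rh
  rw [mem_SS]
  intro ε hε
  filter_upwards [L_nonneg X.tL] with n h1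
  have hq := X.q0
  have hB := X.B_pos
  refine ⟨1, X.Qs n s, 0, -(X.os n s : ℤ), one_ne_zero, ?_, ?_, ?_, ?_⟩
  · rw [Int.cast_one, abs_one]
    exact Real.one_le_exp (by positivity)
  · rw [zpow_neg, zpow_natCast, zpow_zero]
    push_cast
    field_simp
  · have h6 : 0 ≤ ε * X.L n := by positivity
    have h7 : 0 ≤ X.B * X.L n := by positivity
    push_cast
    linarith
  · have h2 := X.os_log n s
    have h6 : 0 ≤ ε * X.L n := by positivity
    push_cast
    linarith

lemma rh_i (s : Fin (X.R + 1)) : X.rh s ∈ SS X.L Rinf (-X.B) := by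
  have hMr : (1 : ℝ) ≤ X.Z.M := by exact_mod_cast X.Z.hM1
  have hlM0 := X.log2M
  unfold rh
  rw [mem_SS]
  intro ε hε
  filter_upwards [L_nonneg X.tL] with n h1
  have h2 := X.Qs_le n s
  have h3 := X.len_le n s
  unfold Rinf
  push_cast
  have hq1 : (1 : ℝ) ≤ (X.Z.q : ℝ) ^ (X.os n s) := by
    have := X.Z.hq
    have : (1 : ℝ) ≤ X.Z.q := by exact_mod_cast (by omega : 1 ≤ X.Z.q)
    exact one_le_pow₀ this
  rw [abs_div, abs_of_nonneg (by linarith : (0 : ℝ) ≤ (X.Z.q : ℝ) ^ (X.os n s))]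
  calc |(X.Qs n s : ℝ)| / (X.Z.q : ℝ) ^ (X.os n s) ≤ |(X.Qs n s : ℝ)| := div_le_self (abs_nonneg _) hq1
    _ ≤ (2 * X.Z.M : ℝ) ^ (X.len n s) := h2
    _ = Real.exp (Real.log (2 * X.Z.M) * X.len n s) := by
        rw [← Real.rpow_natCast, Real.rpow_def_of_pos (by linarith)]
    _ ≤ Real.exp (-(-X.B - ε) * X.L n) := by
        apply Real.exp_le_exp.2
        have h5 : Real.log (2 * X.Z.M) * (X.len n s : ℝ)
            ≤ Real.log (2 * X.Z.M) * ((X.C + 1) * X.L n) := by gcongr
        have h6 : 0 ≤ ε * X.L n := by positivity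
        unfold B
        linarith

lemma gY_i : X.gY (X.pos 0) ∈ SS X.L Rinf (-X.B) := by
  have hlM0 := X.log2M
  unfold gY
  rw [mem_SS]
  intro ε hε
  have h0 := near_const X.tL (Real.log (|(X.Z.y 0 : ℝ)| + 1)) ε hε
  filter_upwards [L_nonneg X.tL, h0] with n h1 h2
  have h3 := X.nx_le n 0
  have h4 := X.y_exp (X.pos 0 n)
  have h5 := (abs_le.1 h2).2
  simp only [zero_mul, sub_zero, Nat.cast_zero, zero_add] at h3 h5
  unfold Rinf
  push_cast
  have h6 : |(X.Z.y (X.pos 0 n) : ℝ)| ≤ Real.exp (Real.log (|(X.Z.y 0 : ℝ)| + 1)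
      + Real.log (2 * X.Z.M) * X.pos 0 n) := by
    rw [Real.exp_add, Real.exp_log (by positivity)]
    linarith
  refine h6.trans (Real.exp_le_exp.2 ?_)
  have h7 : Real.log (2 * X.Z.M) * (X.pos 0 n : ℝ) ≤ Real.log (2 * X.Z.M) * ((X.C + 1) * X.L n) := by
    have : (X.pos 0 n : ℝ) = X.nx n 0 := rfl
    rw [this]
    gcongr
  unfold B
  linarith

/-- the generators are bounded at all places -/
lemma zf_mem (v : Pl) (j : Option (Option (Fin (X.R + 1)))) :
    X.zf j ∈ Sv X.L X.Z.p X.Z.q v (-X.B) := by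
  have hF := filt_v X.tL X.Z.hp X.Z.hq v
  have hB := X.B_pos
  match j with
  | none =>
    have := hF.alg_mem 1
    rw [map_one] at this
    exact hF.anti (by linarith) this
  | some none =>
    cases v
    · exact hF.anti (by linarith) (X.int_b _ _ _)
    · exact hF.anti (by linarith) (X.int_b _ _ _)
    · exact X.gY_i
  | some (some s) =>
    cases v
    · exact hF.anti (by linarith) (X.rh_p s)
    · exact X.rh_q _ s
    · exact X.rh_i s

lemma zf_sint (j : Option (Option (Fin (X.R + 1)))) : Sint X.L X.Z.p X.Z.q (X.zf j) := by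
  match j with
  | none =>
    have := Sint.alg X.tL X.Z.hp X.Z.hq 1
    simpa [zf] using this
  | some none =>
    refine ⟨0, ?_⟩
    unfold zf gY
    rw [mem_SS]
    intro ε hε
    filter_upwards [L_nonneg X.tL] with n h1
    have : 0 ≤ ε * X.L n := by positivity
    refine ⟨1, X.Z.y (X.pos 0 n), 0, 0, one_ne_zero, ?_, by simp, ?_, ?_⟩
    · rw [Int.cast_one, abs_one]
      exact Real.one_le_exp (by positivity)
    · push_cast
      linarith
    · push_cast
      linarith
  | some (some s) => exact X.rh_sint s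

/-- the terms of the chain are bounded -/
lemma chain_bound (hbd : BDStmt) : ∃ B : ℝ, ∀ e, X.gY (X.pos e) ∈ SS X.L Rinf (-B) := by
  obtain ⟨B, hB⟩ := hbd X.Z.p X.Z.q X.Z.hp X.Z.hq X.Z.hpq X.L X.tL _ inferInstance X.zf X.B X.cM
    X.zf_mem X.zf_sint
  refine ⟨B, fun e => ?_⟩
  obtain ⟨M, h, P, hM, _, _, hP, _, hr⟩ := X.chain e
  exact hB _ h M P (X.int_b _ _ _) hM (fun j g hg => hP j g hg) hr

/-- **All terms up to every multiple of the scale are bounded.** -/
theorem bounded (hbd : BDStmt) : ∃ B : ℝ, 0 < B ∧ ∀ A : ℝ, ∀ᶠ n in (UU : Filter ℕ), ∀ k : ℕ,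
    (k : ℝ) ≤ A * X.L n → |(X.Z.y k : ℝ)| ≤ Real.exp (B * X.L n) := by
  obtain ⟨B0, hB0⟩ := X.chain_bound hbd
  have hlM := X.log2M
  have hlp := X.logp
  have hC := X.hC
  set B1 : ℝ := |B0| + 2 with hB1
  have hB1p : 0 ≤ B1 := by positivity
  set G : ℝ := (B1 + 1) / Real.log X.Z.p + 1 + (X.C + 1) with hG
  have hGp : 0 ≤ G := by positivity
  set B : ℝ := Real.log (2 * X.Z.M) * G + B1 + (1 + Real.log (2 * X.Z.M) * (X.C + 1)) with hBd
  have hBp : 0 < B := by positivity
  refine ⟨B, hBp, fun A => ?_⟩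
  obtain ⟨E, hE⟩ := exists_nat_gt ((|A| + 1) / X.cmin)
  rw [div_lt_iff₀ X.cmin_pos] at hE
  -- the terms of the chain
  have hch : ∀ᶠ n in (UU : Filter ℕ), ∀ e ∈ Finset.range (E + 1),
      |(X.Z.y (X.pos e n) : ℝ)| + 1 ≤ Real.exp (B1 * X.L n) := by
    rw [Finset.eventually_all]
    intro e _
    have h1 := hB0 e
    unfold gY at h1
    rw [mem_SS] at h1
    filter_upwards [h1 1 one_pos, ev_of_atTop (X.tL.eventually_ge_atTop 1)] with n h2 h3
    unfold Rinf at h2
    push_cast at h2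
    have h4 : Real.exp (-(-B0 - 1) * X.L n) ≤ Real.exp ((B1 - 1) * X.L n) := by
      apply Real.exp_le_exp.2
      have := le_abs_self B0
      rw [hB1]
      nlinarith
    have h5 : (1 : ℝ) ≤ Real.exp ((B1 - 1) * X.L n) := by
      apply Real.one_le_exp
      have : 0 ≤ B1 - 1 := by rw [hB1]; have := abs_nonneg B0; linarith
      positivity
    have h6 : Real.exp (B1 * X.L n) = Real.exp ((B1 - 1) * X.L n) * Real.exp (X.L n) := by
      rw [← Real.exp_add]; ring_nf
    have h7 : (2 : ℝ) ≤ Real.exp (X.L n) := by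
      have := Real.add_one_le_exp (X.L n)
      linarith
    rw [h6]
    nlinarith
  have hms : ∀ᶠ n in (UU : Filter ℕ), ∀ e ∈ Finset.range (E + 1), X.lm n (X.Mn n (X.pos e n)) ∧
      X.pos e n ≤ X.Mn n (X.pos e n) ∧
      (∀ m, X.pos e n ≤ m → m < X.Mn n (X.pos e n) → ¬ X.lm n m) := by
    rw [Finset.eventually_all]
    intro e _
    obtain ⟨A', _, h⟩ := X.mstep e
    exact h.mono fun n hn => ⟨hn.2.1, hn.2.2.1, hn.2.2.2.1⟩
  obtain ⟨_, hh, _, _, _, hhE, _, hhn, _⟩ := X.chain E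
  have h0 := near_const X.tL (Real.log (|(X.Z.y 0 : ℝ)| + 1)) 1 one_pos
  filter_upwards [hch, hms, X.gap_le hB1p, hhn 1 one_pos,
    ev_of_atTop (X.tL.eventually_ge_atTop 1), h0] with n h1 h2 h3 h4 h5 h6 k hk
  have hL0 : 0 < X.L n := by linarith
  have h6' := (abs_le.1 h6).2
  simp only [zero_mul, sub_zero] at h6'
  by_cases hk0 : k < X.pos 0 n
  · -- before the chain
    have h7 := X.y_exp k
    have h8 := X.nx_le n 0
    have h9 : (k : ℝ) ≤ (X.C + 1) * X.L n := by
      have e1 : (X.pos 0 n : ℝ) = X.nx n 0 := rfl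
      have e2 : (k : ℝ) ≤ X.pos 0 n := by exact_mod_cast hk0.le
      rw [e1] at e2
      simp only [Nat.cast_zero, zero_add] at h8
      linarith
    have h10 : |(X.Z.y k : ℝ)| ≤ Real.exp (Real.log (|(X.Z.y 0 : ℝ)| + 1)
        + Real.log (2 * X.Z.M) * k) := by
      rw [Real.exp_add, Real.exp_log (by positivity)]
      linarith
    refine h10.trans (Real.exp_le_exp.2 ?_)
    have h11 : Real.log (2 * X.Z.M) * (k : ℝ) ≤ Real.log (2 * X.Z.M) * ((X.C + 1) * X.L n) := by
      gcongr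
    rw [hBd]
    have h12 : 0 ≤ (Real.log (2 * X.Z.M) * G + B1) * X.L n := by positivity
    nlinarith
  · push Not at hk0
    -- the last term of the chain before `k`
    have hkE : k < X.pos E n := by
      have h7 := (abs_le.1 h4).1
      have h8 : (0 : ℝ) ≤ X.pos 0 n := by positivity
      have h9 : A * X.L n ≤ |A| * X.L n := by
        have := le_abs_self A
        gcongr
      have h10 : (k : ℝ) < X.pos E n := by nlinarith
      exact_mod_cast h10
    obtain ⟨e, he1, he2, he3⟩ : ∃ e, e < E ∧ X.pos e n ≤ k ∧ k < X.pos (e + 1) n := by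
      classical
      have hex : ∃ e, k < X.pos e n := ⟨E, hkE⟩
      have h7 := Nat.find_spec hex
      have h8 : Nat.find hex ≠ 0 := by
        intro h9
        rw [h9] at h7
        omega
      obtain ⟨e, he⟩ := Nat.exists_eq_succ_of_ne_zero h8
      have h9 : ¬ k < X.pos e n := Nat.find_min hex (by omega)
      have h10 : Nat.find hex ≤ E := Nat.find_min' hex hkE
      refine ⟨e, by omega, by omega, ?_⟩
      rw [he] at h7
      exact h7
    have heE : e ∈ Finset.range (E + 1) := Finset.mem_range.2 (by omega)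
    obtain ⟨g1, g2, g3⟩ := h2 e heE
    have g4 := h1 e heE
    have g5 := h3 (X.pos e n) (X.Mn n (X.pos e n)) (X.pos_smk e n) g4 g3
    have g6 := X.nx_le n (X.Mn n (X.pos e n))
    have g7 : (X.pos (e + 1) n : ℝ) ≤ X.pos e n + G * X.L n := by
      have e1 : (X.pos (e + 1) n : ℝ) = X.nx n (X.Mn n (X.pos e n)) := rfl
      rw [e1, hG]
      linarith
    -- the growth from there
    have g8 : |(X.Z.y k : ℝ)| + 1 ≤ Real.exp (Real.log (2 * X.Z.M) * ((k : ℝ) - X.pos e n))
        * (|(X.Z.y (X.pos e n) : ℝ)| + 1) := by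
      have hMr : (1 : ℝ) ≤ X.Z.M := by exact_mod_cast X.Z.hM1
      obtain ⟨d, hd⟩ := Nat.exists_eq_add_of_le he2
      have key : ∀ d : ℕ, |(X.Z.y (X.pos e n + d) : ℝ)| + 1
          ≤ (2 * X.Z.M : ℝ) ^ d * (|(X.Z.y (X.pos e n) : ℝ)| + 1) := by
        intro d
        have h7 : |X.Z.y (X.pos e n + d)| + 1
            ≤ (2 * X.Z.M : ℤ) ^ d * (|X.Z.y (X.pos e n)| + 1) := by
          induction d with
          | zero => simp
          | succ d ih =>
            have hMz : (1 : ℤ) ≤ X.Z.M := by exact_mod_cast X.Z.hM1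
            have h1 : |X.Z.y (X.pos e n + d + 1)| ≤ |(X.Z.p : ℤ) * X.Z.y (X.pos e n + d + 1)| := by
              rw [abs_mul]
              have : (1 : ℤ) ≤ |(X.Z.p : ℤ)| := Int.one_le_abs X.Z.p_ne
              nlinarith [abs_nonneg (X.Z.y (X.pos e n + d + 1))]
            have h2 : |(X.Z.p : ℤ) * X.Z.y (X.pos e n + d + 1)|
                ≤ X.Z.M * |X.Z.y (X.pos e n + d)| + X.Z.M := by
              rw [X.Z.hrec]
              refine (abs_add_le _ _).trans ?_
              rw [abs_mul]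
              have h1 : |((X.Z.q : ℤ)) ^ X.Z.δ (X.Z.w (X.pos e n + d))| ≤ X.Z.M := by
                rw [abs_of_nonneg (by positivity)]
                exact_mod_cast X.Z.hqM _
              have := X.Z.hβM (X.Z.w (X.pos e n + d))
              gcongr
            have h3 : |X.Z.y (X.pos e n + d + 1)| + 1
                ≤ 2 * X.Z.M * (|X.Z.y (X.pos e n + d)| + 1) := by
              nlinarith [abs_nonneg (X.Z.y (X.pos e n + d))]
            rw [← add_assoc]
            calc |X.Z.y (X.pos e n + d + 1)| + 1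
                ≤ 2 * X.Z.M * (|X.Z.y (X.pos e n + d)| + 1) := h3
              _ ≤ 2 * X.Z.M * ((2 * X.Z.M : ℤ) ^ d * (|X.Z.y (X.pos e n)| + 1)) := by gcongr
              _ = (2 * X.Z.M : ℤ) ^ (d + 1) * (|X.Z.y (X.pos e n)| + 1) := by ring
        exact_mod_cast h7
      have h8 := key d
      rw [← hd] at h8
      rw [← Real.rpow_natCast, Real.rpow_def_of_pos (by linarith)] at h8
      have h9 : (d : ℝ) = (k : ℝ) - X.pos e n := by
        have : (k : ℝ) = X.pos e n + d := by exact_mod_cast hd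
        linarith
      rw [h9] at h8
      exact h8
    have g9 : Real.log (2 * X.Z.M) * ((k : ℝ) - X.pos e n) ≤ Real.log (2 * X.Z.M) * (G * X.L n) := by
      have : (k : ℝ) ≤ X.pos (e + 1) n := by exact_mod_cast he3.le
      gcongr; linarith
    have g10 : |(X.Z.y k : ℝ)| ≤ Real.exp (Real.log (2 * X.Z.M) * (G * X.L n))
        * Real.exp (B1 * X.L n) := by
      calc |(X.Z.y k : ℝ)| ≤ |(X.Z.y k : ℝ)| + 1 := by linarith
        _ ≤ Real.exp (Real.log (2 * X.Z.M) * ((k : ℝ) - X.pos e n))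
            * (|(X.Z.y (X.pos e n) : ℝ)| + 1) := g8
        _ ≤ _ := by gcongr
    refine g10.trans ?_
    rw [← Real.exp_add]
    apply Real.exp_le_exp.2
    rw [hBd]
    have h12 : 0 ≤ (1 + Real.log (2 * X.Z.M) * (X.C + 1)) * X.L n := by positivity
    nlinarith

/-- linear complexity at a multiple of the scale is impossible -/
theorem absurd_of (hbd : BDStmt) {C2 : ℝ}
    (hC2 : ∀ l : ℕ, 1 ≤ l → (cx X.Z.w l : ℝ) ≤ C2 * l) : False := by
  obtain ⟨B, hB, hb⟩ := X.bounded hbd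
  have hlp := X.logp
  -- the multiple
  obtain ⟨c, hc⟩ := exists_nat_gt ((B + 1) / Real.log X.Z.p)
  rw [div_lt_iff₀ hlp] at hc
  have hc0 : 0 < c := by
    by_contra h
    have : c = 0 := by omega
    rw [this] at hc
    push_cast at hc
    linarith
  have hc0' : (0 : ℝ) < c := by exact_mod_cast hc0
  obtain ⟨n, h1, h2⟩ := ((hb (|C2| * c)).and
    (ev_of_atTop (X.tL.eventually_ge_atTop 1))).exists
  have hln : (X.l n : ℝ) = X.L n := rfl
  obtain ⟨a, b, _, hab, hbl, hE⟩ := exists_rep X.Z.w (c * X.l n) 0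
  rw [zero_add] at hbl
  have h3 := hC2 (c * X.l n) (by
    have := X.hl1 n
    exact Nat.mul_pos hc0 (by omega))
  have h4 : (b : ℝ) ≤ |C2| * c * X.L n := by
    have h5 : (b : ℝ) ≤ cx X.Z.w (c * X.l n) := by exact_mod_cast hbl
    have h6 : C2 * ((c * X.l n : ℕ) : ℝ) ≤ |C2| * ((c * X.l n : ℕ) : ℝ) := by
      have := le_abs_self C2
      gcongr
    push_cast at h3 h6
    rw [hln] at h3 h6
    linarith
  have h5 : (a : ℝ) ≤ |C2| * c * X.L n := by
    have : (a : ℝ) ≤ b := by exact_mod_cast hab.le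
    linarith
  have h6 := h1 a h5
  have h7 := h1 b h4
  have h8 := X.Z.dvd_of_eqv hE
  have h9 : X.Z.y b - X.Z.y a ≠ 0 := by
    rw [sub_ne_zero]; intro h; have := X.Z.hinj h; omega
  have h10 := Int.le_of_dvd (abs_pos.2 h9) ((dvd_abs _ _).2 h8)
  have h11 : ((X.Z.p : ℝ)) ^ (c * X.l n) ≤ |(X.Z.y b : ℝ) - X.Z.y a| := by exact_mod_cast h10
  have h12 : |(X.Z.y b : ℝ) - X.Z.y a| ≤ 2 * Real.exp (B * X.L n) := by
    refine (abs_sub _ _).trans ?_
    linarith
  have h13 : ((X.Z.p : ℝ)) ^ (c * X.l n) = Real.exp (Real.log X.Z.p * (c * X.L n)) := by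
    have hp0 : (0 : ℝ) < X.Z.p := by
      have := X.Z.hp
      exact_mod_cast (show 0 < X.Z.p by omega)
    rw [← Real.rpow_natCast, Real.rpow_def_of_pos hp0]
    push_cast
    rw [hln]
  have h14 : 2 * Real.exp (B * X.L n) < Real.exp ((B + 1) * X.L n) := by
    rw [add_mul, Real.exp_add]
    have h15 := Real.add_one_le_exp (1 * X.L n)
    have h16 : (2 : ℝ) < Real.exp (1 * X.L n) := by
      have h17 : Real.exp 1 ≤ Real.exp (1 * X.L n) := Real.exp_le_exp.2 (by linarith)
      have h18 := Real.exp_one_gt_d9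
      linarith
    have := Real.exp_pos (B * X.L n)
    nlinarith
  have h15 : Real.exp (Real.log X.Z.p * (c * X.L n)) < Real.exp ((B + 1) * X.L n) := by
    rw [← h13]; linarith
  have h16 := Real.exp_lt_exp.1 h15
  have hL0 : 0 < X.L n := by linarith
  nlinarith

end Ctx2

/-- scales of low complexity -/
lemma exists_ctx {α : Type*} [Finite α] (Z : Sys α) {C0 : ℝ}
    (hfr : ∀ k : ℕ, ∃ N, k ≤ N ∧ (cx Z.w N : ℝ) ≤ C0 * N) :
    ∃ X : Ctx2 α, X.Z = Z := by
  classical
  set C : ℝ := |C0| with hCd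
  have hC : 0 ≤ C := abs_nonneg _
  have hsc : ∀ k : ℕ, ∃ l, k + 1 ≤ l ∧ (cx Z.w l : ℝ) ≤ 2 * C * l ∧
      (cx Z.w (l + 1) : ℝ) ≤ 3 * C + cx Z.w l := by
    intro k
    obtain ⟨N, hN1, hN2⟩ := hfr (2 * (k + 1) + 2)
    have hN3 : (cx Z.w N : ℝ) ≤ C * N := by
      refine hN2.trans ?_
      have := le_abs_self C0
      gcongr
    obtain ⟨l, h1, h2, h3⟩ := Pool.Agent.TH932.Asm.exists_scale Z.w hC (by omega) hN3
    exact ⟨l, by omega, h2, h3⟩
  choose l hl1 hl2 hl3 using hsc
  refine ⟨⟨Z, l, ⌈6 * C⌉₊, 2 * C, ?_, fun n => by have := hl1 n; omega, hl2, ?_⟩, rfl⟩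
  · exact tendsto_atTop_mono (fun n => (Nat.le_succ n).trans (hl1 n)) tendsto_id
  · intro n
    have h1 := hl3 n
    have h2 : 6 * C ≤ (⌈6 * C⌉₊ : ℝ) := Nat.le_ceil _
    have h3 : ((2 * cx Z.w (l n + 1) : ℕ) : ℝ) ≤ ((⌈6 * C⌉₊ + 2 * cx Z.w (l n) : ℕ) : ℝ) := by
      push_cast
      linarith
    exact_mod_cast h3

/-- **Linear complexity is impossible.** -/
theorem not_linear (hbd : BDStmt) {α : Type*} [Finite α] (Z : Sys α) (C : ℝ) :
    ∃ l : ℕ, 1 ≤ l ∧ C * l < (cx Z.w l : ℝ) := by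
  by_contra hcon
  push Not at hcon
  obtain ⟨X, rfl⟩ := exists_ctx Z (C0 := C) fun k => ⟨k + 1, by omega, hcon _ (by omega)⟩
  exact X.absurd_of hbd hcon

/-- superlinear complexity under exponential growth -/
theorem superlinear_exp (hbd : BDStmt) {α : Type*} [Finite α] (Z : Sys α) {a : ℝ} (ha : 0 < a)
    (hg : ∀ᶠ k : ℕ in atTop, Real.exp (a * k) ≤ |(Z.y k : ℝ)|) :
    Tendsto (fun n : ℕ => (cx Z.w n : ℝ) / n) atTop atTop := by
  by_contra hcon
  rw [tendsto_atTop] at hcon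
  push Not at hcon
  obtain ⟨C0, hC0⟩ := hcon
  have hfr : ∀ k : ℕ, ∃ N, k ≤ N ∧ (cx Z.w N : ℝ) ≤ C0 * N := by
    intro k
    have h1 := (Filter.not_eventually.1 hC0).and_eventually (eventually_ge_atTop (k + 1))
    obtain ⟨N, h2, h3⟩ := h1.exists
    refine ⟨N, by omega, ?_⟩
    push Not at h2
    have hN : (0 : ℝ) < N := by
      have : 0 < N := by omega
      exact_mod_cast this
    rw [div_lt_iff₀ hN] at h2
    exact h2.le
  obtain ⟨X, rfl⟩ := exists_ctx Z hfr
  obtain ⟨B, hB, hb⟩ := X.bounded hbd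
  obtain ⟨k0, hk0⟩ := eventually_atTop.1 hg
  obtain ⟨n, h1, h2⟩ := ((hb ((B + 1) / a + 1)).and
    (ev_of_atTop (X.tL.eventually_ge_atTop (k0 + 1)))).exists
  have hL0 : 0 < X.L n := by
    have : (0 : ℝ) ≤ k0 := by positivity
    linarith
  have hpos : 0 < (B + 1) / a + 1 := by positivity
  have hL1 : 1 ≤ X.L n := by
    have : (0 : ℝ) ≤ k0 := by positivity
    linarith
  set k := ⌊((B + 1) / a + 1) * X.L n⌋₊ with hk
  have h3 : (k : ℝ) ≤ ((B + 1) / a + 1) * X.L n := Nat.floor_le (by positivity)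
  have h4 : ((B + 1) / a + 1) * X.L n < k + 1 := Nat.lt_floor_add_one _
  have h5 : (B + 1) / a * X.L n < k := by nlinarith
  have h6 : k0 ≤ k := by
    have h7 : (k0 : ℝ) < k + 1 := by
      have : 0 ≤ (B + 1) / a * X.L n := by positivity
      nlinarith
    have : k0 < k + 1 := by exact_mod_cast h7
    omega
  have h7 := (hk0 k h6).trans (h1 k h3)
  have h8 := Real.exp_le_exp.1 h7
  have h9 : (B + 1) * X.L n < a * k := by
    have := (mul_lt_mul_iff_right₀ ha).2 h5
    have e : a * ((B + 1) / a * X.L n) = (B + 1) * X.L n := by field_simp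
    linarith
  nlinarith

/-- **Superlinear complexity when the frequency exists.** -/
theorem superlinear_freq (hbd : BDStmt) {α : Type*} [Finite α] (Z : Sys α) {θ : ℝ}
    (hθ : Tendsto (fun k : ℕ => (Z.oo k : ℝ) / k) atTop (𝓝 θ)) :
    Tendsto (fun n : ℕ => (cx Z.w n : ℝ) / n) atTop atTop := by
  by_cases hw : θ * Real.log Z.q ≤ Real.log Z.p
  · apply Z.superlinear_sub
    intro ε hε
    exact Z.le_exp hθ (by linarith)
  · push Not at hw
    exact superlinear_exp hbd Z (a := (θ * Real.log Z.q - Real.log Z.p) / 2) (by linarith)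
      (Z.exp_le hθ (by linarith))

end Pool.Agent.TH932.S2
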