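import Mathlib
import Pool.Agent.TH932.App2
import Pool.Agent.TH932.S2.Bsm4

set_option autoImplicit false

/-!
# The theorems without frequencies, ready for applications
-/

namespace Pool.Agent.TH932.S2

open Filter Topology Pool.Agent.TH932.Words Pool.Agent.TH932.Orb Pool.Agent.TH932.Asm
open Pool.Agent.TH932.App

/-- the system of an affine recurrence -/
lemma sys_of {α : Type*} [Finite α] {p q : ℕ} (hp : 2 ≤ p) (hq : 2 ≤ q)
    (hpq : IsCoprime (q : ℤ) (p : ℤ)) (δ : α → ℕ) (β : α → ℤ) (w : ℕ → α) (y : ℕ → ℤ)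
    (hrec : ∀ k, (p : ℤ) * y (k + 1) = (q : ℤ) ^ δ (w k) * y k + β (w k))
    (hinj : Function.Injective y) : ∃ Z : Sys α, Z.w = w ∧ Z.y = y ∧ Z.δ = δ ∧ Z.p = p ∧ Z.q = q := by
  classical
  have := Fintype.ofFinite α
  set M : ℕ := p + ∑ a : α, (q ^ δ a + (β a).natAbs) with hM
  have h1 : ∀ a, q ^ δ a + (β a).natAbs ≤ M := by
    intro a
    have := Finset.single_le_sum (f := fun a => q ^ δ a + (β a).natAbs)
      (fun i _ => Nat.zero_le _) (Finset.mem_univ a)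
    omega
  exact ⟨
    { p := p, q := q, M := M, w := w, δ := δ, β := β, y := y, hp := hp, hq := hq, hpq := hpq
      hpM := by omega
      hqM := fun a => by have := h1 a; omega
      hβM := fun a => by
        have h2 := h1 a
        have h3 : |β a| = ((β a).natAbs : ℤ) := Int.abs_eq_natAbs _
        rw [h3]
        exact_mod_cast (by omega : (β a).natAbs ≤ M)
      hrec := hrec, hinj := hinj }, rfl, rfl, rfl, rfl, rfl⟩

/-- **No linear complexity.** -/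
theorem not_linear_of (hbd : BDStmt) {α : Type*} [Finite α] {p q : ℕ} (hp : 2 ≤ p) (hq : 2 ≤ q)
    (hpq : IsCoprime (q : ℤ) (p : ℤ)) (δ : α → ℕ) (β : α → ℤ) (w : ℕ → α) (y : ℕ → ℤ)
    (hrec : ∀ k, (p : ℤ) * y (k + 1) = (q : ℤ) ^ δ (w k) * y k + β (w k))
    (hinj : Function.Injective y) (C : ℝ) : ∃ l : ℕ, 1 ≤ l ∧ C * l < (cx w l : ℝ) := by
  obtain ⟨Z, h1, -⟩ := sys_of hp hq hpq δ β w y hrec hinj
  have := not_linear hbd Z C
  rwa [h1] at this

/-- **Superlinear complexity when the frequency exists.** -/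
theorem superlinear_of2 (hbd : BDStmt) {α : Type*} [Finite α] {p q : ℕ} (hp : 2 ≤ p) (hq : 2 ≤ q)
    (hpq : IsCoprime (q : ℤ) (p : ℤ)) (δ : α → ℕ) (β : α → ℤ) (w : ℕ → α) (y : ℕ → ℤ)
    (hrec : ∀ k, (p : ℤ) * y (k + 1) = (q : ℤ) ^ δ (w k) * y k + β (w k))
    (hinj : Function.Injective y) {θ : ℝ}
    (hθ : Tendsto (fun k : ℕ => ((∑ i ∈ Finset.range k, δ (w i) : ℕ) : ℝ) / k) atTop (𝓝 θ)) :
    Tendsto (fun n : ℕ => (cx w n : ℝ) / n) atTop atTop := by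
  obtain ⟨Z, rfl, -, rfl, -⟩ := sys_of hp hq hpq δ β w y hrec hinj
  exact superlinear_freq hbd Z hθ

/-- **Superlinear complexity under exponential growth.** -/
theorem superlinear_exp_of (hbd : BDStmt) {α : Type*} [Finite α] {p q : ℕ} (hp : 2 ≤ p)
    (hq : 2 ≤ q) (hpq : IsCoprime (q : ℤ) (p : ℤ)) (δ : α → ℕ) (β : α → ℤ) (w : ℕ → α) (y : ℕ → ℤ)
    (hrec : ∀ k, (p : ℤ) * y (k + 1) = (q : ℤ) ^ δ (w k) * y k + β (w k))
    (hinj : Function.Injective y) {a : ℝ} (ha : 0 < a)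
    (hg : ∀ᶠ k : ℕ in atTop, Real.exp (a * k) ≤ |(y k : ℝ)|) :
    Tendsto (fun n : ℕ => (cx w n : ℝ) / n) atTop atTop := by
  obtain ⟨Z, rfl, rfl, -⟩ := sys_of hp hq hpq δ β w y hrec hinj
  exact superlinear_exp hbd Z ha hg

/-- comparison of linear bounds -/
lemma not_linear_le {f g : ℕ → ℕ} {a : ℕ} (hfg : ∀ n, f n ≤ g (a * n)) (ha : 0 < a)
    (hf : ∀ C : ℝ, ∃ l : ℕ, 1 ≤ l ∧ C * l < (f l : ℝ)) (C : ℝ) :
    ∃ l : ℕ, 1 ≤ l ∧ C * l < (g l : ℝ) := by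
  obtain ⟨l, h1, h2⟩ := hf (a * C)
  refine ⟨a * l, Nat.mul_pos ha h1, ?_⟩
  have h3 : (f l : ℝ) ≤ g (a * l) := by exact_mod_cast hfg l
  push_cast
  calc C * (a * l) = a * C * l := by ring
    _ < f l := h2
    _ ≤ _ := h3

end Pool.Agent.TH932.S2
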