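import Mathlib
import Pool.Agent.TH932.S2.All

set_option autoImplicit false

/-!
# Linear relations between `S`-units modulo a power: only exact ones

If a combination of units with negligible coefficients is, modulo a large modulus `p ^ e q ^ f`,
congruent to a small integer, then the combination vanishes.
-/

namespace Pool.Agent.TH932.S2.Pw

open Filter Topology Pool.Agent.TH932.Germs Pool.Agent.TH932.S2 Pool.Agent.TH932.Scale

section germs

variable {L : ℕ → ℝ} {p q : ℕ}

/-- the subspace theorem for a family in which one member is replaced at every place -/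
theorem swap (hp : 2 ≤ p) (hq : 2 ≤ q) (hpq : IsCoprime (q : ℤ) (p : ℤ))
    (hL : Tendsto L atTop atTop) {ι : Type} [Fintype ι] [DecidableEq ι] (e : ι → GG) (i0 : ι)
    (he : ∀ c : ι → KK L hL, ∑ i, (c i : GG) * e i = 0 → ∀ i, c i = 0)
    (w : Pl → ι → ℝ) (hw : ∀ v i, i ≠ i0 → e i ∈ Sv L p q v (w v i))
    (hw0 : ∀ i, i ≠ i0 → 0 ≤ ∑ v, w v i)
    (hS : ∀ i, i ≠ i0 → Sint L p q (e i))
    (y : Pl → GG) (m : Pl → ι → KK L hL) (hm : ∀ v, m v i0 ≠ 0)
    (hy : ∀ v, y v = ∑ j, (m v j : GG) * e j) (t : Pl → ℝ) (ht : ∀ v, y v ∈ Sv L p q v (t v))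
    (hyS : Sint L p q (y .I)) : ∑ v, t v ≤ 0 := by
  have key := mov_thm p q hp hq hpq L hL ι inferInstance
    (fun v i => if i = i0 then y v else e i) (fun v i => if i = i0 then t v else w v i)
    ?_ ?_ ?_ ?_
  · rw [Finset.sum_comm] at key
    have h1 : ∀ i, ∑ v : Pl, (if i = i0 then t v else w v i)
        = if i = i0 then ∑ v, t v else ∑ v, w v i := by
      intro i
      split_ifs <;> rfl
    simp only [h1] at key
    rw [← Finset.add_sum_erase _ _ (Finset.mem_univ i0), if_pos rfl] at key
    have h2 : 0 ≤ ∑ x ∈ Finset.univ.erase i0, (if x = i0 then ∑ v, t v else ∑ v, w v x) := by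
      refine Finset.sum_nonneg fun i hi => ?_
      rw [if_neg (Finset.ne_of_mem_erase hi)]
      exact hw0 i (Finset.ne_of_mem_erase hi)
    linarith
  · intro v c hc
    have hA : ∑ i, (c i : GG) * (if i = i0 then y v else e i)
        = (c i0 : GG) * y v + ∑ i ∈ Finset.univ.erase i0, (c i : GG) * e i := by
      rw [← Finset.add_sum_erase _ _ (Finset.mem_univ i0), if_pos rfl]
      congr 1
      exact Finset.sum_congr rfl fun i hi => by rw [if_neg (Finset.ne_of_mem_erase hi)]
    have hC : y v = (m v i0 : GG) * e i0 + ∑ i ∈ Finset.univ.erase i0, (m v i : GG) * e i := by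
      rw [hy v, ← Finset.add_sum_erase _ _ (Finset.mem_univ i0)]
    have h1 : ∑ i, ((c i0 * m v i + (if i = i0 then 0 else c i) : KK L hL) : GG) * e i = 0 := by
      rw [← hc, hA, hC, ← Finset.add_sum_erase _ _ (Finset.mem_univ i0), if_pos rfl, mul_add,
        Finset.mul_sum, add_assoc, ← Finset.sum_add_distrib]
      congr 1
      · push_cast
        ring
      · refine Finset.sum_congr rfl fun i hi => ?_
        rw [if_neg (Finset.ne_of_mem_erase hi)]
        push_cast
        ring
    have h2 := he _ h1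
    have h3 : c i0 = 0 := by
      have := h2 i0
      rw [if_pos rfl, add_zero] at this
      exact (mul_eq_zero.1 this).resolve_right (hm v)
    intro i
    by_cases hi : i = i0
    · rw [hi]; exact h3
    · have := h2 i
      rw [h3, if_neg hi, zero_mul, zero_add] at this
      exact this
  · intro v i
    by_cases hi : i = i0
    · subst hi
      refine ⟨fun j => if j = i then m v i / m .I i else m v j - m v i * m .I j / m .I i, ?_⟩
      have h0 : (m .I i : GG) ≠ 0 := fun h => hm .I (Subtype.ext h)
      have hC : ∀ v, y v = (m v i : GG) * e i + ∑ j ∈ Finset.univ.erase i, (m v j : GG) * e j := by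
        intro v
        rw [hy v, ← Finset.add_sum_erase _ _ (Finset.mem_univ i)]
      have hB : ∑ j, ((if j = i then m v i / m .I i else m v j - m v i * m .I j / m .I i :
          KK L hL) : GG) * (if j = i then y .I else e j)
          = ((m v i / m .I i : KK L hL) : GG) * y .I + ∑ j ∈ Finset.univ.erase i,
            ((m v j : GG) * e j - ((m v i / m .I i : KK L hL) : GG) * ((m .I j : GG) * e j)) := by
        rw [← Finset.add_sum_erase _ _ (Finset.mem_univ i), if_pos rfl, if_pos rfl]
        congr 1
        refine Finset.sum_congr rfl fun j hj => ?_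
        rw [if_neg (Finset.ne_of_mem_erase hj), if_neg (Finset.ne_of_mem_erase hj)]
        push_cast
        field_simp
      rw [if_pos rfl, hB, Finset.sum_sub_distrib, ← Finset.mul_sum, hC v, hC .I]
      push_cast
      field_simp
      ring
    · refine ⟨fun j => if j = i then 1 else 0, ?_⟩
      rw [if_neg hi, Finset.sum_eq_single i]
      · simp [hi]
      · intro b _ hb
        simp [hb]
      · intro h; exact absurd (Finset.mem_univ _) h
  · intro v i
    by_cases hi : i = i0
    · rw [if_pos hi, if_pos hi]; exact ht v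
    · rw [if_neg hi, if_neg hi]; exact hw v i hi
  · intro i
    by_cases hi : i = i0
    · rw [if_pos hi]; exact hyS
    · rw [if_neg hi]; exact hS i hi

variable (hp : 2 ≤ p) (hq : 2 ≤ q) (hpq : IsCoprime (q : ℤ) (p : ℤ))
  (hL : Tendsto L atTop atTop)

include hpq in
/-- the values of the character at different points are independent -/
theorem ch_ind (G : Finset (ℝ × ℝ)) (c : G → KK L hL)
    (h : ∑ i : G, (c i : GG) * ch2 hL hp hq (i : ℝ × ℝ) = 0) : ∀ i, c i = 0 := by
  have h1 := KP.ev_sum hL hp hq (fun _ : G => True) (fun g : G => (g : ℝ × ℝ)) c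
  simp only [if_true] at h1
  rw [h] at h1
  have h2 := su_thm p q hp hq hpq L hL _ h1
  intro i
  have h3 := KP.coeff_sum_eq hL (fun _ : G => True) (fun g : G => (g : ℝ × ℝ))
    Subtype.val_injective c i trivial
  simp only [if_true] at h3
  rw [h2] at h3
  exact h3.symm

/-- values of the group ring as sums over a larger set -/
theorem ev_eq (f : Rg hL) (G : Finset (ℝ × ℝ)) (hG : f.coeff.support ⊆ G) :
    ev2 hL hp hq f = ∑ i : G, ((f.coeff i : KK L hL) : GG) * ch2 hL hp hq (i : ℝ × ℝ) := by
  rw [ev2_sum, Finset.sum_coe_sort G (fun g => ((f.coeff g : KK L hL) : GG) * ch2 hL hp hq g)]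
  refine Finset.sum_subset hG fun g _ hg => ?_
  rw [Finsupp.notMem_support_iff.1 hg]
  simp

include hpq in
/-- a combination of values of the character is not smaller than its terms -/
theorem kp1 (v0 : Pl) (f : Rg hL) (x : ℝ) (hx : ev2 hL hp hq f ∈ Sv L p q v0 x) (g0 : ℝ × ℝ)
    (hg : f.coeff g0 ≠ 0) : x ≤ lv p q v0 g0 := by
  classical
  set G := f.coeff.support with hG
  have hg0 : g0 ∈ G := Finsupp.mem_support_iff.2 hg
  have key := swap hp hq hpq hL (fun i : G => ch2 hL hp hq (i : ℝ × ℝ)) ⟨g0, hg0⟩
    (ch_ind hp hq hpq hL G) (fun v i => lv p q v i) (fun v i _ => ch2_mem hL hp hq hpq v _)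
    (fun i _ => (lv_sum (i : ℝ × ℝ)).ge) (fun i _ => ch2_sint hL hp hq _)
    (fun v => if v = v0 then ev2 hL hp hq f else ch2 hL hp hq g0)
    (fun v i => if v = v0 then f.coeff i else if (i : ℝ × ℝ) = g0 then 1 else 0) ?_ ?_
    (fun v => if v = v0 then x else lv p q v g0) ?_ ?_
  · have h1 := lv_sum (p := p) (q := q) g0
    rw [Pl.sum] at key h1
    cases v0
    · simp only [if_true, reduceCtorEq, if_false] at key
      linarith
    · simp only [if_true, reduceCtorEq, if_false] at key
      linarith
    · simp only [if_true, reduceCtorEq, if_false] at key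
      linarith
  · intro v
    by_cases hv : v = v0
    · simp only [if_pos hv]; exact hg
    · simp only [if_neg hv, if_true]; exact one_ne_zero
  · intro v
    by_cases hv : v = v0
    · simp only [if_pos hv]
      exact ev_eq hp hq hL f G le_rfl
    · simp only [if_neg hv]
      rw [Finset.sum_eq_single ⟨g0, hg0⟩]
      · simp
      · intro b _ hb
        have : (b : ℝ × ℝ) ≠ g0 := fun h => hb (Subtype.ext h)
        simp [this]
      · intro h; exact absurd (Finset.mem_univ _) h
  · intro v
    by_cases hv : v = v0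
    · simp only [if_pos hv]; rw [hv]; exact hx
    · simp only [if_neg hv]; exact ch2_mem hL hp hq hpq v _
  · by_cases hv : Pl.I = v0
    · simp only [if_pos hv]; exact ev2_sint hL hp hq f
    · simp only [if_neg hv]; exact ch2_sint hL hp hq _

include hpq in
/-- **The main lemma**: if a combination of values of the character differs from a small germ `X`
by a very divisible one, then the combination is zero. -/
theorem main_germ (f : Rg hL) (X : GG) (hX : Sint L p q X) (tP tQ tI : ℝ)
    (hP : ev2 hL hp hq f - X ∈ Sv L p q .P tP) (hQ : ev2 hL hp hq f - X ∈ Sv L p q .Q tQ)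
    (hI : X ∈ Sv L p q .I tI) (h1 : 0 < tP + tQ + tI)
    (h2 : ∀ g, f.coeff g ≠ 0 → lv p q .Q g < tQ)
    (h3 : ∀ g, f.coeff g ≠ 0 → ∃ t, lv p q .I g < t ∧ X ∈ Sv L p q .I t) : f = 0 := by
  classical
  set G := f.coeff.support with hG
  -- step one: `X` is a combination
  have hspan : ∃ c : G → KK L hL, X = ∑ i : G, (c i : GG) * ch2 hL hp hq (i : ℝ × ℝ) := by
    by_contra hcon
    push Not at hcon
    have key := swap hp hq hpq hL (ι := Option G)
      (fun i => match i with | none => X | some i => ch2 hL hp hq (i : ℝ × ℝ)) none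
      ?_ (fun v i => match i with | none => 0 | some i => lv p q v i) ?_ ?_ ?_
      (fun v => if v = .I then X else ev2 hL hp hq f - X)
      (fun v i => match i with
        | none => if v = .I then 1 else -1
        | some i => if v = .I then 0 else f.coeff i) ?_ ?_
      (fun v => match v with | .P => tP | .Q => tQ | .I => tI) ?_ ?_
    · rw [Pl.sum] at key
      simp only at key
      linarith
    · intro c hc
      rw [Fintype.sum_option] at hc
      simp only at hc
      have h0 : c none = 0 := by
        by_contra h0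
        have h0' : (c none : GG) ≠ 0 := fun h => h0 (Subtype.ext h)
        refine hcon (fun i => -(c (some i) / c none)) ?_
        have e1 : X = -(∑ i : G, (c (some i) : GG) * ch2 hL hp hq (i : ℝ × ℝ)) / (c none : GG) := by
          rw [eq_div_iff h0']
          linear_combination hc
        rw [e1, neg_div, Finset.sum_div, ← Finset.sum_neg_distrib]
        refine Finset.sum_congr rfl fun j _ => ?_
        push_cast
        ring
      rw [h0] at hc
      simp only [ZeroMemClass.coe_zero, zero_mul, zero_add] at hc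
      have h4 := ch_ind hp hq hpq hL G (fun i => c (some i)) hc
      intro i
      cases i with
      | none => exact h0
      | some i => exact h4 i
    · intro v i hi
      cases i with
      | none => exact absurd rfl hi
      | some i => exact ch2_mem hL hp hq hpq v _
    · intro i hi
      cases i with
      | none => exact absurd rfl hi
      | some i => exact (lv_sum (i : ℝ × ℝ)).ge
    · intro i hi
      cases i with
      | none => exact absurd rfl hi
      | some i => exact ch2_sint hL hp hq _
    · intro v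
      by_cases hv : v = .I
      · simp only [if_pos hv]; exact one_ne_zero
      · simp only [if_neg hv]; exact neg_ne_zero.2 one_ne_zero
    · intro v
      rw [Fintype.sum_option]
      by_cases hv : v = .I
      · simp only [if_pos hv]
        simp
      · simp only [if_neg hv]
        rw [ev_eq hp hq hL f G le_rfl]
        push_cast
        ring
    · intro v
      cases v
      · simpa using hP
      · simpa using hQ
      · simpa using hI
    · simpa using hX
  obtain ⟨c, hc⟩ := hspan
  set h : Rg hL := ∑ i : G, AddMonoidAlgebra.single (i : ℝ × ℝ) (c i) with hh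
  have hev : ev2 hL hp hq h = X := by
    rw [hc, hh, map_sum]
    exact Finset.sum_congr rfl fun i _ => ev2_single hL hp hq _ _
  have hsupp : ∀ g, h.coeff g ≠ 0 → g ∈ G := by
    intro g hg
    by_contra hcon
    apply hg
    have := KP.coeff_sum_ne hL (fun _ : G => True) (fun g : G => (g : ℝ × ℝ)) c g
      (fun i _ hi => hcon (hi ▸ i.2))
    simp only [if_true] at this
    exact this
  -- step two
  have hfh : f - h = 0 := by
    by_contra hne
    obtain ⟨g, hg⟩ : ∃ g, (f - h).coeff g ≠ 0 := by
      by_contra hcon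
      push Not at hcon
      apply hne
      apply AddMonoidAlgebra.coeff_injective
      ext g
      rw [hcon g]
      rfl
    have hgG : g ∈ G := by
      by_contra hcon
      apply hg
      rw [AddMonoidAlgebra.coeff_sub, Finsupp.sub_apply]
      have e1 : f.coeff g = 0 := Finsupp.notMem_support_iff.1 hcon
      have e2 : h.coeff g = 0 := by
        by_contra h0; exact hcon (hsupp g h0)
      rw [e1, e2, sub_zero]
    have h4 := kp1 hp hq hpq hL .Q (f - h) tQ (by rw [map_sub, hev]; exact hQ) g hg
    have h5 := h2 g (Finsupp.mem_support_iff.1 hgG)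
    linarith
  have hfh' : f = h := sub_eq_zero.1 hfh
  -- step three
  by_contra hne
  obtain ⟨g, hg⟩ : ∃ g, f.coeff g ≠ 0 := by
    by_contra hcon
    push Not at hcon
    apply hne
    apply AddMonoidAlgebra.coeff_injective
    ext g
    rw [hcon g]
    rfl
  obtain ⟨t, ht, ht'⟩ := h3 g hg
  have h4 := kp1 hp hq hpq hL .I f t (by rw [hfh', hev]; exact ht') g hg
  linarith

theorem gm_sum {k : ℕ} (F : Fin k → ℕ → ℚ) : ∑ j, gm (F j) = gm (fun n => ∑ j, F j n) := by
  have h := map_sum (Germ.coeRingHom (UU : Filter ℕ) (R := ℚ)) F Finset.univ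
  have e : (∑ j, F j) = fun n => ∑ j, F j n := by
    funext n
    exact Finset.sum_apply _ _ _
  rw [e] at h
  exact h.symm

theorem exp_pow {b : ℕ} (hb : 2 ≤ b) (k : ℕ) : (b : ℝ) ^ k = Real.exp (k * Real.log b) := by
  have h : (0 : ℝ) < b := by positivity
  rw [mul_comm, Real.exp_mul, Real.exp_log h, Real.rpow_natCast]

include hp hq hpq hL in
/-- the main lemma for sequences -/
theorem core (k : ℕ) (a b : Fin k → ℕ → ℕ) (C : ℝ)
    (ha : ∀ j, ∀ᶠ n in (UU : Filter ℕ), (a j n : ℝ) ≤ C * L n)
    (hb : ∀ j, ∀ᶠ n in (UU : Filter ℕ), (b j n : ℝ) ≤ C * L n)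
    (c : Fin k → ℕ → ℤ) (hc : ∀ j, Negl L (c j)) (x : ℕ → ℤ) (e f : ℕ → ℕ)
    (he : ∀ᶠ n in (UU : Filter ℕ), (e n : ℝ) ≤ C * L n)
    (hf : ∀ᶠ n in (UU : Filter ℕ), (f n : ℝ) ≤ C * L n)
    (hd : ∀ᶠ n in (UU : Filter ℕ), (p : ℤ) ^ (e n) * (q : ℤ) ^ (f n) ∣
      ∑ j, c j n * ((p : ℤ) ^ (a j n) * (q : ℤ) ^ (b j n)) - x n) (η : ℝ) (hη : 0 < η)
    (hx : ∀ᶠ n in (UU : Filter ℕ), |(x n : ℝ)| * Real.exp (η * L n) ≤
      (p : ℝ) ^ (e n) * (q : ℝ) ^ (f n))
    (hx2 : ∀ j, ∀ᶠ n in (UU : Filter ℕ), c j n ≠ 0 → |(x n : ℝ)| * Real.exp (η * L n) ≤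
      (p : ℝ) ^ (a j n) * (q : ℝ) ^ (b j n))
    (hx3 : ∀ j, ∀ᶠ n in (UU : Filter ℕ), c j n ≠ 0 →
      b j n * Real.log q + η * L n ≤ f n * Real.log q) :
    ∀ᶠ n in (UU : Filter ℕ), ∑ j, c j n * ((p : ℤ) ^ (a j n) * (q : ℤ) ^ (b j n)) = 0 := by
  have hlp : 0 < Real.log p := Real.log_pos (by exact_mod_cast hp)
  have hlq : 0 < Real.log q := Real.log_pos (by exact_mod_cast hq)
  have hp0 : (p : ℚ) ≠ 0 := by
    have : p ≠ 0 := by omega
    exact_mod_cast this
  have hq0 : (q : ℚ) ≠ 0 := by
    have : q ≠ 0 := by omega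
    exact_mod_cast this
  have hst : ∀ (u : ℕ → ℕ), (∀ᶠ n in (UU : Filter ℕ), (u n : ℝ) ≤ C * L n) →
      ∃ t, near L (fun n => (u n : ℝ)) t := by
    intro u hu
    obtain ⟨t, _, _, h⟩ := exists_st hL (a := fun n => (u n : ℝ)) (A := C)
      (by filter_upwards [hu] with n h using ⟨Nat.cast_nonneg _, h⟩)
    exact ⟨t, h⟩
  choose s hs using fun j => hst (a j) (ha j)
  choose t ht using fun j => hst (b j) (hb j)
  obtain ⟨τe, hτe⟩ := hst e he
  obtain ⟨τf, hτf⟩ := hst f hf
  have hκ : ∀ j, ∃ κ : KK L hL, κ ≠ 0 ∧ gm (fun n => (p : ℚ) ^ (a j n) * (q : ℚ) ^ (b j n))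
      = (κ : GG) * ch2 hL hp hq (s j, -t j) := by
    intro j
    have hA : ∀ ε : ℝ, 0 < ε → ∀ᶠ n in (UU : Filter ℕ),
        |(((a j n : ℕ) : ℤ) : ℝ) - s j * L n| ≤ ε * L n := fun ε hε =>
      (hs j ε hε).mono fun n h => by push_cast; exact h
    have hB : ∀ ε : ℝ, 0 < ε → ∀ᶠ n in (UU : Filter ℕ),
        |((-((b j n : ℕ) : ℤ) : ℤ) : ℝ) - -t j * L n| ≤ ε * L n := fun ε hε =>
      (ht j ε hε).mono fun n h => by
        push_cast
        have e1 : -(b j n : ℝ) - -t j * L n = -((b j n : ℝ) - t j * L n) := by ring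
        rw [e1, abs_neg]
        exact h
    obtain ⟨κ, h1, h2⟩ := exists_const2 hL hp hq (s j) (-t j) (fun n => (a j n : ℤ))
      (fun n => -(b j n : ℤ)) hA hB
    refine ⟨κ, h1, ?_⟩
    rw [← h2]
    congr 1
    funext n
    rw [zpow_neg, div_inv_eq_mul, zpow_natCast, zpow_natCast]
  choose κ hκ0 hκ using hκ
  have hcK : ∀ j, gm (fun n => (c j n : ℚ)) ∈ KK L hL := by
    intro j
    refine ⟨c j, fun _ => 1, hc j, Negl.one hL, by simp, ?_⟩
    congr 1
    funext n
    simp
  set cK : Fin k → KK L hL := fun j => ⟨_, hcK j⟩ with hcKd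
  set fR : Rg hL := ∑ j, AddMonoidAlgebra.single (s j, -t j) (cK j * κ j) with hfR
  have hev : ev2 hL hp hq fR
      = gm (fun n => ∑ j, (c j n : ℚ) * ((p : ℚ) ^ (a j n) * (q : ℚ) ^ (b j n))) := by
    rw [hfR, map_sum, ← gm_sum]
    refine Finset.sum_congr rfl fun j _ => ?_
    rw [ev2_single, ← gm_mul, hκ j]
    push_cast
    rw [mul_assoc]
  set X : GG := gm (fun n => (x n : ℚ)) with hX
  have hdiff : ev2 hL hp hq fR - X
      = gm (fun n => ((∑ j, c j n * ((p : ℤ) ^ (a j n) * (q : ℤ) ^ (b j n)) - x n : ℤ) : ℚ)) := by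
    rw [hev, hX, gm_sub]
    congr 1
    funext n
    push_cast
    rfl
  have hcoef : ∀ g, fR.coeff g ≠ 0 → ∃ j, (s j, -t j) = g ∧ ∀ᶠ n in (UU : Filter ℕ), c j n ≠ 0 := by
    intro g hg
    by_contra hcon
    push Not at hcon
    apply hg
    rw [hfR, AddMonoidAlgebra.coeff_sum, Finsupp.finsetSum_apply]
    refine Finset.sum_eq_zero fun j _ => ?_
    rw [AddMonoidAlgebra.coeff_single]
    by_cases hj : (s j, -t j) = g
    · have h1 := hcon j hj
      have h2 : cK j = 0 := by
        apply Subtype.ext
        change gm (fun n => (c j n : ℚ)) = 0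
        rw [← gm_zero, gm_eq]
        filter_upwards [h1] with n hn
        rw [hn]
        simp
      rw [h2, zero_mul]
      simp
    · rw [Finsupp.single_eq_of_ne (Ne.symm hj)]
  have hLpos : ∀ᶠ n in (UU : Filter ℕ), 1 ≤ L n := ev_of_atTop (hL.eventually_ge_atTop 1)
  have hzero : fR = 0 := by
    refine main_germ hp hq hpq hL fR X ?_ (τe * Real.log p) (τf * Real.log q)
      (η - τe * Real.log p - τf * Real.log q) ?_ ?_ ?_ (by linarith) ?_ ?_
    · refine ⟨0, ?_⟩
      rw [hX, mem_SS]
      intro ε hε
      filter_upwards [hLpos] with n hn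
      refine ⟨1, x n, 0, 0, one_ne_zero, ?_, by simp, ?_, ?_⟩
      · simp only [Int.cast_one, abs_one]
        exact Real.one_le_exp (by positivity)
      · simp only [Int.cast_zero, zero_mul]
        nlinarith
      · simp only [Int.cast_zero, zero_mul]
        nlinarith
    · rw [hdiff]
      change _ ∈ SS L (Rb p (cop p)) _
      rw [mem_SS]
      intro ε hε
      filter_upwards [hLpos, hd, hτe (ε / Real.log p) (by positivity)] with n hn h1 h2
      obtain ⟨m, hm⟩ := h1
      refine ⟨1, 1, (q : ℤ) ^ (f n) * m, (e n : ℤ), one_ne_zero, ?_, Submonoid.one_mem _, ?_, ?_⟩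
      · simp only [Int.cast_one, abs_one]
        exact Real.one_le_exp (by positivity)
      · rw [hm]
        push_cast
        rw [zpow_natCast]
        ring
      · have h3 := (abs_le.1 h2).1
        have h4 : (τe * L n - ε / Real.log p * L n) * Real.log p ≤ (e n : ℝ) * Real.log p := by
          gcongr; linarith
        have h5 : (τe * L n - ε / Real.log p * L n) * Real.log p
            = (τe * Real.log p - ε) * L n := by
          field_simp
        push_cast
        linarith
    · rw [hdiff]
      change _ ∈ SS L (Rb q (cop q)) _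
      rw [mem_SS]
      intro ε hε
      filter_upwards [hLpos, hd, hτf (ε / Real.log q) (by positivity)] with n hn h1 h2
      obtain ⟨m, hm⟩ := h1
      refine ⟨1, 1, (p : ℤ) ^ (e n) * m, (f n : ℤ), one_ne_zero, ?_, Submonoid.one_mem _, ?_, ?_⟩
      · simp only [Int.cast_one, abs_one]
        exact Real.one_le_exp (by positivity)
      · rw [hm]
        push_cast
        rw [zpow_natCast]
        ring
      · have h3 := (abs_le.1 h2).1
        have h4 : (τf * L n - ε / Real.log q * L n) * Real.log q ≤ (f n : ℝ) * Real.log q := by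
          gcongr; linarith
        have h5 : (τf * L n - ε / Real.log q * L n) * Real.log q
            = (τf * Real.log q - ε) * L n := by
          field_simp
        push_cast
        linarith
    · change _ ∈ SS L Rinf _
      rw [hX, mem_SS]
      intro ε hε
      filter_upwards [hLpos, hx, hτe (ε / 2 / Real.log p) (by positivity),
        hτf (ε / 2 / Real.log q) (by positivity)] with n hn h1 h2 h3
      unfold Rinf
      rw [exp_pow hp, exp_pow hq, ← Real.exp_add] at h1
      have h4 : |(((x n : ℤ) : ℚ) : ℝ)| = |(x n : ℝ)| := by push_cast; rfl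
      rw [h4]
      have h5 : |(x n : ℝ)| ≤ Real.exp (e n * Real.log p + f n * Real.log q - η * L n) := by
        rw [Real.exp_sub, le_div_iff₀ (Real.exp_pos _)]
        exact h1
      refine h5.trans (Real.exp_le_exp.2 ?_)
      have h6 := (abs_le.1 h2).2
      have h7 := (abs_le.1 h3).2
      have h8 : (e n : ℝ) * Real.log p ≤ (τe * L n + ε / 2 / Real.log p * L n) * Real.log p := by
        gcongr; linarith
      have h9 : (f n : ℝ) * Real.log q ≤ (τf * L n + ε / 2 / Real.log q * L n) * Real.log q := by
        gcongr; linarith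
      have h10 : (τe * L n + ε / 2 / Real.log p * L n) * Real.log p
          = (τe * Real.log p + ε / 2) * L n := by field_simp
      have h11 : (τf * L n + ε / 2 / Real.log q * L n) * Real.log q
          = (τf * Real.log q + ε / 2) * L n := by field_simp
      nlinarith
    · intro g hg
      obtain ⟨j, rfl, hj⟩ := hcoef g hg
      change -(-t j * Real.log q) < τf * Real.log q
      have hε : 0 < η / 4 / Real.log q := by positivity
      obtain ⟨n, hn1, hn2, hn3, hn4, hn5⟩ := (hLpos.and (hj.and ((hx3 j).and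
        ((ht j _ hε).and (hτf _ hε))))).exists
      have h1 := hn3 hn2
      have h2 := (abs_le.1 hn4).1
      have h3 := (abs_le.1 hn5).2
      have h4 : (t j * L n - η / 4 / Real.log q * L n) * Real.log q ≤ (b j n : ℝ) * Real.log q := by
        gcongr; linarith
      have h5 : (f n : ℝ) * Real.log q ≤ (τf * L n + η / 4 / Real.log q * L n) * Real.log q := by
        gcongr; linarith
      have h6 : (t j * L n - η / 4 / Real.log q * L n) * Real.log q
          = (t j * Real.log q - η / 4) * L n := by field_simp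
      have h7 : (τf * L n + η / 4 / Real.log q * L n) * Real.log q
          = (τf * Real.log q + η / 4) * L n := by field_simp
      have h8 : (t j * Real.log q + η / 2) * L n ≤ (τf * Real.log q) * L n := by nlinarith
      have h9 := le_of_mul_le_mul_right h8 (by linarith)
      linarith
    · intro g hg
      obtain ⟨j, rfl, hj⟩ := hcoef g hg
      refine ⟨lv p q .I (s j, -t j) + η, by linarith, ?_⟩
      change _ ∈ SS L Rinf _
      rw [hX, mem_SS]
      intro ε hε
      filter_upwards [hLpos, hj, hx2 j, hs j (ε / 2 / Real.log p) (by positivity),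
        ht j (ε / 2 / Real.log q) (by positivity)] with n hn hj1 h1 h2 h3
      have h1 := h1 hj1
      unfold Rinf
      rw [exp_pow hp, exp_pow hq, ← Real.exp_add] at h1
      have h4 : |(((x n : ℤ) : ℚ) : ℝ)| = |(x n : ℝ)| := by push_cast; rfl
      rw [h4]
      have h5 : |(x n : ℝ)| ≤ Real.exp (a j n * Real.log p + b j n * Real.log q - η * L n) := by
        rw [Real.exp_sub, le_div_iff₀ (Real.exp_pos _)]
        exact h1
      refine h5.trans (Real.exp_le_exp.2 ?_)
      have h6 := (abs_le.1 h2).2
      have h7 := (abs_le.1 h3).2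
      have h8 : (a j n : ℝ) * Real.log p ≤ (s j * L n + ε / 2 / Real.log p * L n) * Real.log p := by
        gcongr; linarith
      have h9 : (b j n : ℝ) * Real.log q ≤ (t j * L n + ε / 2 / Real.log q * L n) * Real.log q := by
        gcongr; linarith
      have h10 : (s j * L n + ε / 2 / Real.log p * L n) * Real.log p
          = (s j * Real.log p + ε / 2) * L n := by field_simp
      have h11 : (t j * L n + ε / 2 / Real.log q * L n) * Real.log q
          = (t j * Real.log q + ε / 2) * L n := by field_simp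
      simp only [lv]
      nlinarith
  rw [hzero, map_zero] at hev
  rw [← gm_zero, gm_eq] at hev
  filter_upwards [hev] with n hn
  exact_mod_cast hn.symm

end germs

/-- **The finitary form.** -/
theorem fin {p q : ℕ} (hp : 2 ≤ p) (hq : 2 ≤ q) (hpq : IsCoprime (q : ℤ) (p : ℤ)) (k : ℕ)
    (C η : ℝ) (hη : 0 < η) :
    ∃ δ : ℝ, 0 < δ ∧ ∃ n₀ : ℕ, ∀ n : ℕ, n₀ ≤ n → ∀ (a b : Fin k → ℕ) (c : Fin k → ℤ) (x : ℤ)
      (e f : ℕ), (∀ j, (a j : ℝ) ≤ C * n ∧ (b j : ℝ) ≤ C * n ∧ |(c j : ℝ)| ≤ Real.exp (δ * n)) →
      (e : ℝ) ≤ C * n → (f : ℝ) ≤ C * n →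
      (p : ℤ) ^ e * (q : ℤ) ^ f ∣ ∑ j, c j * ((p : ℤ) ^ (a j) * (q : ℤ) ^ (b j)) - x →
      |(x : ℝ)| * Real.exp (η * n) ≤ (p : ℝ) ^ e * (q : ℝ) ^ f →
      (∀ j, c j ≠ 0 → |(x : ℝ)| * Real.exp (η * n) ≤ (p : ℝ) ^ (a j) * (q : ℝ) ^ (b j) ∧
        b j * Real.log q + η * n ≤ f * Real.log q) →
      ∑ j, c j * ((p : ℤ) ^ (a j) * (q : ℤ) ^ (b j)) = 0 := by
  by_contra hcon
  push Not at hcon
  have h1 : ∀ t : ℕ, (0 : ℝ) < 1 / (t + 1) := fun t => by positivity
  choose n hn a b c x e f hab he hf hd hx hx2 hne using fun t : ℕ => hcon (1 / (t + 1)) (h1 t) t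
  have hL : Tendsto (fun t => (n t : ℝ)) atTop atTop :=
    tendsto_natCast_atTop_atTop.comp (tendsto_atTop_mono hn tendsto_id)
  have key := core hp hq hpq hL k (fun j t => a t j) (fun j t => b t j) C
    (fun j => Eventually.of_forall fun t => (hab t j).1)
    (fun j => Eventually.of_forall fun t => (hab t j).2.1) (fun j t => c t j) ?_ x e f
    (Eventually.of_forall he) (Eventually.of_forall hf) (Eventually.of_forall hd) η hη
    (Eventually.of_forall hx) (fun j => Eventually.of_forall fun t h => (hx2 t j h).1)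
    (fun j => Eventually.of_forall fun t h => (hx2 t j h).2)
  · obtain ⟨t, ht⟩ := key.exists
    exact hne t ht
  · intro j ε hε
    have h2 : ∀ᶠ t : ℕ in atTop, (1 : ℝ) / (t + 1) < ε :=
      (tendsto_one_div_add_atTop_nhds_zero_nat (𝕜 := ℝ)).eventually_lt_const hε
    filter_upwards [ev_of_atTop h2] with t ht
    refine (hab t j).2.2.trans (Real.exp_le_exp.2 ?_)
    gcongr

end Pool.Agent.TH932.S2.Pw
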