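import Mathlib
import Pool.Agent.TH932.S2.Stms2

set_option autoImplicit false
set_option linter.unusedSimpArgs false

/-!
# Project S2, T4: common divisors of `p ^ i (p ^ π - 1)` and `q ^ i' (q ^ π' - 1)` are negligible

The parts of the common divisor which divide `p ^ i` or `q ^ i'` are polynomially bounded by
lifting the exponent. The common divisor `D` of `p ^ π - 1` and `q ^ π' - 1` is negligible by the
subspace theorem for germs with moving forms (the argument of Bugeaud, Corvaja and Zannier).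
-/

namespace Pool.Agent.TH932.S2.Gcd

open Filter Topology Pool.Agent.TH932.Germs Pool.Agent.TH932.S2

section nt


lemma pow_val_le {l N : ℕ} (hN : N ≠ 0) : l ^ padicValNat l N ≤ N :=
  Nat.le_of_dvd (Nat.pos_of_ne_zero hN) pow_padicValNat_dvd

lemma val_mono {l a b : ℕ} [Fact l.Prime] (hb : b ≠ 0) (h : a ∣ b) :
    padicValNat l a ≤ padicValNat l b := by
  have ha : a ≠ 0 := fun h0 => hb (by rw [h0] at h; exact zero_dvd_iff.1 h)
  rw [← padicValNat_dvd_iff_le hb]
  exact pow_padicValNat_dvd.trans h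

lemma prime_bound (l q : ℕ) (hl : l.Prime) (hq : 2 ≤ q) (hlq : ¬ l ∣ q) :
    ∃ K : ℕ, 1 ≤ K ∧ ∀ m : ℕ, 1 ≤ m → l ^ (padicValNat l (q ^ m - 1)) ≤ K * m := by
  have := Fact.mk hl
  have hl2 := hl.two_le
  have hc : 1 ≤ 2 * (l - 1) := by omega
  have hN : 1 ≤ q ^ (2 * (l - 1)) - 1 := by
    have : q ≤ q ^ (2 * (l - 1)) := Nat.le_self_pow (by omega) q
    omega
  refine ⟨q ^ (2 * (l - 1)) - 1, hN, fun m hm => ?_⟩
  have hbig : q ^ (2 * (l - 1) * m) - 1 ≠ 0 := by
    have h1 : 1 ≤ 2 * (l - 1) * m := Nat.mul_pos (by omega) hm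
    have : q ≤ q ^ (2 * (l - 1) * m) := Nat.le_self_pow (by omega) q
    omega
  have hd : q ^ m - 1 ∣ q ^ (2 * (l - 1) * m) - 1 := by
    rw [mul_comm, pow_mul]
    simpa using Nat.sub_dvd_pow_sub_pow (q ^ m) 1 (2 * (l - 1))
  have hkey : padicValNat l (q ^ (2 * (l - 1) * m) - 1) =
      padicValNat l (q ^ (2 * (l - 1)) - 1) + padicValNat l m := by
    rcases hl.eq_two_or_odd' with h2 | hodd
    · subst h2
      have hqodd : ¬ 2 ∣ q := hlq
      have e1 := padicValNat.pow_two_sub_pow (x := q) (y := 1) (by omega) (by omega) hlq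
        (n := 2 * m) (by omega) (even_two_mul m)
      have e2 : padicValNat 2 (2 * m) = 1 + padicValNat 2 m := by
        rw [padicValNat.mul (by norm_num) (by omega)]
        simp
      have e3 : padicValNat 2 (q ^ 2 - 1) = padicValNat 2 (q + 1) + padicValNat 2 (q - 1) := by
        have : q ^ 2 - 1 = (q + 1) * (q - 1) := by
          rw [← Nat.sq_sub_sq]
        rw [this, padicValNat.mul (by omega) (by omega)]
      simp only [one_pow] at e1
      have e4 : 2 * (2 - 1) = 2 := rfl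
      rw [e4, e3]
      omega
    · have hfer : l ∣ q ^ (2 * (l - 1)) - 1 := by
        have hco : Nat.Coprime q l := ((Nat.Prime.coprime_iff_not_dvd hl).2 hlq).symm
        have h3 := Nat.ModEq.pow_totient hco
        rw [Nat.totient_prime hl] at h3
        have h4 : q ^ (2 * (l - 1)) ≡ 1 [MOD l] := by
          rw [mul_comm, pow_mul]
          simpa using h3.pow 2
        exact (Nat.modEq_iff_dvd' (Nat.one_le_pow _ _ (by omega))).1 h4.symm
      have hnd : ¬ l ∣ q ^ (2 * (l - 1)) := fun h => hlq (hl.dvd_of_dvd_pow h)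
      have e1 := padicValNat.pow_sub_pow (p := l) hodd (x := q ^ (2 * (l - 1))) (y := 1)
        (by omega) hfer hnd (n := m) (by omega)
      rw [one_pow, ← pow_mul] at e1
      exact e1
  calc l ^ (padicValNat l (q ^ m - 1))
      ≤ l ^ (padicValNat l (q ^ (2 * (l - 1) * m) - 1)) :=
        Nat.pow_le_pow_right (by omega) (val_mono hbig hd)
    _ = l ^ padicValNat l (q ^ (2 * (l - 1)) - 1) * l ^ padicValNat l m := by
        rw [hkey, pow_add]
    _ ≤ (q ^ (2 * (l - 1)) - 1) * m :=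
        Nat.mul_le_mul (pow_val_le (by omega)) (pow_val_le (by omega))

lemma gcd_bound (p q : ℕ) (hp : 2 ≤ p) (hq : 2 ≤ q) (hpq : Nat.Coprime q p) :
    ∃ K r : ℕ, 1 ≤ K ∧ ∀ i m : ℕ, 1 ≤ m → Nat.gcd (p ^ i) (q ^ m - 1) ≤ (K * m) ^ r := by
  have hex : ∀ l : ℕ, ∃ K : ℕ, 1 ≤ K ∧ (l ∈ p.primeFactors → ∀ m : ℕ, 1 ≤ m →
      l ^ (padicValNat l (q ^ m - 1)) ≤ K * m) := by
    intro l
    by_cases h : l ∈ p.primeFactors
    · have hl := Nat.prime_of_mem_primeFactors h
      have hld := Nat.dvd_of_mem_primeFactors h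
      have : ¬ l ∣ q := fun h' => by
        have := Nat.dvd_gcd h' hld
        rw [hpq] at this
        exact hl.one_lt.ne' (Nat.dvd_one.1 this)
      obtain ⟨K, hK, h1⟩ := prime_bound l q hl hq this
      exact ⟨K, hK, fun _ => h1⟩
    · exact ⟨1, le_refl _, fun h' => absurd h' h⟩
  choose K hK1 hK using hex
  refine ⟨∏ l ∈ p.primeFactors, K l, p.primeFactors.card, ?_, fun i m hm => ?_⟩
  · exact Finset.one_le_prod' fun l _ => hK1 l
  · set d := Nat.gcd (p ^ i) (q ^ m - 1) with hd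
    have hqm : q ^ m - 1 ≠ 0 := by
      have : q ≤ q ^ m := Nat.le_self_pow (by omega) q
      omega
    have hd0 : d ≠ 0 := by
      rw [hd]; exact Nat.gcd_ne_zero_right hqm
    have hsub : d.primeFactors ⊆ p.primeFactors := by
      intro l hl
      have h1 := Nat.prime_of_mem_primeFactors hl
      have h2 := (Nat.dvd_of_mem_primeFactors hl).trans (Nat.gcd_dvd_left (p ^ i) (q ^ m - 1))
      exact Nat.mem_primeFactors.2 ⟨h1, h1.dvd_of_dvd_pow h2, by omega⟩
    have h1 : d = ∏ l ∈ d.primeFactors, l ^ d.factorization l := by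
      conv_lhs => rw [← Nat.prod_factorization_pow_eq_self hd0]
      rfl
    rw [h1, ← Finset.prod_const]
    have hle : ∀ l ∈ p.primeFactors, K l ≤ ∏ l ∈ p.primeFactors, K l := by
      intro l hl
      exact Finset.single_le_prod' (fun i _ => hK1 i) hl
    calc ∏ l ∈ d.primeFactors, l ^ d.factorization l
        ≤ ∏ l ∈ d.primeFactors, (∏ l ∈ p.primeFactors, K l) * m := by
          refine Finset.prod_le_prod' fun l hl => ?_
          have hlp := Nat.prime_of_mem_primeFactors hl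
          have := Fact.mk hlp
          have h3 : d.factorization l ≤ padicValNat l (q ^ m - 1) := by
            rw [Nat.factorization_def d hlp]
            exact val_mono hqm (Nat.gcd_dvd_right _ _)
          calc l ^ d.factorization l ≤ l ^ padicValNat l (q ^ m - 1) :=
                Nat.pow_le_pow_right hlp.pos h3
            _ ≤ K l * m := hK l (hsub hl) m hm
            _ ≤ _ := Nat.mul_le_mul_right _ (hle l (hsub hl))
      _ ≤ ∏ l ∈ p.primeFactors, (∏ l ∈ p.primeFactors, K l) * m := by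
          refine Finset.prod_le_prod_of_subset_of_one_le' hsub fun l _ _ => ?_
          exact Nat.mul_pos (Finset.prod_pos fun l _ => hK1 l) hm

end nt


section ind

variable {L : ℕ → ℝ} {p q : ℕ}

lemma ch2_nsmul (hL : Tendsto L atTop atTop) (hp : 2 ≤ p) (hq : 2 ≤ q) (g : ℝ × ℝ) (n : ℕ) :
    ch2 hL hp hq (n • g) = ch2 hL hp hq g ^ n := by
  induction n with
  | zero => rw [zero_smul, ch2_zero, pow_zero]
  | succ n ih => rw [succ_nsmul, ch2_add, ih, pow_succ]

/-- the exponents of the monomials in `u` and `v` -/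
def ex (t t' : ℝ) (i j : ℕ) : ℝ × ℝ := i • (t, (0 : ℝ)) + j • ((0 : ℝ), -t')

lemma ex_inj {t t' : ℝ} (ht : 0 < t) (ht' : 0 < t') {i j i' j' : ℕ}
    (h : ex t t' i j = ex t t' i' j') : i = i' ∧ j = j' := by
  unfold ex at h
  have h1 := congrArg Prod.fst h
  have h2 := congrArg Prod.snd h
  simp only [Prod.fst_add, Prod.snd_add, Prod.smul_mk, nsmul_eq_mul, mul_zero, add_zero,
    zero_add] at h1 h2
  constructor
  · exact_mod_cast mul_right_cancel₀ ht.ne' h1
  · exact_mod_cast mul_right_cancel₀ (neg_ne_zero.2 ht'.ne') h2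

/-- independence of the monomials in `u` and `v` -/
lemma indep (hsu : SUStmt) (hp : 2 ≤ p) (hq : 2 ≤ q) (hpq : IsCoprime (q : ℤ) (p : ℤ))
    (hL : Tendsto L atTop atTop) {t t' : ℝ} (ht : 0 < t) (ht' : 0 < t') {κ κ' : KK L hL}
    (hκ : κ ≠ 0) (hκ' : κ' ≠ 0) {u v : GG} (hu : u = (κ : GG) * ch2 hL hp hq (t, 0))
    (hv : v = (κ' : GG) * ch2 hL hp hq (0, -t')) (n : ℕ) (f : ℕ → Polynomial (KK L hL))
    (h : ∑ j ∈ Finset.range n, Polynomial.aeval u (f j) * v ^ j = 0) :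
    ∀ j < n, f j = 0 := by
  set F : Rg hL := ∑ j ∈ Finset.range n, ∑ i ∈ (f j).support,
    AddMonoidAlgebra.single (ex t t' i j) ((f j).coeff i * κ ^ i * κ' ^ j) with hF
  have hev : ev2 hL hp hq F = 0 := by
    rw [← h, hF, map_sum]
    refine Finset.sum_congr rfl fun j _ => ?_
    rw [map_sum, Polynomial.aeval_def, Polynomial.eval₂_eq_sum, Polynomial.sum_def,
      Finset.sum_mul]
    refine Finset.sum_congr rfl fun i _ => ?_
    rw [ev2_single, ex, ch2_add, ch2_nsmul, ch2_nsmul, hu, hv]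
    have e1 : algebraMap (KK L hL) GG ((f j).coeff i) = (((f j).coeff i : KK L hL) : GG) := rfl
    rw [e1]
    push_cast
    ring
  have hF0 := hsu p q hp hq hpq L hL F hev
  intro j0 hj0
  by_contra hne
  obtain ⟨i0, hi0⟩ : ∃ i0, (f j0).coeff i0 ≠ 0 := by
    by_contra hcon
    push Not at hcon
    exact hne (Polynomial.ext hcon)
  have hc : F.coeff (ex t t' i0 j0) = (f j0).coeff i0 * κ ^ i0 * κ' ^ j0 := by
    rw [hF, AddMonoidAlgebra.coeff_sum, Finsupp.finsetSum_apply,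
      Finset.sum_eq_single j0]
    · rw [AddMonoidAlgebra.coeff_sum, Finsupp.finsetSum_apply, Finset.sum_eq_single i0]
      · rw [AddMonoidAlgebra.coeff_single, Finsupp.single_eq_same]
      · intro i _ hi
        rw [AddMonoidAlgebra.coeff_single, Finsupp.single_eq_of_ne]
        intro h'
        exact hi (ex_inj ht ht' h').1.symm
      · intro h'
        exact absurd (Polynomial.mem_support_iff.2 hi0) h'
    · intro j _ hj
      rw [AddMonoidAlgebra.coeff_sum, Finsupp.finsetSum_apply]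
      refine Finset.sum_eq_zero fun i _ => ?_
      rw [AddMonoidAlgebra.coeff_single, Finsupp.single_eq_of_ne]
      intro h'
      exact hj (ex_inj ht ht' h').2.symm
    · intro h'
      exact absurd (Finset.mem_range.2 hj0) h'
  rw [hF0] at hc
  have : (f j0).coeff i0 * κ ^ i0 * κ' ^ j0 ≠ 0 :=
    mul_ne_zero (mul_ne_zero hi0 (pow_ne_zero _ hκ)) (pow_ne_zero _ hκ')
  exact this hc.symm

end ind



section alg
open Polynomial
variable {K G : Type*} [Field K] [Field G] [Algebra K G]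

lemma coeffs_zero {h : ℕ} (b : Fin h → K)
    (hb : ∑ s : Fin h, C (b s) * (X : K[X]) ^ (h - 1 - (s : ℕ)) = 0) : ∀ s, b s = 0 := by
  intro s0
  have h1 := congrArg (fun P : K[X] => P.coeff (h - 1 - (s0 : ℕ))) hb
  simp only [finsetSum_coeff, coeff_C_mul, coeff_X_pow, coeff_zero, mul_ite, mul_one,
    mul_zero] at h1
  rw [Finset.sum_eq_single s0] at h1
  · simpa using h1
  · intro s _ hs
    rw [if_neg]
    intro h2
    apply hs
    apply Fin.ext
    have := s.2
    have := s0.2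
    omega
  · intro h2; exact absurd (Finset.mem_univ _) h2

lemma relation {u v a : G} (hu : u ≠ 0) (hu1 : u - 1 ≠ 0) (ha : a ≠ 0)
    (H : ∀ (n : ℕ) (f : ℕ → K[X]), ∑ j ∈ Finset.range n, aeval u (f j) * v ^ j = 0 →
      ∀ j < n, f j = 0)
    {h k : ℕ} (c : Fin k → G) (hc : ∀ j : Fin k, c j * (u - 1) = a * (v ^ ((j : ℕ) + 1) - 1))
    (α : Fin h → K) (β : Fin k → Fin h → K) (γ : Fin k → K)
    (hrel : ∑ s, algebraMap K G (α s) * (a * u⁻¹ ^ ((s : ℕ) + 1)) +
      (∑ j, ∑ s, algebraMap K G (β j s) * (a * v ^ ((j : ℕ) + 1) * u⁻¹ ^ ((s : ℕ) + 1)) +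
        ∑ j, algebraMap K G (γ j) * c j) = 0) :
    (∀ s, α s = 0) ∧ (∀ j s, β j s = 0) ∧ ∀ j, γ j = 0 := by
  set f : ℕ → K[X] := fun j => match j with
    | 0 => (X - 1) * (∑ s : Fin h, C (α s) * X ^ (h - 1 - (s : ℕ))) - ∑ j, C (γ j) * X ^ h
    | (j + 1) => if hj : j < k then
        (X - 1) * (∑ s : Fin h, C (β ⟨j, hj⟩ s) * X ^ (h - 1 - (s : ℕ))) + C (γ ⟨j, hj⟩) * X ^ h
      else 0 with hf
  have hpow : ∀ s : Fin h, u⁻¹ ^ ((s : ℕ) + 1) * u ^ h = u ^ (h - 1 - (s : ℕ)) := by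
    intro s
    have hq' : ∀ e m : ℕ, u⁻¹ ^ m * u ^ (e + m) = u ^ e := by
      intro e m
      rw [pow_add, inv_pow]
      field_simp
    have h1 : (h - 1 - (s : ℕ)) + ((s : ℕ) + 1) = h := by have := s.2; omega
    have h2 := hq' (h - 1 - (s : ℕ)) ((s : ℕ) + 1)
    rwa [h1] at h2
  have h0 : aeval u (f 0) = (u - 1) * (∑ s : Fin h, algebraMap K G (α s) *
      (u⁻¹ ^ ((s : ℕ) + 1) * u ^ h)) - ∑ j, algebraMap K G (γ j) * u ^ h := by
    rw [hf]
    simp only [map_sub, map_mul, map_sum, map_pow, aeval_X, map_one, aeval_C, hpow]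
  have hs : ∀ j : Fin k, aeval u (f ((j : ℕ) + 1)) = (u - 1) * (∑ s : Fin h,
      algebraMap K G (β j s) * (u⁻¹ ^ ((s : ℕ) + 1) * u ^ h)) + algebraMap K G (γ j) * u ^ h := by
    intro j
    rw [hf]
    simp only [j.2, dite_true, Fin.eta, map_sub, map_add, map_mul, map_sum, map_pow, aeval_X,
      map_one, aeval_C, hpow]
  have hsum : ∑ j ∈ Finset.range (k + 1), aeval u (f j) * v ^ j = 0 := by
    rw [Finset.sum_range_succ', Finset.sum_range, h0, pow_zero, mul_one]
    have e1 : ∀ j : Fin k, aeval u (f ((j : ℕ) + 1)) * v ^ ((j : ℕ) + 1) =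
        (u - 1) * u ^ h * a⁻¹ * (∑ s : Fin h, algebraMap K G (β j s) *
          (a * v ^ ((j : ℕ) + 1) * u⁻¹ ^ ((s : ℕ) + 1))) +
        algebraMap K G (γ j) * u ^ h * v ^ ((j : ℕ) + 1) := by
      intro j
      rw [hs, add_mul]
      congr 1
      rw [Finset.mul_sum, Finset.sum_mul, Finset.mul_sum]
      refine Finset.sum_congr rfl fun s _ => ?_
      field_simp
    have e2 : (u - 1) * (∑ s : Fin h, algebraMap K G (α s) * (u⁻¹ ^ ((s : ℕ) + 1) * u ^ h)) =
        (u - 1) * u ^ h * a⁻¹ * ∑ s : Fin h, algebraMap K G (α s) *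
          (a * u⁻¹ ^ ((s : ℕ) + 1)) := by
      rw [Finset.mul_sum, Finset.mul_sum]
      refine Finset.sum_congr rfl fun s _ => ?_
      field_simp
    have e3 : ∑ j, algebraMap K G (γ j) * c j * ((u - 1) * u ^ h * a⁻¹) =
        ∑ j : Fin k, algebraMap K G (γ j) * u ^ h * v ^ ((j : ℕ) + 1) -
          ∑ j, algebraMap K G (γ j) * u ^ h := by
      rw [← Finset.sum_sub_distrib]
      refine Finset.sum_congr rfl fun j _ => ?_
      have := hc j
      calc algebraMap K G (γ j) * c j * ((u - 1) * u ^ h * a⁻¹)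
          = algebraMap K G (γ j) * (c j * (u - 1)) * u ^ h * a⁻¹ := by ring
        _ = _ := by rw [this]; field_simp
    rw [Finset.sum_congr rfl fun j _ => e1 j, Finset.sum_add_distrib, e2, ← Finset.mul_sum]
    have e4 := congrArg (fun x => (u - 1) * u ^ h * a⁻¹ * x) hrel
    simp only [mul_add, mul_zero] at e4
    rw [← Finset.sum_mul] at e3
    linear_combination e4 - e3
  have hall := H (k + 1) f hsum
  have hγ : ∀ j, γ j = 0 := by
    intro j
    have h1 := hall ((j : ℕ) + 1) (by have := j.2; omega)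
    rw [hf] at h1
    simp only [j.2, dite_true, Fin.eta] at h1
    have h2 := congrArg (fun P : K[X] => P.eval 1) h1
    simpa using h2
  have hX : (X - 1 : K[X]) ≠ 0 := by
    intro h1
    have h2 := congrArg (fun P : K[X] => P.eval 0) h1
    simp at h2
  refine ⟨?_, ?_, hγ⟩
  · have h1 := hall 0 (by omega)
    rw [hf] at h1
    simp only [hγ, map_zero, zero_mul, Finset.sum_const_zero, sub_zero] at h1
    exact coeffs_zero α ((mul_eq_zero.1 h1).resolve_left hX)
  · intro j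
    have h1 := hall ((j : ℕ) + 1) (by have := j.2; omega)
    rw [hf] at h1
    simp only [j.2, dite_true, Fin.eta, hγ, map_zero, zero_mul, add_zero] at h1
    exact coeffs_zero (β j) ((mul_eq_zero.1 h1).resolve_left hX)

end alg


section core
variable {L : ℕ → ℝ} {p q : ℕ}

/-- the weights -/
noncomputable def wt (U V d : ℝ) (h k : ℕ) : Pl → (Fin h ⊕ (Fin k × Fin h) ⊕ Fin k) → ℝ
  | .P, Sum.inl s => -U * ((s : ℕ) + 1 : ℕ)
  | .P, Sum.inr (Sum.inl js) => -U * ((js.2 : ℕ) + 1 : ℕ)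
  | .P, Sum.inr (Sum.inr _) => 0
  | .Q, Sum.inl _ => 0
  | .Q, Sum.inr (Sum.inl js) => V * ((js.1 : ℕ) + 1 : ℕ)
  | .Q, Sum.inr (Sum.inr _) => 0
  | .I, Sum.inl s => -(U - d) + U * ((s : ℕ) + 1 : ℕ)
  | .I, Sum.inr (Sum.inl js) => -(U - d) + (-V) * ((js.1 : ℕ) + 1 : ℕ) + U * ((js.2 : ℕ) + 1 : ℕ)
  | .I, Sum.inr (Sum.inr j) => -(U - d) + (-V) * ((j : ℕ) + 1 : ℕ) + U * h + U

lemma wt_sum (U V d : ℝ) (h k : ℕ) : ∑ v, ∑ i, wt U V d h k v i =
    h * ((k + 1) * d - U) + k * d - V * (k * (k + 1) / 2) := by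
  have e1 : ∑ j : Fin k, (((j : ℕ) + 1 : ℕ) : ℝ) = k * (k + 1) / 2 := by
    rw [Fin.sum_univ_eq_sum_range (fun j => ((j + 1 : ℕ) : ℝ)) k]
    induction k with
    | zero => simp
    | succ k ih => rw [Finset.sum_range_succ, ih]; push_cast; ring
  rw [Pl.sum]
  simp only [Fintype.sum_sum_type, Fintype.sum_prod_type, wt, Finset.sum_add_distrib,
    Finset.sum_const_zero, ← Finset.mul_sum, Finset.sum_const, Finset.card_univ,
    Fintype.card_fin, Fintype.card_prod, nsmul_eq_mul, e1]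
  push_cast
  ring

/-- the germs at the finite places -/
noncomputable def zf (u v a : GG) (h k : ℕ) (c : Fin k → GG) : (Fin h ⊕ (Fin k × Fin h) ⊕ Fin k) → GG
  | Sum.inl s => a * u⁻¹ ^ ((s : ℕ) + 1)
  | Sum.inr (Sum.inl js) => a * v ^ ((js.1 : ℕ) + 1) * u⁻¹ ^ ((js.2 : ℕ) + 1)
  | Sum.inr (Sum.inr j) => c j

/-- the germs at the infinite place -/
noncomputable def zi (u v a : GG) (h k : ℕ) (c : Fin k → GG) : (Fin h ⊕ (Fin k × Fin h) ⊕ Fin k) → GG
  | Sum.inl s => a * u⁻¹ ^ ((s : ℕ) + 1)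
  | Sum.inr (Sum.inl js) => a * v ^ ((js.1 : ℕ) + 1) * u⁻¹ ^ ((js.2 : ℕ) + 1)
  | Sum.inr (Sum.inr j) => c j - ∑ s : Fin h, (a * v ^ ((j : ℕ) + 1) * u⁻¹ ^ ((s : ℕ) + 1) -
      a * u⁻¹ ^ ((s : ℕ) + 1))

lemma geom_inv {G : Type*} [Field G] {u : G} (hu : u ≠ 0) (hu1 : u - 1 ≠ 0) (h : ℕ) :
    ∑ s : Fin h, u⁻¹ ^ ((s : ℕ) + 1) = (1 - u⁻¹ ^ h) * (u - 1)⁻¹ := by
  rw [Fin.sum_univ_eq_sum_range (fun s => u⁻¹ ^ (s + 1)) h, eq_mul_inv_iff_mul_eq₀ hu1]
  induction h with
  | zero => simp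
  | succ h ih =>
    rw [Finset.sum_range_succ, add_mul, ih, pow_succ]
    field_simp
    ring

lemma zi_third {u v a : GG} (hu : u ≠ 0) (hu1 : u - 1 ≠ 0) {h k : ℕ} {c : Fin k → GG}
    (hc : ∀ j : Fin k, c j * (u - 1) = a * (v ^ ((j : ℕ) + 1) - 1)) (j : Fin k) :
    c j - ∑ s : Fin h, (a * v ^ ((j : ℕ) + 1) * u⁻¹ ^ ((s : ℕ) + 1) -
      a * u⁻¹ ^ ((s : ℕ) + 1)) = a * (v ^ ((j : ℕ) + 1) - 1) * u⁻¹ ^ h * (u - 1)⁻¹ := by
  have e1 : ∑ s : Fin h, (a * v ^ ((j : ℕ) + 1) * u⁻¹ ^ ((s : ℕ) + 1) -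
      a * u⁻¹ ^ ((s : ℕ) + 1)) = a * (v ^ ((j : ℕ) + 1) - 1) * ∑ s : Fin h, u⁻¹ ^ ((s : ℕ) + 1) := by
    rw [Finset.mul_sum]
    exact Finset.sum_congr rfl fun s _ => by ring
  have e2 : c j = a * (v ^ ((j : ℕ) + 1) - 1) * (u - 1)⁻¹ := by
    rw [eq_mul_inv_iff_mul_eq₀ hu1]; exact hc j
  rw [e1, geom_inv hu hu1, e2]
  ring

lemma core_alg (hmov : MovStmt) (hp : 2 ≤ p) (hq : 2 ≤ q) (hpq : IsCoprime (q : ℤ) (p : ℤ))
    (hL : Tendsto L atTop atTop) {U V d : ℝ} (hd : 0 < d) (hV : 0 ≤ V)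
    {u v a b : GG} (hu : u ≠ 0) (hu1 : u - 1 ≠ 0) (ha : a ≠ 0)
    (hab : b * (u - 1) = a * (v - 1))
    (H : ∀ (n : ℕ) (f : ℕ → Polynomial (KK L hL)),
      ∑ j ∈ Finset.range n, Polynomial.aeval u (f j) * v ^ j = 0 → ∀ j < n, f j = 0)
    (huP : u⁻¹ ∈ Sv L p q .P (-U)) (huQ : u⁻¹ ∈ Sv L p q .Q 0) (huI : u⁻¹ ∈ Sv L p q .I U)
    (hu1I : (u - 1)⁻¹ ∈ Sv L p q .I U)
    (hvP : v ∈ Sv L p q .P 0) (hvQ : v ∈ Sv L p q .Q V) (hvI : v ∈ Sv L p q .I (-V))
    (haP : a ∈ Sv L p q .P 0) (haQ : a ∈ Sv L p q .Q 0) (haI : a ∈ Sv L p q .I (-(U - d)))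
    (hbP : b ∈ Sv L p q .P 0) (hbQ : b ∈ Sv L p q .Q 0)
    (husi : Sint L p q u⁻¹) (hvsi : Sint L p q v) (hasi : Sint L p q a) (hbsi : Sint L p q b) :
    False := by
  obtain ⟨k, hk⟩ := exists_nat_ge ((U + 1) / d)
  have hk1 : U + 1 ≤ (k + 1) * d := by
    rw [div_le_iff₀ hd] at hk
    nlinarith
  obtain ⟨h, hh⟩ := exists_nat_ge (V * (k * (k + 1) / 2) + 1)
  set c : Fin k → GG := fun j => b * ∑ i ∈ Finset.range ((j : ℕ) + 1), v ^ i with hcdef
  have hc : ∀ j : Fin k, c j * (u - 1) = a * (v ^ ((j : ℕ) + 1) - 1) := by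
    intro j
    have e := geom_sum_mul v ((j : ℕ) + 1)
    calc c j * (u - 1) = (b * (u - 1)) * ∑ i ∈ Finset.range ((j : ℕ) + 1), v ^ i := by
          rw [hcdef]; ring
      _ = a * ((∑ i ∈ Finset.range ((j : ℕ) + 1), v ^ i) * (v - 1)) := by rw [hab]; ring
      _ = _ := by rw [e]
  have FP := filt_v hL hp hq .P
  have FQ := filt_v hL hp hq .Q
  have FI := filt_v hL hp hq .I
  have hsipow : ∀ {x : GG}, Sint L p q x → ∀ n : ℕ, Sint L p q (x ^ n) := by
    intro x hx n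
    induction n with
    | zero => rw [pow_zero]; simpa using Sint.alg hL hp hq (1 : KK L hL)
    | succ n ih => rw [pow_succ]; exact ih.mul hL hp hq hx
  have hcP : ∀ j, c j ∈ Sv L p q .P 0 := by
    intro j
    have h1 : ∑ i ∈ Finset.range ((j : ℕ) + 1), v ^ i ∈ Sv L p q .P 0 := by
      refine Finset.sum_induction _ (fun g => g ∈ Sv L p q .P 0) (fun _ _ => FP.add_mem)
        (FP.zero_mem _) ?_
      intro i _
      have := FP.pow_mem hvP i
      rwa [zero_mul] at this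
    have := FP.mul_mem hbP h1
    rwa [zero_add] at this
  have hcQ : ∀ j, c j ∈ Sv L p q .Q 0 := by
    intro j
    have h1 : ∑ i ∈ Finset.range ((j : ℕ) + 1), v ^ i ∈ Sv L p q .Q 0 := by
      refine Finset.sum_induction _ (fun g => g ∈ Sv L p q .Q 0) (fun _ _ => FQ.add_mem)
        (FQ.zero_mem _) ?_
      intro i _
      exact FQ.anti (by positivity) (FQ.pow_mem hvQ i)
    have := FQ.mul_mem hbQ h1
    rwa [zero_add] at this
  have hcsi : ∀ j, Sint L p q (c j) := by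
    intro j
    exact hbsi.mul hL hp hq (Sint.sum hL hp hq _ _ fun i _ => hsipow hvsi i)
  have hsub : ∀ {x y : GG}, Sint L p q x → Sint L p q y → Sint L p q (x - y) := by
    intro x y hx hy
    have h1 : x - y = x + ((-1 : KK L hL) : GG) * y := by push_cast; ring
    rw [h1]
    exact hx.add hL hp hq ((Sint.alg hL hp hq _).mul hL hp hq hy)
  have hXsi : ∀ s : ℕ, Sint L p q (a * u⁻¹ ^ s) := fun s =>
    hasi.mul hL hp hq (hsipow husi s)
  have hXjsi : ∀ j s : ℕ, Sint L p q (a * v ^ j * u⁻¹ ^ s) := fun j s =>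
    (hasi.mul hL hp hq (hsipow hvsi j)).mul hL hp hq (hsipow husi s)
  have indf : ∀ e : (Fin h ⊕ (Fin k × Fin h) ⊕ Fin k) → KK L hL,
      ∑ i, (e i : GG) * zf u v a h k c i = 0 → ∀ i, e i = 0 := by
    intro e he
    have h1 := relation hu hu1 ha H c hc (fun s => e (Sum.inl s))
      (fun j s => e (Sum.inr (Sum.inl (j, s)))) (fun j => e (Sum.inr (Sum.inr j))) (by
        rw [Fintype.sum_sum_type, Fintype.sum_sum_type, Fintype.sum_prod_type] at he
        exact he)
    rintro (s | ⟨j, s⟩ | j)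
    · exact h1.1 s
    · exact h1.2.1 j s
    · exact h1.2.2 j
  have hz3 := fun j => zi_third (h := h) hu hu1 hc j
  have hmain := hmov p q hp hq hpq L hL (Fin h ⊕ (Fin k × Fin h) ⊕ Fin k) inferInstance
    (fun v' => match v' with | .P => zf u v a h k c | .Q => zf u v a h k c | .I => zi u v a h k c)
    (wt U V d h k) ?_ ?_ ?_ ?_
  · rw [wt_sum] at hmain
    have h1 : (h : ℝ) ≤ h * ((k + 1) * d - U) := by
      have : (0 : ℝ) ≤ h := Nat.cast_nonneg _
      nlinarith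
    have h2 : (0 : ℝ) ≤ k * d := by positivity
    linarith
  · intro v'
    cases v'
    · exact indf
    · exact indf
    · intro e he
      set e' : (Fin h ⊕ (Fin k × Fin h) ⊕ Fin k) → KK L hL := fun i => match i with
        | Sum.inl s => e (Sum.inl s) + ∑ j, e (Sum.inr (Sum.inr j))
        | Sum.inr (Sum.inl js) => e (Sum.inr (Sum.inl js)) - e (Sum.inr (Sum.inr js.1))
        | Sum.inr (Sum.inr j) => e (Sum.inr (Sum.inr j)) with he'
      have h1 : ∑ i, (e' i : GG) * zf u v a h k c i = 0 := by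
        rw [← he]
        simp only [Fintype.sum_sum_type, Fintype.sum_prod_type, he', zf, zi, AddSubgroupClass.coe_sub,
          Subfield.coe_add, mul_sub, sub_mul, add_mul, Finset.sum_add_distrib,
          Finset.sum_sub_distrib, Finset.mul_sum]
        have h2 : ((∑ j, e (Sum.inr (Sum.inr j)) : KK L hL) : GG) =
          ∑ j, (e (Sum.inr (Sum.inr j)) : GG) := by
          exact map_sum (KK L hL).subtype _ _
        rw [h2]
        simp only [Finset.sum_mul]
        rw [Finset.sum_comm (f := fun (x : Fin h) (i : Fin k) =>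
          (e (Sum.inr (Sum.inr i)) : GG) * (a * u⁻¹ ^ ((x : ℕ) + 1)))]
        ring
      have h2 := indf e' h1
      have hγ : ∀ j, e (Sum.inr (Sum.inr j)) = 0 := fun j => h2 (Sum.inr (Sum.inr j))
      rintro (s | ⟨j, s⟩ | j)
      · have := h2 (Sum.inl s)
        simp only [he', hγ, Finset.sum_const_zero, add_zero] at this
        exact this
      · have := h2 (Sum.inr (Sum.inl (j, s)))
        simp only [he', hγ, sub_zero] at this
        exact this
      · exact hγ j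
  · have hself : ∀ (z : (Fin h ⊕ (Fin k × Fin h) ⊕ Fin k) → GG) (i), ∃ c : _ → KK L hL,
        z i = ∑ j, (c j : GG) * z j := by
      intro z i
      classical
      refine ⟨fun j => if j = i then 1 else 0, ?_⟩
      rw [Finset.sum_eq_single i]
      · simp
      · intro j _ hj; simp [hj]
      · intro h1; exact absurd (Finset.mem_univ _) h1
    have hfin : ∀ i, ∃ c' : _ → KK L hL,
        zf u v a h k c i = ∑ j, (c' j : GG) * zi u v a h k c j := by
      rintro (s | js | j)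
      · exact hself (zi u v a h k c) (Sum.inl s)
      · exact hself (zi u v a h k c) (Sum.inr (Sum.inl js))
      · classical
        refine ⟨fun i => match i with
          | Sum.inl _ => -1
          | Sum.inr (Sum.inl js) => if js.1 = j then 1 else 0
          | Sum.inr (Sum.inr j') => if j' = j then 1 else 0, ?_⟩
        simp only [Fintype.sum_sum_type, Fintype.sum_prod_type, zf, zi]
        have e1 : ∑ x : Fin k, ∑ y : Fin h, (((if x = j then 1 else 0 : KK L hL) : KK L hL) : GG) *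
            (a * v ^ ((x : ℕ) + 1) * u⁻¹ ^ ((y : ℕ) + 1)) =
            ∑ y : Fin h, a * v ^ ((j : ℕ) + 1) * u⁻¹ ^ ((y : ℕ) + 1) := by
          rw [Finset.sum_eq_single j]
          · simp
          · intro x _ hx; simp [hx]
          · intro h1; exact absurd (Finset.mem_univ _) h1
        have e2 : ∑ x : Fin k, (((if x = j then 1 else 0 : KK L hL) : KK L hL) : GG) *
            (c x - ∑ s : Fin h, (a * v ^ ((x : ℕ) + 1) * u⁻¹ ^ ((s : ℕ) + 1) -
              a * u⁻¹ ^ ((s : ℕ) + 1))) =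
            c j - ∑ s : Fin h, (a * v ^ ((j : ℕ) + 1) * u⁻¹ ^ ((s : ℕ) + 1) -
              a * u⁻¹ ^ ((s : ℕ) + 1)) := by
          rw [Finset.sum_eq_single j]
          · simp
          · intro x _ hx; simp [hx]
          · intro h1; exact absurd (Finset.mem_univ _) h1
        rw [e1, e2, Finset.sum_sub_distrib]
        have e3 : ((-1 : KK L hL) : GG) = -1 := by push_cast; rfl
        rw [e3]
        simp only [neg_mul, one_mul, Finset.sum_neg_distrib]
        ring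
    intro v' i
    cases v'
    · exact hfin i
    · exact hfin i
    · exact hself _ i
  · intro v' i
    cases v'
    · rcases i with s | js | j
      · have := FP.mul_mem haP (FP.pow_mem huP ((s : ℕ) + 1))
        rwa [zero_add] at this
      · have h1 := FP.pow_mem hvP ((js.1 : ℕ) + 1)
        have := FP.mul_mem (FP.mul_mem haP h1) (FP.pow_mem huP ((js.2 : ℕ) + 1))
        rwa [zero_mul, zero_add, zero_add] at this
      · exact hcP j
    · rcases i with s | js | j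
      · have h1 := FQ.pow_mem huQ ((s : ℕ) + 1)
        have := FQ.mul_mem haQ h1
        rwa [zero_mul, zero_add] at this
      · have h1 := FQ.pow_mem huQ ((js.2 : ℕ) + 1)
        have := FQ.mul_mem (FQ.mul_mem haQ (FQ.pow_mem hvQ ((js.1 : ℕ) + 1))) h1
        rwa [zero_mul, zero_add, add_zero] at this
      · exact hcQ j
    · rcases i with s | js | j
      · exact FI.mul_mem haI (FI.pow_mem huI ((s : ℕ) + 1))
      · exact FI.mul_mem (FI.mul_mem haI (FI.pow_mem hvI ((js.1 : ℕ) + 1)))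
          (FI.pow_mem huI ((js.2 : ℕ) + 1))
      · have h1 : v ^ ((j : ℕ) + 1) - 1 ∈ Sv L p q .I ((-V) * ((j : ℕ) + 1 : ℕ)) := by
          have e : v ^ ((j : ℕ) + 1) - 1 = v ^ ((j : ℕ) + 1) + ((-1 : KK L hL) : GG) := by
            push_cast; ring
          rw [e]
          refine FI.add_mem (FI.pow_mem hvI _) (FI.anti ?_ (FI.alg_mem (-1)))
          have : (0 : ℝ) ≤ V * ((j : ℕ) + 1 : ℕ) := by positivity
          linarith
        have h2 := FI.mul_mem (FI.mul_mem (FI.mul_mem haI h1) (FI.pow_mem huI h)) hu1I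
        change c j - _ ∈ _
        rw [hz3 j]
        exact h2
  · rintro (s | js | j)
    · exact hXsi _
    · exact hXjsi _ _
    · exact hsub (hcsi j) (Sint.sum hL hp hq _ _ fun s _ => hsub (hXjsi _ _) (hXsi _))

end core

section analytic
variable {L : ℕ → ℝ} {p q : ℕ}

open Pool.Agent.TH932.Scale Pool.Agent.TH932.Chi

lemma near_le (hL : Tendsto L atTop atTop) {a b : ℕ → ℝ} {s t : ℝ} (ha : near L a s)
    (hb : near L b t) (h : ∀ᶠ n in (UU : Filter ℕ), a n ≤ b n) : s ≤ t := by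
  by_contra hne
  push Not at hne
  have hpos : 0 < (s - t) / 4 := by linarith
  obtain ⟨n, h1, h2, h3, h4⟩ := ((ha _ hpos).and ((hb _ hpos).and
    ((ev_of_atTop (hL.eventually_ge_atTop 1)).and h))).exists
  have h5 := (abs_le.1 h1).1
  have h6 := (abs_le.1 h2).2
  nlinarith

/-- integer germs are `S`-integral -/
lemma int_P (hL : Tendsto L atTop atTop) (m : ℕ → ℤ) :
    gm (fun n => (m n : ℚ)) ∈ Sv L p q .P 0 := by
  change _ ∈ SS L (Rb p (cop p)) 0
  rw [mem_SS]
  intro ε hε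
  filter_upwards [L_nonneg hL] with n hn
  refine ⟨1, 1, m n, 0, one_ne_zero, ?_, (cop p).one_mem, by simp, ?_⟩
  · simp only [Int.cast_one, abs_one]
    exact Real.one_le_exp (by positivity)
  · simp only [Int.cast_zero, zero_mul]
    nlinarith

lemma int_Q (hL : Tendsto L atTop atTop) (m : ℕ → ℤ) :
    gm (fun n => (m n : ℚ)) ∈ Sv L p q .Q 0 := by
  change _ ∈ SS L (Rb q (cop q)) 0
  rw [mem_SS]
  intro ε hε
  filter_upwards [L_nonneg hL] with n hn
  refine ⟨1, 1, m n, 0, one_ne_zero, ?_, (cop q).one_mem, by simp, ?_⟩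
  · simp only [Int.cast_one, abs_one]
    exact Real.one_le_exp (by positivity)
  · simp only [Int.cast_zero, zero_mul]
    nlinarith

lemma int_sint (hL : Tendsto L atTop atTop) (m : ℕ → ℤ) :
    Sint L p q (gm (fun n => (m n : ℚ))) := by
  refine ⟨0, ?_⟩
  rw [mem_SS]
  intro ε hε
  filter_upwards [L_nonneg hL] with n hn
  refine ⟨1, m n, 0, 0, one_ne_zero, ?_, by simp, ?_, ?_⟩
  · simp only [Int.cast_one, abs_one]
    exact Real.one_le_exp (by positivity)
  · simp only [Int.cast_zero, zero_mul]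
    nlinarith
  · simp only [Int.cast_zero, zero_mul]
    nlinarith

/-- powers with natural exponents as germs -/
lemma pow_germ (hp : 2 ≤ p) (hq : 2 ≤ q) (hL : Tendsto L atTop atTop) {π : ℕ → ℕ} {t : ℝ}
    (hπ : near L (fun n => (π n : ℝ)) t) :
    ∃ κ : KK L hL, κ ≠ 0 ∧ gm (fun n => (p : ℚ) ^ π n) = (κ : GG) * ch2 hL hp hq (t, 0) := by
  obtain ⟨κ, h1, h2⟩ := exists_const2 hL hp hq t 0 (fun n => (π n : ℤ)) (fun _ => 0)
    (by
      intro ε hε
      simpa using hπ ε hε) (by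
      intro ε hε
      filter_upwards [L_nonneg hL] with n hn
      simp only [Int.cast_zero, zero_mul, sub_zero, abs_zero]
      positivity)
  refine ⟨κ, h1, ?_⟩
  rw [← h2]
  congr 1
  funext n
  simp

lemma pow_germ' (hp : 2 ≤ p) (hq : 2 ≤ q) (hL : Tendsto L atTop atTop) {π : ℕ → ℕ} {t : ℝ}
    (hπ : near L (fun n => (π n : ℝ)) t) :
    ∃ κ : KK L hL, κ ≠ 0 ∧ gm (fun n => (q : ℚ) ^ π n) = (κ : GG) * ch2 hL hp hq (0, -t) := by
  obtain ⟨κ, h1, h2⟩ := exists_const2 hL hp hq 0 (-t) (fun _ => 0) (fun n => -(π n : ℤ))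
    (by
      intro ε hε
      filter_upwards [L_nonneg hL] with n hn
      simp only [Int.cast_zero, zero_mul, sub_zero, abs_zero]
      positivity) (by
      intro ε hε
      filter_upwards [hπ ε hε] with n hn
      push_cast
      rw [show -(π n : ℝ) - -t * L n = -((π n : ℝ) - t * L n) by ring, abs_neg]
      exact hn)
  refine ⟨κ, h1, ?_⟩
  rw [← h2]
  congr 1
  funext n
  simp

/-- germs with known logarithms -/
lemma mem_I_of_log {x : ℕ → ℚ} {l : ℕ → ℝ} {t : ℝ}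
    (hl : near L l t) (h : ∀ᶠ n in (UU : Filter ℕ), |((x n : ℚ) : ℝ)| ≤ Real.exp (-l n)) :
    gm x ∈ Sv L p q .I t := by
  change _ ∈ SS L Rinf t
  rw [mem_SS]
  intro ε hε
  filter_upwards [hl ε hε, h] with n h1 h2
  unfold Rinf
  refine h2.trans (Real.exp_le_exp.2 ?_)
  have := (abs_le.1 h1).1
  linarith

lemma kch_mem (hp : 2 ≤ p) (hq : 2 ≤ q) (hpq : IsCoprime (q : ℤ) (p : ℤ))
    (hL : Tendsto L atTop atTop) (v : Pl) (κ : KK L hL) (g : ℝ × ℝ) {w : ℝ}
    (hw : lv p q v g = w) : (κ : GG) * ch2 hL hp hq g ∈ Sv L p q v w := by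
  have h1 := (filt_v hL hp hq v).mul_mem ((filt_v hL hp hq v).alg_mem κ)
    (ch2_mem hL hp hq hpq v g)
  rw [zero_add, hw] at h1
  exact h1

lemma core_negl (hmov : MovStmt) (hsu : SUStmt) (hp : 2 ≤ p) (hq : 2 ≤ q)
    (hpq : IsCoprime (q : ℤ) (p : ℤ)) (hL : Tendsto L atTop atTop) (C : ℝ) (D π π' : ℕ → ℕ)
    (hπ : ∀ᶠ n in (UU : Filter ℕ), 1 ≤ π n ∧ (π n : ℝ) ≤ C * L n)
    (hπ' : ∀ᶠ n in (UU : Filter ℕ), 1 ≤ π' n ∧ (π' n : ℝ) ≤ C * L n)
    (hD : ∀ᶠ n in (UU : Filter ℕ), D n ∣ p ^ π n - 1)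
    (hD' : ∀ᶠ n in (UU : Filter ℕ), D n ∣ q ^ π' n - 1) :
    Negl L fun n => (D n : ℤ) := by
  have hlp : 0 < Real.log p := Real.log_pos (by exact_mod_cast hp)
  have hlq : 0 < Real.log q := Real.log_pos (by exact_mod_cast hq)
  have hpw : ∀ {b m : ℕ}, 2 ≤ b → 1 ≤ m → 2 ≤ b ^ m := by
    intro b m hb hm
    exact hb.trans (Nat.le_self_pow (by omega) b)
  have hlogb : ∀ {b m d : ℕ}, 2 ≤ b → 1 ≤ m → d ∣ b ^ m - 1 → 0 < d ∧
      Real.log d ≤ m * Real.log b := by
    intro b m d hb hm hd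
    have h2 := hpw hb hm
    have hpos : 0 < d := Nat.pos_of_dvd_of_pos hd (by omega)
    refine ⟨hpos, ?_⟩
    rw [← Real.log_pow]
    apply Real.log_le_log (by exact_mod_cast hpos)
    have h3 := Nat.le_of_dvd (by omega) hd
    have h4 : d ≤ b ^ m := by omega
    exact_mod_cast h4
  obtain ⟨d, hd0, -, hdn⟩ := exists_st hL (a := fun n => Real.log (D n)) (A := C * Real.log p) (by
    filter_upwards [hπ, hD] with n h1 h2
    have h3 := hlogb hp h1.1 h2
    refine ⟨Real.log_nonneg (by exact_mod_cast h3.1), h3.2.trans ?_⟩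
    calc (π n : ℝ) * Real.log p ≤ C * L n * Real.log p := by
          exact mul_le_mul_of_nonneg_right h1.2 hlp.le
      _ = _ := by ring)
  obtain ⟨t, ht0, -, htn⟩ := exists_st hL (a := fun n => (π n : ℝ)) (A := C) (by
    filter_upwards [hπ] with n h1
    exact ⟨Nat.cast_nonneg _, h1.2⟩)
  obtain ⟨t', ht0', -, htn'⟩ := exists_st hL (a := fun n => (π' n : ℝ)) (A := C) (by
    filter_upwards [hπ'] with n h1
    exact ⟨Nat.cast_nonneg _, h1.2⟩)
  rcases hd0.eq_or_lt with hd00 | hdpos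
  · intro ε hε
    rw [← hd00] at hdn
    filter_upwards [hdn ε hε, hπ, hD] with n h1 h2 h3
    have h4 := (hlogb hp h2.1 h3).1
    have h5 : (0 : ℝ) < D n := by exact_mod_cast h4
    rw [zero_mul, sub_zero] at h1
    rw [Int.cast_natCast, abs_of_pos h5]
    calc (D n : ℝ) = Real.exp (Real.log (D n)) := (Real.exp_log h5).symm
      _ ≤ _ := Real.exp_le_exp.2 (le_of_abs_le h1)
  exfalso
  -- `t` and `t'` are positive
  have hdt : d ≤ Real.log p * t := near_le hL hdn (htn.const_mul hL (Real.log p)) (by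
    filter_upwards [hπ, hD] with n h1 h2
    rw [mul_comm]
    exact (hlogb hp h1.1 h2).2)
  have hdt' : d ≤ Real.log q * t' := near_le hL hdn (htn'.const_mul hL (Real.log q)) (by
    filter_upwards [hπ', hD'] with n h1 h2
    rw [mul_comm]
    exact (hlogb hq h1.1 h2).2)
  have ht : 0 < t := by
    rcases ht0.eq_or_lt with h | h
    · rw [← h, mul_zero] at hdt; linarith
    · exact h
  have ht' : 0 < t' := by
    rcases ht0'.eq_or_lt with h | h
    · rw [← h, mul_zero] at hdt'; linarith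
    · exact h
  obtain ⟨κ, hκ, hu⟩ := pow_germ hp hq hL htn
  obtain ⟨κ', hκ', hv⟩ := pow_germ' hp hq hL htn'
  set u : GG := gm (fun n => (p : ℚ) ^ π n) with hudef
  set v : GG := gm (fun n => (q : ℚ) ^ π' n) with hvdef
  set a : GG := gm (fun n => (((p ^ π n - 1) / D n : ℕ) : ℤ)) with hadef
  set b : GG := gm (fun n => (((q ^ π' n - 1) / D n : ℕ) : ℤ)) with hbdef
  set Dg : GG := gm (fun n => (D n : ℚ)) with hDgdef
  have hDne : Dg ≠ 0 := by
    rw [hDgdef, gm_ne_zero]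
    filter_upwards [hπ, hD] with n h1 h2
    have := (hlogb hp h1.1 h2).1
    exact_mod_cast this.ne'
  have haD : a * Dg = u - 1 := by
    rw [hadef, hDgdef, hudef, gm_mul, ← gm_one, gm_sub, gm_eq]
    filter_upwards [hπ, hD] with n h1 h2
    have h3 := hpw hp h1.1
    have h4 := Nat.div_mul_cancel h2
    have h5 : (((p ^ π n - 1) / D n : ℕ) : ℚ) * (D n : ℚ) = ((p ^ π n - 1 : ℕ) : ℚ) := by
      exact_mod_cast h4
    rw [Nat.cast_sub (by omega)] at h5
    push_cast at h5 ⊢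
    exact h5
  have hbD : b * Dg = v - 1 := by
    rw [hbdef, hDgdef, hvdef, gm_mul, ← gm_one, gm_sub, gm_eq]
    filter_upwards [hπ', hD'] with n h1 h2
    have h3 := hpw hq h1.1
    have h4 := Nat.div_mul_cancel h2
    have h5 : (((q ^ π' n - 1) / D n : ℕ) : ℚ) * (D n : ℚ) = ((q ^ π' n - 1 : ℕ) : ℚ) := by
      exact_mod_cast h4
    rw [Nat.cast_sub (by omega)] at h5
    push_cast at h5 ⊢
    exact h5
  have hune : u ≠ 0 := by
    rw [hudef, gm_ne_zero]
    exact Eventually.of_forall fun n => pow_ne_zero _ (by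
      have : p ≠ 0 := by omega
      exact_mod_cast this)
  have hu1 : u - 1 ≠ 0 := by
    rw [hudef, ← gm_one, gm_sub, gm_ne_zero]
    filter_upwards [hπ] with n h1
    have h3 := hpw hp h1.1
    have h4 : (2 : ℚ) ≤ (p : ℚ) ^ π n := by exact_mod_cast h3
    intro h5
    linarith
  have hane : a ≠ 0 := by
    intro h0
    rw [h0, zero_mul] at haD
    exact hu1 haD.symm
  have hab : b * (u - 1) = a * (v - 1) := by
    rw [← haD, ← hbD]; ring
  -- the logarithm of `p ^ π - 1`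
  have hlogp : near L (fun n => Real.log p * (π n : ℝ)) (Real.log p * t) :=
    htn.const_mul hL _
  set U : ℝ := Real.log p * t with hU
  set V : ℝ := Real.log q * t' with hV
  have hu_inv : u⁻¹ = ((κ⁻¹ : KK L hL) : GG) * ch2 hL hp hq (-(t, 0)) := by
    rw [hu, mul_inv, ch2_neg]
    rfl
  have hone : near L (fun _ => Real.log 2) 0 := near_const hL _
  refine core_alg hmov hp hq hpq hL (U := U) (V := V) (d := d) hdpos
    (mul_nonneg hlq.le ht0') (u := u) (v := v) (a := a) (b := b) hune hu1 hane hab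
    (indep hsu hp hq hpq hL ht ht' hκ hκ' hu hv)
    ?_ ?_ ?_ ?_ ?_ ?_ ?_ (int_P hL _) (int_Q hL _) ?_ (int_P hL _) (int_Q hL _) ?_ ?_
    (int_sint hL _) (int_sint hL _)
  · rw [hu_inv]
    refine kch_mem hp hq hpq hL .P _ _ ?_
    simp only [lv, Prod.fst_neg, Prod.snd_neg, hU, hV]
    ring
  · rw [hu_inv]
    refine kch_mem hp hq hpq hL .Q _ _ ?_
    simp only [lv, Prod.fst_neg, Prod.snd_neg, hU, hV]
    ring
  · rw [hu_inv]
    refine kch_mem hp hq hpq hL .I _ _ ?_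
    simp only [lv, Prod.fst_neg, Prod.snd_neg, hU, hV]
    ring
  · -- `(u - 1)⁻¹`
    have h1 : (u - 1)⁻¹ = gm (fun n => ((p : ℚ) ^ π n - 1)⁻¹) := by
      rw [hudef, ← gm_one, gm_sub, gm_inv]
    rw [h1]
    have h2 := hlogp.sub hone
    rw [sub_zero] at h2
    refine mem_I_of_log h2 ?_
    filter_upwards [hπ] with n h3
    have h4 := hpw hp h3.1
    have h5 : (2 : ℝ) ≤ (p : ℝ) ^ π n := by exact_mod_cast h4
    have h6 : Real.exp (-(Real.log p * π n - Real.log 2)) = 2 / (p : ℝ) ^ π n := by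
      rw [neg_sub, Real.exp_sub, Real.exp_log (by norm_num), mul_comm, ← Real.log_pow,
        Real.exp_log (by linarith)]
    rw [h6]
    push_cast
    rw [abs_inv, abs_of_pos (by linarith), inv_eq_one_div, div_le_div_iff₀ (by linarith)
      (by linarith)]
    linarith
  · exact int_P hL (fun n => (q : ℤ) ^ π' n) |> fun h => by
      rw [hvdef]; simpa using h
  · rw [hv]
    refine kch_mem hp hq hpq hL .Q _ _ ?_
    simp only [lv, Prod.fst_neg, Prod.snd_neg, hU, hV]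
    ring
  · rw [hv]
    refine kch_mem hp hq hpq hL .I _ _ ?_
    simp only [lv, Prod.fst_neg, Prod.snd_neg, hU, hV]
    ring
  · -- `a`
    have h2 := hdn.sub hlogp
    rw [neg_sub]
    refine mem_I_of_log h2 ?_
    filter_upwards [hπ, hD] with n h3 h4
    have h5 := hpw hp h3.1
    have h6 := (hlogb hp h3.1 h4).1
    have h7 : (0 : ℝ) < D n := by exact_mod_cast h6
    have h8 : (0 : ℝ) < (p : ℝ) ^ π n := by positivity
    have h9 : Real.exp (-(Real.log (D n) - Real.log p * π n)) = (p : ℝ) ^ π n / D n := by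
      rw [neg_sub, Real.exp_sub, Real.exp_log h7, mul_comm, ← Real.log_pow, Real.exp_log h8]
    rw [h9]
    push_cast
    rw [abs_of_nonneg (by positivity), le_div_iff₀ h7]
    have h10 : (p ^ π n - 1) / D n * D n ≤ p ^ π n := by
      rw [Nat.div_mul_cancel h4]; omega
    exact_mod_cast h10
  · rw [hu_inv]
    exact (Sint.alg hL hp hq _).mul hL hp hq (ch2_sint hL hp hq _)
  · rw [hv]
    exact (Sint.alg hL hp hq _).mul hL hp hq (ch2_sint hL hp hq _)

end analytic

section final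
variable {L : ℕ → ℝ} {p q : ℕ}

lemma negl_mono {g g' : ℕ → ℤ} (h : Negl L g')
    (hle : ∀ᶠ n in (UU : Filter ℕ), |(g n : ℝ)| ≤ |(g' n : ℝ)|) : Negl L g := by
  intro ε hε
  filter_upwards [h ε hε, hle] with n h1 h2 using h2.trans h1

lemma negl_poly (hL : Tendsto L atTop atTop) (K r : ℕ) (C : ℝ) (m g : ℕ → ℕ)
    (hm : ∀ᶠ n in (UU : Filter ℕ), 1 ≤ m n ∧ (m n : ℝ) ≤ C * L n)
    (hg : ∀ n, 1 ≤ m n → g n ≤ (K * m n) ^ r) : Negl L fun n => (g n : ℤ) := by
  intro ε hε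
  have h1 : (fun x : ℝ => ((K : ℝ) * (C * x)) ^ r) =o[atTop] fun x => Real.exp (ε * x) := by
    have h2 := (isLittleO_pow_exp_pos_mul_atTop (k := r) hε).const_mul_left (((K : ℝ) * C) ^ r)
    refine h2.congr_left fun x => ?_
    rw [← mul_pow]; ring
  have h3 := h1.bound one_pos
  have h4 := ev_of_atTop (hL.eventually h3)
  filter_upwards [h4, hm] with n h5 h6
  rw [one_mul, Real.norm_eq_abs, Real.norm_eq_abs, abs_of_pos (Real.exp_pos _)] at h5
  have h7 : (g n : ℝ) ≤ ((K : ℝ) * m n) ^ r := by exact_mod_cast hg n h6.1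
  rw [Int.cast_natCast, abs_of_nonneg (Nat.cast_nonneg _)]
  calc (g n : ℝ) ≤ ((K : ℝ) * m n) ^ r := h7
    _ ≤ ((K : ℝ) * (C * L n)) ^ r := by
        have := h6.2
        gcongr
    _ ≤ _ := (le_abs_self _).trans h5

theorem gcd_negl (h : MovStmt) (hsu : SUStmt) : GcdStmt := by
  intro p q hp hq hpq L hL C w i π i' π' hπ hπ' hw hw'
  have hcop : Nat.Coprime q p := by
    rw [Nat.isCoprime_iff_coprime] at hpq
    exact hpq
  have hπ1 : ∀ᶠ n in (UU : Filter ℕ), 1 ≤ π n ∧ (π n : ℝ) ≤ C * L n := by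
    filter_upwards [hπ] with n h1
    refine ⟨h1.1, ?_⟩
    have := h1.2
    have h2 : (0 : ℝ) ≤ i n := Nat.cast_nonneg _
    linarith
  have hπ1' : ∀ᶠ n in (UU : Filter ℕ), 1 ≤ π' n ∧ (π' n : ℝ) ≤ C * L n := by
    filter_upwards [hπ'] with n h1
    refine ⟨h1.1, ?_⟩
    have := h1.2
    have h2 : (0 : ℝ) ≤ i' n := Nat.cast_nonneg _
    linarith
  obtain ⟨K1, r1, -, hb1⟩ := gcd_bound p q hp hq hcop
  obtain ⟨K2, r2, -, hb2⟩ := gcd_bound q p hq hp hcop.symm
  have n1 : Negl L fun n => ((Nat.gcd (p ^ i n) (q ^ π' n - 1) : ℕ) : ℤ) :=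
    negl_poly hL K1 r1 C π' _ hπ1' fun n hn => hb1 (i n) (π' n) hn
  have n2 : Negl L fun n => ((Nat.gcd (q ^ i' n) (p ^ π n - 1) : ℕ) : ℤ) :=
    negl_poly hL K2 r2 C π _ hπ1 fun n hn => hb2 (i' n) (π n) hn
  have n3 : Negl L fun n => ((Nat.gcd (p ^ π n - 1) (q ^ π' n - 1) : ℕ) : ℤ) :=
    core_negl h hsu hp hq hpq hL C _ π π' hπ1 hπ1'
      (Eventually.of_forall fun n => Nat.gcd_dvd_left _ _)
      (Eventually.of_forall fun n => Nat.gcd_dvd_right _ _)
  refine negl_mono (n1.mul (n2.mul n3)) ?_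
  filter_upwards [hπ, hπ', hw, hw'] with n h1 h2 h3 h4
  have hB : 0 < p ^ π n - 1 := by
    have : p ≤ p ^ π n := Nat.le_self_pow (by omega) p
    omega
  have hB' : 0 < q ^ π' n - 1 := by
    have : q ≤ q ^ π' n := Nat.le_self_pow (by omega) q
    omega
  have hAA : Nat.gcd (p ^ i n) (q ^ i' n) = 1 := Nat.Coprime.pow _ _ hcop.symm
  have e1 : Nat.gcd (p ^ i n) (q ^ i' n * (q ^ π' n - 1)) ∣ Nat.gcd (p ^ i n) (q ^ π' n - 1) := by
    have := Nat.gcd_mul_right_dvd_mul_gcd (p ^ i n) (q ^ i' n) (q ^ π' n - 1)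
    rwa [hAA, one_mul] at this
  have e2 : Nat.gcd (p ^ π n - 1) (q ^ i' n * (q ^ π' n - 1)) ∣
      Nat.gcd (q ^ i' n) (p ^ π n - 1) * Nat.gcd (p ^ π n - 1) (q ^ π' n - 1) := by
    have := Nat.gcd_mul_right_dvd_mul_gcd (p ^ π n - 1) (q ^ i' n) (q ^ π' n - 1)
    rwa [Nat.gcd_comm (p ^ π n - 1) (q ^ i' n)] at this
  have e3 : w n ∣ Nat.gcd (p ^ i n) (q ^ π' n - 1) *
      (Nat.gcd (q ^ i' n) (p ^ π n - 1) * Nat.gcd (p ^ π n - 1) (q ^ π' n - 1)) := by
    have h5 : w n ∣ Nat.gcd (p ^ i n * (p ^ π n - 1)) (q ^ i' n * (q ^ π' n - 1)) :=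
      Nat.dvd_gcd h3 h4
    have h6 : Nat.gcd (p ^ i n * (p ^ π n - 1)) (q ^ i' n * (q ^ π' n - 1)) ∣
        Nat.gcd (p ^ i n) (q ^ i' n * (q ^ π' n - 1)) *
        Nat.gcd (p ^ π n - 1) (q ^ i' n * (q ^ π' n - 1)) := by
      exact Nat.gcd_mul_left_dvd_mul_gcd _ _ _
    exact h5.trans (h6.trans (mul_dvd_mul e1 e2))
  have e4 : w n ≤ Nat.gcd (p ^ i n) (q ^ π' n - 1) *
      (Nat.gcd (q ^ i' n) (p ^ π n - 1) * Nat.gcd (p ^ π n - 1) (q ^ π' n - 1)) := by
    refine Nat.le_of_dvd ?_ e3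
    have g1 := Nat.gcd_pos_of_pos_right (p ^ i n) hB'
    have g2 := Nat.gcd_pos_of_pos_right (q ^ i' n) hB
    have g3 := Nat.gcd_pos_of_pos_right (p ^ π n - 1) hB'
    positivity
  have e5 : (w n : ℝ) ≤ ((Nat.gcd (p ^ i n) (q ^ π' n - 1) *
      (Nat.gcd (q ^ i' n) (p ^ π n - 1) * Nat.gcd (p ^ π n - 1) (q ^ π' n - 1)) : ℕ) : ℝ) := by
    exact_mod_cast e4
  rw [Int.cast_natCast, abs_of_nonneg (Nat.cast_nonneg _)]
  refine e5.trans (le_trans (le_of_eq ?_) (le_abs_self _))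
  push_cast
  rfl

end final

end Pool.Agent.TH932.S2.Gcd
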