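import Mathlib
import Pool.Agent.TH932.S2.Stms2
import Pool.Agent.TH932.S2.BD

set_option autoImplicit false

/-!
# Project S2, T2: two representations of a real number give one rational approximation of every
order
-/

namespace Pool.Agent.TH932.S2.Merge

open Filter Topology Pool.Agent.TH932.Germs Pool.Agent.TH932.S2 Pool.Agent.TH932.S2.BD
open Pool.Agent.TH932.Chi

lemma rat_eq (r r' : ℚ) (h : |(r : ℝ) - r'| * ((r.den : ℝ) * r'.den) < 1) : r = r' := by
  have h1 : ((r.num * r'.den - r'.num * r.den : ℤ) : ℝ) = ((r : ℝ) - r') * (r.den * r'.den) := by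
    have e1 : (r : ℝ) * r.den = r.num := by exact_mod_cast Rat.mul_den_eq_num r
    have e2 : (r' : ℝ) * r'.den = r'.num := by exact_mod_cast Rat.mul_den_eq_num r'
    push_cast
    linear_combination -(r'.den : ℝ) * e1 + (r.den : ℝ) * e2
  have h2 : |((r.num * r'.den - r'.num * r.den : ℤ) : ℝ)| < 1 := by
    rw [h1, abs_mul, abs_of_nonneg (show (0 : ℝ) ≤ (r.den : ℝ) * r'.den by positivity)]
    exact h
  have h3 : |r.num * r'.den - r'.num * r.den| < 1 := by exact_mod_cast h2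
  have h4 := Int.abs_lt_one_iff.1 h3
  rw [Rat.eq_iff_mul_eq_mul]
  linarith

lemma den_le_of (r : ℚ) (W V : ℤ) (hW : W ≠ 0) (h : (W : ℚ) * r = V) :
    (r.den : ℝ) ≤ |(W : ℝ)| := by
  have h1 : (r.den : ℤ) ∣ W := by
    have h2 : W * r.num = V * r.den := by
      have e1 : (r : ℚ) * r.den = r.num := Rat.mul_den_eq_num r
      have : (W : ℚ) * r.num = V * r.den := by rw [← e1, ← mul_assoc, h]
      exact_mod_cast this
    have h3 : (r.den : ℤ) ∣ W * r.num := ⟨V, by rw [h2]; ring⟩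
    have h4 : IsCoprime (r.den : ℤ) r.num := by
      rw [Int.isCoprime_iff_gcd_eq_one, Int.gcd_comm]
      exact r.reduced
    exact h4.dvd_of_dvd_mul_right h3
  have h2 := Int.le_of_dvd (abs_pos.2 hW) ((dvd_abs _ _).2 h1)
  have h3 : ((r.den : ℤ) : ℝ) ≤ ((|W| : ℤ) : ℝ) := by exact_mod_cast h2
  push_cast at h3
  exact h3

lemma den_le {p q : ℕ} (hp : 2 ≤ p) (hq : 2 ≤ q) {l t t' T : ℝ} (hl : 0 ≤ l) {ν d : ℚ}
    (hd : d ≠ 0) (h1 : Rpq p q l 1 t ν) (h2 : Rpq p q l 1 t' d)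
    (h3 : |(d : ℝ)| ≤ Real.exp (T * l)) :
    ((ν / d).den : ℝ) ≤ Real.exp ((2 * (|t| + |t'| + 1) + 2 + T) * l) := by
  obtain ⟨d1, m, i, k, hd1, hd1', e1, hi, hk⟩ := h1
  obtain ⟨d2, m', i', k', hd2, hd2', e2, hi', hk'⟩ := h2
  have hp0 : (p : ℚ) ≠ 0 := by
    have : p ≠ 0 := by omega
    exact_mod_cast this
  have hq0 : (q : ℚ) ≠ 0 := by
    have : q ≠ 0 := by omega
    exact_mod_cast this
  have hd1q : (d1 : ℚ) ≠ 0 := by exact_mod_cast hd1
  have hd2q : (d2 : ℚ) ≠ 0 := by exact_mod_cast hd2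
  have key : ∀ {b : ℚ}, b ≠ 0 → ∀ s t : ℤ, s ≤ t → b ^ (t - s).toNat = b ^ t * b ^ (-s) := by
    intro b hb s t hst
    rw [← zpow_natCast, ← zpow_add₀ hb]
    congr 1
    omega
  obtain ⟨u, hu⟩ : ∃ u, u = min i i' := ⟨_, rfl⟩
  obtain ⟨v, hv⟩ : ∃ v, v = min k k' := ⟨_, rfl⟩
  have hui : u ≤ i := hu ▸ min_le_left _ _
  have hui' : u ≤ i' := hu ▸ min_le_right _ _
  have hvk : v ≤ k := hv ▸ min_le_left _ _
  have hvk' : v ≤ k' := hv ▸ min_le_right _ _
  obtain ⟨W, hW⟩ : ∃ W : ℤ, W = d1 * m' * (p : ℤ) ^ (i' - u).toNat * (q : ℤ) ^ (k' - v).toNat :=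
    ⟨_, rfl⟩
  obtain ⟨V, hV⟩ : ∃ V : ℤ, V = d2 * m * (p : ℤ) ^ (i - u).toNat * (q : ℤ) ^ (k - v).toNat :=
    ⟨_, rfl⟩
  have hWq : (W : ℚ) = d1 * (d2 * d) * ((p : ℚ) ^ (-u) * (q : ℚ) ^ (-v)) := by
    rw [hW, e2]
    push_cast
    rw [key hp0 u i' hui', key hq0 v k' hvk']
    ring
  have hVq : (V : ℚ) = d2 * (d1 * ν) * ((p : ℚ) ^ (-u) * (q : ℚ) ^ (-v)) := by
    rw [hV, e1]
    push_cast
    rw [key hp0 u i hui, key hq0 v k hvk]
    ring
  have hpu : (p : ℚ) ^ (-u) ≠ 0 := zpow_ne_zero _ hp0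
  have hqv : (q : ℚ) ^ (-v) ≠ 0 := zpow_ne_zero _ hq0
  have hW0 : W ≠ 0 := by
    intro h0
    rw [h0, Int.cast_zero] at hWq
    exact mul_ne_zero (mul_ne_zero hd1q (mul_ne_zero hd2q hd)) (mul_ne_zero hpu hqv) hWq.symm
  have hWV : (W : ℚ) * (ν / d) = V := by
    rw [hWq, hVq]
    have : d * (ν / d) = ν := mul_div_cancel₀ _ hd
    calc (d1 : ℚ) * (d2 * d) * ((p : ℚ) ^ (-u) * (q : ℚ) ^ (-v)) * (ν / d)
        = d2 * (d1 * (d * (ν / d))) * ((p : ℚ) ^ (-u) * (q : ℚ) ^ (-v)) := by ring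
      _ = _ := by rw [this]
  refine (den_le_of _ W V hW0 hWV).trans ?_
  have hWr : (W : ℝ) = d1 * (d2 * d) * ((p : ℝ) ^ (-u) * (q : ℝ) ^ (-v)) := by
    have := congrArg (fun x : ℚ => (x : ℝ)) hWq
    push_cast at this
    exact this
  have hb : ∀ {b : ℕ}, 2 ≤ b → ∀ i i' : ℤ, (t - 1) * l ≤ i * Real.log b →
      (t' - 1) * l ≤ i' * Real.log b →
      ((-(min i i') : ℤ) : ℝ) * Real.log b ≤ (|t| + |t'| + 1) * l := by
    intro b _ i i' h h'
    have a1 : -(t * l) ≤ |t| * l := by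
      have := mul_le_mul_of_nonneg_right (neg_le_abs t) hl
      linarith
    have a2 : -(t' * l) ≤ |t'| * l := by
      have := mul_le_mul_of_nonneg_right (neg_le_abs t') hl
      linarith
    have a3 : 0 ≤ |t| * l := mul_nonneg (abs_nonneg _) hl
    have a4 : 0 ≤ |t'| * l := mul_nonneg (abs_nonneg _) hl
    push_cast
    rcases min_choice i i' with h4 | h4
    · have : min (i : ℝ) (i' : ℝ) = (i : ℝ) := by exact_mod_cast h4
      rw [this]; linarith
    · have : min (i : ℝ) (i' : ℝ) = (i' : ℝ) := by exact_mod_cast h4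
      rw [this]; linarith
  have hu1 := hb hp i i' hi hi'
  have hv1 := hb hq k k' hk hk'
  rw [← hu] at hu1
  rw [← hv] at hv1
  rw [hWr, abs_mul, abs_mul, abs_mul, abs_mul, zpow_exp hp, zpow_exp hq,
    abs_of_pos (Real.exp_pos _), abs_of_pos (Real.exp_pos _)]
  calc |(d1 : ℝ)| * (|(d2 : ℝ)| * |(d : ℝ)|) *
        (Real.exp (((-u : ℤ) : ℝ) * Real.log p) * Real.exp (((-v : ℤ) : ℝ) * Real.log q))
      ≤ Real.exp (1 * l) * (Real.exp (1 * l) * Real.exp (T * l)) *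
        (Real.exp ((|t| + |t'| + 1) * l) * Real.exp ((|t| + |t'| + 1) * l)) := by
        gcongr
    _ = Real.exp ((2 * (|t| + |t'| + 1) + 2 + T) * l) := by
        rw [← Real.exp_add, ← Real.exp_add, ← Real.exp_add, ← Real.exp_add]
        ring_nf

lemma glue {L : ℕ → ℝ} (hL : Tendsto L atTop atTop) (x B K3 : ℝ)
    (h : ∀ E : ℝ, ∃ r : ℕ → ℚ,
      (∀ᶠ n in (UU : Filter ℕ), ((r n).den : ℝ) ≤ Real.exp (B * L n)) ∧
      ∀ᶠ n in (UU : Filter ℕ), |x - r n| ≤ Real.exp (-((E - K3) * L n))) :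
    ∃ (B : ℝ) (r : ℕ → ℚ), (∀ᶠ n in (UU : Filter ℕ), ((r n).den : ℝ) ≤ Real.exp (B * L n)) ∧
      ∀ A : ℝ, ∀ᶠ n in (UU : Filter ℕ), |x - r n| ≤ Real.exp (-(A * L n)) := by
  obtain ⟨r, hr1, hr2⟩ := h (2 * B + K3 + 1)
  refine ⟨B, r, hr1, fun A => ?_⟩
  obtain ⟨r', hr1', hr2'⟩ := h (max (2 * B + K3 + 1) (A + K3))
  filter_upwards [hr1, hr2, hr1', hr2', ev_of_atTop (hL.eventually_ge_atTop 1)]
    with n h1 h2 h3 h4 h5
  have hL0 : 0 < L n := by linarith
  have h6 : |x - r n| ≤ Real.exp (-((2 * B + 1) * L n)) := by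
    refine h2.trans (le_of_eq ?_)
    congr 1
    ring
  have h7 : |x - r' n| ≤ Real.exp (-((2 * B + 1) * L n)) := by
    refine h4.trans (Real.exp_le_exp.2 ?_)
    have := le_max_left (2 * B + K3 + 1) (A + K3)
    nlinarith
  have h8 : r n = r' n := by
    apply rat_eq
    have h9 : |(r n : ℝ) - r' n| ≤ 2 * Real.exp (-((2 * B + 1) * L n)) := by
      have e1 : (r n : ℝ) - r' n = (x - r' n) - (x - r n) := by ring
      rw [e1]
      refine (abs_sub _ _).trans ?_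
      linarith
    calc |(r n : ℝ) - r' n| * (((r n).den : ℝ) * (r' n).den)
        ≤ 2 * Real.exp (-((2 * B + 1) * L n)) * (Real.exp (B * L n) * Real.exp (B * L n)) := by
          gcongr
      _ = 2 * Real.exp (-(L n)) := by
          rw [mul_assoc, ← Real.exp_add, ← Real.exp_add]
          ring_nf
      _ < 1 := by
          have h7 : Real.exp (-(L n)) ≤ Real.exp (-1) := Real.exp_le_exp.2 (by linarith)
          have h8 : Real.exp (-1) < 1 / 2 := by
            rw [Real.exp_neg, inv_eq_one_div]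
            have := Real.exp_one_gt_d9
            apply one_div_lt_one_div_of_lt (by norm_num)
            linarith
          linarith
  rw [h8]
  refine h4.trans (Real.exp_le_exp.2 ?_)
  have := le_max_right (2 * B + K3 + 1) (A + K3)
  nlinarith

section
variable {L : ℕ → ℝ} {p q : ℕ} (hL : Tendsto L atTop atTop) (hp : 2 ≤ p) (hq : 2 ≤ q)

/-- quantitative integrality of the character -/
lemma ch2_pq (g : ℝ × ℝ) : ch2 hL hp hq g ∈
    SS L (Rpq p q) (min (g.1 * Real.log p) (-(g.2 * Real.log q))) := by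
  have hlp : 0 < Real.log p := Real.log_pos (by exact_mod_cast hp)
  have hlq : 0 < Real.log q := Real.log_pos (by exact_mod_cast hq)
  rw [ch2_eq, mem_SS]
  intro ε hε
  have hε1 : 0 < ε / Real.log p := by positivity
  have hε2 : 0 < ε / Real.log q := by positivity
  filter_upwards [ev_of_atTop (fl_near hL g.1 hε1), ev_of_atTop (fl_near hL g.2 hε2),
    L_nonneg hL] with n h1 h2 h3
  refine ⟨1, 1, ⌊ell hL g.1 n⌋, -⌊ell hL g.2 n⌋, one_ne_zero, ?_, by simp, ?_, ?_⟩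
  · simp only [Int.cast_one, abs_one]
    exact Real.one_le_exp (by positivity)
  · have h4 := (abs_le.1 h1).1
    have h5 : (g.1 * L n - ε / Real.log p * L n) * Real.log p
        ≤ ((⌊ell hL g.1 n⌋ : ℤ) : ℝ) * Real.log p := by
      gcongr; linarith
    have h6 : (g.1 * L n - ε / Real.log p * L n) * Real.log p
        = (g.1 * Real.log p - ε) * L n := by
      field_simp
    have h7 := min_le_left (g.1 * Real.log p) (-(g.2 * Real.log q))
    nlinarith
  · have h4 := (abs_le.1 h2).2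
    have h5 : ((⌊ell hL g.2 n⌋ : ℤ) : ℝ) * Real.log q
        ≤ (g.2 * L n + ε / Real.log q * L n) * Real.log q := by
      gcongr; linarith
    have h6 : (g.2 * L n + ε / Real.log q * L n) * Real.log q
        = (g.2 * Real.log q + ε) * L n := by
      field_simp
    have h7 := min_le_right (g.1 * Real.log p) (-(g.2 * Real.log q))
    push_cast
    nlinarith

lemma ev2_pq (f : Rg hL) (t : ℝ)
    (h : ∀ g, f.coeff g ≠ 0 → t ≤ min (g.1 * Real.log p) (-(g.2 * Real.log q))) :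
    ev2 hL hp hq f ∈ SS L (Rpq p q) t := by
  rw [ev2_sum]
  refine Finset.sum_induction _ (fun g => g ∈ SS L (Rpq p q) t)
    (fun _ _ => (filt_pq hL hp hq).add_mem) ((filt_pq hL hp hq).zero_mem t) fun g hg => ?_
  have h1 := (filt_pq hL hp hq).mul_mem ((filt_pq hL hp hq).alg_mem (f.coeff g))
    (ch2_pq hL hp hq g)
  rw [zero_add] at h1
  exact (filt_pq hL hp hq).anti (h g (Finsupp.mem_support_iff.1 hg)) h1

/-- the part of an element of the group ring with exponents in `S` -/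
noncomputable def part (f : Rg hL) (S : ℝ × ℝ → Prop) : Rg hL := by
  classical
  exact AddMonoidAlgebra.ofCoeff (f.coeff.filter S)

lemma part_pos (f : Rg hL) {S : ℝ × ℝ → Prop} {g : ℝ × ℝ} (h : S g) :
    (part hL f S).coeff g = f.coeff g := by
  classical
  unfold part
  rw [AddMonoidAlgebra.coeff_ofCoeff]
  exact Finsupp.filter_apply_pos S f.coeff h

lemma part_neg (f : Rg hL) {S : ℝ × ℝ → Prop} {g : ℝ × ℝ} (h : ¬ S g) :
    (part hL f S).coeff g = 0 := by
  classical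
  unfold part
  rw [AddMonoidAlgebra.coeff_ofCoeff]
  exact Finsupp.filter_apply_neg S f.coeff h

lemma expand {Z' J : Type} [Fintype Z'] [Fintype J] (P : Z' → Rg hL) (z' : Z' → GG) (zJ : J → GG)
    (δ : Rg hL) (co : Z' → J → Rg hL)
    (h : ∀ k, ev2 hL hp hq δ * z' k = ∑ j, ev2 hL hp hq (co k j) * zJ j) :
    ev2 hL hp hq δ * ∑ k, ev2 hL hp hq (P k) * z' k =
      ∑ j, ev2 hL hp hq (∑ k, P k * co k j) * zJ j := by
  rw [Finset.mul_sum]
  have e2 : ∀ k, ev2 hL hp hq δ * (ev2 hL hp hq (P k) * z' k) =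
      ∑ j, ev2 hL hp hq (P k * co k j) * zJ j := by
    intro k
    calc ev2 hL hp hq δ * (ev2 hL hp hq (P k) * z' k)
        = ev2 hL hp hq (P k) * (ev2 hL hp hq δ * z' k) := by ring
      _ = ev2 hL hp hq (P k) * ∑ j, ev2 hL hp hq (co k j) * zJ j := by rw [h k]
      _ = _ := by
        rw [Finset.mul_sum]
        refine Finset.sum_congr rfl fun j _ => ?_
        rw [map_mul, mul_assoc]
  rw [Finset.sum_congr rfl fun k _ => e2 k, Finset.sum_comm]
  refine Finset.sum_congr rfl fun j _ => ?_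
  rw [map_sum, Finset.sum_mul]

end

theorem merge (hsu : SUStmt) (hkp : KPStmt) : MergeStmt := by
  classical
  intro p q hp hq hpq L hL x hR1 hR2
  obtain ⟨Z1, _, z1, C1, hz1, hi1, hE1⟩ := hR1
  obtain ⟨Z2, _, z2, C2, hz2, hi2, hE2⟩ := hR2
  obtain ⟨z, hz⟩ : ∃ z : Z1 ⊕ Z2 → GG, z = Sum.elim z1 z2 := ⟨_, rfl⟩
  obtain ⟨C, hC⟩ : ∃ C : ℝ, C = max C1 C2 := ⟨_, rfl⟩
  have hzC : ∀ u j, z j ∈ Sv L p q u (-C) := by
    intro u j
    rw [hz, hC]
    rcases j with j | j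
    · exact cast_mem hL hp hq u (hz1 u j) (neg_le_neg (le_max_left _ _))
    · exact cast_mem hL hp hq u (hz2 u j) (neg_le_neg (le_max_right _ _))
  have hzi : ∀ j, Sint L p q (z j) := by
    intro j
    rw [hz]
    rcases j with j | j
    · exact hi1 j
    · exact hi2 j
  obtain ⟨J, δ, co, hδ, hJ, hco⟩ := basis hsu p q hp hq hpq L hL (Z1 ⊕ Z2) z
  obtain ⟨K0, hK0⟩ := hkp p q hp hq hpq L hL .I J inferInstance (fun j => z j) C hJ
    (fun u j => hzC u j) (fun j => hzi j)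
  have hinj : ∀ f : Rg hL, ev2 hL hp hq f = 0 → f = 0 := hsu p q hp hq hpq L hL
  obtain ⟨K1, hK1⟩ := hkp p q hp hq hpq L hL .I Unit inferInstance (fun _ => 1) 0
    (by
      intro A hA j
      rw [Fintype.sum_unique, mul_one] at hA
      exact hinj _ hA)
    (by
      intro u _
      rw [neg_zero]
      have := (filt_v hL hp hq u).alg_mem 1
      rwa [map_one] at this)
    (by
      intro _
      have := Sint.alg hL hp hq (1 : KK L hL)
      exact this)
  have hlp : 0 < Real.log p := Real.log_pos (by exact_mod_cast hp)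
  have hlq : 0 < Real.log q := Real.log_pos (by exact_mod_cast hq)
  -- the inverse of `ev2 δ`
  obtain ⟨t, ht⟩ : ∃ t : ℝ, (ev2 hL hp hq δ)⁻¹ ∈ Sv L p q .I (-t) := by
    have h1 : ∃ g, δ.coeff g ≠ 0 := by
      by_contra hcon
      push Not at hcon
      apply hδ
      apply AddMonoidAlgebra.coeff_injective
      ext x
      rw [hcon x]
      rfl
    obtain ⟨g0, hg0⟩ := h1
    refine ⟨lv p q .I g0 + K1 + 1, ?_⟩
    refine inv_inf hL _ _ ?_
    intro hmem
    have h2 := hK1 (fun _ => δ) (lv p q .I g0 + K1 + 1) (by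
      rw [Fintype.sum_unique, mul_one]
      exact hmem) () g0 hg0
    linarith
  have hδ' : ev2 hL hp hq δ ≠ 0 := fun h0 => hδ (hinj _ h0)
  -- bounds for the supports
  obtain ⟨C0, hC0, hC0'⟩ := exists_bd (δ.coeff.support ∪
    Finset.univ.biUnion (fun k : Z1 ⊕ Z2 => Finset.univ.biUnion fun j : J =>
      (co k j).coeff.support))
  have hCδ : ∀ τ, δ.coeff τ ≠ 0 → |τ.1| ≤ C0 ∧ |τ.2| ≤ C0 := fun τ hτ =>
    hC0' τ (Finset.mem_union_left _ (Finsupp.mem_support_iff.2 hτ))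
  have hCc : ∀ k j τ, (co k j).coeff τ ≠ 0 → |τ.1| ≤ C0 ∧ |τ.2| ≤ C0 := fun k j τ hτ =>
    hC0' τ (Finset.mem_union_right _ (Finset.mem_biUnion.2 ⟨k, Finset.mem_univ _,
      Finset.mem_biUnion.2 ⟨j, Finset.mem_univ _, Finsupp.mem_support_iff.2 hτ⟩⟩))
  obtain ⟨D, hD⟩ : ∃ D : ℝ, D = C0 * (Real.log p + Real.log q) := ⟨_, rfl⟩
  have hbox : ∀ g : ℝ × ℝ, |g.1| ≤ C0 → |g.2| ≤ C0 →
      -D ≤ lv p q .I g ∧ -D ≤ min (g.1 * Real.log p) (-(g.2 * Real.log q)) := by
    intro g h1 h2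
    have a1 := abs_le.1 h1
    have a2 := abs_le.1 h2
    have b1 := mul_le_mul_of_nonneg_right a1.1 hlp.le
    have b2 := mul_le_mul_of_nonneg_right a1.2 hlp.le
    have b3 := mul_le_mul_of_nonneg_right a2.1 hlq.le
    have b4 := mul_le_mul_of_nonneg_right a2.2 hlq.le
    have b5 : 0 ≤ C0 * Real.log p := by positivity
    have b6 : 0 ≤ C0 * Real.log q := by positivity
    rw [hD]
    refine ⟨?_, le_min ?_ ?_⟩
    · show -(C0 * (Real.log p + Real.log q)) ≤ g.2 * Real.log q - g.1 * Real.log p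
      linarith
    · linarith
    · linarith
  -- integrality of the basis
  choose tz htz using hzi
  obtain ⟨tm, htm⟩ : ∃ tm : ℝ, ∀ j : J, tm ≤ tz j := by
    refine ⟨-∑ j : J, |tz j|, fun j => ?_⟩
    have h1 := Finset.single_le_sum (f := fun j : J => |tz j|) (fun _ _ => abs_nonneg _)
      (Finset.mem_univ j)
    have h2 := neg_abs_le (tz j)
    linarith
  have hδI : ev2 hL hp hq δ ∈ Sv L p q .I (-D) :=
    ev2_mem hL hp hq hpq .I δ _ fun g hg => (hbox g (hCδ g hg).1 (hCδ g hg).2).1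
  have hδpq : ev2 hL hp hq δ ∈ SS L (Rpq p q) (-D) :=
    ev2_pq hL hp hq δ _ fun g hg => (hbox g (hCδ g hg).1 (hCδ g hg).2).2
  obtain ⟨d, hd⟩ := gm_surj (ev2 hL hp hq δ)
  obtain ⟨K', hK'⟩ : ∃ K' : ℝ, K' = D + K0 := ⟨_, rfl⟩
  refine glue hL x (2 * (|-D + tm| + |-D| + 1) + 2 + (D + 1)) (|K'| + |C| + |t| + 2) fun E => ?_
  obtain ⟨P1, s1, ax1, e1, a1⟩ := hE1 E
  obtain ⟨P2, s2, ax2, e2, a2⟩ := hE2 E
  obtain ⟨A1, hA1⟩ : ∃ A1 : J → Rg hL, A1 = fun j => ∑ k, P1 k * co (Sum.inl k) j := ⟨_, rfl⟩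
  obtain ⟨A2, hA2⟩ : ∃ A2 : J → Rg hL, A2 = fun j => ∑ k, P2 k * co (Sum.inr k) j := ⟨_, rfl⟩
  have hs1 : ev2 hL hp hq δ * gm s1 = ∑ j, ev2 hL hp hq (A1 j) * z j := by
    rw [e1, hA1]
    refine expand hL hp hq P1 z1 (fun j : J => z j) δ (fun k j => co (Sum.inl k) j) fun k => ?_
    have := hco (Sum.inl k)
    rw [hz] at this ⊢
    exact this
  have hs2 : ev2 hL hp hq δ * gm s2 = ∑ j, ev2 hL hp hq (A2 j) * z j := by
    rw [e2, hA2]
    refine expand hL hp hq P2 z2 (fun j : J => z j) δ (fun k j => co (Sum.inr k) j) fun k => ?_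
    have := hco (Sum.inr k)
    rw [hz] at this ⊢
    exact this
  have hdiff : gm s1 - gm s2 ∈ Sv L p q .I E := by
    rw [gm_sub]
    refine mem_SS.2 fun ε hε => ?_
    filter_upwards [a1, a2, two_le_exp hL hε] with n h1 h2 h3
    show |((s1 n - s2 n : ℚ) : ℝ)| ≤ Real.exp (-(E - ε) * L n)
    push_cast
    have e3 : (s1 n : ℝ) - s2 n = (x - s2 n) - (x - s1 n) := by ring
    rw [e3]
    refine (abs_sub _ _).trans ?_
    calc |x - (s2 n : ℝ)| + |x - (s1 n : ℝ)| ≤ 2 * Real.exp (-(E * L n)) := by linarith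
      _ ≤ Real.exp (ε * L n) * Real.exp (-(E * L n)) := by gcongr
      _ = Real.exp (-(E - ε) * L n) := by rw [← Real.exp_add]; ring_nf
  have hdiff2 : ∑ j, ev2 hL hp hq (A1 j - A2 j) * z j ∈ Sv L p q .I (-D + E) := by
    have h1 := (filt_v hL hp hq .I).mul_mem hδI hdiff
    rw [mul_sub, hs1, hs2, ← Finset.sum_sub_distrib] at h1
    refine (congrArg (· ∈ Sv L p q .I (-D + E)) (Finset.sum_congr rfl fun j _ => ?_)).mpr h1
    rw [map_sub, sub_mul]
  have hKP := hK0 (fun j => A1 j - A2 j) _ hdiff2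
  obtain ⟨S, hS⟩ : ∃ S : ℝ × ℝ → Prop, S = fun g => lv p q .I g < E - K' := ⟨_, rfl⟩
  obtain ⟨B, hB⟩ : ∃ B : J → Rg hL, B = fun j => part hL (A1 j) S := ⟨_, rfl⟩
  have hBbox : ∀ j g, (B j).coeff g ≠ 0 → |g.1| ≤ C0 ∧ |g.2| ≤ C0 := by
    intro j g hg
    have hBj : B j = part hL (A1 j) S := by rw [hB]
    by_cases hSg : S g
    · rw [hBj, part_pos hL _ hSg] at hg
      have h1 : (A1 j - A2 j).coeff g = 0 := by
        by_contra hne
        have h2 := hKP j g hne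
        rw [hS] at hSg
        have h3 : lv p q .I g < E - K' := hSg
        rw [hK'] at h3
        linarith
      have h2 : (A2 j).coeff g ≠ 0 := by
        rw [AddMonoidAlgebra.coeff_sub, Finsupp.sub_apply, sub_eq_zero] at h1
        rw [← h1]
        exact hg
      rw [hA1] at hg
      rw [hA2] at h2
      obtain ⟨k, -, hk⟩ := supp_sum _ _ _ hg
      obtain ⟨h', τ, hh', hτ, hgτ⟩ := supp_mul _ _ _ hk
      obtain ⟨k2, -, hk2⟩ := supp_sum _ _ _ h2
      obtain ⟨h2', τ2, hh2', hτ2, hgτ2⟩ := supp_mul _ _ _ hk2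
      have c1 := ax1 k h' hh'
      have c2 := ax2 k2 h2' hh2'
      constructor
      · rw [hgτ2, Prod.fst_add, c2.1, zero_add]
        exact (hCc _ _ _ hτ2).1
      · rw [hgτ, Prod.snd_add, c1.2, zero_add]
        exact (hCc _ _ _ hτ).2
    · rw [hBj, part_neg hL _ hSg] at hg
      exact absurd rfl hg
  obtain ⟨N, hN⟩ : ∃ N : GG, N = ∑ j, ev2 hL hp hq (B j) * z j := ⟨_, rfl⟩
  have hNpq : N ∈ SS L (Rpq p q) (-D + tm) := by
    rw [hN]
    refine Finset.sum_induction _ (fun g => g ∈ SS L (Rpq p q) (-D + tm))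
      (fun _ _ => (filt_pq hL hp hq).add_mem) ((filt_pq hL hp hq).zero_mem _) fun j _ => ?_
    exact (filt_pq hL hp hq).mul_mem
      (ev2_pq hL hp hq (B j) _ fun g hg => (hbox g (hBbox j g hg).1 (hBbox j g hg).2).2)
      ((filt_pq hL hp hq).anti (htm j) (htz j))
  have hrest : ev2 hL hp hq δ * gm s1 - N ∈ Sv L p q .I (E - K' - C) := by
    rw [hs1, hN, ← Finset.sum_sub_distrib]
    refine sum_mem hL hp hq .I _ _ _ fun j _ => ?_
    rw [← sub_mul, ← map_sub]
    have h1 := (filt_v hL hp hq .I).mul_mem (ev2_mem hL hp hq hpq .I (A1 j - B j) (E - K')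
      (fun g hg => by
        by_contra hcon
        push Not at hcon
        have hSg : S g := by rw [hS]; exact hcon
        apply hg
        rw [AddMonoidAlgebra.coeff_sub, Finsupp.sub_apply, hB, sub_eq_zero]
        exact (part_pos hL _ hSg).symm)) (hzC .I j)
    exact h1
  obtain ⟨ν, hν⟩ := gm_surj N
  have happ : gm s1 - gm (fun n => ν n / d n) ∈ Sv L p q .I (-t + (E - K' - C)) := by
    have h1 := (filt_v hL hp hq .I).mul_mem ht hrest
    have h2 : (ev2 hL hp hq δ)⁻¹ * (ev2 hL hp hq δ * gm s1 - N) =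
        gm s1 - gm (fun n => ν n / d n) := by
      rw [← gm_div, hν, hd]
      field_simp
    rw [h2] at h1
    exact h1
  refine ⟨fun n => ν n / d n, ?_, ?_⟩
  · rw [← hν] at hNpq
    rw [← hd] at hδpq hδI hδ'
    filter_upwards [mem_SS.1 hNpq 1 one_pos, mem_SS.1 hδpq 1 one_pos,
      (mem_SS.1 hδI 1 one_pos : ∀ᶠ n in (UU : Filter ℕ), Rinf (L n) 1 (-D) (d n)),
      gm_ne_zero.1 hδ', L_nonneg hL] with n h1 h2 h3 h4 h5
    refine den_le hp hq h5 h4 h1 h2 ?_
    have h3 : |((d n : ℚ) : ℝ)| ≤ Real.exp (-(-D - 1) * L n) := h3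
    refine h3.trans (le_of_eq ?_)
    congr 1
    ring
  · rw [gm_sub] at happ
    filter_upwards [(mem_SS.1 happ 1 one_pos :
      ∀ᶠ n in (UU : Filter ℕ), Rinf (L n) 1 (-t + (E - K' - C)) (s1 n - ν n / d n)), a1,
      two_le_exp hL one_pos, L_nonneg hL] with n h1 h2 h3 h4
    have h1 : |((s1 n - ν n / d n : ℚ) : ℝ)| ≤
        Real.exp (-(-t + (E - K' - C) - 1) * L n) := h1
    have e3 : x - ((ν n / d n : ℚ) : ℝ) = (x - s1 n) + ((s1 n - ν n / d n : ℚ) : ℝ) := by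
      push_cast
      ring
    rw [e3]
    refine (abs_add_le _ _).trans ?_
    have h5 : Real.exp (-(E * L n)) ≤
        Real.exp (-((E - (|K'| + |C| + |t| + 2) + 1) * L n)) := by
      apply Real.exp_le_exp.2
      have : 0 ≤ (|K'| + |C| + |t| + 1) * L n := by positivity
      linarith
    have h6 : Real.exp (-(-t + (E - K' - C) - 1) * L n) ≤
        Real.exp (-((E - (|K'| + |C| + |t| + 2) + 1) * L n)) := by
      apply Real.exp_le_exp.2
      have b1 : K' * L n ≤ |K'| * L n := mul_le_mul_of_nonneg_right (le_abs_self _) h4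
      have b2 : C * L n ≤ |C| * L n := mul_le_mul_of_nonneg_right (le_abs_self _) h4
      have b3 : t * L n ≤ |t| * L n := mul_le_mul_of_nonneg_right (le_abs_self _) h4
      linarith
    calc |x - (s1 n : ℝ)| + |((s1 n - ν n / d n : ℚ) : ℝ)|
        ≤ 2 * Real.exp (-((E - (|K'| + |C| + |t| + 2) + 1) * L n)) := by
          linarith [h2.trans h5, h1.trans h6]
      _ ≤ Real.exp (1 * L n) * Real.exp (-((E - (|K'| + |C| + |t| + 2) + 1) * L n)) := by
          gcongr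
      _ = Real.exp (-((E - (|K'| + |C| + |t| + 2)) * L n)) := by
          rw [← Real.exp_add]
          ring_nf

end Pool.Agent.TH932.S2.Merge
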