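import Mathlib
import Pool.Agent.TH932.S2.Stms2

set_option autoImplicit false

/-!
# Project S2, T3: linear complexity and rational approximations give periodic denominators
-/

namespace Pool.Agent.TH932.S2.Per

open Filter Topology Pool.Agent.TH932.Germs Pool.Agent.TH932.S2 Pool.Agent.TH932.Words

/-- the digit as an integer -/
lemma dig_nonneg (b : ℕ) (y : ℝ) : 0 ≤ ⌊(b : ℝ) * y⌋ - b * ⌊y⌋ := by
  rw [sub_nonneg, Int.le_floor]
  push_cast
  exact mul_le_mul_of_nonneg_left (Int.floor_le y) (Nat.cast_nonneg b)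

lemma dig_lt {b : ℕ} (hb : 2 ≤ b) (y : ℝ) : ⌊(b : ℝ) * y⌋ - b * ⌊y⌋ < b := by
  have hb0 : (0 : ℝ) < b := by
    have : 0 < b := by omega
    exact_mod_cast this
  have h1 : (⌊(b : ℝ) * y⌋ : ℝ) ≤ b * y := Int.floor_le _
  have h2 : y < ⌊y⌋ + 1 := Int.lt_floor_add_one y
  have h3 : (b : ℝ) * y < b * (⌊y⌋ + 1) := mul_lt_mul_of_pos_left h2 hb0
  have h4 : ((⌊(b : ℝ) * y⌋ - b * ⌊y⌋ : ℤ) : ℝ) < ((b : ℤ) : ℝ) := by
    push_cast
    linarith
  exact_mod_cast h4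

/-- equal digits modulo `b` are equal -/
lemma dig_eq {b : ℕ} (hb : 2 ≤ b) (y y' : ℝ)
    (h : ((⌊(b : ℝ) * y⌋ : ℤ) : ZMod b) = ((⌊(b : ℝ) * y'⌋ : ℤ) : ZMod b)) :
    ⌊(b : ℝ) * y⌋ - b * ⌊y⌋ = ⌊(b : ℝ) * y'⌋ - b * ⌊y'⌋ := by
  have h1 : (((⌊(b : ℝ) * y⌋ - b * ⌊y⌋ : ℤ)) : ZMod b) =
      ((⌊(b : ℝ) * y'⌋ - b * ⌊y'⌋ : ℤ) : ZMod b) := by
    push_cast
    rw [h]
    simp
  have h2 := (ZMod.intCast_eq_intCast_iff' _ _ _).1 h1
  rw [Int.emod_eq_of_lt (dig_nonneg b y) (dig_lt hb y),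
    Int.emod_eq_of_lt (dig_nonneg b y') (dig_lt hb y')] at h2
  exact h2

lemma block {b : ℕ} (hb : 2 ≤ b) (x : ℝ) {m a a' : ℕ} (h : Eqv (dw b x) m a a') :
    ∀ t ≤ m, ⌊(b : ℝ) ^ (a + t) * x⌋ - (b : ℤ) ^ t * ⌊(b : ℝ) ^ a * x⌋ =
      ⌊(b : ℝ) ^ (a' + t) * x⌋ - (b : ℤ) ^ t * ⌊(b : ℝ) ^ a' * x⌋ := by
  intro t
  induction t with
  | zero => intro _; simp
  | succ t ih =>
    intro ht
    have h1 := ih (by omega)
    have h2 := h t (by omega)
    unfold dw at h2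
    have e1 : (b : ℝ) ^ (a + t + 1) * x = b * ((b : ℝ) ^ (a + t) * x) := by ring
    have e2 : (b : ℝ) ^ (a' + t + 1) * x = b * ((b : ℝ) ^ (a' + t) * x) := by ring
    rw [e1, e2] at h2
    have h3 := dig_eq hb _ _ h2
    rw [← add_assoc, ← add_assoc, e1, e2, pow_succ]
    linear_combination h3 + (b : ℤ) * h1

lemma near_int {b : ℕ} (hb : 2 ≤ b) (x : ℝ) {m a a' : ℕ} (h : Eqv (dw b x) m a a') :
    |((b : ℝ) ^ a' - (b : ℝ) ^ a) * x - ((⌊(b : ℝ) ^ a' * x⌋ - ⌊(b : ℝ) ^ a * x⌋ : ℤ) : ℝ)| ≤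
      ((b : ℝ) ^ m)⁻¹ := by
  have hb0 : (0 : ℝ) < b := by
    have : 0 < b := by omega
    exact_mod_cast this
  have hbm : (0 : ℝ) < (b : ℝ) ^ m := pow_pos hb0 m
  have h1 := block hb x h m le_rfl
  have h1' : (⌊(b : ℝ) ^ (a + m) * x⌋ : ℝ) - (b : ℝ) ^ m * ⌊(b : ℝ) ^ a * x⌋ =
      ⌊(b : ℝ) ^ (a' + m) * x⌋ - (b : ℝ) ^ m * ⌊(b : ℝ) ^ a' * x⌋ := by exact_mod_cast h1
  have f1 : (⌊(b : ℝ) ^ (a + m) * x⌋ : ℝ) ≤ (b : ℝ) ^ (a + m) * x := Int.floor_le _
  have f2 : (b : ℝ) ^ (a + m) * x < ⌊(b : ℝ) ^ (a + m) * x⌋ + 1 := Int.lt_floor_add_one _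
  have g1 : (⌊(b : ℝ) ^ (a' + m) * x⌋ : ℝ) ≤ (b : ℝ) ^ (a' + m) * x := Int.floor_le _
  have g2 : (b : ℝ) ^ (a' + m) * x < ⌊(b : ℝ) ^ (a' + m) * x⌋ + 1 := Int.lt_floor_add_one _
  rw [← one_div, le_div_iff₀ hbm, ← abs_of_pos hbm, ← abs_mul, abs_le]
  push_cast
  rw [pow_add] at f1 f2 g1 g2
  rw [pow_add, pow_add] at h1'
  constructor <;> nlinarith

lemma den_dvd (r : ℚ) (k N : ℤ) (h : r * k = N) : (r.den : ℤ) ∣ k := by
  have h1 : (r.num : ℚ) * k = N * r.den := by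
    have h2 : (r.den : ℚ) ≠ 0 := by exact_mod_cast r.den_nz
    have h3 : r = r.num / r.den := (Rat.num_div_den r).symm
    rw [h3] at h
    field_simp at h
    linarith
  have h2 : r.num * k = N * r.den := by exact_mod_cast h1
  have h3 : (r.den : ℤ) ∣ r.num * k := ⟨N, by rw [h2]; ring⟩
  have h4 : IsCoprime (r.den : ℤ) r.num := by
    have := r.reduced
    rw [Int.isCoprime_iff_gcd_eq_one]
    rw [Int.gcd_comm]
    exact this
  exact h4.dvd_of_dvd_mul_left h3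

theorem per : PerStmt := by
  intro b hb L hL x C B hcx r hden happ
  have hb0 : (0 : ℝ) < b := by
    have : 0 < b := by omega
    exact_mod_cast this
  have : NeZero b := ⟨by omega⟩
  have hlb : 0 < Real.log b := Real.log_pos (by exact_mod_cast hb)
  set B0 : ℝ := max B 0 with hB0
  have hB0' : 0 ≤ B0 := le_max_right _ _
  set C' : ℝ := max C 0 with hC'
  have hC0 : 0 ≤ C' := le_max_right _ _
  obtain ⟨c, hc⟩ := exists_nat_ge ((B0 + 1) / Real.log b)
  rw [div_le_iff₀ hlb] at hc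
  have hc0 : 0 < c := by
    rcases Nat.eq_zero_or_pos c with h | h
    · rw [h, Nat.cast_zero, zero_mul] at hc
      linarith
    · exact h
  have hc0' : (0 : ℝ) < c := by exact_mod_cast hc0
  refine ⟨C' * (2 * c), ?_⟩
  filter_upwards [hden, happ (C' * (2 * c) * Real.log b + B0 + 1),
    ev_of_atTop (hL.eventually_ge_atTop 1)] with n h1 h2 h3
  have hL0 : 0 < L n := by linarith
  set m : ℕ := c * ⌈L n⌉₊ with hm
  have hceil : L n ≤ ⌈L n⌉₊ := Nat.le_ceil _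
  have hceil2 : (⌈L n⌉₊ : ℝ) < L n + 1 := Nat.ceil_lt_add_one hL0.le
  have hm1 : (c : ℝ) * L n ≤ m := by
    rw [hm]; push_cast
    exact mul_le_mul_of_nonneg_left hceil hc0'.le
  have hm2 : (m : ℝ) ≤ 2 * c * L n := by
    rw [hm]; push_cast
    nlinarith
  have hm0 : 1 ≤ m := by
    have : (0 : ℝ) < m := lt_of_lt_of_le (mul_pos hc0' hL0) hm1
    exact_mod_cast this
  obtain ⟨a, a', -, haa, ha', hE⟩ := exists_rep (dw b x) m 0
  have ha'' : (a' : ℝ) ≤ C' * (2 * c) * L n := by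
    have h4 : (a' : ℝ) ≤ cx (dw b x) m := by
      have : a' ≤ cx (dw b x) m := by omega
      exact_mod_cast this
    have h5 := hcx m hm0
    have h6 : C * m ≤ C' * m := mul_le_mul_of_nonneg_right (le_max_left _ _) (Nat.cast_nonneg m)
    have h7 : C' * m ≤ C' * (2 * c * L n) := mul_le_mul_of_nonneg_left hm2 hC0
    linarith
  refine ⟨a, a' - a, by omega, ?_, ?_⟩
  · have h4 : (a : ℝ) + ((a' - a : ℕ) : ℝ) = a' := by
      rw [Nat.cast_sub haa.le]; ring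
    rw [h4]
    exact ha''
  · have h4 := near_int hb x hE
    set N : ℤ := ⌊(b : ℝ) ^ a' * x⌋ - ⌊(b : ℝ) ^ a * x⌋ with hN
    -- the estimate for `r`
    have hbm : ((b : ℝ) ^ m)⁻¹ ≤ Real.exp (-((B0 + 1) * L n)) := by
      rw [← Real.rpow_natCast, Real.rpow_def_of_pos hb0, ← Real.exp_neg]
      apply Real.exp_le_exp.2
      have h5 : (B0 + 1) * L n ≤ (c * Real.log b) * L n :=
        mul_le_mul_of_nonneg_right hc hL0.le
      have h6 : Real.log b * (c * L n) ≤ Real.log b * m := mul_le_mul_of_nonneg_left hm1 hlb.le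
      linarith
    have hba : (b : ℝ) ^ a' ≤ Real.exp (C' * (2 * c) * Real.log b * L n) := by
      rw [← Real.rpow_natCast, Real.rpow_def_of_pos hb0]
      apply Real.exp_le_exp.2
      have h5 := mul_le_mul_of_nonneg_left ha'' hlb.le
      linarith
    have hb1 : (1 : ℝ) ≤ b := by
      have : 1 ≤ b := by omega
      exact_mod_cast this
    have hdiff : 0 ≤ (b : ℝ) ^ a' - (b : ℝ) ^ a := by
      have := pow_le_pow_right₀ hb1 haa.le
      linarith
    have hdiff2 : (b : ℝ) ^ a' - (b : ℝ) ^ a ≤ (b : ℝ) ^ a' := by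
      have := pow_pos hb0 a
      linarith
    have h5 : |((b : ℝ) ^ a' - (b : ℝ) ^ a) * r n - N| ≤ 2 * Real.exp (-((B0 + 1) * L n)) := by
      have e1 : ((b : ℝ) ^ a' - (b : ℝ) ^ a) * r n - N =
          (((b : ℝ) ^ a' - (b : ℝ) ^ a) * x - N) - ((b : ℝ) ^ a' - (b : ℝ) ^ a) * (x - r n) := by
        ring
      rw [e1]
      refine (abs_sub _ _).trans ?_
      rw [abs_mul, abs_of_nonneg hdiff]
      have h6 : ((b : ℝ) ^ a' - (b : ℝ) ^ a) * |x - r n| ≤ Real.exp (-((B0 + 1) * L n)) := by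
        calc ((b : ℝ) ^ a' - (b : ℝ) ^ a) * |x - r n|
            ≤ Real.exp (C' * (2 * c) * Real.log b * L n) *
              Real.exp (-((C' * (2 * c) * Real.log b + B0 + 1) * L n)) :=
              mul_le_mul (hdiff2.trans hba) h2 (abs_nonneg _) (Real.exp_pos _).le
          _ = Real.exp (-((B0 + 1) * L n)) := by
            rw [← Real.exp_add]
            ring_nf
      linarith [h4.trans hbm]
    have hdr : ((r n).den : ℝ) ≤ Real.exp (B0 * L n) :=
      h1.trans (Real.exp_le_exp.2 (mul_le_mul_of_nonneg_right (le_max_left _ _) hL0.le))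
    have hdp : (0 : ℝ) < (r n).den := by exact_mod_cast (r n).den_pos
    have h6 : |((r n).den : ℝ) * (((b : ℝ) ^ a' - (b : ℝ) ^ a) * r n - N)| < 1 := by
      rw [abs_mul, abs_of_pos hdp]
      calc ((r n).den : ℝ) * |((b : ℝ) ^ a' - (b : ℝ) ^ a) * r n - N|
          ≤ Real.exp (B0 * L n) * (2 * Real.exp (-((B0 + 1) * L n))) :=
            mul_le_mul hdr h5 (abs_nonneg _) (Real.exp_pos _).le
        _ = 2 * Real.exp (-(L n)) := by
          rw [mul_left_comm, ← Real.exp_add]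
          ring_nf
        _ < 1 := by
          have h7 : Real.exp (-(L n)) ≤ Real.exp (-1) := Real.exp_le_exp.2 (by linarith)
          have h8 : Real.exp (-1) < 1 / 2 := by
            rw [Real.exp_neg, inv_eq_one_div]
            have := Real.exp_one_gt_d9
            apply one_div_lt_one_div_of_lt (by norm_num)
            linarith
          linarith
    have h7 : ((r n).den : ℝ) * (((b : ℝ) ^ a' - (b : ℝ) ^ a) * r n - N) =
        ((((b : ℤ) ^ a' - (b : ℤ) ^ a) * (r n).num - (r n).den * N : ℤ) : ℝ) := by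
      have e1 : (r n : ℝ) * (r n).den = (r n).num := by
        have := Rat.mul_den_eq_num (r n)
        exact_mod_cast this
      push_cast
      linear_combination ((b : ℝ) ^ a' - (b : ℝ) ^ a) * e1
    rw [h7] at h6
    have h8 : |((b : ℤ) ^ a' - (b : ℤ) ^ a) * (r n).num - (r n).den * N| < 1 := by
      exact_mod_cast h6
    have h9 := Int.abs_lt_one_iff.1 h8
    have h10 : r n * (((b : ℤ) ^ a' - (b : ℤ) ^ a : ℤ) : ℚ) = (N : ℚ) := by
      have e1 : (r n : ℚ) * (r n).den = (r n).num := Rat.mul_den_eq_num (r n)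
      have e2 : (((b : ℤ) ^ a' - (b : ℤ) ^ a : ℤ) : ℚ) * (r n).num = (r n).den * N := by
        have : ((b : ℤ) ^ a' - (b : ℤ) ^ a) * (r n).num = (r n).den * N := by linarith
        exact_mod_cast this
      have e3 : ((r n).den : ℚ) ≠ 0 := by exact_mod_cast (r n).den_nz
      apply mul_right_cancel₀ e3
      linear_combination (((b : ℤ) ^ a' - (b : ℤ) ^ a : ℤ) : ℚ) * e1 + e2
    have h11 := den_dvd (r n) _ _ h10
    have h12 : ((b : ℤ) ^ a' - (b : ℤ) ^ a) = ((b ^ a * (b ^ (a' - a) - 1) : ℕ) : ℤ) := by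
      have h13 : 1 ≤ b ^ (a' - a) := Nat.one_le_pow _ _ (by omega)
      push_cast [Nat.cast_sub h13]
      rw [mul_sub, mul_one, ← pow_add]
      congr 2
      omega
    rw [h12] at h11
    exact_mod_cast h11

end Pool.Agent.TH932.S2.Per
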