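import Mathlib
import Pool.Agent.TH932.S2.Rc3
import Pool.Agent.TH932.S2.Stms2

set_option autoImplicit false

/-!
# A real number with digits of linear complexity in two coprime bases
-/

namespace Pool.Agent.TH932.S2.TB

open Filter Topology Pool.Agent.TH932.Abs Pool.Agent.TH932.Germs Pool.Agent.TH932.Chi
open Pool.Agent.TH932.Words Pool.Agent.TH932.Scale

/-- approximations with small denominators along a sequence -/
lemma approx_seq (hM : MergeStmt) (hP : PerStmt) (hG : GcdStmt) {p q : ℕ} (hp : 2 ≤ p)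
    (hq : 2 ≤ q) (hpq : IsCoprime (q : ℤ) (p : ℤ)) {x : ℝ} (hx : Irrational x) {C : ℝ}
    (h1 : ∀ m : ℕ, 1 ≤ m → (cx (dw p x) m : ℝ) ≤ C * m)
    (h2 : ∀ m : ℕ, 1 ≤ m → (cx (dw q x) m : ℝ) ≤ C * m)
    {N : ℕ → ℕ} (hN : Tendsto N atTop atTop) (hN2 : ∀ n, 2 ≤ N n) :
    ∃ r : ℕ → ℚ, ∀ᶠ n in (UU : Filter ℕ), ((r n).den : ℝ) ≤ Real.exp (1 / 4 * N n) ∧
      |x - r n| ≤ Real.exp (-(4 * N n)) := by
  have hL : Tendsto (fun n => (N n : ℝ)) atTop atTop := tendsto_natCast_atTop_atTop.comp hN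
  have r1 : Rep hL hp hq AxP x := rep_of hp hq hpq (Or.inl ⟨rfl, rfl⟩) hx hN hN2
    (fun n => h1 _ (by have := hN2 n; omega)) hL (fun t ht => ⟨by simpa using ht, rfl⟩)
  have r2 : Rep hL hp hq AxQ x := rep_of hp hq hpq (Or.inr ⟨rfl, rfl⟩) hx hN hN2
    (fun n => h2 _ (by have := hN2 n; omega)) hL (fun t ht => ⟨rfl, ht⟩)
  obtain ⟨B, r, hr1, hr2⟩ := hM p q hp hq hpq _ hL x r1 r2
  obtain ⟨C1, hC1⟩ := hP p hp _ hL x C B h1 r hr1 hr2
  obtain ⟨C2, hC2⟩ := hP q hq _ hL x C B h2 r hr1 hr2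
  have hex1 : ∀ n, ∃ i π : ℕ, (∃ i π : ℕ, 1 ≤ π ∧ (i : ℝ) + π ≤ C1 * N n ∧
      (r n).den ∣ p ^ i * (p ^ π - 1)) → (1 ≤ π ∧ (i : ℝ) + π ≤ C1 * N n ∧
      (r n).den ∣ p ^ i * (p ^ π - 1)) := by
    intro n
    by_cases h : ∃ i π : ℕ, 1 ≤ π ∧ (i : ℝ) + π ≤ C1 * N n ∧ (r n).den ∣ p ^ i * (p ^ π - 1)
    · obtain ⟨i, π, h'⟩ := h
      exact ⟨i, π, fun _ => h'⟩
    · exact ⟨0, 0, fun h' => absurd h' h⟩
  have hex2 : ∀ n, ∃ i π : ℕ, (∃ i π : ℕ, 1 ≤ π ∧ (i : ℝ) + π ≤ C2 * N n ∧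
      (r n).den ∣ q ^ i * (q ^ π - 1)) → (1 ≤ π ∧ (i : ℝ) + π ≤ C2 * N n ∧
      (r n).den ∣ q ^ i * (q ^ π - 1)) := by
    intro n
    by_cases h : ∃ i π : ℕ, 1 ≤ π ∧ (i : ℝ) + π ≤ C2 * N n ∧ (r n).den ∣ q ^ i * (q ^ π - 1)
    · obtain ⟨i, π, h'⟩ := h
      exact ⟨i, π, fun _ => h'⟩
    · exact ⟨0, 0, fun h' => absurd h' h⟩
  choose i π hi using hex1
  choose i' π' hi' using hex2
  have hNN : ∀ n, (0 : ℝ) ≤ N n := fun n => by positivity
  have k1 : ∀ᶠ n in (UU : Filter ℕ), 1 ≤ π n ∧ (i n : ℝ) + π n ≤ max C1 C2 * N n := by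
    filter_upwards [hC1] with n hn
    obtain ⟨g1, g2, _⟩ := hi n hn
    exact ⟨g1, g2.trans (mul_le_mul_of_nonneg_right (le_max_left _ _) (hNN n))⟩
  have k2 : ∀ᶠ n in (UU : Filter ℕ), 1 ≤ π' n ∧ (i' n : ℝ) + π' n ≤ max C1 C2 * N n := by
    filter_upwards [hC2] with n hn
    obtain ⟨g1, g2, _⟩ := hi' n hn
    exact ⟨g1, g2.trans (mul_le_mul_of_nonneg_right (le_max_right _ _) (hNN n))⟩
  have hneg := hG p q hp hq hpq _ hL (max C1 C2) (fun n => (r n).den) i π i' π' k1 k2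
    (by filter_upwards [hC1] with n hn using (hi n hn).2.2)
    (by filter_upwards [hC2] with n hn using (hi' n hn).2.2)
  refine ⟨r, ?_⟩
  filter_upwards [hneg (1 / 4) (by norm_num), hr2 4] with n g1 g2
  refine ⟨?_, g2⟩
  simpa using g1

/-- at all large scales -/
lemma approx_all (hM : MergeStmt) (hP : PerStmt) (hG : GcdStmt) {p q : ℕ} (hp : 2 ≤ p)
    (hq : 2 ≤ q) (hpq : IsCoprime (q : ℤ) (p : ℤ)) {x : ℝ} (hx : Irrational x) {C : ℝ}
    (h1 : ∀ m : ℕ, 1 ≤ m → (cx (dw p x) m : ℝ) ≤ C * m)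
    (h2 : ∀ m : ℕ, 1 ≤ m → (cx (dw q x) m : ℝ) ≤ C * m) :
    ∃ N0 : ℕ, ∀ N : ℕ, N0 ≤ N → ∃ r : ℚ, (r.den : ℝ) ≤ Real.exp (1 / 4 * N) ∧
      |x - r| ≤ Real.exp (-(4 * N)) := by
  by_contra hcon
  push Not at hcon
  choose N hN1 hN2 using fun n : ℕ => hcon (max n 2)
  have hT : Tendsto N atTop atTop :=
    tendsto_atTop_mono (fun n => (le_max_left n 2).trans (hN1 n)) tendsto_id
  obtain ⟨r, hr⟩ := approx_seq hM hP hG hp hq hpq hx h1 h2 hT
    (fun n => (le_max_right n 2).trans (hN1 n))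
  obtain ⟨n, g1, g2⟩ := hr.exists
  exact absurd g2 (not_le.2 (hN2 n (r n) g1))

/-- two different rational numbers are not too close -/
lemma rat_gap {r s : ℚ} (h : r ≠ s) : 1 / ((r.den : ℝ) * s.den) ≤ |(r : ℝ) - s| := by
  have hr : (0 : ℝ) < r.den := by exact_mod_cast r.den_pos
  have hs : (0 : ℝ) < s.den := by exact_mod_cast s.den_pos
  have e1 : (r : ℝ) = r.num / r.den := Rat.cast_def r
  have e2 : (s : ℝ) = s.num / s.den := Rat.cast_def s
  have e3 : (r : ℝ) - s = ((r.num * s.den - s.num * r.den : ℤ) : ℝ) / (r.den * s.den) := by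
    push_cast
    rw [e1, e2]
    field_simp
  have h4 : (r.num * s.den - s.num * r.den : ℤ) ≠ 0 := by
    intro h0
    rw [h0] at e3
    apply h
    have : (r : ℝ) = s := by
      rw [Int.cast_zero, zero_div] at e3
      linarith
    exact_mod_cast this
  rw [e3, abs_div, abs_of_pos (mul_pos hr hs)]
  have h5 : (1 : ℝ) ≤ |((r.num * s.den - s.num * r.den : ℤ) : ℝ)| := by
    exact_mod_cast Int.one_le_abs h4
  gcongr

/-- **A real number with digits of linear complexity in two coprime bases is rational.** -/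
theorem rational (hM : MergeStmt) (hP : PerStmt) (hG : GcdStmt) {p q : ℕ} (hp : 2 ≤ p)
    (hq : 2 ≤ q) (hpq : IsCoprime (q : ℤ) (p : ℤ)) {x : ℝ} {C : ℝ}
    (h1 : ∀ m : ℕ, 1 ≤ m → (cx (dw p x) m : ℝ) ≤ C * m)
    (h2 : ∀ m : ℕ, 1 ≤ m → (cx (dw q x) m : ℝ) ≤ C * m) : ¬ Irrational x := by
  intro hx
  obtain ⟨N0, h⟩ := approx_all hM hP hG hp hq hpq hx h1 h2
  have h' : ∀ N : ℕ, ∃ r : ℚ, N0 + 1 ≤ N → (r.den : ℝ) ≤ Real.exp (1 / 4 * N) ∧
      |x - r| ≤ Real.exp (-(4 * N)) := by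
    intro N
    by_cases hN : N0 + 1 ≤ N
    · obtain ⟨r, hr⟩ := h N (by omega)
      exact ⟨r, fun _ => hr⟩
    · exact ⟨0, fun h => absurd h hN⟩
  choose r hr using h'
  have hstep : ∀ N, N0 + 1 ≤ N → r (N + 1) = r N := by
    intro N hN
    by_contra hne
    obtain ⟨a1, a2⟩ := hr N hN
    obtain ⟨b1, b2⟩ := hr (N + 1) (by omega)
    have g1 := rat_gap hne
    have g2 : |(r (N + 1) : ℝ) - r N| ≤ Real.exp (-(4 * N)) + Real.exp (-(4 * N)) := by
      have e : (r (N + 1) : ℝ) - r N = (x - r N) - (x - r (N + 1)) := by ring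
      rw [e]
      refine (abs_sub _ _).trans ?_
      have : Real.exp (-(4 * ((N + 1 : ℕ) : ℝ))) ≤ Real.exp (-(4 * N)) := by
        apply Real.exp_le_exp.2
        push_cast
        linarith
      linarith
    have hd1 : (0 : ℝ) < (r (N + 1)).den := by exact_mod_cast (r (N + 1)).den_pos
    have hd2 : (0 : ℝ) < (r N).den := by exact_mod_cast (r N).den_pos
    have g3 : ((r (N + 1)).den : ℝ) * (r N).den ≤ Real.exp (1 / 2 * N + 1 / 4) := by
      calc ((r (N + 1)).den : ℝ) * (r N).den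
          ≤ Real.exp (1 / 4 * ((N + 1 : ℕ) : ℝ)) * Real.exp (1 / 4 * N) := by gcongr
        _ = Real.exp (1 / 2 * N + 1 / 4) := by
            rw [← Real.exp_add]; push_cast; ring_nf
    have g4 : Real.exp (-(1 / 2 * N + 1 / 4)) ≤ 1 / (((r (N + 1)).den : ℝ) * (r N).den) := by
      rw [Real.exp_neg, ← one_div]
      exact one_div_le_one_div_of_le (mul_pos hd1 hd2) g3
    have g5 : Real.exp (-(4 * (N : ℝ))) + Real.exp (-(4 * N)) ≤ Real.exp (1 + -(4 * N)) := by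
      have e2 : (2 : ℝ) ≤ Real.exp 1 := by
        have := Real.add_one_le_exp (1 : ℝ)
        linarith
      rw [Real.exp_add]
      have := Real.exp_pos (-(4 * (N : ℝ)))
      nlinarith
    have g6 : Real.exp (1 + -(4 * (N : ℝ))) < Real.exp (-(1 / 2 * N + 1 / 4)) := by
      apply Real.exp_lt_exp.2
      have : (1 : ℝ) ≤ N := by exact_mod_cast (by omega : 1 ≤ N)
      linarith
    linarith
  have hconst : ∀ k, r (N0 + 1 + k) = r (N0 + 1) := by
    intro k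
    induction k with
    | zero => rfl
    | succ k ih => rw [← add_assoc, hstep _ (by omega), ih]
  have hlim : Tendsto (fun k : ℕ => Real.exp (-(4 * ((N0 + 1 + k : ℕ) : ℝ)))) atTop (𝓝 0) := by
    apply Real.tendsto_exp_neg_atTop_nhds_zero.comp
    apply Tendsto.const_mul_atTop (by norm_num)
    exact tendsto_natCast_atTop_atTop.comp (tendsto_atTop_mono (fun k => by
      show k ≤ N0 + 1 + k; omega) tendsto_id)
  have hle : |x - r (N0 + 1)| ≤ 0 := by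
    refine ge_of_tendsto' hlim fun k => ?_
    have := (hr (N0 + 1 + k) (by omega)).2
    rw [hconst k] at this
    exact this
  have hxe : x = r (N0 + 1) := by
    have := abs_nonpos_iff.1 hle
    linarith
  exact hx ⟨r (N0 + 1), hxe.symm⟩

end Pool.Agent.TH932.S2.TB
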