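import Mathlib
import Pool.Agent.TH932.S2.All
import Pool.Agent.TH932.S2.Merge
import Pool.Agent.TH932.S2.Per
import Pool.Agent.TH932.S2.Gcd
import Pool.Agent.TH932.S2.TB

/-!
# Project S2, part two: the statements without hypotheses
-/

set_option autoImplicit false

namespace Pool.Agent.TH932.S2

open Pool.Agent.TH932.Words

/-- **A real number with digits of linear complexity in two coprime bases is rational.** -/
theorem two_bases {p q : ℕ} (hp : 2 ≤ p) (hq : 2 ≤ q) (hpq : IsCoprime (q : ℤ) (p : ℤ)) {x C : ℝ}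
    (h1 : ∀ m : ℕ, 1 ≤ m → (cx (dw p x) m : ℝ) ≤ C * m)
    (h2 : ∀ m : ℕ, 1 ≤ m → (cx (dw q x) m : ℝ) ≤ C * m) : ¬ Irrational x :=
  TB.rational (Merge.merge su_thm kp_thm) Per.per (Gcd.gcd_negl mov_thm su_thm) hp hq hpq h1 h2

end Pool.Agent.TH932.S2
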